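import Mathlib

set_option autoImplicit false

namespace Pool.Agent.Helper482.Stk

open Real MeasureTheory intervalIntegral

noncomputable section

/-- boundary weight of the ellipse with half axes c cosh x0, c sinh x0 -/
def hh (c x0 : ℝ) (t : ℝ) : ℝ := Real.sqrt (c ^ 2 * (Real.sinh x0 ^ 2 + Real.sin t ^ 2))

/-- arclength type phase -/
def ph (c x0 : ℝ) (t : ℝ) : ℝ := ∫ s in (0:ℝ)..t, hh c x0 s

/-- complex Fourier coefficient over a period -/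
def fc (f : ℝ → ℂ) (n : ℤ) : ℂ :=
  (1 / (2 * (π : ℂ))) * ∫ t in (-π)..π, f t * Complex.exp (-(Complex.I * n * t))

/-- Fourier coefficient of a real function -/
def rc (f : ℝ → ℝ) (n : ℤ) : ℂ := fc (fun t => ((f t : ℝ) : ℂ)) n

/-- normalised inner product over a period -/
def ip (f g : ℝ → ℝ) : ℝ := (1 / (2 * π)) * ∫ t in (-π)..π, f t * g t

/-- admissible multiplier -/
def TauOK (x0 K : ℝ) (τ : ℤ → ℝ) : Prop :=
  0 < K ∧ τ 0 = 0 ∧ (∀ n, τ (-n) = - τ n) ∧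
    ∀ n : ℤ, 1 ≤ n → 0 < τ n ∧ |τ n - 1| ≤ K * Real.exp (-(2 * x0 * n)) ∧
      |(τ n)⁻¹ - 1| ≤ K * Real.exp (-(2 * x0 * n))

/-- complexified weight -/
def Hc (c x0 : ℝ) (z : ℂ) : ℂ :=
  (c : ℂ) * (((Real.sinh x0 : ℝ) : ℂ) ^ 2 + Complex.sin z ^ 2) ^ (1 / 2 : ℂ)

/-- depth of the focus -/
def S1 (c x0 : ℝ) : ℝ := ∫ s in (0:ℝ)..x0, c * Real.sqrt (Real.sinh x0 ^ 2 - Real.sinh s ^ 2)

/-- complexified phase at height y -/
def PhiG (c x0 y x : ℝ) : ℂ :=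
  (∫ t in (0:ℝ)..x, Hc c x0 (t + Complex.I * y)) +
    Complex.I * ∫ r in (0:ℝ)..y, Hc c x0 (Complex.I * r)

/-- the wave exp(i s Phi) at height y -/
def FF (c x0 s y x : ℝ) : ℂ := Complex.exp (Complex.I * s * PhiG c x0 y x)

/-- the wave on the focal segment -/
def Th (c x0 s x : ℝ) : ℂ := FF c x0 s x0 x

/-- Fourier coefficients of the boundary wave -/
def an (c x0 s : ℝ) (n : ℤ) : ℝ :=
  (1 / (2 * π)) * ∫ t in (-π)..π, Real.cos (s * ph c x0 t - n * t)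

def gn (c x0 s : ℝ) (n : ℤ) : ℝ := Real.exp (-(n * x0)) * an c x0 s n

def Dn (c x0 s : ℝ) (n : ℤ) : ℝ := gn c x0 s (-n) - gn c x0 s n

/-- leading amplitude of the trial defect -/
def mu (c x0 s : ℝ) : ℝ := (4 / π) * ∫ x in (0:ℝ)..(π / 2), x * (Th c x0 s x).im

/-- leading cosine profile -/
def Wc (x0 : ℝ) (k : ℤ) (y t : ℝ) : ℝ :=
  ∑' n : ℤ, if Even (n + k) then n * Real.sinh (n * y) / Real.cosh (n * x0) * Real.cos (n * t)
    else 0

/-- leading sine profile -/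
def Ws (x0 : ℝ) (k : ℤ) (y t : ℝ) : ℝ :=
  ∑' n : ℤ, if Even (n + k) then n * Real.sinh (n * y) / Real.sinh (n * x0) * Real.sin (n * t)
    else 0

/-- solution of the reduced boundary problem for the multiplier τ -/
def Sol (c x0 : ℝ) (τ : ℤ → ℝ) (σ : ℝ) (f f' G : ℝ → ℝ) : Prop :=
  Continuous f' ∧ Function.Periodic f (2 * π) ∧ Function.Periodic G (2 * π) ∧
    (∀ t, HasDerivAt f (f' t) t) ∧ (∀ t, HasDerivAt G (σ * hh c x0 t * f t) t) ∧
    ∀ n : ℤ, rc G n = -Complex.I * (τ n : ℂ) * rc f n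

end

end Pool.Agent.Helper482.Stk
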