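import Pool.Agent.Helper482.Stk.Defs

set_option autoImplicit false

namespace Pool.Agent.Helper482.Stk.M_d1

open Pool.Agent.Helper482.Stk
open Real MeasureTheory intervalIntegral

noncomputable section

theorem lin833 (f : ℝ × ℝ → ℝ) (x : ℝ × ℝ) (p q : ℝ) :
    fderiv ℝ f x (p, q) = fderiv ℝ f x ((1 : ℝ), (0 : ℝ)) * p + fderiv ℝ f x ((0 : ℝ), (1 : ℝ)) * q := by
  have h : ((p, q) : ℝ × ℝ) = p • ((1 : ℝ), (0 : ℝ)) + q • ((0 : ℝ), (1 : ℝ)) := by
    ext <;> simp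
  conv_lhs => rw [h]
  rw [map_add, map_smul, map_smul, smul_eq_mul, smul_eq_mul]
  ring

theorem chain833 {f : ℝ × ℝ → ℝ} (hf : ContDiff ℝ 1 f) {X Y : ℝ → ℝ} {X' Y' s : ℝ}
    (hX : HasDerivAt X X' s) (hY : HasDerivAt Y Y' s) :
    HasDerivAt (fun s => f (X s, Y s)) (fderiv ℝ f (X s, Y s) ((1 : ℝ), (0 : ℝ)) * X' +
      fderiv ℝ f (X s, Y s) ((0 : ℝ), (1 : ℝ)) * Y') s := by
  have h1 : HasFDerivAt f (fderiv ℝ f (X s, Y s)) (X s, Y s) :=
    (hf.differentiable (by norm_num)).differentiableAt.hasFDerivAt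
  have h2 := h1.comp_hasDerivAt s (hX.prodMk hY)
  rw [lin833] at h2
  exact h2

theorem ell833 (c x0 ξ t : ℝ) (hc : 0 < c) (hx : 0 < x0) (hξ : |ξ| < x0) :
    (c * Real.cosh ξ * Real.cos t / (c * Real.cosh x0)) ^ 2 +
      (c * Real.sinh ξ * Real.sin t / (c * Real.sinh x0)) ^ 2 < 1 := by
  have hch : 0 < Real.cosh x0 := Real.cosh_pos _
  have hsh : 0 < Real.sinh x0 := Real.sinh_pos_iff.mpr hx
  have e1 : (c * Real.cosh ξ * Real.cos t / (c * Real.cosh x0)) ^ 2 =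
      (Real.cosh ξ / Real.cosh x0) ^ 2 * Real.cos t ^ 2 := by
    field_simp
  have e2 : (c * Real.sinh ξ * Real.sin t / (c * Real.sinh x0)) ^ 2 =
      (Real.sinh ξ / Real.sinh x0) ^ 2 * Real.sin t ^ 2 := by
    field_simp
  have h1 : (Real.cosh ξ / Real.cosh x0) ^ 2 < 1 := by
    rw [div_pow, div_lt_one (by positivity)]
    have : Real.cosh ξ < Real.cosh x0 := by
      rw [Real.cosh_lt_cosh, abs_of_pos hx]
      exact hξ
    exact pow_lt_pow_left₀ this (Real.cosh_pos _).le (by norm_num)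
  have h2 : (Real.sinh ξ / Real.sinh x0) ^ 2 < 1 := by
    rw [div_pow, div_lt_one (by positivity), ← sq_abs (Real.sinh ξ), Real.abs_sinh]
    have : Real.sinh |ξ| < Real.sinh x0 := Real.sinh_lt_sinh.mpr hξ
    exact pow_lt_pow_left₀ this (Real.sinh_nonneg_iff.mpr (abs_nonneg _)) (by norm_num)
  rw [e1, e2]
  have h3 := Real.sin_sq_add_cos_sq t
  rcases eq_or_ne (Real.sin t) 0 with h4 | h4
  · rw [h4] at h3 ⊢
    nlinarith
  · have h5 : 0 < Real.sin t ^ 2 := by positivity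
    nlinarith [sq_nonneg (Real.cos t)]

theorem pde_U (a b c x0 : ℝ) (hc : 0 < c) (hx : 0 < x0) (ha : a = c * Real.cosh x0)
    (hb : b = c * Real.sinh x0) (u : ℝ × ℝ → ℝ) (hu : ContDiff ℝ 2 u)
    (hlap : ∀ x : ℝ × ℝ, (x.1 / a) ^ 2 + (x.2 / b) ^ 2 < 1 →
      fderiv ℝ (fun y => fderiv ℝ u y ((1 : ℝ), (0 : ℝ))) x ((1 : ℝ), (0 : ℝ)) +
        fderiv ℝ (fun y => fderiv ℝ u y ((0 : ℝ), (1 : ℝ))) x ((0 : ℝ), (1 : ℝ)) = 0) :
    ∃ Ux Uxx Ut Utt : ℝ → ℝ → ℝ,
      Continuous (fun p : ℝ × ℝ => Ux p.1 p.2) ∧ Continuous (fun p : ℝ × ℝ => Uxx p.1 p.2) ∧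
      Continuous (fun p : ℝ × ℝ => Ut p.1 p.2) ∧ Continuous (fun p : ℝ × ℝ => Utt p.1 p.2) ∧
      (∀ ξ t : ℝ, HasDerivAt (fun ξ : ℝ =>
        u (c * Real.cosh ξ * Real.cos t, c * Real.sinh ξ * Real.sin t)) (Ux ξ t) ξ) ∧
      (∀ ξ t : ℝ, HasDerivAt (fun ξ : ℝ => Ux ξ t) (Uxx ξ t) ξ) ∧
      (∀ ξ t : ℝ, HasDerivAt (fun t : ℝ =>
        u (c * Real.cosh ξ * Real.cos t, c * Real.sinh ξ * Real.sin t)) (Ut ξ t) t) ∧
      (∀ ξ t : ℝ, HasDerivAt (fun t : ℝ => Ut ξ t) (Utt ξ t) t) ∧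
      (∀ ξ t : ℝ, |ξ| < x0 → Uxx ξ t + Utt ξ t = 0) ∧
      (∀ ξ t : ℝ, Ux ξ t = fderiv ℝ u (c * Real.cosh ξ * Real.cos t, c * Real.sinh ξ * Real.sin t)
        (c * Real.sinh ξ * Real.cos t, c * Real.cosh ξ * Real.sin t)) := by
  have hu1 : ContDiff ℝ 1 (fun y => fderiv ℝ u y ((1 : ℝ), (0 : ℝ))) :=
    (hu.fderiv_right (m := 1) (by norm_num)).clm_apply contDiff_const
  have hu2 : ContDiff ℝ 1 (fun y => fderiv ℝ u y ((0 : ℝ), (1 : ℝ))) :=
    (hu.fderiv_right (m := 1) (by norm_num)).clm_apply contDiff_const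
  have huu : ContDiff ℝ 1 u := hu.of_le (by norm_num)
  obtain ⟨u1, e1⟩ : ∃ u1, u1 = fun y => fderiv ℝ u y ((1 : ℝ), (0 : ℝ)) := ⟨_, rfl⟩
  obtain ⟨u2, e2⟩ : ∃ u2, u2 = fun y => fderiv ℝ u y ((0 : ℝ), (1 : ℝ)) := ⟨_, rfl⟩
  have e1' : ∀ y, fderiv ℝ u y ((1 : ℝ), (0 : ℝ)) = u1 y := fun y => by rw [e1]
  have e2' : ∀ y, fderiv ℝ u y ((0 : ℝ), (1 : ℝ)) = u2 y := fun y => by rw [e2]
  rw [← e1] at hu1
  rw [← e2] at hu2
  rw [← e1, ← e2] at hlap
  obtain ⟨u11, e11⟩ : ∃ u11, u11 = fun y => fderiv ℝ u1 y ((1 : ℝ), (0 : ℝ)) := ⟨_, rfl⟩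
  obtain ⟨u12, e12⟩ : ∃ u12, u12 = fun y => fderiv ℝ u1 y ((0 : ℝ), (1 : ℝ)) := ⟨_, rfl⟩
  obtain ⟨u21, e21⟩ : ∃ u21, u21 = fun y => fderiv ℝ u2 y ((1 : ℝ), (0 : ℝ)) := ⟨_, rfl⟩
  obtain ⟨u22, e22⟩ : ∃ u22, u22 = fun y => fderiv ℝ u2 y ((0 : ℝ), (1 : ℝ)) := ⟨_, rfl⟩
  have c1 : Continuous u1 := hu1.continuous
  have c2 : Continuous u2 := hu2.continuous
  have c11 : Continuous u11 := by
    rw [e11]; exact (hu1.continuous_fderiv (by norm_num)).clm_apply continuous_const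
  have c12 : Continuous u12 := by
    rw [e12]; exact (hu1.continuous_fderiv (by norm_num)).clm_apply continuous_const
  have c21 : Continuous u21 := by
    rw [e21]; exact (hu2.continuous_fderiv (by norm_num)).clm_apply continuous_const
  have c22 : Continuous u22 := by
    rw [e22]; exact (hu2.continuous_fderiv (by norm_num)).clm_apply continuous_const
  -- derivatives of the coordinates
  have dXx : ∀ ξ t : ℝ, HasDerivAt (fun ξ : ℝ => c * Real.cosh ξ * Real.cos t) (c * Real.sinh ξ * Real.cos t) ξ := by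
    intro ξ t
    exact ((Real.hasDerivAt_cosh ξ).const_mul c).mul_const _
  have dYx : ∀ ξ t : ℝ, HasDerivAt (fun ξ : ℝ => c * Real.sinh ξ * Real.sin t) (c * Real.cosh ξ * Real.sin t) ξ := by
    intro ξ t
    exact ((Real.hasDerivAt_sinh ξ).const_mul c).mul_const _
  have dXt : ∀ ξ t : ℝ, HasDerivAt (fun t : ℝ => c * Real.cosh ξ * Real.cos t) (-(c * Real.cosh ξ * Real.sin t)) t := by
    intro ξ t
    have := (Real.hasDerivAt_cos t).const_mul (c * Real.cosh ξ)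
    rw [mul_neg] at this
    exact this
  have dYt : ∀ ξ t : ℝ, HasDerivAt (fun t : ℝ => c * Real.sinh ξ * Real.sin t) (c * Real.sinh ξ * Real.cos t) t := by
    intro ξ t
    exact (Real.hasDerivAt_sin t).const_mul (c * Real.sinh ξ)
  have dAx : ∀ ξ t : ℝ, HasDerivAt (fun ξ : ℝ => c * Real.sinh ξ * Real.cos t) (c * Real.cosh ξ * Real.cos t) ξ := by
    intro ξ t
    exact ((Real.hasDerivAt_sinh ξ).const_mul c).mul_const _
  have dBx : ∀ ξ t : ℝ, HasDerivAt (fun ξ : ℝ => c * Real.cosh ξ * Real.sin t) (c * Real.sinh ξ * Real.sin t) ξ := by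
    intro ξ t
    exact ((Real.hasDerivAt_cosh ξ).const_mul c).mul_const _
  have dAt : ∀ ξ t : ℝ, HasDerivAt (fun t : ℝ => c * Real.sinh ξ * Real.cos t) (-(c * Real.sinh ξ * Real.sin t)) t := by
    intro ξ t
    have := (Real.hasDerivAt_cos t).const_mul (c * Real.sinh ξ)
    rw [mul_neg] at this
    exact this
  have dBt : ∀ ξ t : ℝ, HasDerivAt (fun t : ℝ => -(c * Real.cosh ξ * Real.sin t)) (-(c * Real.cosh ξ * Real.cos t)) t := by
    intro ξ t
    exact ((Real.hasDerivAt_sin t).const_mul (c * Real.cosh ξ)).neg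
  refine ⟨fun ξ t => u1 (c * Real.cosh ξ * Real.cos t, c * Real.sinh ξ * Real.sin t) * (c * Real.sinh ξ * Real.cos t) +
      u2 (c * Real.cosh ξ * Real.cos t, c * Real.sinh ξ * Real.sin t) * (c * Real.cosh ξ * Real.sin t),
    fun ξ t => ((u11 (c * Real.cosh ξ * Real.cos t, c * Real.sinh ξ * Real.sin t) * (c * Real.sinh ξ * Real.cos t) +
        u12 (c * Real.cosh ξ * Real.cos t, c * Real.sinh ξ * Real.sin t) * (c * Real.cosh ξ * Real.sin t)) *
          (c * Real.sinh ξ * Real.cos t) +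
        u1 (c * Real.cosh ξ * Real.cos t, c * Real.sinh ξ * Real.sin t) * (c * Real.cosh ξ * Real.cos t)) +
      ((u21 (c * Real.cosh ξ * Real.cos t, c * Real.sinh ξ * Real.sin t) * (c * Real.sinh ξ * Real.cos t) +
        u22 (c * Real.cosh ξ * Real.cos t, c * Real.sinh ξ * Real.sin t) * (c * Real.cosh ξ * Real.sin t)) *
          (c * Real.cosh ξ * Real.sin t) +
        u2 (c * Real.cosh ξ * Real.cos t, c * Real.sinh ξ * Real.sin t) * (c * Real.sinh ξ * Real.sin t)),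
    fun ξ t => u1 (c * Real.cosh ξ * Real.cos t, c * Real.sinh ξ * Real.sin t) * (-(c * Real.cosh ξ * Real.sin t)) +
      u2 (c * Real.cosh ξ * Real.cos t, c * Real.sinh ξ * Real.sin t) * (c * Real.sinh ξ * Real.cos t),
    fun ξ t => ((u11 (c * Real.cosh ξ * Real.cos t, c * Real.sinh ξ * Real.sin t) * (-(c * Real.cosh ξ * Real.sin t)) +
        u12 (c * Real.cosh ξ * Real.cos t, c * Real.sinh ξ * Real.sin t) * (c * Real.sinh ξ * Real.cos t)) *
          (-(c * Real.cosh ξ * Real.sin t)) +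
        u1 (c * Real.cosh ξ * Real.cos t, c * Real.sinh ξ * Real.sin t) * (-(c * Real.cosh ξ * Real.cos t))) +
      ((u21 (c * Real.cosh ξ * Real.cos t, c * Real.sinh ξ * Real.sin t) * (-(c * Real.cosh ξ * Real.sin t)) +
        u22 (c * Real.cosh ξ * Real.cos t, c * Real.sinh ξ * Real.sin t) * (c * Real.sinh ξ * Real.cos t)) *
          (c * Real.sinh ξ * Real.cos t) +
        u2 (c * Real.cosh ξ * Real.cos t, c * Real.sinh ξ * Real.sin t) * (-(c * Real.sinh ξ * Real.sin t))),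
    ?_, ?_, ?_, ?_, ?_, ?_, ?_, ?_, ?_, ?_⟩
  · have := Real.continuous_cosh
    have := Real.continuous_sinh
    fun_prop
  · have := Real.continuous_cosh
    have := Real.continuous_sinh
    fun_prop
  · have := Real.continuous_cosh
    have := Real.continuous_sinh
    fun_prop
  · have := Real.continuous_cosh
    have := Real.continuous_sinh
    fun_prop
  · intro ξ t
    have h := chain833 huu (dXx ξ t) (dYx ξ t)
    rw [e1', e2'] at h
    exact h
  · intro ξ t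
    have h1 := chain833 hu1 (dXx ξ t) (dYx ξ t)
    have h2 := chain833 hu2 (dXx ξ t) (dYx ξ t)
    have h := (h1.mul (dAx ξ t)).add (h2.mul (dBx ξ t))
    rw [e11, e12, e21, e22]
    exact h
  · intro ξ t
    have h := chain833 huu (dXt ξ t) (dYt ξ t)
    rw [e1', e2'] at h
    exact h
  · intro ξ t
    have h1 := chain833 hu1 (dXt ξ t) (dYt ξ t)
    have h2 := chain833 hu2 (dXt ξ t) (dYt ξ t)
    have h := (h1.mul (dBt ξ t)).add (h2.mul (dAt ξ t))
    rw [e11, e12, e21, e22]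
    exact h
  · intro ξ t hξ
    have hl := hlap (c * Real.cosh ξ * Real.cos t, c * Real.sinh ξ * Real.sin t)
      (by rw [ha, hb]; exact ell833 c x0 ξ t hc hx hξ)
    have hl' : u11 (c * Real.cosh ξ * Real.cos t, c * Real.sinh ξ * Real.sin t) +
        u22 (c * Real.cosh ξ * Real.cos t, c * Real.sinh ξ * Real.sin t) = 0 := by
      rw [e11, e22]; exact hl
    beta_reduce
    generalize u11 (c * Real.cosh ξ * Real.cos t, c * Real.sinh ξ * Real.sin t) = v11 at *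
    generalize u12 (c * Real.cosh ξ * Real.cos t, c * Real.sinh ξ * Real.sin t) = v12 at *
    generalize u21 (c * Real.cosh ξ * Real.cos t, c * Real.sinh ξ * Real.sin t) = v21 at *
    generalize u22 (c * Real.cosh ξ * Real.cos t, c * Real.sinh ξ * Real.sin t) = v22 at *
    have h3 : v22 = - v11 := by linarith
    rw [h3]
    ring
  · intro ξ t
    show _ = _
    rw [lin833, e1', e2']

end

end Pool.Agent.Helper482.Stk.M_d1
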