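import Pool.Agent.Helper482.Stk.Defs

set_option autoImplicit false

namespace Pool.Agent.Helper482.Stk.M_d2

open Pool.Agent.Helper482.Stk
open Real MeasureTheory intervalIntegral

noncomputable section

theorem pm_deriv (F F' : ℝ → ℝ → ℝ) (c0 : Continuous (fun p : ℝ × ℝ => F p.1 p.2))
    (c1 : Continuous (fun p : ℝ × ℝ => F' p.1 p.2))
    (h : ∀ ξ t : ℝ, HasDerivAt (fun ξ : ℝ => F ξ t) (F' ξ t) ξ)
    (w : ℝ → ℝ) (hw : Continuous w) (a b ξ : ℝ) :
    HasDerivAt (fun ξ => ∫ t in a..b, F ξ t * w t) (∫ t in a..b, F' ξ t * w t) ξ := by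
  have hG : Continuous (fun p : ℝ × ℝ => F' p.1 p.2 * w p.2) := c1.mul (hw.comp continuous_snd)
  have hK : IsCompact (Set.Icc (ξ - 1) (ξ + 1) ×ˢ Set.uIcc a b) :=
    isCompact_Icc.prod isCompact_uIcc
  obtain ⟨C, hC⟩ := hK.exists_bound_of_continuousOn hG.continuousOn
  have hc : ∀ x, Continuous (fun t => F x t * w t) := fun x =>
    (c0.comp (Continuous.prodMk_right x)).mul hw
  have hc' : ∀ x, Continuous (fun t => F' x t * w t) := fun x =>
    (c1.comp (Continuous.prodMk_right x)).mul hw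
  have hs : Set.Icc (ξ - 1) (ξ + 1) ∈ nhds ξ := Icc_mem_nhds (by linarith) (by linarith)
  refine (intervalIntegral.hasDerivAt_integral_of_dominated_loc_of_deriv_le
    (F := fun x t => F x t * w t) (F' := fun x t => F' x t * w t) (bound := fun _ => C) hs
    ?_ ?_ ?_ ?_ ?_ ?_).2
  · exact Filter.Eventually.of_forall (fun x => (hc x).aestronglyMeasurable)
  · exact (hc ξ).intervalIntegrable _ _
  · exact (hc' ξ).aestronglyMeasurable
  · refine Filter.Eventually.of_forall (fun t ht x hx => ?_)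
    exact hC (x, t) ⟨hx, Set.uIoc_subset_uIcc ht⟩
  · exact intervalIntegrable_const
  · refine Filter.Eventually.of_forall (fun t ht x hx => ?_)
    exact (h x t).mul_const (w t)

theorem pm_parts (U Ut Utt : ℝ → ℝ) (k : ℝ) (cU : Continuous U) (cUt : Continuous Ut)
    (cUtt : Continuous Utt) (h3 : ∀ t, HasDerivAt U (Ut t) t) (h4 : ∀ t, HasDerivAt Ut (Utt t) t)
    (hb0 : U π = U (-π)) (hb1 : Ut π = Ut (-π))
    (w w' : ℝ → ℝ) (cw : Continuous w) (cw' : Continuous w')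
    (hw : ∀ t, HasDerivAt w (w' t) t) (hw' : ∀ t, HasDerivAt w' (-(k ^ 2) * w t) t)
    (wb0 : w π = w (-π)) (wb1 : w' π = w' (-π)) :
    ∫ t in (-π)..π, Utt t * w t = -(k ^ 2) * ∫ t in (-π)..π, U t * w t := by
  have hd : ∀ t ∈ Set.uIcc (-π) π, HasDerivAt (fun t => Ut t * w t - U t * w' t)
      (Utt t * w t + k ^ 2 * (U t * w t)) t := by
    intro t _
    refine (((h4 t).mul (hw t)).sub ((h3 t).mul (hw' t))).congr_deriv ?_
    ring
  have i1 : IntervalIntegrable (fun t => Utt t * w t) volume (-π) π :=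
    (cUtt.mul cw).intervalIntegrable _ _
  have i2 : IntervalIntegrable (fun t => k ^ 2 * (U t * w t)) volume (-π) π :=
    (continuous_const.mul (cU.mul cw)).intervalIntegrable _ _
  have h := integral_eq_sub_of_hasDerivAt hd (i1.add i2)
  rw [intervalIntegral.integral_add i1 i2, intervalIntegral.integral_const_mul] at h
  rw [hb0, hb1, wb0, wb1, sub_self] at h
  linarith

theorem pm_unique (k x0 : ℝ) (D D1 D2 : ℝ → ℝ) (h1 : ∀ ξ, HasDerivAt D (D1 ξ) ξ)
    (h2 : ∀ ξ, HasDerivAt D1 (D2 ξ) ξ) (h3 : ∀ ξ ∈ Set.Ico 0 x0, D2 ξ = k ^ 2 * D ξ)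
    (z0 : D 0 = 0) (z1 : D1 0 = 0) : ∀ ξ ∈ Set.Icc 0 x0, D ξ = 0 ∧ D1 ξ = 0 := by
  have hexp : ∀ (s ξ : ℝ), HasDerivAt (fun ξ => Real.exp (s * ξ)) (s * Real.exp (s * ξ)) ξ := by
    intro s ξ
    have h := ((hasDerivAt_id ξ).const_mul s).exp
    refine h.congr_deriv ?_
    simp only [id]
    ring
  have key : ∀ s : ℝ, s ^ 2 = k ^ 2 → ∀ ξ ∈ Set.Icc 0 x0, D1 ξ - s * D ξ = 0 := by
    intro s hs
    have hder : ∀ ξ, HasDerivAt (fun ξ => Real.exp (s * ξ) * (D1 ξ - s * D ξ))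
        (s * Real.exp (s * ξ) * (D1 ξ - s * D ξ) + Real.exp (s * ξ) * (D2 ξ - s * D1 ξ)) ξ :=
      fun ξ => (hexp s ξ).mul ((h2 ξ).sub ((h1 ξ).const_mul s))
    have hconst := constant_of_has_deriv_right_zero
      (f := fun ξ => Real.exp (s * ξ) * (D1 ξ - s * D ξ)) (a := 0) (b := x0)
      (fun ξ _ => (hder ξ).continuousAt.continuousWithinAt) (by
        intro ξ hξ
        refine ((hder ξ).congr_deriv ?_).hasDerivWithinAt
        rw [h3 ξ hξ, ← hs]
        ring)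
    intro ξ hξ
    have h5 := hconst ξ hξ
    beta_reduce at h5
    rw [z0, z1] at h5
    have h6 : Real.exp (s * ξ) * (D1 ξ - s * D ξ) = 0 := by
      rw [h5]; ring
    exact (mul_eq_zero.mp h6).resolve_left (Real.exp_pos _).ne'
  have hD1 : ∀ ξ ∈ Set.Icc 0 x0, D1 ξ = 0 := by
    intro ξ hξ
    have a1 := key k rfl ξ hξ
    have a2 := key (-k) (by ring) ξ hξ
    linarith
  have hDc := constant_of_has_deriv_right_zero (f := D) (a := 0) (b := x0)
      (fun ξ _ => (h1 ξ).continuousAt.continuousWithinAt) (by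
        intro ξ hξ
        refine ((h1 ξ).congr_deriv ?_).hasDerivWithinAt
        exact hD1 ξ ⟨hξ.1, hξ.2.le⟩)
  intro ξ hξ
  refine ⟨?_, hD1 ξ hξ⟩
  rw [hDc ξ hξ, z0]

theorem pm_cos_deriv (n : ℝ) (t : ℝ) :
    HasDerivAt (fun t : ℝ => Real.cos (n * t)) (-n * Real.sin (n * t)) t := by
  have h := ((hasDerivAt_id t).const_mul n).cos
  refine h.congr_deriv ?_
  simp only [id]
  ring

theorem pm_sin_deriv (n : ℝ) (t : ℝ) :
    HasDerivAt (fun t : ℝ => Real.sin (n * t)) (n * Real.cos (n * t)) t := by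
  have h := ((hasDerivAt_id t).const_mul n).sin
  refine h.congr_deriv ?_
  simp only [id]
  ring

theorem pm_cosh_deriv (n : ℝ) (t : ℝ) :
    HasDerivAt (fun t : ℝ => Real.cosh (n * t)) (n * Real.sinh (n * t)) t := by
  have h := ((hasDerivAt_id t).const_mul n).cosh
  refine h.congr_deriv ?_
  simp only [id]
  ring

theorem pm_sinh_deriv (n : ℝ) (t : ℝ) :
    HasDerivAt (fun t : ℝ => Real.sinh (n * t)) (n * Real.cosh (n * t)) t := by
  have h := ((hasDerivAt_id t).const_mul n).sinh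
  refine h.congr_deriv ?_
  simp only [id]
  ring

theorem pde_moments (x0 : ℝ) (hx : 0 < x0) (U Ux Uxx Ut Utt : ℝ → ℝ → ℝ)
    (c0 : Continuous (fun p : ℝ × ℝ => U p.1 p.2))
    (c1 : Continuous (fun p : ℝ × ℝ => Ux p.1 p.2)) (c2 : Continuous (fun p : ℝ × ℝ => Uxx p.1 p.2))
    (c3 : Continuous (fun p : ℝ × ℝ => Ut p.1 p.2)) (c4 : Continuous (fun p : ℝ × ℝ => Utt p.1 p.2))
    (h1 : ∀ ξ t : ℝ, HasDerivAt (fun ξ : ℝ => U ξ t) (Ux ξ t) ξ)
    (h2 : ∀ ξ t : ℝ, HasDerivAt (fun ξ : ℝ => Ux ξ t) (Uxx ξ t) ξ)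
    (h3 : ∀ ξ t : ℝ, HasDerivAt (fun t : ℝ => U ξ t) (Ut ξ t) t)
    (h4 : ∀ ξ t : ℝ, HasDerivAt (fun t : ℝ => Ut ξ t) (Utt ξ t) t)
    (h5 : ∀ ξ t : ℝ, |ξ| < x0 → Uxx ξ t + Utt ξ t = 0)
    (h6 : ∀ ξ, Function.Periodic (U ξ) (2 * π))
    (h7 : ∀ ξ t, U (-ξ) (-t) = U ξ t) (n : ℤ) :
    (∀ ξ ∈ Set.Icc 0 x0, ∫ t in (-π)..π, U ξ t * Real.cos (n * t) =
      (∫ t in (-π)..π, U 0 t * Real.cos (n * t)) * Real.cosh (n * ξ)) ∧
    (∫ t in (-π)..π, Ux x0 t * Real.cos (n * t) =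
      (∫ t in (-π)..π, U 0 t * Real.cos (n * t)) * (n * Real.sinh (n * x0))) ∧
    (∃ B : ℝ, (∀ ξ ∈ Set.Icc 0 x0, ∫ t in (-π)..π, U ξ t * Real.sin (n * t) =
        B * Real.sinh (n * ξ)) ∧
      ∫ t in (-π)..π, Ux x0 t * Real.sin (n * t) = B * (n * Real.cosh (n * x0))) := by
  have cont1 : ∀ (F : ℝ → ℝ → ℝ) (_ : Continuous (fun p : ℝ × ℝ => F p.1 p.2)) (ξ : ℝ),
      Continuous (F ξ) := fun F hF ξ => hF.comp (Continuous.prodMk_right ξ)
  have ccos : Continuous (fun t : ℝ => Real.cos (n * t)) := by fun_prop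
  have csin : Continuous (fun t : ℝ => Real.sin (n * t)) := by fun_prop
  have sinpi : Real.sin ((n : ℝ) * π) = 0 := Real.sin_int_mul_pi n
  have hbU : ∀ ξ, U ξ π = U ξ (-π) := by
    intro ξ
    have := h6 ξ (-π)
    rw [← this]
    congr 1
    ring
  have hbUt : ∀ ξ, Ut ξ π = Ut ξ (-π) := by
    intro ξ
    have e1 : HasDerivAt (fun t : ℝ => U ξ (t + 2 * π)) (Ut ξ (-π + 2 * π)) (-π) :=
      HasDerivAt.comp_add_const (-π) (2 * π) (h3 ξ (-π + 2 * π))
    have e2 : (fun t : ℝ => U ξ (t + 2 * π)) = U ξ := by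
      funext t
      exact h6 ξ t
    rw [e2] at e1
    have e3 := e1.unique (h3 ξ (-π))
    rw [← e3]
    congr 1
    ring
  -- second derivative of the moments
  have second : ∀ (w w' : ℝ → ℝ) (_ : Continuous w) (_ : Continuous w')
      (_ : ∀ t, HasDerivAt w (w' t) t) (_ : ∀ t, HasDerivAt w' (-((n : ℝ) ^ 2) * w t) t)
      (_ : w π = w (-π)) (_ : w' π = w' (-π)), ∀ ξ ∈ Set.Ico 0 x0,
      ∫ t in (-π)..π, Uxx ξ t * w t = (n : ℝ) ^ 2 * ∫ t in (-π)..π, U ξ t * w t := by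
    intro w w' cw cw' hw hw' wb0 wb1 ξ hξ
    have hp := pm_parts (U ξ) (Ut ξ) (Utt ξ) n (cont1 U c0 ξ) (cont1 Ut c3 ξ) (cont1 Utt c4 ξ)
      (h3 ξ) (h4 ξ) (hbU ξ) (hbUt ξ) w w' cw cw' hw hw' wb0 wb1
    have hxx : ∀ t, Uxx ξ t * w t = -(Utt ξ t * w t) := by
      intro t
      have := h5 ξ t (by rw [abs_of_nonneg hξ.1]; exact hξ.2)
      have h8 : Uxx ξ t = -Utt ξ t := by linarith
      rw [h8]
      ring
    simp_rw [hxx]
    rw [intervalIntegral.integral_neg, hp]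
    ring
  have secC := second (fun t => Real.cos (n * t)) (fun t => -n * Real.sin (n * t)) ccos
    (continuous_const.mul csin) (pm_cos_deriv n) (by
      intro t
      refine ((pm_sin_deriv n t).const_mul (-(n : ℝ))).congr_deriv ?_
      ring) (by
      simp only [mul_neg, Real.cos_neg]) (by
      simp only [mul_neg, Real.sin_neg, sinpi, mul_zero, neg_zero])
  have secS := second (fun t => Real.sin (n * t)) (fun t => n * Real.cos (n * t)) csin
    (continuous_const.mul ccos) (pm_sin_deriv n) (by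
      intro t
      refine ((pm_cos_deriv n t).const_mul (n : ℝ)).congr_deriv ?_
      ring) (by
      simp only [mul_neg, Real.sin_neg, sinpi, neg_zero]) (by
      simp only [mul_neg, Real.cos_neg])
  -- the moments
  set M : ℝ → ℝ := fun ξ => ∫ t in (-π)..π, U ξ t * Real.cos (n * t) with hM
  set M1 : ℝ → ℝ := fun ξ => ∫ t in (-π)..π, Ux ξ t * Real.cos (n * t) with hM1
  set M2 : ℝ → ℝ := fun ξ => ∫ t in (-π)..π, Uxx ξ t * Real.cos (n * t) with hM2
  set N : ℝ → ℝ := fun ξ => ∫ t in (-π)..π, U ξ t * Real.sin (n * t) with hN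
  set N1 : ℝ → ℝ := fun ξ => ∫ t in (-π)..π, Ux ξ t * Real.sin (n * t) with hN1
  set N2 : ℝ → ℝ := fun ξ => ∫ t in (-π)..π, Uxx ξ t * Real.sin (n * t) with hN2
  have dM : ∀ ξ, HasDerivAt M (M1 ξ) ξ := fun ξ => pm_deriv U Ux c0 c1 h1 _ ccos _ _ ξ
  have dM1 : ∀ ξ, HasDerivAt M1 (M2 ξ) ξ := fun ξ => pm_deriv Ux Uxx c1 c2 h2 _ ccos _ _ ξ
  have dN : ∀ ξ, HasDerivAt N (N1 ξ) ξ := fun ξ => pm_deriv U Ux c0 c1 h1 _ csin _ _ ξ
  have dN1 : ∀ ξ, HasDerivAt N1 (N2 ξ) ξ := fun ξ => pm_deriv Ux Uxx c1 c2 h2 _ csin _ _ ξ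
  have Meven : ∀ ξ, M (-ξ) = M ξ := by
    intro ξ
    simp only [hM]
    have e := intervalIntegral.integral_comp_neg (a := -π) (b := π)
      (f := fun t => U (-ξ) t * Real.cos (n * t))
    rw [neg_neg] at e
    rw [← e]
    congr 1
    funext t
    rw [h7, mul_neg, Real.cos_neg]
  have Nodd : ∀ ξ, N (-ξ) = -N ξ := by
    intro ξ
    simp only [hN]
    have e := intervalIntegral.integral_comp_neg (a := -π) (b := π)
      (f := fun t => U (-ξ) t * Real.sin (n * t))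
    rw [neg_neg] at e
    rw [← e, ← intervalIntegral.integral_neg]
    congr 1
    funext t
    rw [h7, mul_neg, Real.sin_neg]
    ring
  have M1z : M1 0 = 0 := by
    have e1 : HasDerivAt (fun ξ => M (-ξ)) (M1 0 * (-1)) 0 := by
      have e0 : HasDerivAt M (M1 0) (-0) := by rw [neg_zero]; exact dM 0
      exact HasDerivAt.comp (0 : ℝ) e0 (hasDerivAt_neg 0)
    have e2 : (fun ξ => M (-ξ)) = M := funext Meven
    rw [e2] at e1
    have := e1.unique (dM 0)
    linarith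
  have Nz : N 0 = 0 := by
    have := Nodd 0
    rw [neg_zero] at this
    linarith
  have resC := pm_unique n x0 (fun ξ => M ξ - M 0 * Real.cosh (n * ξ))
    (fun ξ => M1 ξ - M 0 * (n * Real.sinh (n * ξ)))
    (fun ξ => M2 ξ - M 0 * (n * (n * Real.cosh (n * ξ))))
    (fun ξ => (dM ξ).sub ((pm_cosh_deriv n ξ).const_mul _))
    (fun ξ => (dM1 ξ).sub (((pm_sinh_deriv n ξ).const_mul (n : ℝ)).const_mul _))
    (by
      intro ξ hξ
      have := secC ξ hξ
      change M2 ξ = (n : ℝ) ^ 2 * M ξ at this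
      beta_reduce
      rw [this]
      ring)
    (by simp) (by simp [M1z])
  refine ⟨?_, ?_, ?_⟩
  · intro ξ hξ
    have := (resC ξ hξ).1
    beta_reduce at this
    change M ξ = M 0 * Real.cosh (n * ξ)
    linarith
  · have := (resC x0 ⟨hx.le, le_refl _⟩).2
    beta_reduce at this
    change M1 x0 = M 0 * (n * Real.sinh (n * x0))
    linarith
  · by_cases hn0 : (n : ℝ) = 0
    · refine ⟨0, ?_, ?_⟩
      · intro ξ _
        simp [hn0]
      · simp [hn0]
    · refine ⟨N1 0 / n, ?_⟩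
      have resS := pm_unique n x0 (fun ξ => N ξ - N1 0 / n * Real.sinh (n * ξ))
        (fun ξ => N1 ξ - N1 0 / n * (n * Real.cosh (n * ξ)))
        (fun ξ => N2 ξ - N1 0 / n * (n * (n * Real.sinh (n * ξ))))
        (fun ξ => (dN ξ).sub ((pm_sinh_deriv n ξ).const_mul _))
        (fun ξ => (dN1 ξ).sub (((pm_cosh_deriv n ξ).const_mul (n : ℝ)).const_mul _))
        (by
          intro ξ hξ
          have := secS ξ hξ
          change N2 ξ = (n : ℝ) ^ 2 * N ξ at this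
          beta_reduce
          rw [this]
          ring)
        (by simp [Nz]) (by
          beta_reduce
          rw [mul_zero, Real.cosh_zero]
          field_simp
          ring)
      refine ⟨?_, ?_⟩
      · intro ξ hξ
        have := (resS ξ hξ).1
        beta_reduce at this
        change N ξ = N1 0 / n * Real.sinh (n * ξ)
        linarith
      · have := (resS x0 ⟨hx.le, le_refl _⟩).2
        beta_reduce at this
        change N1 x0 = N1 0 / n * (n * Real.cosh (n * x0))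
        linarith

end

end Pool.Agent.Helper482.Stk.M_d2
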