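import Pool.Agent.Helper482.Stk.Defs

set_option autoImplicit false

namespace Pool.Agent.Helper482.Stk.M_f1

open Pool.Agent.Helper482.Stk
open Real MeasureTheory intervalIntegral

noncomputable section

theorem fc_hasSum (f : ℝ → ℂ) (hf : Continuous f) (hp : Function.Periodic f (2 * π))
    (hs : Summable (fun n : ℤ => ‖fc f n‖)) (t : ℝ) :
    HasSum (fun n : ℤ => fc f n * Complex.exp (Complex.I * n * t)) (f t) := by
  have : Fact (0 < 2 * π) := ⟨by positivity⟩
  have hcont : Continuous (hp.lift : AddCircle (2 * π) → ℂ) :=
    continuous_coinduced_dom.mpr hf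
  set F : C(AddCircle (2 * π), ℂ) := ⟨hp.lift, hcont⟩ with hF
  have hFx : ∀ x : ℝ, F (x : AddCircle (2 * π)) = f x := fun x => rfl
  have hfour : ∀ (n : ℤ) (x : ℝ), fourier n (x : AddCircle (2 * π)) =
      Complex.exp (Complex.I * n * x) := by
    intro n x
    rw [fourier_coe_apply]
    congr 1
    have : (π : ℂ) ≠ 0 := by exact_mod_cast Real.pi_ne_zero
    push_cast
    field_simp
  have hco : ∀ n : ℤ, fourierCoeff F n = fc f n := by
    intro n
    rw [fourierCoeff_eq_intervalIntegral F n (-π)]
    have h1 : -π + 2 * π = π := by ring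
    rw [h1]
    unfold fc
    rw [Complex.real_smul]
    congr 1
    · push_cast; rfl
    · refine intervalIntegral.integral_congr fun x _ => ?_
      rw [hfour, hFx, smul_eq_mul, mul_comm]
      congr 2
      push_cast
      ring
  have hs' : Summable (fourierCoeff F) := by
    have : (fourierCoeff F) = fun n => fc f n := funext hco
    rw [this]
    exact hs.of_norm
  have h := has_pointwise_sum_fourier_series_of_summable hs' (t : AddCircle (2 * π))
  rw [hFx] at h
  convert h using 2 with n
  rw [hco, hfour, smul_eq_mul]

theorem fc_inj (f g : ℝ → ℂ) (hf : Continuous f) (hg : Continuous g)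
    (hpf : Function.Periodic f (2 * π)) (hpg : Function.Periodic g (2 * π))
    (h : ∀ n, fc f n = fc g n) : f = g := by
  have h0 : ∀ n : ℤ, fc (fun t => f t - g t) n = 0 := by
    intro n
    have h1 := h n
    unfold fc at h1 ⊢
    have hexp : Continuous fun t : ℝ => Complex.exp (-(Complex.I * n * t)) := by fun_prop
    have hi1 : IntervalIntegrable (fun t : ℝ => f t * Complex.exp (-(Complex.I * n * t)))
        volume (-π) π := (hf.mul hexp).intervalIntegrable _ _
    have hi2 : IntervalIntegrable (fun t : ℝ => g t * Complex.exp (-(Complex.I * n * t)))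
        volume (-π) π := (hg.mul hexp).intervalIntegrable _ _
    have h2 : ∫ t in (-π)..π, (f t - g t) * Complex.exp (-(Complex.I * n * t)) =
        (∫ t in (-π)..π, f t * Complex.exp (-(Complex.I * n * t))) -
        ∫ t in (-π)..π, g t * Complex.exp (-(Complex.I * n * t)) := by
      rw [← intervalIntegral.integral_sub hi1 hi2]
      refine intervalIntegral.integral_congr fun x _ => ?_
      ring
    rw [h2, mul_sub, h1, sub_self]
  have hper : Function.Periodic (fun t => f t - g t) (2 * π) := fun t => by
    simp only
    rw [hpf t, hpg t]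
  have hs : Summable (fun n : ℤ => ‖fc (fun t => f t - g t) n‖) := by
    simp only [h0, norm_zero]
    exact summable_zero
  funext t
  have h3 := fc_hasSum (fun t => f t - g t) (hf.sub hg) hper hs t
  simp only [h0, zero_mul] at h3
  have h4 := h3.unique hasSum_zero
  exact sub_eq_zero.1 h4

end

end Pool.Agent.Helper482.Stk.M_f1
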