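import Pool.Agent.Helper482.Stk.Defs
import Pool.Agent.Helper482.Stk.M_f1

set_option autoImplicit false

namespace Pool.Agent.Helper482.Stk.M_f3

open Pool.Agent.Helper482.Stk
open Pool.Agent.Helper482.Stk.M_f1
open Real MeasureTheory intervalIntegral

noncomputable section

theorem norm_exp_aux (n : ℤ) (t : ℝ) : ‖Complex.exp (Complex.I * n * t)‖ = 1 := by
  rw [show Complex.I * n * t = ((n * t : ℝ) : ℂ) * Complex.I by push_cast; ring]
  exact Complex.norm_exp_ofReal_mul_I _

theorem norm_exp_aux2 (n : ℤ) (t : ℝ) : ‖Complex.exp (-(Complex.I * n * t))‖ = 1 := by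
  rw [show -(Complex.I * n * t) = ((-(n * t) : ℝ) : ℂ) * Complex.I by push_cast; ring]
  exact Complex.norm_exp_ofReal_mul_I _

theorem fc_mul_aux (f g : ℝ → ℂ) (hf : Continuous f) (hp : Function.Periodic f (2 * π))
    (hs : Summable (fun n : ℤ => ‖fc f n‖)) (hg : Continuous g) (n : ℤ) :
    HasSum (fun j : ℤ => fc f j * fc g (n - j)) (fc (fun t => f t * g t) n) := by
  have hkey := intervalIntegral.hasSum_integral_of_dominated_convergence (μ := volume) (a := -π) (b := π)
    (F := fun (j : ℤ) (t : ℝ) => fc f j * Complex.exp (Complex.I * j * t) *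
      (g t * Complex.exp (-(Complex.I * n * t))))
    (f := fun t => f t * (g t * Complex.exp (-(Complex.I * n * t))))
    (fun j t => ‖fc f j‖ * ‖g t‖)
    (fun j => by
      apply Continuous.aestronglyMeasurable
      fun_prop)
    (fun j => Filter.Eventually.of_forall fun t _ => by
      rw [norm_mul, norm_mul, norm_mul, norm_exp_aux, norm_exp_aux2, mul_one, mul_one])
    (Filter.Eventually.of_forall fun t _ => hs.mul_right _)
    (by
      have : (fun t => ∑' j : ℤ, ‖fc f j‖ * ‖g t‖) = fun t => (∑' j : ℤ, ‖fc f j‖) * ‖g t‖ := by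
        funext t
        exact tsum_mul_right
      rw [this]
      apply Continuous.intervalIntegrable
      fun_prop)
    (Filter.Eventually.of_forall fun t _ => (fc_hasSum f hf hp hs t).mul_right _)
  have h2 := hkey.mul_left (1 / (2 * (π : ℂ)))
  have e1 : (1 / (2 * (π : ℂ))) * (∫ t in (-π)..π, f t * (g t * Complex.exp (-(Complex.I * n * t)))) =
      fc (fun t => f t * g t) n := by
    unfold fc
    congr 1
    refine intervalIntegral.integral_congr fun t _ => ?_
    simp only
    ring
  rw [e1] at h2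
  refine h2.congr_fun ?_ |> fun h => h
  intro j
  unfold fc
  rw [show (fun t : ℝ => (1 / (2 * (π : ℂ)) * ∫ t in (-π)..π, f t * Complex.exp (-(Complex.I * j * t))) *
      Complex.exp (Complex.I * j * t) * (g t * Complex.exp (-(Complex.I * n * t)))) =
      fun t : ℝ => (1 / (2 * (π : ℂ)) * ∫ t in (-π)..π, f t * Complex.exp (-(Complex.I * j * t))) *
        (g t * Complex.exp (-(Complex.I * ((n - j : ℤ) : ℂ) * t))) by
    funext t
    rw [show -(Complex.I * ((n - j : ℤ) : ℂ) * t) = Complex.I * j * t + -(Complex.I * n * t) by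
      push_cast; ring, Complex.exp_add]
    ring]
  rw [intervalIntegral.integral_const_mul]
  ring

theorem fc_mul (f g : ℝ → ℂ) (hf : Continuous f) (hp : Function.Periodic f (2 * π))
    (hs : Summable (fun n : ℤ => ‖fc f n‖)) (hg : Continuous g) (n : ℤ) :
    HasSum (fun m : ℤ => fc f (n - m) * fc g m) (fc (fun t => f t * g t) n) := by
  have h := fc_mul_aux f g hf hp hs hg n
  rw [← (Equiv.subLeft n).hasSum_iff] at h
  refine h.congr_fun ?_ |> fun h => h
  intro m
  simp [Equiv.subLeft_apply]

theorem ip_hasSum (f g : ℝ → ℝ) (hf : Continuous f) (hp : Function.Periodic f (2 * π))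
    (hs : Summable (fun n : ℤ => ‖rc f n‖)) (hg : Continuous g) :
    HasSum (fun m : ℤ => rc f m * rc g (-m)) ((ip f g : ℝ) : ℂ) := by
  have h := fc_mul_aux (fun t => ((f t : ℝ) : ℂ)) (fun t => ((g t : ℝ) : ℂ)) (by fun_prop)
    (fun t => by simp only; rw [hp t]) hs (by fun_prop) 0
  have e : fc (fun t => ((f t : ℝ) : ℂ) * ((g t : ℝ) : ℂ)) 0 = ((ip f g : ℝ) : ℂ) := by
    unfold fc ip
    push_cast
    congr 1
    rw [← intervalIntegral.integral_ofReal]
    refine intervalIntegral.integral_congr fun t _ => ?_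
    simp
  rw [e] at h
  refine h.congr_fun ?_ |> fun h => h
  intro m
  simp [rc]

end

end Pool.Agent.Helper482.Stk.M_f3
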