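import Pool.Agent.Helper482.Stk.Defs

set_option autoImplicit false

namespace Pool.Agent.Helper482.Stk.M_f4

open Pool.Agent.Helper482.Stk
open Real MeasureTheory intervalIntegral

noncomputable section

theorem aux_E_cont (n : ℤ) : Continuous (fun t : ℝ => Complex.exp (-(Complex.I * n * t))) := by
  fun_prop

theorem aux_E_norm (n : ℤ) (t : ℝ) : ‖Complex.exp (-(Complex.I * n * t))‖ = 1 := by
  have h : -(Complex.I * n * t) = ((-(n * t) : ℝ) : ℂ) * Complex.I := by
    push_cast
    ring
  rw [h]
  exact Complex.norm_exp_ofReal_mul_I _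

theorem aux_E_bdry (n : ℤ) : Complex.exp (-(Complex.I * n * ((π : ℝ) : ℂ)))
    = Complex.exp (-(Complex.I * n * ((-π : ℝ) : ℂ))) := by
  rw [Complex.exp_eq_exp_iff_exists_int]
  refine ⟨-n, ?_⟩
  push_cast
  ring

theorem fc_deriv (f f' : ℝ → ℂ) (h : ∀ t, HasDerivAt f (f' t) t) (hf' : Continuous f')
    (hp : Function.Periodic f (2 * π)) (n : ℤ) : fc f' n = Complex.I * n * fc f n := by
  have hE : ∀ t : ℝ, HasDerivAt (fun t : ℝ => Complex.exp (-(Complex.I * n * t)))
      (-(Complex.I * n) * Complex.exp (-(Complex.I * n * t))) t := by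
    intro t
    have h1 : HasDerivAt (fun t : ℝ => (t : ℂ)) 1 t := Complex.ofRealCLM.hasDerivAt
    have h2 : HasDerivAt (fun t : ℝ => -(Complex.I * n * (t : ℂ))) (-(Complex.I * n * 1)) t :=
      (h1.const_mul (Complex.I * n)).neg
    refine h2.cexp.congr_deriv ?_
    ring
  have hfc : Continuous f := continuous_iff_continuousAt.mpr (fun t => (h t).continuousAt)
  have hEc := aux_E_cont n
  have hprod : ∀ t ∈ Set.uIcc (-π) π, HasDerivAt
      (fun t : ℝ => f t * Complex.exp (-(Complex.I * n * t)))
      (f' t * Complex.exp (-(Complex.I * n * t)) +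
        f t * (-(Complex.I * n) * Complex.exp (-(Complex.I * n * t)))) t :=
    fun t _ => (h t).mul (hE t)
  have hi1 : IntervalIntegrable (fun t : ℝ => f' t * Complex.exp (-(Complex.I * n * t)))
      volume (-π) π := (hf'.mul hEc).intervalIntegrable _ _
  have hi2 : IntervalIntegrable (fun t : ℝ => f t * (-(Complex.I * n) *
      Complex.exp (-(Complex.I * n * t)))) volume (-π) π :=
    (hfc.mul (continuous_const.mul hEc)).intervalIntegrable _ _
  have hint := integral_eq_sub_of_hasDerivAt hprod (hi1.add hi2)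
  rw [integral_add hi1 hi2] at hint
  have hper : f π = f (-π) := by
    have := hp (-π)
    rw [← this]
    congr 1
    ring
  have hb := aux_E_bdry n
  rw [hper, hb, sub_self] at hint
  have h2 : ∫ t in (-π)..π, f t * (-(Complex.I * n) * Complex.exp (-(Complex.I * n * t)))
      = -(Complex.I * n) * ∫ t in (-π)..π, f t * Complex.exp (-(Complex.I * n * t)) := by
    rw [← intervalIntegral.integral_const_mul]
    congr 1
    funext t
    ring
  rw [h2] at hint
  unfold fc
  linear_combination (1 / (2 * (π : ℂ))) * hint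

theorem fc_norm_le (f : ℝ → ℂ) (M : ℝ) (hM : ∀ t, ‖f t‖ ≤ M) (n : ℤ) : ‖fc f n‖ ≤ M := by
  unfold fc
  have h1 : ‖∫ t in (-π)..π, f t * Complex.exp (-(Complex.I * n * t))‖ ≤ M * |π - (-π)| := by
    apply intervalIntegral.norm_integral_le_of_norm_le_const
    intro t _
    rw [norm_mul, aux_E_norm, mul_one]
    exact hM t
  have hpi := Real.pi_pos
  have h2 : |π - (-π)| = 2 * π := by
    rw [abs_of_pos (by linarith)]
    ring
  rw [h2] at h1
  have h3 : ‖(1 / (2 * (π : ℂ)))‖ = 1 / (2 * π) := by
    have : (1 / (2 * (π : ℂ))) = ((1 / (2 * π) : ℝ) : ℂ) := by push_cast; ring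
    rw [this, Complex.norm_real, Real.norm_eq_abs, abs_of_pos (by positivity)]
  rw [norm_mul, h3]
  calc 1 / (2 * π) * ‖∫ t in (-π)..π, f t * Complex.exp (-(Complex.I * n * t))‖
      ≤ 1 / (2 * π) * (M * (2 * π)) := by
        apply mul_le_mul_of_nonneg_left h1
        positivity
    _ = M := by field_simp

theorem fc_add (f g : ℝ → ℂ) (hf : Continuous f) (hg : Continuous g) (n : ℤ) :
    fc (fun t => f t + g t) n = fc f n + fc g n := by
  have hEc := aux_E_cont n
  have hi1 : IntervalIntegrable (fun t : ℝ => f t * Complex.exp (-(Complex.I * n * t)))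
      volume (-π) π := (hf.mul hEc).intervalIntegrable _ _
  have hi2 : IntervalIntegrable (fun t : ℝ => g t * Complex.exp (-(Complex.I * n * t)))
      volume (-π) π := (hg.mul hEc).intervalIntegrable _ _
  have h := intervalIntegral.integral_add hi1 hi2
  unfold fc
  rw [← mul_add, ← h]
  congr 2
  funext t
  ring

theorem fc_const_mul (a : ℂ) (f : ℝ → ℂ) (n : ℤ) :
    fc (fun t => a * f t) n = a * fc f n := by
  unfold fc
  have h : ∫ t in (-π)..π, a * f t * Complex.exp (-(Complex.I * n * t))
      = a * ∫ t in (-π)..π, f t * Complex.exp (-(Complex.I * n * t)) := by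
    rw [← intervalIntegral.integral_const_mul]
    congr 1
    funext t
    ring
  rw [h]
  ring

end

end Pool.Agent.Helper482.Stk.M_f4
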