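import Pool.Agent.Helper482.Stk.Defs
import Pool.Agent.Helper482.Stk.M_f1
import Pool.Agent.Helper482.Stk.M_f3
import Pool.Agent.Helper482.Stk.M_f4

set_option autoImplicit false

namespace Pool.Agent.Helper482.Stk.M_p6

open Pool.Agent.Helper482.Stk
open Pool.Agent.Helper482.Stk.M_f1
open Pool.Agent.Helper482.Stk.M_f3
open Pool.Agent.Helper482.Stk.M_f4
open Real MeasureTheory intervalIntegral

noncomputable section

theorem fc_eq_fourierCoeffOn (f : ℝ → ℂ) (n : ℤ) (hab : (-π) < π) :
    fc f n = fourierCoeffOn hab f n := by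
  rw [fourierCoeffOn_eq_integral]
  unfold fc
  have h1 : ∀ x : ℝ, (fourier (-n) (x : AddCircle (π - -π)) : ℂ) • f x =
      f x * Complex.exp (-(Complex.I * n * x)) := by
    intro x
    rw [fourier_coe_apply, smul_eq_mul, mul_comm]
    congr 2
    have hpi : (π : ℂ) ≠ 0 := by exact_mod_cast Real.pi_ne_zero
    push_cast
    field_simp
    ring
  simp_rw [h1]
  rw [Complex.real_smul]
  congr 1
  push_cast
  congr 1
  ring

theorem fc_conj (f : ℝ → ℂ) (n : ℤ) :
    fc (fun t => starRingEnd ℂ (f t)) n = starRingEnd ℂ (fc f (-n)) := by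
  unfold fc
  rw [map_mul, ← intervalIntegral_conj]
  congr 1
  · have e : (1 / (2 * (π : ℂ))) = ((1 / (2 * π) : ℝ) : ℂ) := by push_cast; ring
    rw [e, Complex.conj_ofReal]
  · congr 1
    funext t
    rw [map_mul, ← Complex.exp_conj]
    congr 2
    simp

theorem fc_smul (c : ℂ) (f : ℝ → ℂ) (n : ℤ) : fc (fun t => c * f t) n = c * fc f n := by
  unfold fc
  have h : ∀ t : ℝ, c * f t * Complex.exp (-(Complex.I * n * t)) =
      c * (f t * Complex.exp (-(Complex.I * n * t))) := fun t => by ring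
  simp_rw [h]
  rw [intervalIntegral.integral_const_mul]
  ring

theorem fc_sum_deriv (f f' : ℝ → ℂ) (h : ∀ t, HasDerivAt f (f' t) t) (hf' : Continuous f')
    (hp : Function.Periodic f (2 * π)) :
    Summable (fun n : ℤ => ‖fc f n‖) ∧
    Summable (fun n : ℤ => |(n : ℝ)| * ‖fc f n‖ ^ 2) ∧
    HasSum (fun n : ℤ => ((n * ‖fc f n‖ ^ 2 : ℝ) : ℂ))
      ((1 / (2 * (π : ℂ))) * ∫ t in (-π)..π, (-Complex.I * f' t) * starRingEnd ℂ (f t)) := by
  have hfc : Continuous f := continuous_iff_continuousAt.2 fun t => (h t).continuousAt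
  have hab : (-π) < π := by linarith [Real.pi_pos]
  have hd : ∀ n : ℤ, fc f' n = Complex.I * n * fc f n := fc_deriv f f' h hf' hp
  have hbessel : Summable (fun n : ℤ => ‖fc f' n‖ ^ 2) := by
    have hL2 : MemLp f' 2 (volume.restrict (Set.Ioc (-π) π)) := by
      have h1 : ContinuousOn f' (Set.Icc (-π) π) := hf'.continuousOn
      obtain ⟨C, hC⟩ := isCompact_Icc.exists_bound_of_continuousOn h1
      refine MemLp.of_bound hf'.aestronglyMeasurable C ?_
      rw [ae_restrict_iff' measurableSet_Ioc]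
      exact Filter.Eventually.of_forall fun t ht => hC t (Set.Ioc_subset_Icc_self ht)
    have h2 := (hasSum_sq_fourierCoeffOn hab hL2).summable
    simpa only [fc_eq_fourierCoeffOn f' _ hab] using h2
  have hn2 : ∀ n : ℤ, ‖fc f' n‖ ^ 2 = (n : ℝ) ^ 2 * ‖fc f n‖ ^ 2 := by
    intro n
    rw [hd, norm_mul, norm_mul, Complex.norm_I, one_mul, mul_pow, Complex.norm_intCast, sq_abs]
  have hb2 : Summable (fun n : ℤ => (n : ℝ) ^ 2 * ‖fc f n‖ ^ 2) := by
    simpa only [hn2] using hbessel
  have hs1 : Summable (fun n : ℤ => ‖fc f n‖) := by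
    have h3 : Summable (fun n : ℤ => 1 / (n : ℝ) ^ 2) :=
      Real.summable_one_div_int_pow.2 (by norm_num)
    have h4 : Summable (fun n : ℤ => if n = 0 then ‖fc f 0‖ else 0) :=
      summable_of_ne_finset_zero (s := {0}) (fun n hn => by
        rw [Finset.mem_singleton] at hn
        rw [if_neg hn])
    refine Summable.of_nonneg_of_le (fun _ => norm_nonneg _) ?_ ((h3.add hb2).add h4)
    intro n
    by_cases hn : n = 0
    · subst hn
      simp
    · rw [if_neg hn, add_zero]
      have hn' : (n : ℝ) ≠ 0 := by exact_mod_cast hn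
      have h5 : 0 ≤ (1 / (n : ℝ) - n * ‖fc f n‖) ^ 2 := sq_nonneg _
      have h6 : (1 / (n : ℝ) - n * ‖fc f n‖) ^ 2 =
          1 / (n : ℝ) ^ 2 + (n : ℝ) ^ 2 * ‖fc f n‖ ^ 2 - 2 * ‖fc f n‖ := by
        field_simp
        ring
      rw [h6] at h5
      have h7 := norm_nonneg (fc f n)
      linarith
  refine ⟨hs1, ?_, ?_⟩
  · refine Summable.of_nonneg_of_le (fun n => by positivity) ?_ hb2
    intro n
    have h8 : |(n : ℝ)| ≤ (n : ℝ) ^ 2 := by
      by_cases hn : n = 0
      · subst hn
        simp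
      · have h9 : (1 : ℝ) ≤ |(n : ℝ)| := by
          have : (1 : ℤ) ≤ |n| := Int.one_le_abs hn
          exact_mod_cast this
        rw [← sq_abs]
        nlinarith
    exact mul_le_mul_of_nonneg_right h8 (by positivity)
  · have hcc : Continuous (fun t => starRingEnd ℂ (f t)) := Complex.continuous_conj.comp hfc
    have hcp : Function.Periodic (fun t => starRingEnd ℂ (f t)) (2 * π) := by
      intro t
      show starRingEnd ℂ (f (t + 2 * π)) = starRingEnd ℂ (f t)
      rw [hp t]
    have hcs : Summable (fun n : ℤ => ‖fc (fun t => starRingEnd ℂ (f t)) n‖) := by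
      have h1 : ∀ n : ℤ, ‖fc (fun t => starRingEnd ℂ (f t)) n‖ = ‖fc f (-n)‖ := by
        intro n
        rw [fc_conj, RCLike.norm_conj]
      simp_rw [h1]
      exact hs1.comp_injective neg_injective
    have hgc : Continuous (fun t => -Complex.I * f' t) := continuous_const.mul hf'
    have key := fc_mul (fun t => starRingEnd ℂ (f t)) (fun t => -Complex.I * f' t) hcc hcp hcs hgc 0
    have e1 : ∀ m : ℤ, fc (fun t => starRingEnd ℂ (f t)) (0 - m) *
        fc (fun t => -Complex.I * f' t) m = ((m * ‖fc f m‖ ^ 2 : ℝ) : ℂ) := by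
      intro m
      rw [fc_conj, fc_smul, hd]
      have e2 : -(0 - m) = m := by ring
      rw [e2]
      have e3 : starRingEnd ℂ (fc f m) * fc f m = ((‖fc f m‖ ^ 2 : ℝ) : ℂ) := by
        rw [Complex.conj_mul']
        push_cast
        rfl
      have e4 : starRingEnd ℂ (fc f m) * (-Complex.I * (Complex.I * m * fc f m)) =
          (-(Complex.I * Complex.I)) * m * (starRingEnd ℂ (fc f m) * fc f m) := by ring
      rw [e4, e3, Complex.I_mul_I]
      push_cast
      ring
    simp_rw [e1] at key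
    convert key using 1
    unfold fc
    congr 1
    congr 1
    funext t
    simp
    ring

end

end Pool.Agent.Helper482.Stk.M_p6
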