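import Pool.Agent.Helper482.Stk.Defs
import Pool.Agent.Helper482.Stk.M_d1
import Pool.Agent.Helper482.Stk.M_d2
import Pool.Agent.Helper482.Stk.M_f1
import Pool.Agent.Helper482.Stk.M_p6

set_option autoImplicit false

namespace Pool.Agent.Helper482.Stk.M_d3

open Pool.Agent.Helper482.Stk
open Pool.Agent.Helper482.Stk.M_d1
open Pool.Agent.Helper482.Stk.M_d2
open Pool.Agent.Helper482.Stk.M_f1
open Pool.Agent.Helper482.Stk.M_p6
open Real MeasureTheory intervalIntegral

noncomputable section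

theorem pm_rc_eq (g : ℝ → ℝ) (hg : Continuous g) (n : ℤ) :
    rc g n = (1 / (2 * (π : ℂ))) * (((∫ t in (-π)..π, g t * Real.cos (n * t) : ℝ) : ℂ) -
      Complex.I * ((∫ t in (-π)..π, g t * Real.sin (n * t) : ℝ) : ℂ)) := by
  unfold rc fc
  congr 1
  rw [← intervalIntegral.integral_ofReal, ← intervalIntegral.integral_ofReal,
    ← intervalIntegral.integral_const_mul, ← intervalIntegral.integral_sub]
  · apply intervalIntegral.integral_congr
    intro t _
    have h1 : Complex.exp (-(Complex.I * n * t)) =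
        ((Real.cos (n * t) : ℝ) : ℂ) - Complex.I * ((Real.sin (n * t) : ℝ) : ℂ) := by
      have h2 : -(Complex.I * n * t) = ((-(n * t) : ℝ) : ℂ) * Complex.I := by push_cast; ring
      rw [h2, Complex.exp_mul_I, ← Complex.ofReal_cos, ← Complex.ofReal_sin, Real.cos_neg,
        Real.sin_neg]
      push_cast; ring
    simp only [h1]
    push_cast; ring
  · apply Continuous.intervalIntegrable
    fun_prop
  · apply Continuous.intervalIntegrable
    fun_prop

theorem pm_neg (g : ℝ → ℝ) : ∫ t in (-π)..π, g (-t) = ∫ t in (-π)..π, g t := by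
  rw [intervalIntegral.integral_comp_neg, neg_neg]

theorem pm_odd (g : ℝ → ℝ) (h : ∀ t, g (-t) = - g t) : ∫ t in (-π)..π, g t = 0 := by
  have h1 := pm_neg g
  simp only [h, intervalIntegral.integral_neg] at h1
  linarith

theorem pm_hh_cont (c x0 : ℝ) : Continuous (hh c x0) := by
  unfold hh
  fun_prop

theorem pm_hh_neg (c x0 t : ℝ) : hh c x0 (-t) = hh c x0 t := by
  unfold hh
  rw [Real.sin_neg, neg_sq]

/-- even part -/
theorem pm_even_C (g w : ℝ → ℝ) (hg : Continuous g) (hw : Continuous w)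
    (hwe : ∀ t, w (-t) = w t) (n : ℤ) :
    ∫ t in (-π)..π, (w t * ((g t + g (-t)) / 2)) * Real.cos (n * t) =
      ∫ t in (-π)..π, (w t * g t) * Real.cos (n * t) := by
  have h1 : ∫ t in (-π)..π, (w t * g (-t)) * Real.cos (n * t) =
      ∫ t in (-π)..π, (w t * g t) * Real.cos (n * t) := by
    rw [← pm_neg (fun t => (w t * g t) * Real.cos (n * t))]
    apply intervalIntegral.integral_congr
    intro t _
    simp only [hwe, mul_neg, Real.cos_neg]
  have h2 : ∀ t, (w t * ((g t + g (-t)) / 2)) * Real.cos (n * t) =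
      (1 / 2) * ((w t * g t) * Real.cos (n * t)) + (1 / 2) * ((w t * g (-t)) * Real.cos (n * t)) := by
    intro t; ring
  simp only [h2]
  rw [intervalIntegral.integral_add, intervalIntegral.integral_const_mul,
    intervalIntegral.integral_const_mul, h1]
  · ring
  · apply Continuous.intervalIntegrable; fun_prop
  · apply Continuous.intervalIntegrable; fun_prop

theorem pm_even_S (g w : ℝ → ℝ) (hwe : ∀ t, w (-t) = w t) (n : ℤ) :
    ∫ t in (-π)..π, (w t * ((g t + g (-t)) / 2)) * Real.sin (n * t) = 0 := by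
  apply pm_odd
  intro t
  rw [hwe, neg_neg, mul_neg, Real.sin_neg]
  ring

theorem pm_odd_S (g w : ℝ → ℝ) (hg : Continuous g) (hw : Continuous w)
    (hwe : ∀ t, w (-t) = w t) (n : ℤ) :
    ∫ t in (-π)..π, (w t * ((g t - g (-t)) / 2)) * Real.sin (n * t) =
      ∫ t in (-π)..π, (w t * g t) * Real.sin (n * t) := by
  have h1 : ∫ t in (-π)..π, (w t * g (-t)) * Real.sin (n * t) =
      - ∫ t in (-π)..π, (w t * g t) * Real.sin (n * t) := by
    rw [← pm_neg (fun t => (w t * g t) * Real.sin (n * t)), ← intervalIntegral.integral_neg]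
    apply intervalIntegral.integral_congr
    intro t _
    simp only [hwe, mul_neg, Real.sin_neg]
    ring
  have h2 : ∀ t, (w t * ((g t - g (-t)) / 2)) * Real.sin (n * t) =
      (1 / 2) * ((w t * g t) * Real.sin (n * t)) - (1 / 2) * ((w t * g (-t)) * Real.sin (n * t)) := by
    intro t; ring
  simp only [h2]
  rw [intervalIntegral.integral_sub, intervalIntegral.integral_const_mul,
    intervalIntegral.integral_const_mul, h1]
  · ring
  · apply Continuous.intervalIntegrable; fun_prop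
  · apply Continuous.intervalIntegrable; fun_prop

theorem pm_odd_C (g w : ℝ → ℝ) (hwe : ∀ t, w (-t) = w t) (n : ℤ) :
    ∫ t in (-π)..π, (w t * ((g t - g (-t)) / 2)) * Real.cos (n * t) = 0 := by
  apply pm_odd
  intro t
  rw [hwe, neg_neg, mul_neg, Real.cos_neg]
  ring

theorem pm_weight (a b c x0 t : ℝ) (hc : 0 < c) (hx : 0 < x0) (ha : a = c * Real.cosh x0)
    (hb : b = c * Real.sinh x0) :
    a * b * Real.sqrt ((a * Real.cos t / a ^ 2) ^ 2 + (b * Real.sin t / b ^ 2) ^ 2) = hh c x0 t := by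
  have ha0 : 0 < a := by rw [ha]; exact mul_pos hc (Real.cosh_pos _)
  have hb0 : 0 < b := by rw [hb]; exact mul_pos hc (Real.sinh_pos_iff.2 hx)
  unfold hh
  have h1 : a * b = Real.sqrt ((a * b) ^ 2) := by
    rw [Real.sqrt_sq (mul_pos ha0 hb0).le]
  rw [h1, ← Real.sqrt_mul (sq_nonneg _)]
  congr 1
  have h2 : (a * b) ^ 2 * ((a * Real.cos t / a ^ 2) ^ 2 + (b * Real.sin t / b ^ 2) ^ 2) =
      b ^ 2 * Real.cos t ^ 2 + a ^ 2 * Real.sin t ^ 2 := by
    field_simp
  rw [h2, ha, hb]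
  have h3 := Real.cosh_sq x0
  have h4 := Real.sin_sq_add_cos_sq t
  have h5 : Real.cos t ^ 2 = 1 - Real.sin t ^ 2 := by linarith
  rw [mul_pow, mul_pow, h3, h5]
  ring

theorem pde_main (a b c x0 σ : ℝ) (hc : 0 < c) (hx : 0 < x0) (ha : a = c * Real.cosh x0)
    (hb : b = c * Real.sinh x0) (u : ℝ × ℝ → ℝ) (hu : ContDiff ℝ 2 u)
    (hlap : ∀ x : ℝ × ℝ, (x.1 / a) ^ 2 + (x.2 / b) ^ 2 < 1 →
      fderiv ℝ (fun y => fderiv ℝ u y ((1 : ℝ), (0 : ℝ))) x ((1 : ℝ), (0 : ℝ)) +
        fderiv ℝ (fun y => fderiv ℝ u y ((0 : ℝ), (1 : ℝ))) x ((0 : ℝ), (1 : ℝ)) = 0)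
    (hbd : ∀ p : ℝ × ℝ, (p.1 / a) ^ 2 + (p.2 / b) ^ 2 = 1 →
      fderiv ℝ u p (p.1 / a ^ 2, p.2 / b ^ 2) =
        σ * Real.sqrt ((p.1 / a ^ 2) ^ 2 + (p.2 / b ^ 2) ^ 2) * u p) :
    ∃ fe fe' fo fo' : ℝ → ℝ, Continuous fe' ∧ Continuous fo' ∧
      Function.Periodic fe (2 * π) ∧ Function.Periodic fo (2 * π) ∧
      (∀ t, HasDerivAt fe (fe' t) t) ∧ (∀ t, HasDerivAt fo (fo' t) t) ∧
      (∀ t, fe (-t) = fe t) ∧ (∀ t, fo (-t) = -fo t) ∧
      (∀ n : ℤ, (n : ℂ) * ((Real.tanh (n * x0) : ℝ) : ℂ) * rc fe n =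
        σ * rc (fun t => hh c x0 t * fe t) n) ∧
      (∀ n : ℤ, (n : ℂ) * (((Real.tanh (n * x0))⁻¹ : ℝ) : ℂ) * rc fo n =
        σ * rc (fun t => hh c x0 t * fo t) n) ∧
      (∀ ξ ∈ Set.Ioo 0 x0, ∀ t : ℝ, HasSum (fun n : ℤ =>
        (rc fe n * ((Real.cosh (n * ξ) / Real.cosh (n * x0) : ℝ) : ℂ) +
          rc fo n * ((Real.sinh (n * ξ) / Real.sinh (n * x0) : ℝ) : ℂ)) *
          Complex.exp (Complex.I * n * t))
        ((u (c * Real.cosh ξ * Real.cos t, c * Real.sinh ξ * Real.sin t) : ℝ) : ℂ)) := by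
  obtain ⟨Ux, Uxx, Ut, Utt, c1, c2, c3, c4, h1, h2, h3, h4, h5, h6⟩ :=
    pde_U a b c x0 hc hx ha hb u hu hlap
  have ha0 : 0 < a := by rw [ha]; exact mul_pos hc (Real.cosh_pos _)
  have hb0 : 0 < b := by rw [hb]; exact mul_pos hc (Real.sinh_pos_iff.2 hx)
  have hucont : Continuous u := hu.continuous
  obtain ⟨U, hU⟩ : ∃ U : ℝ → ℝ → ℝ, U = fun ξ t =>
    u (c * Real.cosh ξ * Real.cos t, c * Real.sinh ξ * Real.sin t) := ⟨_, rfl⟩
  have hUa : ∀ ξ t, U ξ t = u (c * Real.cosh ξ * Real.cos t, c * Real.sinh ξ * Real.sin t) := by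
    intro ξ t; rw [hU]
  have c0 : Continuous (fun p : ℝ × ℝ => U p.1 p.2) := by
    rw [hU]
    exact hucont.comp (by fun_prop)
  have hper : ∀ ξ, Function.Periodic (U ξ) (2 * π) := by
    intro ξ t
    rw [hUa, hUa, Real.cos_add_two_pi, Real.sin_add_two_pi]
  have hsym : ∀ ξ t, U (-ξ) (-t) = U ξ t := by
    intro ξ t
    rw [hUa, hUa, Real.cosh_neg, Real.sinh_neg, Real.cos_neg, Real.sin_neg]
    congr 2
    ring
  have h1' : ∀ ξ t : ℝ, HasDerivAt (fun ξ : ℝ => U ξ t) (Ux ξ t) ξ := by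
    intro ξ t; rw [hU]; exact h1 ξ t
  have h3' : ∀ ξ t : ℝ, HasDerivAt (fun t : ℝ => U ξ t) (Ut ξ t) t := by
    intro ξ t; rw [hU]; exact h3 ξ t
  have hmom := pde_moments x0 hx U Ux Uxx Ut Utt c0 c1 c2 c3 c4 h1' h2 h3' h4 h5 hper hsym
  have hUc : ∀ ξ, Continuous (U ξ) := fun ξ => c0.comp (by fun_prop : Continuous fun t : ℝ => (ξ, t))
  have hUtc : ∀ ξ, Continuous (Ut ξ) := fun ξ => c3.comp (by fun_prop : Continuous fun t : ℝ => (ξ, t))
  -- boundary
  have hbdry : ∀ t, Ux x0 t = σ * (hh c x0 t * U x0 t) := by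
    intro t
    rw [h6, hUa]
    have hp := hbd (a * Real.cos t, b * Real.sin t) (by
      simp only
      rw [mul_div_cancel_left₀ _ ha0.ne', mul_div_cancel_left₀ _ hb0.ne']
      exact Real.cos_sq_add_sin_sq t)
    simp only at hp
    rw [← ha, ← hb]
    have hv : ((b * Real.cos t, a * Real.sin t) : ℝ × ℝ) =
        (a * b) • ((a * Real.cos t / a ^ 2, b * Real.sin t / b ^ 2) : ℝ × ℝ) := by
      ext
      · simp only [Prod.smul_mk, smul_eq_mul]
        field_simp
      · simp only [Prod.smul_mk, smul_eq_mul]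
        field_simp
    rw [hv, map_smul, hp, smul_eq_mul, ← pm_weight a b c x0 t hc hx ha hb]
    ring
  have hhc := pm_hh_cont c x0
  have hhn := pm_hh_neg c x0
  obtain ⟨fe, hfe⟩ : ∃ fe : ℝ → ℝ, fe = fun t => (U x0 t + U x0 (-t)) / 2 := ⟨_, rfl⟩
  obtain ⟨fo, hfo⟩ : ∃ fo : ℝ → ℝ, fo = fun t => (U x0 t - U x0 (-t)) / 2 := ⟨_, rfl⟩
  have hUx := hUc x0
  have hfec : Continuous fe := by rw [hfe]; fun_prop
  have hfoc : Continuous fo := by rw [hfo]; fun_prop
  -- moments of the parts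
  have one_c : Continuous (fun _ : ℝ => (1 : ℝ)) := continuous_const
  have rfe : ∀ n : ℤ, rc fe n = (1 / (2 * (π : ℂ))) *
      ((∫ t in (-π)..π, U x0 t * Real.cos (n * t) : ℝ) : ℂ) := by
    intro n
    rw [pm_rc_eq fe hfec n]
    have e1 := pm_even_C (U x0) (fun _ => 1) hUx one_c (fun _ => rfl) n
    have e2 := pm_even_S (U x0) (fun _ => 1) (fun _ => rfl) n
    simp only [one_mul] at e1 e2
    rw [hfe]
    simp only [e1, e2]
    simp
  have rfo : ∀ n : ℤ, rc fo n = (1 / (2 * (π : ℂ))) *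
      (-Complex.I * ((∫ t in (-π)..π, U x0 t * Real.sin (n * t) : ℝ) : ℂ)) := by
    intro n
    rw [pm_rc_eq fo hfoc n]
    have e1 := pm_odd_S (U x0) (fun _ => 1) hUx one_c (fun _ => rfl) n
    have e2 := pm_odd_C (U x0) (fun _ => 1) (fun _ => rfl) n
    simp only [one_mul] at e1 e2
    rw [hfo]
    simp only [e1, e2]
    simp
  have rhe : ∀ n : ℤ, rc (fun t => hh c x0 t * fe t) n = (1 / (2 * (π : ℂ))) *
      ((∫ t in (-π)..π, (hh c x0 t * U x0 t) * Real.cos (n * t) : ℝ) : ℂ) := by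
    intro n
    rw [pm_rc_eq (fun t => hh c x0 t * fe t) (hhc.mul hfec) n]
    have e1 := pm_even_C (U x0) (hh c x0) hUx hhc hhn n
    have e2 := pm_even_S (U x0) (hh c x0) hhn n
    rw [hfe]
    simp only [e1, e2]
    simp
  have rho : ∀ n : ℤ, rc (fun t => hh c x0 t * fo t) n = (1 / (2 * (π : ℂ))) *
      (-Complex.I * ((∫ t in (-π)..π, (hh c x0 t * U x0 t) * Real.sin (n * t) : ℝ) : ℂ)) := by
    intro n
    rw [pm_rc_eq (fun t => hh c x0 t * fo t) (hhc.mul hfoc) n]
    have e1 := pm_odd_S (U x0) (hh c x0) hUx hhc hhn n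
    have e2 := pm_odd_C (U x0) (hh c x0) hhn n
    rw [hfo]
    simp only [e1, e2]
    simp
  -- boundary moments
  have hbC : ∀ n : ℤ, ∫ t in (-π)..π, Ux x0 t * Real.cos (n * t) =
      σ * ∫ t in (-π)..π, (hh c x0 t * U x0 t) * Real.cos (n * t) := by
    intro n
    rw [← intervalIntegral.integral_const_mul]
    apply intervalIntegral.integral_congr
    intro t _
    simp only [hbdry]
    ring
  have hbS : ∀ n : ℤ, ∫ t in (-π)..π, Ux x0 t * Real.sin (n * t) =
      σ * ∫ t in (-π)..π, (hh c x0 t * U x0 t) * Real.sin (n * t) := by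
    intro n
    rw [← intervalIntegral.integral_const_mul]
    apply intervalIntegral.integral_congr
    intro t _
    simp only [hbdry]
    ring
  have hx0m : x0 ∈ Set.Icc 0 x0 := ⟨hx.le, le_refl _⟩
  have hsinh : ∀ n : ℤ, n ≠ 0 → Real.sinh (n * x0) ≠ 0 := by
    intro n hn h0
    rw [Real.sinh_eq_zero] at h0
    rcases mul_eq_zero.1 h0 with h | h
    · exact hn (by exact_mod_cast h)
    · exact hx.ne' h
  refine ⟨fe, fun t => (Ut x0 t - Ut x0 (-t)) / 2, fo, fun t => (Ut x0 t + Ut x0 (-t)) / 2,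
    ?_, ?_, ?_, ?_, ?_, ?_, ?_, ?_, ?_, ?_, ?_⟩
  · have := hUtc x0; fun_prop
  · have := hUtc x0; fun_prop
  · intro t
    rw [hfe]
    simp only
    rw [hper x0 t, show -(t + 2 * π) = -t - 2 * π by ring, (hper x0).sub_eq]
  · intro t
    rw [hfo]
    simp only
    rw [hper x0 t, show -(t + 2 * π) = -t - 2 * π by ring, (hper x0).sub_eq]
  · intro t
    rw [hfe]
    have d1 := h3' x0 t
    have d2 : HasDerivAt (fun t => U x0 (-t)) (-(Ut x0 (-t))) t := by
      have := (h3' x0 (-t)).comp t (hasDerivAt_neg t)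
      simpa [Function.comp_def] using this
    have h := (d1.add d2).div_const 2
    exact HasDerivAt.congr_deriv h (by ring)
  · intro t
    rw [hfo]
    have d1 := h3' x0 t
    have d2 : HasDerivAt (fun t => U x0 (-t)) (-(Ut x0 (-t))) t := by
      have := (h3' x0 (-t)).comp t (hasDerivAt_neg t)
      simpa [Function.comp_def] using this
    have h := (d1.sub d2).div_const 2
    exact HasDerivAt.congr_deriv h (by ring)
  · intro t; rw [hfe]; simp only [neg_neg]; ring
  · intro t; rw [hfo]; simp only [neg_neg]; ring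
  · intro n
    obtain ⟨m1, m2, B, m3, m4⟩ := hmom n
    have e1 := m1 x0 hx0m
    rw [hbC n] at m2
    rw [rfe, rhe, e1]
    have hcosh := (Real.cosh_pos (n * x0)).ne'
    have key : (n : ℝ) * Real.tanh (n * x0) * ((∫ t in (-π)..π, U 0 t * Real.cos (n * t)) *
        Real.cosh (n * x0)) = σ * ∫ t in (-π)..π, (hh c x0 t * U x0 t) * Real.cos (n * t) := by
      rw [m2, Real.tanh_eq_sinh_div_cosh]
      field_simp
    have key' := congrArg (fun r : ℝ => (r : ℂ)) key
    simp only [Complex.ofReal_mul, Complex.ofReal_intCast] at key'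
    push_cast at key' ⊢
    linear_combination (1 / (2 * (π : ℂ))) * key'
  · intro n
    obtain ⟨m1, m2, B, m3, m4⟩ := hmom n
    have e1 := m3 x0 hx0m
    rw [hbS n] at m4
    rw [rfo, rho, e1]
    have hcosh := (Real.cosh_pos (n * x0)).ne'
    have key : (n : ℝ) * (Real.tanh (n * x0))⁻¹ * (B * Real.sinh (n * x0)) =
        σ * ∫ t in (-π)..π, (hh c x0 t * U x0 t) * Real.sin (n * t) := by
      rw [m4, Real.tanh_eq_sinh_div_cosh]
      by_cases hn : n = 0
      · subst hn; simp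
      · have := hsinh n hn
        field_simp
    have key' := congrArg (fun r : ℝ => (r : ℂ)) key
    push_cast at key' ⊢
    linear_combination (1 / (2 * (π : ℂ))) * (-Complex.I) * key'
  · intro ξ hξ t
    have hξm : ξ ∈ Set.Icc 0 x0 := ⟨hξ.1.le, hξ.2.le⟩
    have hfc : ∀ n : ℤ, fc (fun t => ((U ξ t : ℝ) : ℂ)) n =
        rc fe n * ((Real.cosh (n * ξ) / Real.cosh (n * x0) : ℝ) : ℂ) +
          rc fo n * ((Real.sinh (n * ξ) / Real.sinh (n * x0) : ℝ) : ℂ) := by
      intro n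
      have hr := pm_rc_eq (U ξ) (hUc ξ) n
      unfold rc at hr
      obtain ⟨m1, m2, B, m3, m4⟩ := hmom n
      rw [hr, rfe, rfo, m1 ξ hξm, m3 ξ hξm, m1 x0 hx0m, m3 x0 hx0m]
      have hcosh := (Real.cosh_pos (n * x0)).ne'
      have k1 : (∫ t in (-π)..π, U 0 t * Real.cos (n * t)) * Real.cosh (n * x0) *
          (Real.cosh (n * ξ) / Real.cosh (n * x0)) =
          (∫ t in (-π)..π, U 0 t * Real.cos (n * t)) * Real.cosh (n * ξ) := by
        field_simp
      have k2 : B * Real.sinh (n * x0) * (Real.sinh (n * ξ) / Real.sinh (n * x0)) =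
          B * Real.sinh (n * ξ) := by
        by_cases hn : n = 0
        · subst hn; simp
        · have := hsinh n hn
          field_simp
      have k1' := congrArg (fun r : ℝ => (r : ℂ)) k1
      have k2' := congrArg (fun r : ℝ => (r : ℂ)) k2
      simp only [Complex.ofReal_mul] at k1' k2' ⊢
      linear_combination (-(1 / (2 * (π : ℂ)))) * k1' + (1 / (2 * (π : ℂ))) * Complex.I * k2'
    have hcc : Continuous (fun t => ((U ξ t : ℝ) : ℂ)) := Complex.continuous_ofReal.comp (hUc ξ)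
    have hpp : Function.Periodic (fun t => ((U ξ t : ℝ) : ℂ)) (2 * π) := by
      intro s
      simp only [hper ξ s]
    obtain ⟨s1, -, -⟩ := fc_sum_deriv (fun t => ((U ξ t : ℝ) : ℂ)) (fun t => ((Ut ξ t : ℝ) : ℂ))
      (fun s => (h3' ξ s).ofReal_comp) (Complex.continuous_ofReal.comp (hUtc ξ)) hpp
    have hs := fc_hasSum _ hcc hpp s1 t
    simp only [hfc] at hs
    rw [← hUa]
    exact hs

end

end Pool.Agent.Helper482.Stk.M_d3
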