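import Pool.Agent.Helper482.Stk.Defs

set_option autoImplicit false

namespace Pool.Agent.Helper482.Stk.M_h1

open Pool.Agent.Helper482.Stk
open Real MeasureTheory intervalIntegral

noncomputable section

theorem hh_basic (c x0 : ℝ) (hc : 0 < c) (hx : 0 < x0) :
    (∀ t, c * Real.sinh x0 ≤ hh c x0 t) ∧ (∀ t, hh c x0 t ≤ c * Real.cosh x0) ∧
    (∀ t, hh c x0 (-t) = hh c x0 t) ∧ Function.Periodic (hh c x0) π ∧
    (∀ n : ℕ, ContDiff ℝ n (hh c x0)) := by
  have hsinh : 0 < Real.sinh x0 := Real.sinh_pos_iff.mpr hx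
  have hcosh : 0 < Real.cosh x0 := Real.cosh_pos x0
  refine ⟨?_, ?_, ?_, ?_, ?_⟩
  · intro t
    unfold hh
    rw [Real.le_sqrt' (mul_pos hc hsinh), mul_pow]
    apply mul_le_mul_of_nonneg_left _ (sq_nonneg c)
    have := sq_nonneg (Real.sin t)
    linarith
  · intro t
    unfold hh
    rw [Real.sqrt_le_iff]
    refine ⟨(mul_pos hc hcosh).le, ?_⟩
    rw [mul_pow, Real.cosh_sq]
    apply mul_le_mul_of_nonneg_left _ (sq_nonneg c)
    have := Real.sin_sq_le_one t
    linarith
  · intro t
    unfold hh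
    rw [Real.sin_neg, neg_sq]
  · intro t
    unfold hh
    rw [Real.sin_add_pi, neg_sq]
  · intro n
    unfold hh
    apply ContDiff.sqrt
    · exact contDiff_const.mul (contDiff_const.add (Real.contDiff_sin.pow 2))
    · intro t
      have h1 := sq_nonneg (Real.sin t)
      positivity

theorem ph_basic (c x0 : ℝ) (hc : 0 < c) (hx : 0 < x0) :
    (∀ t, HasDerivAt (ph c x0) (hh c x0 t) t) ∧ (∀ t, ph c x0 (-t) = - ph c x0 t) ∧
    (∀ t, ph c x0 (t + π) = ph c x0 t + ph c x0 π) ∧ 0 < ph c x0 π ∧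
    (∀ n : ℕ, ContDiff ℝ n (ph c x0)) := by
  obtain ⟨h1, h2, h3, h4, h5⟩ := hh_basic c x0 hc hx
  have hsinh : 0 < Real.sinh x0 := Real.sinh_pos_iff.mpr hx
  have hcont : Continuous (hh c x0) := (h5 0).continuous
  have hd : ∀ t, HasDerivAt (ph c x0) (hh c x0 t) t := by
    intro t
    exact intervalIntegral.integral_hasDerivAt_right (hcont.intervalIntegrable _ _)
      hcont.stronglyMeasurable.stronglyMeasurableAtFilter hcont.continuousAt
  refine ⟨hd, ?_, ?_, ?_, ?_⟩
  · intro t
    unfold ph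
    have e1 : ∫ s in (0:ℝ)..t, hh c x0 s = ∫ s in (0:ℝ)..t, hh c x0 (-s) := by
      simp_rw [h3]
    rw [e1, intervalIntegral.integral_comp_neg (fun s => hh c x0 s), neg_zero,
      intervalIntegral.integral_symm]
  · intro t
    unfold ph
    have e1 : ∫ s in (0:ℝ)..t, hh c x0 s = ∫ s in (0:ℝ)..t, hh c x0 (s + π) := by
      have : ∀ s, hh c x0 (s + π) = hh c x0 s := h4
      simp_rw [this]
    have e2 := intervalIntegral.integral_add_adjacent_intervals
      (hcont.intervalIntegrable (μ := volume) 0 π) (hcont.intervalIntegrable (μ := volume) π (t + π))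
    rw [e1, intervalIntegral.integral_comp_add_right (fun s => hh c x0 s), zero_add, ← e2]
    ring
  · exact intervalIntegral.intervalIntegral_pos_of_pos (hcont.intervalIntegrable _ _)
      (fun t => lt_of_lt_of_le (mul_pos hc hsinh) (h1 t)) Real.pi_pos
  · intro n
    have hderiv : deriv (ph c x0) = hh c x0 := funext fun t => (hd t).deriv
    have e1 : ContDiff ℝ ((n : WithTop ℕ∞) + 1) (ph c x0) := by
      rw [contDiff_succ_iff_deriv]
      refine ⟨fun t => (hd t).differentiableAt, ?_, ?_⟩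
      · intro h
        exact absurd h (by simp)
      · rw [hderiv]
        exact h5 n
    exact e1.of_le (by
      exact_mod_cast Nat.le_succ n)

end

end Pool.Agent.Helper482.Stk.M_h1
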