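import Pool.Agent.Helper482.Stk.Defs
import Pool.Agent.Helper482.Stk.M_f4
import Pool.Agent.Helper482.Stk.M_h1

set_option autoImplicit false

namespace Pool.Agent.Helper482.Stk.M_d4

open Pool.Agent.Helper482.Stk
open Pool.Agent.Helper482.Stk.M_f4
open Pool.Agent.Helper482.Stk.M_h1
open Real MeasureTheory intervalIntegral

noncomputable section

theorem mkSol_rc_smul (c x0 σ : ℝ) (f : ℝ → ℝ) (n : ℤ) :
    rc (fun t => σ * hh c x0 t * f t) n = σ * rc (fun t => hh c x0 t * f t) n := by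
  unfold rc fc
  have : ∫ t in (-π)..π, ((σ * hh c x0 t * f t : ℝ) : ℂ) * Complex.exp (-(Complex.I * n * t))
      = σ * ∫ t in (-π)..π, ((hh c x0 t * f t : ℝ) : ℂ) * Complex.exp (-(Complex.I * n * t)) := by
    rw [← intervalIntegral.integral_const_mul]
    refine intervalIntegral.integral_congr (fun t _ => ?_)
    push_cast
    ring
  rw [this]
  ring

theorem mkSol_rc_zero (g : ℝ → ℝ) : rc g 0 = ((1 / (2 * π) * ∫ t in (-π)..π, g t : ℝ) : ℂ) := by
  unfold rc fc
  push_cast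
  rw [← intervalIntegral.integral_ofReal]
  congr 1
  refine intervalIntegral.integral_congr (fun t _ => ?_)
  simp

theorem mkSol_odd_int (g : ℝ → ℝ) (h : ∀ t, g (-t) = -g t) : ∫ t in (-π)..π, g t = 0 := by
  have h1 : ∫ t in (-π)..π, g (-t) = ∫ t in (-π)..π, g t := by
    rw [intervalIntegral.integral_comp_neg, neg_neg]
  simp only [h] at h1
  rw [intervalIntegral.integral_neg] at h1
  linarith

theorem mkSol_hcont (c x0 σ : ℝ) (hc : 0 < c) (hx : 0 < x0) (f f' : ℝ → ℝ)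
    (hd : ∀ t, HasDerivAt f (f' t) t) : Continuous (fun t => σ * hh c x0 t * f t) := by
  have h1 : Continuous (hh c x0) := ((hh_basic c x0 hc hx).2.2.2.2 0).continuous
  have h2 : Continuous f := continuous_iff_continuousAt.2 (fun t => (hd t).continuousAt)
  fun_prop

theorem mkSol_hper (c x0 σ : ℝ) (hc : 0 < c) (hx : 0 < x0) (f : ℝ → ℝ)
    (hp : Function.Periodic f (2 * π)) : Function.Periodic (fun t => σ * hh c x0 t * f t) (2 * π) := by
  have h1 : Function.Periodic (hh c x0) (2 * π) := by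
    have := (hh_basic c x0 hc hx).2.2.2.1.nat_mul 2
    exact_mod_cast this
  intro t
  simp only
  rw [h1 t, hp t]

theorem mkSol_aux (c x0 σ : ℝ) (hc : 0 < c) (hx : 0 < x0) (f f' : ℝ → ℝ) (hf' : Continuous f')
    (hp : Function.Periodic f (2 * π)) (hd : ∀ t, HasDerivAt f (f' t) t) (τ : ℤ → ℝ) (hτ : τ 0 = 0)
    (G : ℝ → ℝ) (hG : ∀ t, HasDerivAt G (σ * hh c x0 t * f t) t)
    (hGp : Function.Periodic G (2 * π)) (hG0 : rc G 0 = 0)
    (hb : ∀ n : ℤ, (n : ℂ) * (τ n : ℂ) * rc f n = σ * rc (fun t => hh c x0 t * f t) n) :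
    Sol c x0 τ σ f f' G := by
  refine ⟨hf', hp, hGp, hd, hG, fun n => ?_⟩
  by_cases hn : n = 0
  · subst hn
    rw [hG0, hτ]
    simp
  · have hn' : (n : ℂ) ≠ 0 := by exact_mod_cast hn
    have h1 := fc_deriv (fun t => ((G t : ℝ) : ℂ)) (fun t => ((σ * hh c x0 t * f t : ℝ) : ℂ))
      (fun t => (hG t).ofReal_comp)
      (Complex.continuous_ofReal.comp (mkSol_hcont c x0 σ hc hx f f' hd))
      (fun t => by simp only [hGp t]) n
    have h2 : rc (fun t => σ * hh c x0 t * f t) n = Complex.I * n * rc G n := h1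
    rw [mkSol_rc_smul, ← hb n] at h2
    have h3 : (τ n : ℂ) * rc f n = Complex.I * rc G n := by
      apply mul_left_cancel₀ hn'
      linear_combination h2
    linear_combination Complex.I * h3 + rc G n * Complex.I_mul_I

theorem mkSol_prim (c x0 σ : ℝ) (hc : 0 < c) (hx : 0 < x0) (f f' : ℝ → ℝ)
    (hp : Function.Periodic f (2 * π)) (hd : ∀ t, HasDerivAt f (f' t) t)
    (h0 : ∫ t in (-π)..π, σ * hh c x0 t * f t = 0) :
    (∀ t, HasDerivAt (fun t => ∫ s in (0:ℝ)..t, σ * hh c x0 s * f s) (σ * hh c x0 t * f t) t) ∧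
      Function.Periodic (fun t => ∫ s in (0:ℝ)..t, σ * hh c x0 s * f s) (2 * π) := by
  have hcont := mkSol_hcont c x0 σ hc hx f f' hd
  constructor
  · intro t
    exact intervalIntegral.integral_hasDerivAt_right (hcont.intervalIntegrable _ _)
      hcont.stronglyMeasurable.stronglyMeasurableAtFilter hcont.continuousAt
  · intro t
    simp only
    have h1 := (mkSol_hper c x0 σ hc hx f hp).intervalIntegral_add_eq t (-π)
    have h2 : (-π + 2 * π : ℝ) = π := by ring
    rw [h2, h0] at h1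
    have h3 := intervalIntegral.integral_add_adjacent_intervals
      (hcont.intervalIntegrable (μ := volume) 0 t) (hcont.intervalIntegrable (μ := volume) t (t + 2 * π))
    rw [h1, add_zero] at h3
    exact h3.symm



theorem mkSol_even (c x0 σ : ℝ) (hc : 0 < c) (hx : 0 < x0) (f f' : ℝ → ℝ) (hf' : Continuous f')
    (hp : Function.Periodic f (2 * π)) (hd : ∀ t, HasDerivAt f (f' t) t)
    (he : ∀ t, f (-t) = f t)
    (hb : ∀ n : ℤ, (n : ℂ) * ((Real.tanh (n * x0) : ℝ) : ℂ) * rc f n =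
      σ * rc (fun t => hh c x0 t * f t) n) :
    ∃ G, Sol c x0 (fun n : ℤ => Real.tanh (n * x0)) σ f f' G ∧ G 0 = 0 ∧ G π = 0 := by
  have hcont := mkSol_hcont c x0 σ hc hx f f' hd
  have h0 : ∫ t in (-π)..π, σ * hh c x0 t * f t = 0 := by
    have h1 := hb 0
    rw [← mkSol_rc_smul] at h1
    have h2 : rc (fun t => σ * hh c x0 t * f t) 0 = 0 := by
      rw [← h1]; simp
    rw [mkSol_rc_zero] at h2
    have h3 : (1 / (2 * π) * ∫ t in (-π)..π, σ * hh c x0 t * f t) = 0 := by exact_mod_cast h2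
    have h4 : (1 / (2 * π)) ≠ 0 := by positivity
    exact (mul_eq_zero.1 h3).resolve_left h4
  obtain ⟨hG, hGp⟩ := mkSol_prim c x0 σ hc hx f f' hp hd h0
  have hodd : ∀ t, (∫ s in (0:ℝ)..(-t), σ * hh c x0 s * f s) = -∫ s in (0:ℝ)..t, σ * hh c x0 s * f s := by
    intro t
    have h1 : ∫ s in (0:ℝ)..t, σ * hh c x0 (-s) * f (-s) = ∫ s in (-t)..(-0), σ * hh c x0 s * f s :=
      intervalIntegral.integral_comp_neg (fun s => σ * hh c x0 s * f s)
    simp only [he, (hh_basic c x0 hc hx).2.2.1] at h1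
    rw [h1, neg_zero, intervalIntegral.integral_symm]
  have hG0 : rc (fun t => ∫ s in (0:ℝ)..t, σ * hh c x0 s * f s) 0 = 0 := by
    rw [mkSol_rc_zero, mkSol_odd_int _ hodd]
    simp
  refine ⟨fun t => ∫ s in (0:ℝ)..t, σ * hh c x0 s * f s,
    mkSol_aux c x0 σ hc hx f f' hf' hp hd _ (by simp) _ hG hGp hG0 hb, ?_, ?_⟩
  · simp
  · have h1 := hGp (-π)
    simp only at h1 ⊢
    rw [show (-π + 2 * π : ℝ) = π by ring, hodd π] at h1
    linarith

theorem mkSol_odd (c x0 σ : ℝ) (hc : 0 < c) (hx : 0 < x0) (f f' : ℝ → ℝ) (hf' : Continuous f')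
    (hp : Function.Periodic f (2 * π)) (hd : ∀ t, HasDerivAt f (f' t) t)
    (ho : ∀ t, f (-t) = -f t)
    (hb : ∀ n : ℤ, (n : ℂ) * (((Real.tanh (n * x0))⁻¹ : ℝ) : ℂ) * rc f n =
      σ * rc (fun t => hh c x0 t * f t) n) :
    ∃ G, Sol c x0 (fun n : ℤ => (Real.tanh (n * x0))⁻¹) σ f f' G ∧ f 0 = 0 ∧ f π = 0 := by
  have hcont := mkSol_hcont c x0 σ hc hx f f' hd
  have h0 : ∫ t in (-π)..π, σ * hh c x0 t * f t = 0 := by
    apply mkSol_odd_int
    intro t
    rw [ho, (hh_basic c x0 hc hx).2.2.1]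
    ring
  obtain ⟨hG, hGp⟩ := mkSol_prim c x0 σ hc hx f f' hp hd h0
  have hGc : Continuous (fun t => ∫ s in (0:ℝ)..t, σ * hh c x0 s * f s) :=
    continuous_iff_continuousAt.2 (fun t => (hG t).continuousAt)
  set m : ℝ := 1 / (2 * π) * ∫ t in (-π)..π, ∫ s in (0:ℝ)..t, σ * hh c x0 s * f s with hm
  have hG0 : rc (fun t => (∫ s in (0:ℝ)..t, σ * hh c x0 s * f s) - m) 0 = 0 := by
    rw [mkSol_rc_zero, intervalIntegral.integral_sub (hGc.intervalIntegrable _ _)
      intervalIntegrable_const, mul_sub, ← hm, intervalIntegral.integral_const]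
    have : 1 / (2 * π) * (π - -π) • m = m := by
      rw [smul_eq_mul]
      field_simp
      ring
    rw [this]
    simp
  refine ⟨fun t => (∫ s in (0:ℝ)..t, σ * hh c x0 s * f s) - m,
    mkSol_aux c x0 σ hc hx f f' hf' hp hd _ (by simp) _ (fun t => (hG t).sub_const m)
      (fun t => by
        have := hGp t
        simp only at this ⊢
        rw [this]) hG0 hb, ?_, ?_⟩
  · have := ho 0
    rw [neg_zero] at this
    linarith
  · have h1 := hp (-π)
    rw [show (-π + 2 * π : ℝ) = π by ring, ho π] at h1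
    linarith

end

end Pool.Agent.Helper482.Stk.M_d4
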