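import Pool.Agent.Helper482.Stk.Defs
import Pool.Agent.Helper482.Stk.M_f4

set_option autoImplicit false

namespace Pool.Agent.Helper482.Stk.M_f5

open Pool.Agent.Helper482.Stk
open Pool.Agent.Helper482.Stk.M_f4
open Real MeasureTheory intervalIntegral

noncomputable section

theorem per_deriv (f : ℝ → ℂ) (hp : Function.Periodic f (2 * π)) :
    Function.Periodic (deriv f) (2 * π) := by
  intro t
  have h1 : deriv (fun x => f (x + 2 * π)) t = deriv f (t + 2 * π) :=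
    deriv_comp_add_const f (2 * π) t
  have h2 : (fun x => f (x + 2 * π)) = f := by
    funext x; exact hp x
  rw [← h1, h2]

theorem fc_iter (m : ℕ) : ∀ (f : ℝ → ℂ), ContDiff ℝ m f → Function.Periodic f (2 * π) →
    (∀ n : ℤ, fc (deriv^[m] f) n = (Complex.I * n) ^ m * fc f n) ∧ Continuous (deriv^[m] f) ∧
      Function.Periodic (deriv^[m] f) (2 * π) := by
  induction m with
  | zero =>
    intro f hf hp
    exact ⟨by simp, hf.continuous, hp⟩
  | succ m ih =>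
    intro f hf hp
    have h0 : ContDiff ℝ ((m : WithTop ℕ∞) + 1) f := by exact_mod_cast hf
    have hf' : ContDiff ℝ m (deriv f) := (contDiff_succ_iff_deriv.1 h0).2.2
    have hdf : Differentiable ℝ f := (contDiff_succ_iff_deriv.1 h0).1
    have hd : ∀ t, HasDerivAt f (deriv f t) t := fun t => (hdf t).hasDerivAt
    obtain ⟨h1, h2, h3⟩ := ih (deriv f) hf' (per_deriv f hp)
    rw [Function.iterate_succ_apply]
    refine ⟨?_, h2, h3⟩
    intro n
    rw [h1, fc_deriv f (deriv f) hd hf'.continuous hp n]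
    ring

theorem fc_decay (f : ℝ → ℂ) (hf : ContDiff ℝ 6 f) (hp : Function.Periodic f (2 * π)) :
    Summable (fun n : ℤ => ‖fc f n‖ * (1 + |(n : ℝ)|) ^ 4) := by
  obtain ⟨h1, h2, h3⟩ := fc_iter 6 f (by exact_mod_cast hf) hp
  have hb : ∀ g : ℝ → ℂ, Continuous g → Function.Periodic g (2 * π) → ∃ C, ∀ t, ‖g t‖ ≤ C := by
    intro g hg hgp
    have hbd := hgp.isBounded_of_continuous (by positivity) hg
    obtain ⟨C, hC⟩ := hbd.exists_norm_le
    exact ⟨C, fun t => hC _ ⟨t, rfl⟩⟩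
  obtain ⟨C, hC⟩ := hb _ h2 h3
  obtain ⟨C0, hC0⟩ := hb f hf.continuous hp
  have hC' : ∀ n : ℤ, ‖fc f n‖ * |(n : ℝ)| ^ 6 ≤ C := by
    intro n
    have := fc_norm_le _ C hC n
    rw [h1 n, norm_mul, norm_pow, norm_mul, Complex.norm_I, one_mul, Complex.norm_intCast] at this
    linarith [mul_comm (‖fc f n‖) (|(n : ℝ)| ^ 6)]
  have hC0' : ∀ n : ℤ, ‖fc f n‖ ≤ C0 := fun n => fc_norm_le f C0 hC0 n
  set K : ℝ := 32 * (C0 + C) with hK
  have hmain : ∀ n : ℤ, ‖fc f n‖ * (1 + |(n : ℝ)|) ^ 6 ≤ K := by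
    intro n
    have h4 := add_pow_le (zero_le_one : (0 : ℝ) ≤ 1) (abs_nonneg (n : ℝ)) 6
    have h5 : ‖fc f n‖ * (1 + |(n : ℝ)|) ^ 6 ≤ ‖fc f n‖ * (2 ^ (6 - 1) * (1 ^ 6 + |(n : ℝ)| ^ 6)) :=
      mul_le_mul_of_nonneg_left h4 (norm_nonneg _)
    have h6 := hC' n
    have h7 := hC0' n
    have h8 : ‖fc f n‖ * (2 ^ (6 - 1) * (1 ^ 6 + |(n : ℝ)| ^ 6)) =
        32 * (‖fc f n‖ + ‖fc f n‖ * |(n : ℝ)| ^ 6) := by norm_num; ring
    rw [h8] at h5
    rw [hK]
    linarith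
  have hK0 : 0 ≤ K := le_trans (by positivity) (hmain 0)
  have hs1 : Summable (fun n : ℤ => K * (1 / (n : ℝ) ^ 2) + (if n = 0 then K else 0)) := by
    refine Summable.add (Summable.mul_left _ (Real.summable_one_div_int_pow.2 (by norm_num))) ?_
    exact (hasSum_ite_eq (0 : ℤ) K).summable
  refine Summable.of_nonneg_of_le (fun n => by positivity) ?_ hs1
  intro n
  by_cases hn : n = 0
  · subst hn
    have := hmain 0
    simp only [Int.cast_zero, abs_zero, add_zero, one_pow, mul_one] at this ⊢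
    simp
    exact this
  · simp only [if_neg hn, add_zero]
    have hn0 : (n : ℝ) ≠ 0 := Int.cast_ne_zero.2 hn
    have hn2 : 0 < (n : ℝ) ^ 2 := by positivity
    rw [mul_one_div, le_div_iff₀ hn2]
    refine le_trans ?_ (hmain n)
    have h9 : (n : ℝ) ^ 2 ≤ (1 + |(n : ℝ)|) ^ 2 := by
      rw [← sq_abs (n : ℝ)]
      have := abs_nonneg (n : ℝ)
      nlinarith
    calc ‖fc f n‖ * (1 + |(n : ℝ)|) ^ 4 * (n : ℝ) ^ 2
        ≤ ‖fc f n‖ * (1 + |(n : ℝ)|) ^ 4 * (1 + |(n : ℝ)|) ^ 2 :=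
          mul_le_mul_of_nonneg_left h9 (by positivity)
      _ = ‖fc f n‖ * (1 + |(n : ℝ)|) ^ 6 := by ring

end

end Pool.Agent.Helper482.Stk.M_f5
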