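import Pool.Agent.Helper482.Stk.Defs
import Pool.Agent.Helper482.Stk.M_f5
import Pool.Agent.Helper482.Stk.M_h1

set_option autoImplicit false

namespace Pool.Agent.Helper482.Stk.M_h2

open Pool.Agent.Helper482.Stk
open Pool.Agent.Helper482.Stk.M_f5
open Pool.Agent.Helper482.Stk.M_h1
open Real MeasureTheory intervalIntegral

noncomputable section

theorem aux_rc_sum (f : ℝ → ℝ) (hf : ContDiff ℝ 6 f) (hp : Function.Periodic f (2 * π)) :
    Summable (fun j : ℤ => ‖rc f j‖ * (1 + |(j : ℝ)|) ^ 4) := by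
  unfold rc
  apply fc_decay
  · exact Complex.ofRealCLM.contDiff.comp hf
  · intro t
    simp only [hp t]

theorem aux_hh_periodic (c x0 : ℝ) (hc : 0 < c) (hx : 0 < x0) :
    Function.Periodic (hh c x0) (2 * π) := by
  obtain ⟨-, -, -, h, -⟩ := hh_basic c x0 hc hx
  intro t
  have h1 := h t
  have h2 := h (t + π)
  have : t + 2 * π = t + π + π := by ring
  rw [this, h2, h1]

theorem aux_hh_pos (c x0 : ℝ) (hc : 0 < c) (hx : 0 < x0) (t : ℝ) : 0 < hh c x0 t := by
  obtain ⟨h, -, -, -, -⟩ := hh_basic c x0 hc hx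
  have h1 : 0 < Real.sinh x0 := Real.sinh_pos_iff.mpr hx
  exact lt_of_lt_of_le (by positivity) (h t)

theorem hh_sum (c x0 : ℝ) (hc : 0 < c) (hx : 0 < x0) :
    Summable (fun j : ℤ => ‖rc (hh c x0) j‖ * (1 + |(j : ℝ)|) ^ 4) ∧
    Summable (fun j : ℤ => ‖rc (fun t => (hh c x0 t)⁻¹) j‖ * (1 + |(j : ℝ)|) ^ 4) := by
  have hsm : ContDiff ℝ 6 (hh c x0) := by
    obtain ⟨-, -, -, -, h⟩ := hh_basic c x0 hc hx
    exact_mod_cast h 6
  have hper := aux_hh_periodic c x0 hc hx
  refine ⟨aux_rc_sum _ hsm hper, aux_rc_sum _ ?_ ?_⟩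
  · exact hsm.inv (fun t => (aux_hh_pos c x0 hc hx t).ne')
  · intro t
    simp only [hper t]

theorem wave_basic (c x0 s : ℝ) (k : ℤ) (hc : 0 < c) (hx : 0 < x0) (hs : s * ph c x0 π = π * k) :
    Function.Periodic (fun t => Real.cos (s * ph c x0 t)) (2 * π) ∧
    Function.Periodic (fun t => Real.sin (s * ph c x0 t)) (2 * π) ∧
    Summable (fun j : ℤ => ‖rc (fun t => Real.cos (s * ph c x0 t)) j‖ * (1 + |(j : ℝ)|) ^ 4) ∧
    Summable (fun j : ℤ => ‖rc (fun t => Real.sin (s * ph c x0 t)) j‖ * (1 + |(j : ℝ)|) ^ 4) ∧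
    Summable (fun j : ℤ => ‖rc (fun t => hh c x0 t * Real.cos (s * ph c x0 t)) j‖ * (1 + |(j : ℝ)|) ^ 4) ∧
    Summable (fun j : ℤ => ‖rc (fun t => hh c x0 t * Real.sin (s * ph c x0 t)) j‖ * (1 + |(j : ℝ)|) ^ 4) := by
  have hsm : ContDiff ℝ 6 (hh c x0) := by
    obtain ⟨-, -, -, -, h⟩ := hh_basic c x0 hc hx
    exact_mod_cast h 6
  have hpsm : ContDiff ℝ 6 (ph c x0) := by
    obtain ⟨-, -, -, -, h⟩ := ph_basic c x0 hc hx
    exact_mod_cast h 6
  have hper := aux_hh_periodic c x0 hc hx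
  have hph : ∀ t, s * ph c x0 (t + 2 * π) = s * ph c x0 t + k * (2 * π) := by
    intro t
    obtain ⟨-, -, h, -, -⟩ := ph_basic c x0 hc hx
    have h1 := h t
    have h2 := h (t + π)
    have e : t + 2 * π = t + π + π := by ring
    rw [e, h2, h1]
    linear_combination 2 * hs
  have hcos : Function.Periodic (fun t => Real.cos (s * ph c x0 t)) (2 * π) := by
    intro t
    simp only [hph t, Real.cos_add_int_mul_two_pi]
  have hsin : Function.Periodic (fun t => Real.sin (s * ph c x0 t)) (2 * π) := by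
    intro t
    simp only [hph t, Real.sin_add_int_mul_two_pi]
  have hcsm : ContDiff ℝ 6 (fun t => Real.cos (s * ph c x0 t)) :=
    Real.contDiff_cos.comp (contDiff_const.mul hpsm)
  have hssm : ContDiff ℝ 6 (fun t => Real.sin (s * ph c x0 t)) :=
    Real.contDiff_sin.comp (contDiff_const.mul hpsm)
  refine ⟨hcos, hsin, aux_rc_sum _ hcsm hcos, aux_rc_sum _ hssm hsin,
    aux_rc_sum _ (hsm.mul hcsm) ?_, aux_rc_sum _ (hsm.mul hssm) ?_⟩
  · intro t
    have := hcos t
    simp only at this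
    simp only [hper t, this]
  · intro t
    have := hsin t
    simp only at this
    simp only [hper t, this]

end

end Pool.Agent.Helper482.Stk.M_h2
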