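import Pool.Agent.Helper482.Stk.Defs

set_option autoImplicit false

namespace Pool.Agent.Helper482.Stk.M_p1

open Pool.Agent.Helper482.Stk
open Real MeasureTheory intervalIntegral

noncomputable section

/-- the radicand -/
def qq8267 (x0 : ℝ) (z : ℂ) : ℂ := ((Real.sinh x0 : ℝ) : ℂ) ^ 2 + Complex.sin z ^ 2

theorem Hc_eq8267 (c x0 : ℝ) (z : ℂ) : Hc c x0 z = (c : ℂ) * (qq8267 x0 z) ^ (1 / 2 : ℂ) := rfl

theorem qq_eq8267 (x0 : ℝ) (z : ℂ) : qq8267 x0 z =
    ((Real.sinh x0 ^ 2 + (Real.sin z.re * Real.cosh z.im) ^ 2 -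
      (Real.cos z.re * Real.sinh z.im) ^ 2 : ℝ) : ℂ) +
    ((2 * (Real.sin z.re * Real.cosh z.im) * (Real.cos z.re * Real.sinh z.im) : ℝ) : ℂ) *
      Complex.I := by
  have h : Complex.sin z = ((Real.sin z.re * Real.cosh z.im : ℝ) : ℂ) +
      ((Real.cos z.re * Real.sinh z.im : ℝ) : ℂ) * Complex.I := by
    rw [Complex.sin_eq]; push_cast; rfl
  unfold qq8267
  rw [h]
  push_cast
  ring_nf
  rw [Complex.I_sq]
  ring

theorem qq_re8267 (x0 : ℝ) (z : ℂ) : (qq8267 x0 z).re =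
    Real.sinh x0 ^ 2 + (Real.sin z.re * Real.cosh z.im) ^ 2 -
      (Real.cos z.re * Real.sinh z.im) ^ 2 := by
  rw [qq_eq8267, Complex.add_re, Complex.ofReal_re, Complex.re_ofReal_mul, Complex.I_re]
  ring

theorem qq_im8267 (x0 : ℝ) (z : ℂ) : (qq8267 x0 z).im =
    2 * (Real.sin z.re * Real.cosh z.im) * (Real.cos z.re * Real.sinh z.im) := by
  rw [qq_eq8267, Complex.add_im, Complex.ofReal_im, Complex.im_ofReal_mul, Complex.I_im]
  ring

theorem sinh_sq_le8267 {x0 y : ℝ} (h : |y| ≤ x0) : Real.sinh y ^ 2 ≤ Real.sinh x0 ^ 2 := by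
  rw [sq_le_sq, Real.abs_sinh, Real.abs_sinh]
  apply Real.sinh_le_sinh.2
  exact h.trans (le_abs_self _)

theorem sinh_sq_lt8267 {x0 y : ℝ} (h : |y| < x0) : Real.sinh y ^ 2 < Real.sinh x0 ^ 2 := by
  rw [sq_lt_sq, Real.abs_sinh, Real.abs_sinh]
  apply Real.sinh_lt_sinh.2
  exact h.trans_le (le_abs_self _)

theorem qq_cases8267 {x0 : ℝ} (hx : 0 < x0) (z : ℂ) (him : (qq8267 x0 z).im = 0) :
    (qq8267 x0 z).re = Real.sinh x0 ^ 2 - Real.sinh z.im ^ 2 ∨ 0 < (qq8267 x0 z).re := by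
  rw [qq_im8267] at him
  have hs : 0 < Real.sinh x0 := Real.sinh_pos_iff.2 hx
  have hc : 0 < Real.cosh z.im := Real.cosh_pos _
  have h1 := Real.sin_sq_add_cos_sq z.re
  have h2 : Real.sin z.re = 0 ∨ Real.cos z.re = 0 ∨ Real.sinh z.im = 0 := by
    by_contra hcon
    push Not at hcon
    obtain ⟨ha, hb, hc'⟩ := hcon
    exact absurd him (mul_ne_zero (mul_ne_zero two_ne_zero (mul_ne_zero ha hc.ne'))
      (mul_ne_zero hb hc'))
  rcases h2 with h | h | h
  · left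
    rw [qq_re8267, h]
    rw [h] at h1
    have : Real.cos z.re ^ 2 = 1 := by linarith
    rw [mul_pow (Real.cos z.re), this]; ring
  · right
    rw [qq_re8267, h]
    have : Real.sin z.re ^ 2 = 1 := by rw [h] at h1; linarith
    rw [mul_pow (Real.sin z.re), this]
    have h5 : 0 < Real.sinh x0 ^ 2 := by positivity
    have h6 : 0 ≤ Real.cosh z.im ^ 2 := sq_nonneg _
    nlinarith
  · right
    rw [qq_re8267, h]
    have : 0 < Real.sinh x0 ^ 2 := by positivity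
    nlinarith [sq_nonneg (Real.sin z.re * Real.cosh z.im)]

theorem qq_ok8267 {x0 : ℝ} (hx : 0 < x0) {z : ℂ} (hz : |z.im| ≤ x0) :
    0 ≤ (qq8267 x0 z).re ∨ (qq8267 x0 z).im ≠ 0 := by
  by_cases him : (qq8267 x0 z).im = 0
  · left
    rcases qq_cases8267 hx z him with h | h
    · rw [h]; linarith [sinh_sq_le8267 hz]
    · exact h.le
  · exact Or.inr him

theorem qq_slit8267 {x0 : ℝ} (hx : 0 < x0) {z : ℂ} (hz : |z.im| < x0) :
    qq8267 x0 z ∈ Complex.slitPlane := by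
  rw [Complex.mem_slitPlane_iff]
  by_cases him : (qq8267 x0 z).im = 0
  · left
    rcases qq_cases8267 hx z him with h | h
    · rw [h]; linarith [sinh_sq_lt8267 hz]
    · exact h
  · exact Or.inr him

theorem half8267 {A : ℝ} (hA : 0 ≤ A) : (A : ℂ) ^ (1 / 2 : ℂ) = ((Real.sqrt A : ℝ) : ℂ) := by
  rw [Real.sqrt_eq_rpow, Complex.ofReal_cpow hA]
  norm_num

theorem qq_cont8267 (x0 : ℝ) : Continuous (qq8267 x0) := by
  unfold qq8267; fun_prop

theorem qq_diff8267 (x0 : ℝ) : Differentiable ℂ (qq8267 x0) := by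
  unfold qq8267; fun_prop

theorem Hc_basic (c x0 : ℝ) (hc : 0 < c) (hx : 0 < x0) :
    (∀ t : ℝ, Hc c x0 t = ((hh c x0 t : ℝ) : ℂ)) ∧
    (∀ r : ℝ, |r| ≤ x0 → Hc c x0 (Complex.I * r) =
      ((c * Real.sqrt (Real.sinh x0 ^ 2 - Real.sinh r ^ 2) : ℝ) : ℂ)) ∧
    (∀ z : ℂ, Hc c x0 (z + π) = Hc c x0 z) ∧
    ContinuousOn (Hc c x0) {z | |z.im| ≤ x0} ∧
    (∀ z : ℂ, |z.im| < x0 → DifferentiableAt ℂ (Hc c x0) z) ∧
    (∀ z : ℂ, |z.im| ≤ x0 →
      Hc c x0 (-(starRingEnd ℂ z)) = starRingEnd ℂ (Hc c x0 z)) := by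
  refine ⟨?_, ?_, ?_, ?_, ?_, ?_⟩
  · intro t
    have h1 : qq8267 x0 t = ((Real.sinh x0 ^ 2 + Real.sin t ^ 2 : ℝ) : ℂ) := by
      unfold qq8267; push_cast; rfl
    rw [Hc_eq8267, h1, half8267 (by positivity)]
    unfold hh
    rw [Real.sqrt_mul (by positivity), Real.sqrt_sq hc.le]
    push_cast; rfl
  · intro r hr
    have h1 : qq8267 x0 (Complex.I * r) = ((Real.sinh x0 ^ 2 - Real.sinh r ^ 2 : ℝ) : ℂ) := by
      unfold qq8267
      rw [mul_comm Complex.I, Complex.sin_mul_I, mul_pow, Complex.I_sq]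
      push_cast; ring
    rw [Hc_eq8267, h1, half8267 (by linarith [sinh_sq_le8267 hr])]
    push_cast; rfl
  · intro z
    rw [Hc_eq8267, Hc_eq8267]
    unfold qq8267
    rw [Complex.sin_add_pi, neg_sq]
  · intro z hz
    apply ContinuousAt.continuousWithinAt
    have h1 : ContinuousAt (fun w : ℂ => w ^ (1 / 2 : ℂ)) (qq8267 x0 z) :=
      Complex.continuousAt_cpow_const_of_re_pos (qq_ok8267 hx hz) (by norm_num)
    have h2 : ContinuousAt (fun w => (qq8267 x0 w) ^ (1 / 2 : ℂ)) z :=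
      ContinuousAt.comp (g := fun w : ℂ => w ^ (1 / 2 : ℂ)) h1 (qq_cont8267 x0).continuousAt
    exact continuousAt_const.mul h2
  · intro z hz
    exact (((qq_diff8267 x0) z).cpow (differentiableAt_const _) (qq_slit8267 hx hz)).const_mul _
  · intro z hz
    have h1 : qq8267 x0 (-(starRingEnd ℂ z)) = starRingEnd ℂ (qq8267 x0 z) := by
      unfold qq8267
      rw [Complex.sin_neg, Complex.sin_conj, neg_sq, map_add, map_pow, map_pow, Complex.conj_ofReal]
    have harg : (qq8267 x0 z).arg ≠ π := by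
      intro h
      rw [Complex.arg_eq_pi_iff] at h
      rcases qq_ok8267 hx hz with h2 | h2
      · linarith [h.1]
      · exact h2 h.2
    rw [Hc_eq8267, Hc_eq8267, h1, Complex.conj_cpow _ _ harg, map_mul, Complex.conj_ofReal]
    congr 3
    simp [map_ofNat]

end

end Pool.Agent.Helper482.Stk.M_p1
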