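import Pool.Agent.Helper482.Stk.Defs

set_option autoImplicit false

namespace Pool.Agent.Helper482.Stk.M_p2

open Pool.Agent.Helper482.Stk
open Real MeasureTheory intervalIntegral

noncomputable section

/-- real part of the radicand on the top line -/
def qA (x0 t : ℝ) : ℝ := Real.sin t ^ 2 * Real.cosh (2 * x0)

/-- imaginary part of the radicand on the top line -/
def qB (x0 t : ℝ) : ℝ := Real.sin t * Real.cos t * Real.sinh (2 * x0)

/-- modulus of the radicand on the top line -/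
def qR (x0 t : ℝ) : ℝ := Real.sqrt (qA x0 t ^ 2 + qB x0 t ^ 2)

theorem q_eq (x0 t : ℝ) : ((Real.sinh x0 : ℝ) : ℂ) ^ 2 + Complex.sin (t + Complex.I * x0) ^ 2 =
    (qA x0 t : ℂ) + (qB x0 t : ℂ) * Complex.I := by
  unfold qA qB
  push_cast
  rw [Complex.sin_add, mul_comm Complex.I, Complex.cos_mul_I, Complex.sin_mul_I,
    Complex.cosh_two_mul, Complex.sinh_two_mul]
  have h := Complex.sin_sq_add_cos_sq (t : ℂ)
  have hI := Complex.I_sq
  linear_combination (-(Complex.sinh (x0 : ℂ)) ^ 2) * h +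
    (Complex.sinh (x0 : ℂ)) ^ 2 * (Complex.cos (t : ℂ)) ^ 2 * hI

theorem Hc_top_eq (c x0 t : ℝ) : Hc c x0 (t + Complex.I * x0) =
    (c : ℂ) * ((qA x0 t : ℂ) + (qB x0 t : ℂ) * Complex.I) ^ (2⁻¹ : ℂ) := by
  unfold Hc
  rw [q_eq, one_div]

theorem Hc_top_re (c x0 t : ℝ) : (Hc c x0 (t + Complex.I * x0)).re =
    c * Real.sqrt ((qR x0 t + qA x0 t) / 2) := by
  rw [Hc_top_eq, Complex.re_ofReal_mul, Complex.cpow_inv_two_re, Complex.norm_add_mul_I]
  simp [qR]

theorem Hc_top_im (c x0 t : ℝ) (h : 0 ≤ qB x0 t) : (Hc c x0 (t + Complex.I * x0)).im =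
    c * Real.sqrt ((qR x0 t - qA x0 t) / 2) := by
  have him : 0 ≤ ((qA x0 t : ℂ) + (qB x0 t : ℂ) * Complex.I).im := by simpa using h
  rw [Hc_top_eq, Complex.im_ofReal_mul, Complex.cpow_inv_two_im_eq_sqrt him, Complex.norm_add_mul_I]
  simp [qR]

theorem Hc_top (c x0 : ℝ) (hc : 0 < c) (hx : 0 < x0) :
    (∃ m > 0, ∃ M > 0,
      (∀ t ∈ Set.Icc (0:ℝ) (π / 2), 0 ≤ (Hc c x0 (t + Complex.I * x0)).im ∧
        m * Real.sqrt t ≤ (Hc c x0 (t + Complex.I * x0)).re ∧
        ‖Hc c x0 (t + Complex.I * x0)‖ ≤ M * Real.sqrt t) ∧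
      (∀ t ∈ Set.Icc (0:ℝ) (π / 4), m * Real.sqrt t ≤ (Hc c x0 (t + Complex.I * x0)).im)) ∧
    Filter.Tendsto (fun t : ℝ => Hc c x0 (t + Complex.I * x0) / (Real.sqrt t : ℂ))
      (nhdsWithin 0 (Set.Ioi 0))
      (nhds ((c * Real.sqrt (Real.sinh (2 * x0)) : ℝ) * Complex.exp (Complex.I * (π / 4)))) := by
  set S := Real.sinh (2 * x0) with hS
  set C := Real.cosh (2 * x0) with hC
  have hS0 : 0 < S := Real.sinh_pos_iff.2 (by linarith)
  have hSC : S ≤ C := (Real.sinh_lt_cosh _).le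
  have hC0 : 0 < C := lt_of_lt_of_le hS0 hSC
  have hpi := Real.pi_pos
  have hB : ∀ t ∈ Set.Icc (0:ℝ) (π / 2), 0 ≤ qB x0 t := by
    intro t ht
    unfold qB
    have h1 : 0 ≤ Real.sin t := Real.sin_nonneg_of_nonneg_of_le_pi ht.1 (by linarith [ht.2])
    have h2 : 0 ≤ Real.cos t := Real.cos_nonneg_of_mem_Icc ⟨by linarith [ht.1], ht.2⟩
    positivity
  have hA : ∀ t, 0 ≤ qA x0 t := by
    intro t; unfold qA; positivity
  have hAR : ∀ t, qA x0 t ≤ qR x0 t := by
    intro t
    unfold qR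
    apply Real.le_sqrt_of_sq_le
    nlinarith [sq_nonneg (qB x0 t)]
  have hR2 : ∀ t, qR x0 t ^ 2 = qA x0 t ^ 2 + qB x0 t ^ 2 := by
    intro t; unfold qR; rw [Real.sq_sqrt (by positivity)]
  have hR0 : ∀ t, 0 ≤ qR x0 t := fun t => Real.sqrt_nonneg _
  have hsin : ∀ t ∈ Set.Icc (0:ℝ) (π / 2), 0 ≤ Real.sin t := fun t ht =>
    Real.sin_nonneg_of_nonneg_of_le_pi ht.1 (by linarith [ht.2])
  have hRle : ∀ t ∈ Set.Icc (0:ℝ) (π / 2), qR x0 t ≤ C * Real.sin t := by
    intro t ht
    have h1 := hsin t ht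
    unfold qR
    rw [Real.sqrt_le_left (by positivity)]
    unfold qA qB
    rw [← hS, ← hC]
    have h3 := Real.sin_sq_add_cos_sq t
    have h4 : S ^ 2 ≤ C ^ 2 := pow_le_pow_left₀ hS0.le hSC 2
    have h5 : (Real.sin t ^ 2 * C) ^ 2 + (Real.sin t * Real.cos t * S) ^ 2 =
        Real.sin t ^ 2 * (Real.sin t ^ 2 * C ^ 2 + Real.cos t ^ 2 * S ^ 2) := by ring
    rw [h5]
    have h6 : Real.sin t ^ 2 * C ^ 2 + Real.cos t ^ 2 * S ^ 2 ≤ C ^ 2 := by
      have h7 : Real.cos t ^ 2 * S ^ 2 ≤ Real.cos t ^ 2 * C ^ 2 :=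
        mul_le_mul_of_nonneg_left h4 (sq_nonneg _)
      nlinarith
    calc Real.sin t ^ 2 * (Real.sin t ^ 2 * C ^ 2 + Real.cos t ^ 2 * S ^ 2)
        ≤ Real.sin t ^ 2 * C ^ 2 := mul_le_mul_of_nonneg_left h6 (sq_nonneg _)
      _ = (C * Real.sin t) ^ 2 := by ring
  have hRge : ∀ t ∈ Set.Icc (0:ℝ) (π / 2), S * Real.sin t ≤ qR x0 t := by
    intro t ht
    have h1 := hsin t ht
    unfold qR
    apply Real.le_sqrt_of_sq_le
    unfold qA qB
    rw [← hS, ← hC]
    have h3 := Real.sin_sq_add_cos_sq t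
    have h4 : S ^ 2 ≤ C ^ 2 := pow_le_pow_left₀ hS0.le hSC 2
    have h5 : (Real.sin t ^ 2 * C) ^ 2 + (Real.sin t * Real.cos t * S) ^ 2 =
        Real.sin t ^ 2 * (Real.sin t ^ 2 * C ^ 2 + Real.cos t ^ 2 * S ^ 2) := by ring
    rw [h5]
    have h6 : S ^ 2 ≤ Real.sin t ^ 2 * C ^ 2 + Real.cos t ^ 2 * S ^ 2 := by
      have h7 : Real.sin t ^ 2 * S ^ 2 ≤ Real.sin t ^ 2 * C ^ 2 :=
        mul_le_mul_of_nonneg_left h4 (sq_nonneg _)
      nlinarith
    calc (S * Real.sin t) ^ 2 = Real.sin t ^ 2 * S ^ 2 := by ring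
      _ ≤ _ := mul_le_mul_of_nonneg_left h6 (sq_nonneg _)
  refine ⟨⟨c * Real.sqrt (S ^ 2 / (4 * π * C)), by positivity, 2 * c * Real.sqrt C, by positivity,
    ?_, ?_⟩, ?_⟩
  · intro t ht
    have hst := Real.mul_le_sin ht.1 ht.2
    have hsl := Real.sin_le ht.1
    have h1 := hsin t ht
    refine ⟨?_, ?_, ?_⟩
    · rw [Hc_top_im _ _ _ (hB t ht)]; positivity
    · rw [Hc_top_re, mul_assoc, ← Real.sqrt_mul (by positivity)]
      apply mul_le_mul_of_nonneg_left _ hc.le
      apply Real.sqrt_le_sqrt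
      have h2 := hRge t ht
      have h3 := hA t
      have h4 : S ^ 2 / (4 * π * C) * t ≤ S * Real.sin t / 2 := by
        have h5 : S ^ 2 / (4 * π * C) ≤ S / (4 * π) := by
          rw [div_le_div_iff₀ (by positivity) (by positivity)]
          nlinarith [mul_le_mul_of_nonneg_left hSC hS0.le, mul_pos hpi hS0,
            mul_le_mul_of_nonneg_left (mul_le_mul_of_nonneg_left hSC hS0.le) hpi.le]
        have h6 : S ^ 2 / (4 * π * C) * t ≤ S / (4 * π) * t := mul_le_mul_of_nonneg_right h5 ht.1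
        have h7 : S * (2 / π * t) ≤ S * Real.sin t := mul_le_mul_of_nonneg_left hst hS0.le
        have h8 : S / (4 * π) * t = S * (2 / π * t) / 8 := by field_simp; ring
        have h9 : 0 ≤ S * Real.sin t := by positivity
        linarith
      linarith
    · refine (Complex.norm_le_abs_re_add_abs_im _).trans ?_
      rw [Hc_top_re, Hc_top_im _ _ _ (hB t ht), abs_of_nonneg (by positivity),
        abs_of_nonneg (by positivity)]
      have h2 := hRle t ht
      have h3 := hA t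
      have h4 := hAR t
      have h5 : C * Real.sin t ≤ C * t := mul_le_mul_of_nonneg_left hsl hC0.le
      have h6 : Real.sqrt ((qR x0 t + qA x0 t) / 2) ≤ Real.sqrt C * Real.sqrt t := by
        rw [← Real.sqrt_mul hC0.le]
        apply Real.sqrt_le_sqrt
        linarith
      have h7 : Real.sqrt ((qR x0 t - qA x0 t) / 2) ≤ Real.sqrt C * Real.sqrt t := by
        rw [← Real.sqrt_mul hC0.le]
        apply Real.sqrt_le_sqrt
        have := hR0 t
        linarith
      nlinarith [mul_le_mul_of_nonneg_left h6 hc.le, mul_le_mul_of_nonneg_left h7 hc.le]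
  · intro t ht
    have ht' : t ∈ Set.Icc (0:ℝ) (π / 2) := ⟨ht.1, by linarith [ht.2]⟩
    have hst := Real.mul_le_sin ht'.1 ht'.2
    have h1 := hsin t ht'
    rw [Hc_top_im _ _ _ (hB t ht'), mul_assoc, ← Real.sqrt_mul (by positivity)]
    apply mul_le_mul_of_nonneg_left _ hc.le
    apply Real.sqrt_le_sqrt
    have hcos : 1 / 2 ≤ Real.cos t ^ 2 := by
      have h2 : Real.cos (π / 4) ≤ Real.cos t :=
        Real.cos_le_cos_of_nonneg_of_le_pi ht.1 (by linarith) ht.2
      rw [Real.cos_pi_div_four] at h2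
      have h3 : (Real.sqrt 2 / 2) ^ 2 ≤ Real.cos t ^ 2 := pow_le_pow_left₀ (by positivity) h2 2
      rw [div_pow, Real.sq_sqrt (by norm_num)] at h3
      linarith
    have h2 := hRle t ht'
    have h3 := hA t
    have h4 := hAR t
    have key : Real.sin t * S ^ 2 / (4 * C) ≤ qR x0 t - qA x0 t := by
      rcases h1.lt_or_eq with hs | hs
      · have h5 : (qR x0 t - qA x0 t) * (qR x0 t + qA x0 t) = qB x0 t ^ 2 := by
          have := hR2 t
          linarith [this]
        have h6 : (qR x0 t - qA x0 t) * (qR x0 t + qA x0 t) ≤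
            (qR x0 t - qA x0 t) * (2 * (C * Real.sin t)) :=
          mul_le_mul_of_nonneg_left (by linarith) (by linarith)
        have h7 : qB x0 t ^ 2 = Real.sin t ^ 2 * S ^ 2 * Real.cos t ^ 2 := by unfold qB; ring
        have h8 : Real.sin t ^ 2 * S ^ 2 * (1 / 2) ≤ Real.sin t ^ 2 * S ^ 2 * Real.cos t ^ 2 :=
          mul_le_mul_of_nonneg_left hcos (by positivity)
        rw [div_le_iff₀ (by positivity)]
        have h9 : Real.sin t * (Real.sin t * S ^ 2) ≤
            Real.sin t * ((qR x0 t - qA x0 t) * (4 * C)) := by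
          nlinarith
        exact le_of_mul_le_mul_left h9 hs
      · rw [← hs]
        simp only [zero_mul, zero_div]
        linarith
    have h10 : S ^ 2 / (4 * π * C) * t = (2 / π * t) * S ^ 2 / (4 * C) / 2 := by field_simp
    have h11 : (2 / π * t) * S ^ 2 / (4 * C) ≤ Real.sin t * S ^ 2 / (4 * C) := by
      apply div_le_div_of_nonneg_right _ (by positivity)
      exact mul_le_mul_of_nonneg_right hst (by positivity)
    rw [h10]
    linarith
  · have hs1 : Filter.Tendsto (fun t : ℝ => Real.sin t / t) (nhdsWithin 0 (Set.Ioi 0)) (nhds 1) := by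
      have h := (Real.hasDerivAt_sin 0).tendsto_slope_zero_right
      rw [Real.cos_zero] at h
      refine h.congr ?_
      intro t
      rw [zero_add, Real.sin_zero, sub_zero, smul_eq_mul]
      ring
    have hsc : Filter.Tendsto (fun t : ℝ => Real.sin t) (nhdsWithin 0 (Set.Ioi 0)) (nhds 0) := by
      have := (Real.continuous_sin.tendsto 0).mono_left (nhdsWithin_le_nhds (s := Set.Ioi 0))
      rwa [Real.sin_zero] at this
    have hcc : Filter.Tendsto (fun t : ℝ => Real.cos t) (nhdsWithin 0 (Set.Ioi 0)) (nhds 1) := by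
      have := (Real.continuous_cos.tendsto 0).mono_left (nhdsWithin_le_nhds (s := Set.Ioi 0))
      rwa [Real.cos_zero] at this
    have ha : Filter.Tendsto (fun t : ℝ => Real.sin t / t * (Real.sin t * C))
        (nhdsWithin 0 (Set.Ioi 0)) (nhds 0) := by
      have := hs1.mul (hsc.mul_const C)
      simpa using this
    have hb : Filter.Tendsto (fun t : ℝ => Real.sin t / t * (Real.cos t * S))
        (nhdsWithin 0 (Set.Ioi 0)) (nhds S) := by
      have := hs1.mul (hcc.mul_const S)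
      simpa using this
    have hr : Filter.Tendsto (fun t : ℝ => Real.sqrt ((Real.sin t / t * (Real.sin t * C)) ^ 2 +
        (Real.sin t / t * (Real.cos t * S)) ^ 2)) (nhdsWithin 0 (Set.Ioi 0)) (nhds S) := by
      have h1 := ((ha.pow 2).add (hb.pow 2)).sqrt
      have h2 : Real.sqrt (0 ^ 2 + S ^ 2) = S := by
        rw [zero_pow two_ne_zero, zero_add, Real.sqrt_sq hS0.le]
      rwa [h2] at h1
    have hre : Filter.Tendsto (fun t : ℝ => c * Real.sqrt ((Real.sqrt ((Real.sin t / t *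
        (Real.sin t * C)) ^ 2 + (Real.sin t / t * (Real.cos t * S)) ^ 2) +
        Real.sin t / t * (Real.sin t * C)) / 2)) (nhdsWithin 0 (Set.Ioi 0))
        (nhds (c * Real.sqrt (S / 2))) := by
      have h1 := (((hr.add ha).div_const 2).sqrt).const_mul c
      rwa [add_zero] at h1
    have him : Filter.Tendsto (fun t : ℝ => c * Real.sqrt ((Real.sqrt ((Real.sin t / t *
        (Real.sin t * C)) ^ 2 + (Real.sin t / t * (Real.cos t * S)) ^ 2) -
        Real.sin t / t * (Real.sin t * C)) / 2)) (nhdsWithin 0 (Set.Ioi 0))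
        (nhds (c * Real.sqrt (S / 2))) := by
      have h1 := (((hr.sub ha).div_const 2).sqrt).const_mul c
      rwa [sub_zero] at h1
    have hlim : ((c * Real.sqrt S : ℝ) : ℂ) * Complex.exp (Complex.I * (π / 4)) =
        ((c * Real.sqrt (S / 2) : ℝ) : ℂ) + ((c * Real.sqrt (S / 2) : ℝ) : ℂ) * Complex.I := by
      have e1 : (Complex.I * (π / 4) : ℂ) = ((π / 4 : ℝ) : ℂ) * Complex.I := by push_cast; ring
      rw [e1, Complex.exp_mul_I, ← Complex.ofReal_cos, ← Complex.ofReal_sin,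
        Real.cos_pi_div_four, Real.sin_pi_div_four]
      have e2 : Real.sqrt (S / 2) = Real.sqrt S * (Real.sqrt 2 / 2) := by
        rw [Real.sqrt_div' _ (by norm_num : (0:ℝ) ≤ 2)]
        have h2 : Real.sqrt 2 * Real.sqrt 2 = 2 := Real.mul_self_sqrt (by norm_num)
        have h3 : Real.sqrt 2 ≠ 0 := by positivity
        field_simp
        rw [sq, h2]
      rw [e2]
      push_cast
      ring
    rw [hlim]
    have hF := ((Complex.continuous_ofReal.tendsto _).comp hre).add
      (((Complex.continuous_ofReal.tendsto _).comp him).mul_const Complex.I)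
    refine hF.congr' ?_
    have hmem : Set.Ioo (0:ℝ) (π / 2) ∈ nhdsWithin (0:ℝ) (Set.Ioi 0) :=
      Ioo_mem_nhdsGT (by positivity)
    filter_upwards [hmem] with t ht
    have ht' : t ∈ Set.Icc (0:ℝ) (π / 2) := ⟨ht.1.le, ht.2.le⟩
    have ht0 : 0 < t := ht.1
    have hqa : Real.sin t / t * (Real.sin t * C) = qA x0 t / t := by
      unfold qA; rw [← hC]; ring
    have hqb : Real.sin t / t * (Real.cos t * S) = qB x0 t / t := by
      unfold qB; rw [← hS]; ring
    have hqr : Real.sqrt ((qA x0 t / t) ^ 2 + (qB x0 t / t) ^ 2) = qR x0 t / t := by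
      unfold qR
      rw [div_pow, div_pow, ← add_div, Real.sqrt_div' _ (by positivity), Real.sqrt_sq ht0.le]
    simp only [Function.comp_apply]
    rw [hqa, hqb, hqr]
    have e3 : (qR x0 t / t + qA x0 t / t) / 2 = ((qR x0 t + qA x0 t) / 2) / t := by ring
    have e4 : (qR x0 t / t - qA x0 t / t) / 2 = ((qR x0 t - qA x0 t) / 2) / t := by ring
    rw [e3, e4, Real.sqrt_div' _ ht0.le, Real.sqrt_div' _ ht0.le]
    conv_rhs => rw [← Complex.re_add_im (Hc c x0 (t + Complex.I * x0))]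
    rw [Hc_top_re, Hc_top_im _ _ _ (hB t ht')]
    have h5 : (Real.sqrt t : ℂ) ≠ 0 := by
      rw [Complex.ofReal_ne_zero]
      positivity
    push_cast
    field_simp

end

end Pool.Agent.Helper482.Stk.M_p2
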