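import Pool.Agent.Helper482.Stk.Defs
import Pool.Agent.Helper482.Stk.M_h1
import Pool.Agent.Helper482.Stk.M_p1

set_option autoImplicit false

namespace Pool.Agent.Helper482.Stk.M_p3

open Pool.Agent.Helper482.Stk
open Pool.Agent.Helper482.Stk.M_h1
open Pool.Agent.Helper482.Stk.M_p1
open Real MeasureTheory intervalIntegral

noncomputable section

theorem PhiG_rect (c x0 y x : ℝ) (hc : 0 < c) (hx : 0 < x0) (hy0 : 0 ≤ y) (hy : y ≤ x0) :
    PhiG c x0 y x = ((ph c x0 x : ℝ) : ℂ) +
      Complex.I * ∫ r in (0:ℝ)..y, Hc c x0 (x + Complex.I * r) := by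
  obtain ⟨h1, h2, h3, h4, h5, h6⟩ := Hc_basic c x0 hc hx
  have key := Complex.integral_boundary_rect_eq_zero_of_continuousOn_of_differentiableOn
    (Hc c x0) 0 ((x : ℂ) + Complex.I * y) (by
      refine h4.mono ?_
      rintro z ⟨-, hz⟩
      simp only [Set.mem_preimage, Complex.zero_im, Complex.add_im, Complex.ofReal_im,
        Complex.mul_im, Complex.I_re, Complex.I_im, Complex.ofReal_re, zero_mul, one_mul,
        zero_add] at hz
      rw [Set.uIcc_of_le hy0] at hz
      simp only [Set.mem_ofPred_eq]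
      rw [abs_of_nonneg hz.1]
      exact hz.2.trans hy) (by
      rintro z ⟨-, hz⟩
      simp only [Set.mem_preimage, Complex.zero_im, Complex.add_im, Complex.ofReal_im,
        Complex.mul_im, Complex.I_re, Complex.I_im, Complex.ofReal_re, zero_mul, one_mul,
        zero_add] at hz
      rw [min_eq_left hy0, max_eq_right hy0] at hz
      apply DifferentiableAt.differentiableWithinAt
      apply h5
      rw [abs_of_pos hz.1]
      exact hz.2.trans_le hy)
  simp only [Complex.zero_re, Complex.zero_im, Complex.add_re, Complex.add_im, Complex.ofReal_re,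
    Complex.ofReal_im, Complex.mul_re, Complex.mul_im, Complex.I_re, Complex.I_im, zero_mul,
    one_mul, mul_zero, sub_self, add_zero, zero_add, Complex.ofReal_zero, smul_eq_mul] at key
  have e1 : ∫ t in (0:ℝ)..x, Hc c x0 t = ((ph c x0 x : ℝ) : ℂ) := by
    unfold ph
    rw [← intervalIntegral.integral_ofReal]
    apply intervalIntegral.integral_congr
    intro t _
    exact h1 t
  rw [e1] at key
  unfold PhiG
  simp only [mul_comm Complex.I] at key ⊢
  linear_combination -key

theorem PhiG_basic (c x0 : ℝ) (hc : 0 < c) (hx : 0 < x0) :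
    (∀ x, PhiG c x0 0 x = ((ph c x0 x : ℝ) : ℂ)) ∧
    (∀ y ∈ Set.Icc 0 x0, ∀ x : ℝ, HasDerivAt (fun x : ℝ => PhiG c x0 y x)
      (Hc c x0 (x + Complex.I * y)) x) ∧
    (∀ y ∈ Set.Ioo 0 x0, ∀ x : ℝ, HasDerivAt (fun y => PhiG c x0 y x)
      (Complex.I * Hc c x0 (x + Complex.I * y)) y) ∧
    ContinuousOn (fun p : ℝ × ℝ => PhiG c x0 p.1 p.2) (Set.Icc 0 x0 ×ˢ Set.univ) ∧
    (∀ y ∈ Set.Icc 0 x0, ∀ x, PhiG c x0 y (x + π) = PhiG c x0 y x + ((ph c x0 π : ℝ) : ℂ)) ∧
    (∀ y ∈ Set.Icc 0 x0, ∀ x, PhiG c x0 y (-x) = -(starRingEnd ℂ (PhiG c x0 y x))) ∧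
    (∀ x, PhiG c x0 x0 x = (∫ t in (0:ℝ)..x, Hc c x0 (t + Complex.I * x0)) +
      Complex.I * S1 c x0) := by
  obtain ⟨h1, h2, h3, h4, h5, h6⟩ := Hc_basic c x0 hc hx
  obtain ⟨p1, p2, p3, p4, p5⟩ := ph_basic c x0 hc hx
  -- the clamped version
  have hclc : Continuous (fun r : ℝ => max 0 (min r x0)) := by fun_prop
  have hcl0 : ∀ r : ℝ, 0 ≤ max 0 (min r x0) := fun r => le_max_left _ _
  have hcl1 : ∀ r : ℝ, max 0 (min r x0) ≤ x0 := fun r => max_le hx.le (min_le_right _ _)
  have hcl2 : ∀ r ∈ Set.Icc 0 x0, max 0 (min r x0) = r := by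
    intro r hr
    rw [min_eq_left hr.2, max_eq_right hr.1]
  have hjc : Continuous (fun p : ℝ × ℝ => Hc c x0 ((p.1 : ℂ) + Complex.I * ((max 0 (min p.2 x0) : ℝ) : ℂ))) := by
    refine h4.comp_continuous (by fun_prop) ?_
    intro p
    simp only [Set.mem_ofPred_eq, Complex.add_im, Complex.ofReal_im, Complex.mul_im, Complex.I_re,
      Complex.I_im, Complex.ofReal_re, zero_mul, one_mul, zero_add]
    rw [abs_of_nonneg (hcl0 _)]
    exact hcl1 _
  have hF : ∀ y ∈ Set.Icc 0 x0, ∀ x, PhiG c x0 y x = ((ph c x0 x : ℝ) : ℂ) +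
      Complex.I * ∫ r in (0:ℝ)..y, Hc c x0 ((x : ℂ) + Complex.I * ((max 0 (min r x0) : ℝ) : ℂ)) := by
    intro y hy x
    rw [PhiG_rect c x0 y x hc hx hy.1 hy.2]
    congr 2
    apply intervalIntegral.integral_congr
    intro r hr
    rw [Set.uIcc_of_le hy.1] at hr
    simp only
    rw [hcl2 r ⟨hr.1, hr.2.trans hy.2⟩]
  refine ⟨?_, ?_, ?_, ?_, ?_, ?_, ?_⟩
  · intro x
    rw [PhiG_rect c x0 0 x hc hx le_rfl hx.le]
    simp
  · intro y hy x
    have hcont : Continuous (fun t : ℝ => Hc c x0 ((t : ℂ) + Complex.I * y)) := by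
      refine h4.comp_continuous (by fun_prop) ?_
      intro p
      simp only [Set.mem_ofPred_eq, Complex.add_im, Complex.ofReal_im, Complex.mul_im, Complex.I_re,
        Complex.I_im, Complex.ofReal_re, zero_mul, one_mul, zero_add]
      rw [abs_of_nonneg hy.1]
      exact hy.2
    have := (hcont.integral_hasStrictDerivAt 0 x).hasDerivAt
    unfold PhiG
    exact this.add_const _
  · intro y hy x
    have hcont : Continuous (fun r : ℝ => Hc c x0 ((x : ℂ) + Complex.I * ((max 0 (min r x0) : ℝ) : ℂ))) := by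
      have h := hjc.comp (Continuous.prodMk_right x)
      exact h
    have h7 := (hcont.integral_hasStrictDerivAt 0 y).hasDerivAt
    have h8 := (h7.const_mul Complex.I).const_add ((ph c x0 x : ℝ) : ℂ)
    have h9 := hcl2 y ⟨hy.1.le, hy.2.le⟩
    simp only [h9] at h8
    refine h8.congr_of_eventuallyEq ?_
    filter_upwards [Ioo_mem_nhds hy.1 hy.2] with z hz
    exact hF z ⟨hz.1.le, hz.2.le⟩ x
  · have hG : Continuous (fun p : ℝ × ℝ => ((ph c x0 p.2 : ℝ) : ℂ) +
      Complex.I * ∫ r in (0:ℝ)..p.1, Hc c x0 ((p.2 : ℂ) + Complex.I * ((max 0 (min r x0) : ℝ) : ℂ))) := by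
      have hph : Continuous (ph c x0) := (p5 0).continuous
      have hI : Continuous (fun p : ℝ × ℝ => ∫ r in (0:ℝ)..p.1, Hc c x0 ((p.2 : ℂ) + Complex.I * ((max 0 (min r x0) : ℝ) : ℂ))) := by
        apply intervalIntegral.continuous_parametric_intervalIntegral_of_continuous
          (f := fun (p : ℝ × ℝ) (r : ℝ) => Hc c x0 ((p.2 : ℂ) + Complex.I * ((max 0 (min r x0) : ℝ) : ℂ)))
        · have hpr : Continuous (fun q : (ℝ × ℝ) × ℝ => ((q.1.2, q.2) : ℝ × ℝ)) := by fun_prop
          have h := hjc.comp hpr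
          exact h
        · exact continuous_fst
      have h10 : Continuous (fun p : ℝ × ℝ => ((ph c x0 p.2 : ℝ) : ℂ)) :=
        Complex.continuous_ofReal.comp (hph.comp continuous_snd)
      exact h10.add (continuous_const.mul hI)
    refine hG.continuousOn.congr ?_
    rintro ⟨y, x⟩ ⟨hy, -⟩
    exact hF y hy x
  · intro y hy x
    rw [PhiG_rect c x0 y _ hc hx hy.1 hy.2, PhiG_rect c x0 y x hc hx hy.1 hy.2, p3]
    have e : ∀ r : ℝ, Hc c x0 (((x + π : ℝ) : ℂ) + Complex.I * r) = Hc c x0 ((x : ℂ) + Complex.I * r) := by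
      intro r
      rw [← h3 ((x : ℂ) + Complex.I * r)]
      congr 1
      push_cast
      ring
    simp only [e]
    push_cast
    ring
  · intro y hy x
    rw [PhiG_rect c x0 y _ hc hx hy.1 hy.2, PhiG_rect c x0 y x hc hx hy.1 hy.2, p2]
    have e : ∀ r ∈ Set.uIcc 0 y, Hc c x0 (((-x : ℝ) : ℂ) + Complex.I * r) =
        starRingEnd ℂ (Hc c x0 ((x : ℂ) + Complex.I * r)) := by
      intro r hr
      rw [Set.uIcc_of_le hy.1] at hr
      rw [← h6 ((x : ℂ) + Complex.I * r)]
      · congr 1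
        simp only [map_add, map_mul, Complex.conj_ofReal, Complex.conj_I]
        push_cast
        ring
      · simp only [Complex.add_im, Complex.ofReal_im, Complex.mul_im, Complex.I_re,
          Complex.I_im, Complex.ofReal_re, zero_mul, one_mul, zero_add]
        rw [abs_of_nonneg hr.1]
        exact hr.2.trans hy.2
    rw [intervalIntegral.integral_congr e]
    have e2 : ∫ r in (0:ℝ)..y, starRingEnd ℂ (Hc c x0 ((x : ℂ) + Complex.I * r)) =
        starRingEnd ℂ (∫ r in (0:ℝ)..y, Hc c x0 ((x : ℂ) + Complex.I * r)) := by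
      simp only [intervalIntegral, map_sub, integral_conj]
    rw [e2]
    simp only [map_add, map_mul, Complex.conj_ofReal, Complex.conj_I]
    push_cast
    ring
  · intro x
    unfold PhiG S1
    congr 2
    rw [← intervalIntegral.integral_ofReal]
    apply intervalIntegral.integral_congr
    intro r hr
    rw [Set.uIcc_of_le hx.le] at hr
    apply h2
    rw [abs_of_nonneg hr.1]
    exact hr.2

end

end Pool.Agent.Helper482.Stk.M_p3
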