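import Pool.Agent.Helper482.Stk.Defs
import Pool.Agent.Helper482.Stk.M_p1
import Pool.Agent.Helper482.Stk.M_p2
import Pool.Agent.Helper482.Stk.M_p3

set_option autoImplicit false

namespace Pool.Agent.Helper482.Stk.M_p7

open Pool.Agent.Helper482.Stk
open Pool.Agent.Helper482.Stk.M_p1
open Pool.Agent.Helper482.Stk.M_p2
open Pool.Agent.Helper482.Stk.M_p3
open Real MeasureTheory intervalIntegral

noncomputable section

theorem Phi_top_int_sqrt (x : ℝ) (hx : 0 ≤ x) :
    ∫ t in (0:ℝ)..x, Real.sqrt t = 2 / 3 * x ^ (3 / 2 : ℝ) := by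
  have h1 : ∀ t : ℝ, Real.sqrt t = t ^ (1 / 2 : ℝ) := fun t => Real.sqrt_eq_rpow t
  simp only [h1]
  rw [integral_rpow (Or.inl (by norm_num))]
  have h2 : (1 / 2 : ℝ) + 1 = 3 / 2 := by norm_num
  rw [h2, Real.zero_rpow (by norm_num)]
  ring

theorem Phi_top (c x0 : ℝ) (hc : 0 < c) (hx : 0 < x0) :
    0 < S1 c x0 ∧
    (∃ m > 0, ∃ M > 0, ∀ x ∈ Set.Icc (0:ℝ) (π / 2),
      S1 c x0 + m * x ^ (3 / 2 : ℝ) ≤ (PhiG c x0 x0 x).im ∧
      (PhiG c x0 x0 x).im ≤ S1 c x0 + M * x ^ (3 / 2 : ℝ)) ∧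
    Filter.Tendsto (fun x : ℝ => (PhiG c x0 x0 x - Complex.I * S1 c x0) / ((x ^ (3 / 2 : ℝ) : ℝ) : ℂ))
      (nhdsWithin 0 (Set.Ioi 0))
      (nhds ((2 / 3 * c * Real.sqrt (Real.sinh (2 * x0)) : ℝ) *
        Complex.exp (Complex.I * (π / 4)))) := by
  obtain ⟨-, -, -, hcontH, -, -⟩ := Hc_basic c x0 hc hx
  obtain ⟨⟨m, hm, M, hM, hall, hlow⟩, hlim⟩ := Hc_top c x0 hc hx
  obtain ⟨-, -, -, -, -, -, hP⟩ := PhiG_basic c x0 hc hx
  set g : ℝ → ℂ := fun t => Hc c x0 (t + Complex.I * x0) with hg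
  have hgc : Continuous g := by
    rw [hg]
    refine hcontH.comp_continuous (by fun_prop) fun t => ?_
    simp [abs_of_pos hx]
  have hgi : ∀ a b, IntervalIntegrable g volume a b := fun a b => hgc.intervalIntegrable a b
  have hgim : Continuous fun t => (g t).im := Complex.continuous_im.comp hgc
  have him : ∀ x, (∫ t in (0:ℝ)..x, g t).im = ∫ t in (0:ℝ)..x, (g t).im := fun x =>
    (Complex.imCLM.intervalIntegral_comp_comm (hgi 0 x)).symm
  have hPim : ∀ x, (PhiG c x0 x0 x).im = S1 c x0 + ∫ t in (0:ℝ)..x, (g t).im := by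
    intro x
    rw [hP, Complex.add_im, ← him]
    simp [hg, add_comm]
  have hsq : ∀ (C a b : ℝ), IntervalIntegrable (fun t => C * Real.sqrt t) volume a b := fun C a b =>
    (continuous_const.mul Real.continuous_sqrt).intervalIntegrable a b
  refine ⟨?_, ?_, ?_⟩
  · unfold S1
    refine intervalIntegral.intervalIntegral_pos_of_pos_on ?_ ?_ hx
    · refine Continuous.intervalIntegrable ?_ _ _
      exact continuous_const.mul (Real.continuous_sqrt.comp
        (continuous_const.sub (Real.continuous_sinh.pow 2)))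
    · intro s hs
      refine mul_pos hc (Real.sqrt_pos.2 ?_)
      have h1 : Real.sinh s < Real.sinh x0 := Real.sinh_lt_sinh.2 hs.2
      have h2 : 0 < Real.sinh s := Real.sinh_pos_iff.2 hs.1
      nlinarith
  · refine ⟨2 / 3 * m * (1 / 2 : ℝ) ^ (3 / 2 : ℝ), by positivity, 2 / 3 * M, by positivity, ?_⟩
    intro x hxm
    have hx0 : 0 ≤ x := hxm.1
    rw [hPim]
    constructor
    · have h1 : ∫ t in (0:ℝ)..(x / 2), m * Real.sqrt t ≤ ∫ t in (0:ℝ)..(x / 2), (g t).im := by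
        refine intervalIntegral.integral_mono_on (by linarith) (hsq _ _ _)
          (hgim.intervalIntegrable _ _) fun t ht => ?_
        refine hlow t ⟨ht.1, ?_⟩
        have := hxm.2
        linarith [ht.2]
      rw [intervalIntegral.integral_const_mul, Phi_top_int_sqrt _ (by linarith)] at h1
      have h2 : 0 ≤ ∫ t in (x / 2)..x, (g t).im := by
        refine intervalIntegral.integral_nonneg (by linarith) fun t ht => ?_
        refine (hall t ⟨?_, ?_⟩).1
        · linarith [ht.1]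
        · linarith [ht.2, hxm.2]
      have h3 : ∫ t in (0:ℝ)..x, (g t).im =
          (∫ t in (0:ℝ)..(x / 2), (g t).im) + ∫ t in (x / 2)..x, (g t).im :=
        (intervalIntegral.integral_add_adjacent_intervals (hgim.intervalIntegrable _ _)
          (hgim.intervalIntegrable _ _)).symm
      have h4 : (x / 2) ^ (3 / 2 : ℝ) = (1 / 2 : ℝ) ^ (3 / 2 : ℝ) * x ^ (3 / 2 : ℝ) := by
        rw [← Real.mul_rpow (by norm_num) hx0]
        congr 1
        ring
      rw [h4] at h1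
      rw [h3]
      nlinarith
    · have h1 : ∫ t in (0:ℝ)..x, (g t).im ≤ ∫ t in (0:ℝ)..x, M * Real.sqrt t := by
        refine intervalIntegral.integral_mono_on hx0 (hgim.intervalIntegrable _ _) (hsq _ _ _)
          fun t ht => ?_
        have h2 := (hall t ⟨ht.1, ht.2.trans hxm.2⟩).2.2
        exact (Complex.abs_im_le_norm _ |>.trans' (le_abs_self _)).trans h2
      rw [intervalIntegral.integral_const_mul, Phi_top_int_sqrt _ hx0] at h1
      linarith
  · set L : ℂ := (c * Real.sqrt (Real.sinh (2 * x0)) : ℝ) * Complex.exp (Complex.I * (π / 4))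
      with hL
    have hL2 : ((2 / 3 * c * Real.sqrt (Real.sinh (2 * x0)) : ℝ) : ℂ) *
        Complex.exp (Complex.I * (π / 4)) = 2 / 3 * L := by
      rw [hL]
      push_cast
      ring
    rw [hL2, Metric.tendsto_nhdsWithin_nhds]
    intro ε hε
    obtain ⟨δ, hδ, hδ2⟩ := Metric.tendsto_nhdsWithin_nhds.1 hlim ε hε
    refine ⟨δ, hδ, fun x hx0 hxδ => ?_⟩
    have hx0' : 0 < x := hx0
    rw [Real.dist_eq, sub_zero, abs_of_pos hx0'] at hxδ
    have hPsi : PhiG c x0 x0 x - Complex.I * S1 c x0 = ∫ t in (0:ℝ)..x, g t := by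
      rw [hP]
      ring
    rw [hPsi]
    have hxp : 0 < x ^ (3 / 2 : ℝ) := Real.rpow_pos_of_pos hx0' _
    have hsqc : Continuous fun t : ℝ => L * ((Real.sqrt t : ℝ) : ℂ) :=
      continuous_const.mul (Complex.continuous_ofReal.comp Real.continuous_sqrt)
    have h1 : ∫ t in (0:ℝ)..x, (g t - L * ((Real.sqrt t : ℝ) : ℂ)) =
        (∫ t in (0:ℝ)..x, g t) - 2 / 3 * L * ((x ^ (3 / 2 : ℝ) : ℝ) : ℂ) := by
      rw [intervalIntegral.integral_sub (hgi 0 x) (hsqc.intervalIntegrable _ _),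
        intervalIntegral.integral_const_mul, intervalIntegral.integral_ofReal,
        Phi_top_int_sqrt x hx0'.le]
      push_cast
      ring
    have h2 : ‖∫ t in (0:ℝ)..x, (g t - L * ((Real.sqrt t : ℝ) : ℂ))‖ ≤
        ∫ t in (0:ℝ)..x, ε * Real.sqrt t := by
      refine intervalIntegral.norm_integral_le_of_norm_le hx0'.le (ae_of_all _ fun t ht => ?_)
        (hsq _ _ _)
      have ht0 : 0 < t := ht.1
      have hst : 0 < Real.sqrt t := Real.sqrt_pos.2 ht0
      have h3 := hδ2 (show t ∈ Set.Ioi (0 : ℝ) from ht0) (by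
        rw [Real.dist_eq, sub_zero, abs_of_pos ht0]
        exact lt_of_le_of_lt ht.2 hxδ)
      rw [dist_eq_norm] at h3
      have hsC : ((Real.sqrt t : ℝ) : ℂ) ≠ 0 := by exact_mod_cast hst.ne'
      have h4 : g t - L * ((Real.sqrt t : ℝ) : ℂ) =
          (g t / ((Real.sqrt t : ℝ) : ℂ) - L) * ((Real.sqrt t : ℝ) : ℂ) := by
        field_simp
      rw [h4, norm_mul, Complex.norm_real, Real.norm_eq_abs, abs_of_pos hst]
      exact mul_le_mul_of_nonneg_right h3.le hst.le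
    rw [h1, intervalIntegral.integral_const_mul, Phi_top_int_sqrt x hx0'.le] at h2
    rw [dist_eq_norm]
    have hxC : ((x ^ (3 / 2 : ℝ) : ℝ) : ℂ) ≠ 0 := by exact_mod_cast hxp.ne'
    have h5 : (∫ t in (0:ℝ)..x, g t) / ((x ^ (3 / 2 : ℝ) : ℝ) : ℂ) - 2 / 3 * L =
        ((∫ t in (0:ℝ)..x, g t) - 2 / 3 * L * ((x ^ (3 / 2 : ℝ) : ℝ) : ℂ)) /
          ((x ^ (3 / 2 : ℝ) : ℝ) : ℂ) := by
      field_simp
    rw [h5, norm_div, Complex.norm_real, Real.norm_eq_abs, abs_of_pos hxp, div_lt_iff₀ hxp]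
    refine lt_of_le_of_lt h2 ?_
    nlinarith [mul_pos hε hxp]

end

end Pool.Agent.Helper482.Stk.M_p7
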