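import Pool.Agent.Helper482.Stk.Defs

set_option autoImplicit false

namespace Pool.Agent.Helper482.Stk.M_t1

open Pool.Agent.Helper482.Stk
open Real MeasureTheory intervalIntegral

noncomputable section

theorem tk_tanh_eq (x : ℝ) : Real.tanh x = (1 - Real.exp (-(2 * x))) / (1 + Real.exp (-(2 * x))) := by
  have h1 : Real.exp (-x) = Real.exp x * Real.exp (-(2 * x)) := by
    rw [← Real.exp_add]; congr 1; ring
  have h2 : 0 < Real.exp x := Real.exp_pos x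
  have h3 : 0 < Real.exp (-(2 * x)) := Real.exp_pos _
  rw [Real.tanh_eq_sinh_div_cosh, Real.sinh_eq, Real.cosh_eq, h1]
  field_simp

theorem tk_main (x0 : ℝ) (hx : 0 < x0) (n : ℤ) (hn : 1 ≤ n) :
    0 < Real.tanh (n * x0) ∧
    |Real.tanh (n * x0) - 1| ≤ 2 / (1 - Real.exp (-(2 * x0))) * Real.exp (-(2 * x0 * n)) ∧
    |(Real.tanh (n * x0))⁻¹ - 1| ≤ 2 / (1 - Real.exp (-(2 * x0))) * Real.exp (-(2 * x0 * n)) := by
  have hn' : (1 : ℝ) ≤ n := by exact_mod_cast hn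
  have e1 : -(2 * ((n : ℝ) * x0)) = -(2 * x0 * n) := by ring
  have ha : 0 < Real.exp (-(2 * x0 * n)) := Real.exp_pos _
  have hb : Real.exp (-(2 * x0 * n)) ≤ Real.exp (-(2 * x0)) := by
    apply Real.exp_le_exp.2
    nlinarith
  have hc : Real.exp (-(2 * x0)) < 1 := by
    rw [Real.exp_lt_one_iff]; linarith
  rw [tk_tanh_eq, e1]
  set a := Real.exp (-(2 * x0 * n)) with hadef
  set b := Real.exp (-(2 * x0)) with hbdef
  have hb0 : 0 < b := Real.exp_pos _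
  have h1b : 0 < 1 - b := by linarith
  have h1a : 0 < 1 - a := by linarith
  have h1a' : 0 < 1 + a := by linarith
  refine ⟨by positivity, ?_, ?_⟩
  · have e2 : (1 - a) / (1 + a) - 1 = -(2 * a / (1 + a)) := by
      field_simp; ring
    rw [e2, abs_neg, abs_of_nonneg (by positivity), div_mul_eq_mul_div]
    rw [div_le_div_iff₀ h1a' h1b]
    nlinarith
  · have e2 : ((1 - a) / (1 + a))⁻¹ - 1 = 2 * a / (1 - a) := by
      field_simp; ring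
    rw [e2, abs_of_nonneg (by positivity), div_mul_eq_mul_div]
    apply div_le_div_of_nonneg_left (by positivity) h1b (by linarith)

theorem tk_K (x0 : ℝ) (hx : 0 < x0) : 0 < 2 / (1 - Real.exp (-(2 * x0))) := by
  have hc : Real.exp (-(2 * x0)) < 1 := by
    rw [Real.exp_lt_one_iff]; linarith
  have : 0 < 1 - Real.exp (-(2 * x0)) := by linarith
  positivity

theorem tauOK_tanh (x0 : ℝ) (hx : 0 < x0) :
    ∃ K, TauOK x0 K (fun n : ℤ => Real.tanh (n * x0)) := by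
  refine ⟨2 / (1 - Real.exp (-(2 * x0))), tk_K x0 hx, by simp, ?_, ?_⟩
  · intro n
    show Real.tanh (((-n : ℤ) : ℝ) * x0) = - Real.tanh ((n : ℝ) * x0)
    rw [← Real.tanh_neg]
    push_cast
    congr 1
    ring
  · intro n hn
    exact tk_main x0 hx n hn

theorem tauOK_coth (x0 : ℝ) (hx : 0 < x0) :
    ∃ K, TauOK x0 K (fun n : ℤ => (Real.tanh (n * x0))⁻¹) := by
  refine ⟨2 / (1 - Real.exp (-(2 * x0))), tk_K x0 hx, by simp, ?_, ?_⟩
  · intro n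
    show (Real.tanh (((-n : ℤ) : ℝ) * x0))⁻¹ = - (Real.tanh ((n : ℝ) * x0))⁻¹
    rw [← inv_neg, ← Real.tanh_neg]
    push_cast
    congr 2
    ring
  · intro n hn
    obtain ⟨h1, h2, h3⟩ := tk_main x0 hx n hn
    refine ⟨inv_pos.2 h1, h3, ?_⟩
    show |((Real.tanh ((n : ℝ) * x0))⁻¹)⁻¹ - 1| ≤ _
    rw [inv_inv]
    exact h2

theorem tau_bd_pos (x0 K : ℝ) (τ : ℤ → ℝ) (hx : 0 < x0) (h : TauOK x0 K τ) (n : ℤ) (hn : 1 ≤ n) :
    |τ n| ≤ 1 + K ∧ |(τ n)⁻¹| ≤ 1 + K := by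
  obtain ⟨hK, h0, hodd, hm⟩ := h
  obtain ⟨h1, h2, h3⟩ := hm n hn
  have hn' : (1 : ℝ) ≤ n := by exact_mod_cast hn
  have he : Real.exp (-(2 * x0 * n)) ≤ 1 := by
    rw [Real.exp_le_one_iff]
    have : 0 ≤ 2 * x0 * (n : ℝ) := by positivity
    linarith
  have he' : K * Real.exp (-(2 * x0 * n)) ≤ K := by nlinarith
  rw [abs_le] at h2 h3
  rw [abs_of_pos h1, abs_of_pos (inv_pos.2 h1)]
  constructor <;> linarith

theorem tau_bd (x0 K : ℝ) (τ : ℤ → ℝ) (hx : 0 < x0) (h : TauOK x0 K τ) (n : ℤ) :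
    |τ n| ≤ 1 + K ∧ |(τ n)⁻¹| ≤ 1 + K := by
  rcases lt_trichotomy n 0 with hn | hn | hn
  · have h1 := tau_bd_pos x0 K τ hx h (-n) (by omega)
    rw [h.2.2.1 n, abs_neg, inv_neg, abs_neg] at h1
    exact h1
  · subst hn
    have hK := h.1
    rw [h.2.1]
    simp
    linarith
  · exact tau_bd_pos x0 K τ hx h n (by omega)

theorem tk_expbd (κ : ℝ) (hκ : 0 < κ) (x : ℝ) (hx : 0 ≤ x) :
    (1 + x ^ 2) ^ 2 * Real.exp (-(κ * x)) ≤ 2 * (1 + 24 / κ ^ 4) := by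
  have h1 : (κ * x) ^ 4 / (Nat.factorial 4 : ℝ) ≤ Real.exp (κ * x) :=
    Real.pow_div_factorial_le_exp (κ * x) (by positivity) 4
  have h1' : (κ * x) ^ 4 ≤ 24 * Real.exp (κ * x) := by
    have : (Nat.factorial 4 : ℝ) = 24 := by norm_num [Nat.factorial]
    rw [this] at h1
    linarith [(div_le_iff₀ (by norm_num : (0 : ℝ) < 24)).1 h1]
  have h2 : (1 : ℝ) ≤ Real.exp (κ * x) := Real.one_le_exp (by positivity)
  rw [Real.exp_neg, ← div_eq_mul_inv, div_le_iff₀ (Real.exp_pos _)]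
  have h3 : x ^ 4 ≤ 24 / κ ^ 4 * Real.exp (κ * x) := by
    rw [div_mul_eq_mul_div, le_div_iff₀ (by positivity)]
    calc x ^ 4 * κ ^ 4 = (κ * x) ^ 4 := by ring
      _ ≤ _ := h1'
  have h4 : (1 + x ^ 2) ^ 2 ≤ 2 * (1 + x ^ 4) := by nlinarith [sq_nonneg (x ^ 2 - 1)]
  nlinarith

theorem tk_diff_pos (x0 K : ℝ) (τ : ℤ → ℝ) (h : TauOK x0 K τ) (n m : ℤ) (hn : 1 ≤ n) (hm : 1 ≤ m) :
    |(τ n)⁻¹ - τ m| ≤ K * Real.exp (-(2 * x0 * |(n : ℝ)|)) + K * Real.exp (-(2 * x0 * |(m : ℝ)|)) := by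
  have hn' : (1 : ℝ) ≤ n := by exact_mod_cast hn
  have hm' : (1 : ℝ) ≤ m := by exact_mod_cast hm
  obtain ⟨-, -, h3⟩ := h.2.2.2 n hn
  obtain ⟨-, h2, -⟩ := h.2.2.2 m hm
  rw [abs_of_pos (by linarith : (0 : ℝ) < n), abs_of_pos (by linarith : (0 : ℝ) < m)]
  have e : (τ n)⁻¹ - τ m = ((τ n)⁻¹ - 1) - (τ m - 1) := by ring
  rw [e]
  exact (abs_sub _ _).trans (add_le_add h3 h2)

theorem tk_diff (x0 K : ℝ) (τ : ℤ → ℝ) (h : TauOK x0 K τ) (n m : ℤ)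
    (hnm : (1 ≤ n ∧ 1 ≤ m) ∨ (n ≤ -1 ∧ m ≤ -1)) :
    |(τ n)⁻¹ - τ m| ≤ K * Real.exp (-(2 * x0 * |(n : ℝ)|)) + K * Real.exp (-(2 * x0 * |(m : ℝ)|)) := by
  rcases hnm with ⟨h1, h2⟩ | ⟨h1, h2⟩
  · exact tk_diff_pos x0 K τ h n m h1 h2
  · have h3 := tk_diff_pos x0 K τ h (-n) (-m) (by omega) (by omega)
    rw [h.2.2.1 n, h.2.2.1 m] at h3
    push_cast at h3
    rw [abs_neg (n : ℝ), abs_neg (m : ℝ)] at h3
    have e : (-τ n)⁻¹ - -τ m = -((τ n)⁻¹ - τ m) := by rw [inv_neg]; ring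
    rw [e, abs_neg] at h3
    exact h3

theorem ker_weight (x0 K : ℝ) (τ : ℤ → ℝ) (hx : 0 < x0) (h : TauOK x0 K τ) :
    ∃ C > 0, ∀ n m : ℤ, (1 + (m : ℝ) ^ 2) * |(τ n)⁻¹ - τ m| ≤
      C * (1 + |((n - m : ℤ) : ℝ)|) ^ 4 / (1 + (n : ℝ) ^ 2) := by
  have hK := h.1
  set B : ℝ := 2 * (1 + 24 / (2 * x0) ^ 4) with hB
  have hB0 : 0 < B := by positivity
  refine ⟨4 * K * B + 2 * (1 + K), by positivity, ?_⟩
  intro n m
  rw [le_div_iff₀ (by positivity)]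
  push_cast
  set N : ℝ := (n : ℝ) with hN
  set M : ℝ := (m : ℝ) with hM
  have hj : 0 ≤ |N - M| := abs_nonneg _
  have hjj : (N - M) ^ 2 = |N - M| ^ 2 := (sq_abs _).symm
  have hJ4 : 1 + (N - M) ^ 2 ≤ (1 + |N - M|) ^ 4 := by
    rw [hjj]
    have : (1 : ℝ) ≤ (1 + |N - M|) ^ 2 := by nlinarith
    have e : (1 + |N - M|) ^ 4 = (1 + |N - M|) ^ 2 * (1 + |N - M|) ^ 2 := by ring
    rw [e]
    nlinarith
  by_cases hc : (1 ≤ n ∧ 1 ≤ m) ∨ (n ≤ -1 ∧ m ≤ -1)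
  · have hd := tk_diff x0 K τ h n m hc
    have b1 := tk_expbd (2 * x0) (by positivity) |N| (abs_nonneg _)
    have b2 := tk_expbd (2 * x0) (by positivity) |M| (abs_nonneg _)
    rw [sq_abs] at b1 b2
    rw [← hB] at b1 b2
    set en := Real.exp (-(2 * x0 * |N|)) with hen
    set em := Real.exp (-(2 * x0 * |M|)) with hem
    have hen0 : 0 < en := Real.exp_pos _
    have hem0 : 0 < em := Real.exp_pos _
    have i1 : 1 + M ^ 2 ≤ 2 * (1 + (N - M) ^ 2) * (1 + N ^ 2) := by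
      nlinarith [sq_nonneg (N - M), sq_nonneg (2 * N - M), sq_nonneg N, mul_nonneg (sq_nonneg (N - M)) (sq_nonneg N)]
    have i2 : 1 + N ^ 2 ≤ 2 * (1 + (N - M) ^ 2) * (1 + M ^ 2) := by
      nlinarith [sq_nonneg (N - M), sq_nonneg (2 * M - N), sq_nonneg M, mul_nonneg (sq_nonneg (N - M)) (sq_nonneg M)]
    have p1 : (1 + M ^ 2) * (1 + N ^ 2) * en ≤ 2 * B * (1 + |N - M|) ^ 4 := by
      calc (1 + M ^ 2) * (1 + N ^ 2) * en
          ≤ (2 * (1 + (N - M) ^ 2) * (1 + N ^ 2)) * (1 + N ^ 2) * en := by gcongr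
        _ = 2 * (1 + (N - M) ^ 2) * ((1 + N ^ 2) ^ 2 * en) := by ring
        _ ≤ 2 * (1 + (N - M) ^ 2) * B := by gcongr
        _ ≤ 2 * (1 + |N - M|) ^ 4 * B := by gcongr
        _ = _ := by ring
    have p2 : (1 + M ^ 2) * (1 + N ^ 2) * em ≤ 2 * B * (1 + |N - M|) ^ 4 := by
      calc (1 + M ^ 2) * (1 + N ^ 2) * em
          ≤ (1 + M ^ 2) * (2 * (1 + (N - M) ^ 2) * (1 + M ^ 2)) * em := by gcongr
        _ = 2 * (1 + (N - M) ^ 2) * ((1 + M ^ 2) ^ 2 * em) := by ring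
        _ ≤ 2 * (1 + (N - M) ^ 2) * B := by gcongr
        _ ≤ 2 * (1 + |N - M|) ^ 4 * B := by gcongr
        _ = _ := by ring
    calc (1 + M ^ 2) * |(τ n)⁻¹ - τ m| * (1 + N ^ 2)
        ≤ (1 + M ^ 2) * (K * en + K * em) * (1 + N ^ 2) := by gcongr
      _ = K * ((1 + M ^ 2) * (1 + N ^ 2) * en) + K * ((1 + M ^ 2) * (1 + N ^ 2) * em) := by ring
      _ ≤ K * (2 * B * (1 + |N - M|) ^ 4) + K * (2 * B * (1 + |N - M|) ^ 4) := by gcongr
      _ = (4 * K * B) * (1 + |N - M|) ^ 4 := by ring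
      _ ≤ (4 * K * B + 2 * (1 + K)) * (1 + |N - M|) ^ 4 := by
          have : 0 ≤ (1 + |N - M|) ^ 4 := by positivity
          nlinarith
  · have hb1 := (tau_bd x0 K τ hx h n).2
    have hb2 := (tau_bd x0 K τ hx h m).1
    have hd : |(τ n)⁻¹ - τ m| ≤ 2 * (1 + K) := by
      refine (abs_sub _ _).trans ?_
      linarith
    have hneg : N * M ≤ 0 := by
      have : n * m ≤ 0 := by
        by_contra hpos
        push Not at hpos
        apply hc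
        rcases pos_and_pos_or_neg_and_neg_of_mul_pos hpos with ⟨h1, h2⟩ | ⟨h1, h2⟩
        · left; omega
        · right; omega
      rw [hN, hM]
      exact_mod_cast this
    have q : (1 + M ^ 2) * (1 + N ^ 2) ≤ (1 + |N - M|) ^ 4 := by
      have h1 : 1 + M ^ 2 ≤ 1 + (N - M) ^ 2 := by nlinarith [sq_nonneg N]
      have h2 : 1 + N ^ 2 ≤ 1 + (N - M) ^ 2 := by nlinarith [sq_nonneg M]
      have h3 : 1 + (N - M) ^ 2 ≤ (1 + |N - M|) ^ 2 := by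
        rw [hjj]; nlinarith
      calc (1 + M ^ 2) * (1 + N ^ 2) ≤ (1 + |N - M|) ^ 2 * (1 + |N - M|) ^ 2 := by
            gcongr
            · exact h1.trans h3
            · exact h2.trans h3
        _ = _ := by ring
    calc (1 + M ^ 2) * |(τ n)⁻¹ - τ m| * (1 + N ^ 2)
        ≤ (1 + M ^ 2) * (2 * (1 + K)) * (1 + N ^ 2) := by gcongr
      _ = 2 * (1 + K) * ((1 + M ^ 2) * (1 + N ^ 2)) := by ring
      _ ≤ 2 * (1 + K) * (1 + |N - M|) ^ 4 := by gcongr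
      _ ≤ (4 * K * B + 2 * (1 + K)) * (1 + |N - M|) ^ 4 := by
          have : 0 ≤ (1 + |N - M|) ^ 4 := by positivity
          have : 0 ≤ K * B := by positivity
          nlinarith

end

end Pool.Agent.Helper482.Stk.M_t1
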