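import Pool.Agent.Helper482.Stk.Defs
import Pool.Agent.Helper482.Stk.M_t1

set_option autoImplicit false

namespace Pool.Agent.Helper482.Stk.M_t2

open Pool.Agent.Helper482.Stk
open Pool.Agent.Helper482.Stk.M_t1
open Real MeasureTheory intervalIntegral

noncomputable section

theorem conv_hasSum (g : ℤ → ℝ) (hs : Summable g) (n : ℤ) (B : ℝ) :
    HasSum (fun m : ℤ => B * g (n - m)) (B * ∑' j, g j) :=
  ((Equiv.subLeft n).hasSum_iff.2 hs.hasSum).mul_left B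

theorem conv_abs_le (n m : ℤ) : 1 + |(m : ℝ)| ≤ (1 + |(n : ℝ)|) * (1 + |((n - m : ℤ) : ℝ)|) := by
  have h1 : (m : ℝ) = (n : ℝ) - ((n - m : ℤ) : ℝ) := by push_cast; ring
  have h2 : |(m : ℝ)| ≤ |(n : ℝ)| + |((n - m : ℤ) : ℝ)| := by
    conv_lhs => rw [h1]
    exact abs_sub _ _
  have h3 : 0 ≤ |(n : ℝ)| * |((n - m : ℤ) : ℝ)| := by positivity
  nlinarith

theorem ker_bd (x0 K : ℝ) (τ : ℤ → ℝ) (hx : 0 < x0) (h : TauOK x0 K τ) (hj : ℤ → ℂ)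
    (hs : Summable (fun j : ℤ => ‖hj j‖ * (1 + |(j : ℝ)|) ^ 4)) :
    ∃ C > 0, ∀ (x : ℤ → ℂ) (V : ℝ), 0 ≤ V → (∀ m : ℤ, ‖x m‖ ≤ V * (1 + (m : ℝ) ^ 2)) → ∀ n : ℤ,
      Summable (fun m : ℤ => hj (n - m) * x m * (((τ n)⁻¹ - τ m : ℝ) : ℂ)) ∧
      ‖∑' m : ℤ, hj (n - m) * x m * (((τ n)⁻¹ - τ m : ℝ) : ℂ)‖ ≤ C * V / (1 + (n : ℝ) ^ 2) := by
  obtain ⟨C0, hC0, hker⟩ := ker_weight x0 K τ hx h
  set g : ℤ → ℝ := fun j : ℤ => ‖hj j‖ * (1 + |(j : ℝ)|) ^ 4 with hg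
  have hg0 : ∀ j, 0 ≤ g j := fun j => by positivity
  have hS0 : 0 ≤ ∑' j, g j := tsum_nonneg hg0
  refine ⟨C0 * (∑' j, g j + 1), by positivity, ?_⟩
  intro x V hV hxV n
  have hterm : ∀ m : ℤ, ‖hj (n - m) * x m * (((τ n)⁻¹ - τ m : ℝ) : ℂ)‖ ≤
      (C0 * V / (1 + (n : ℝ) ^ 2)) * g (n - m) := by
    intro m
    rw [norm_mul, norm_mul, Complex.norm_real, Real.norm_eq_abs]
    calc ‖hj (n - m)‖ * ‖x m‖ * |(τ n)⁻¹ - τ m|
        ≤ ‖hj (n - m)‖ * (V * (1 + (m : ℝ) ^ 2)) * |(τ n)⁻¹ - τ m| := by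
          gcongr
          exact hxV m
      _ = ‖hj (n - m)‖ * V * ((1 + (m : ℝ) ^ 2) * |(τ n)⁻¹ - τ m|) := by ring
      _ ≤ ‖hj (n - m)‖ * V * (C0 * (1 + |((n - m : ℤ) : ℝ)|) ^ 4 / (1 + (n : ℝ) ^ 2)) := by
          refine mul_le_mul_of_nonneg_left (hker n m) (by positivity)
      _ = (C0 * V / (1 + (n : ℝ) ^ 2)) * g (n - m) := by
          rw [hg]
          ring
  have hsum := conv_hasSum g hs n (C0 * V / (1 + (n : ℝ) ^ 2))
  refine ⟨Summable.of_norm_bounded hsum.summable hterm, ?_⟩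
  refine (tsum_of_norm_bounded hsum hterm).trans ?_
  have h1 : 0 ≤ C0 * V / (1 + (n : ℝ) ^ 2) := by positivity
  calc C0 * V / (1 + (n : ℝ) ^ 2) * ∑' j, g j
      ≤ C0 * V / (1 + (n : ℝ) ^ 2) * (∑' j, g j + 1) :=
        mul_le_mul_of_nonneg_left (by linarith) h1
    _ = C0 * (∑' j, g j + 1) * V / (1 + (n : ℝ) ^ 2) := by ring

theorem lowmode (x0 K : ℝ) (τ : ℤ → ℝ) (hx : 0 < x0) (h : TauOK x0 K τ) (r : ℤ → ℂ)
    (hs : Summable (fun j : ℤ => ‖r j‖ * (1 + |(j : ℝ)|) ^ 4)) :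
    ∃ C > 0, ∀ (σ : ℝ), 1 ≤ σ → ∀ (x F : ℤ → ℂ) (M A : ℝ), 0 ≤ M → 0 ≤ A →
      (∀ m, ‖x m‖ ≤ M) → (∀ m, ‖F m‖ ≤ A) →
      (∀ n : ℤ, x n = (1 / (σ : ℂ)) * ∑' m : ℤ, r (n - m) * (m * τ m * x m + F m)) →
      ∀ n : ℤ, ‖x n‖ ≤ C * (1 + (n : ℝ) ^ 2) * (M / σ ^ 2 + A / σ) := by
  set g : ℤ → ℝ := fun j : ℤ => ‖r j‖ * (1 + |(j : ℝ)|) ^ 4 with hg
  have hg0 : ∀ j, 0 ≤ g j := fun j => by positivity
  set S : ℝ := ∑' j, g j with hS
  have hS0 : 0 ≤ S := tsum_nonneg hg0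
  set T : ℝ := 1 + K with hT
  have hT1 : 1 ≤ T := by linarith [h.1]
  have hT0 : 0 ≤ T := by linarith
  refine ⟨2 * S * (S * T ^ 2 + 1) + 1, by positivity, ?_⟩
  intro σ hσ x F M A hM hA hxM hFA heq
  have hσ0 : 0 < σ := by linarith
  -- general step
  have hstep : ∀ (p : ℕ) (P : ℝ), p ≤ 1 → 0 ≤ P → (∀ m : ℤ, ‖x m‖ ≤ P * (1 + |(m : ℝ)|) ^ p) →
      ∀ n : ℤ, ‖x n‖ ≤ (1 / σ) * ((T * P + A) * (1 + |(n : ℝ)|) ^ (p + 1) * S) := by
    intro p P hp hP hxP n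
    have hterm : ∀ m : ℤ, ‖r (n - m) * (m * τ m * x m + F m)‖ ≤
        ((T * P + A) * (1 + |(n : ℝ)|) ^ (p + 1)) * g (n - m) := by
      intro m
      have hτ := (tau_bd x0 K τ hx h m).1
      have h1 : ‖(m : ℂ) * τ m * x m + F m‖ ≤ (T * P + A) * (1 + |(m : ℝ)|) ^ (p + 1) := by
        have hm1 : 1 ≤ (1 + |(m : ℝ)|) ^ (p + 1) := one_le_pow₀ (by linarith [abs_nonneg (m : ℝ)])
        calc ‖(m : ℂ) * τ m * x m + F m‖ ≤ ‖(m : ℂ) * τ m * x m‖ + ‖F m‖ := norm_add_le _ _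
          _ ≤ (1 + |(m : ℝ)|) * T * (P * (1 + |(m : ℝ)|) ^ p) + A * (1 + |(m : ℝ)|) ^ (p + 1) := by
              refine add_le_add ?_ ?_
              · rw [norm_mul, norm_mul, Complex.norm_real, Real.norm_eq_abs, Complex.norm_intCast]
                refine mul_le_mul (mul_le_mul (by linarith) hτ (abs_nonneg _) (by positivity))
                  (hxP m) (norm_nonneg _) (by positivity)
              · calc ‖F m‖ ≤ A := hFA m
                  _ = A * 1 := (mul_one A).symm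
                  _ ≤ A * (1 + |(m : ℝ)|) ^ (p + 1) := mul_le_mul_of_nonneg_left hm1 hA
          _ = (T * P + A) * (1 + |(m : ℝ)|) ^ (p + 1) := by ring
      have h2 : (1 + |(m : ℝ)|) ^ (p + 1) ≤
          (1 + |(n : ℝ)|) ^ (p + 1) * (1 + |((n - m : ℤ) : ℝ)|) ^ 4 := by
        calc (1 + |(m : ℝ)|) ^ (p + 1) ≤
            ((1 + |(n : ℝ)|) * (1 + |((n - m : ℤ) : ℝ)|)) ^ (p + 1) :=
              pow_le_pow_left₀ (by positivity) (conv_abs_le n m) _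
          _ = (1 + |(n : ℝ)|) ^ (p + 1) * (1 + |((n - m : ℤ) : ℝ)|) ^ (p + 1) := mul_pow _ _ _
          _ ≤ (1 + |(n : ℝ)|) ^ (p + 1) * (1 + |((n - m : ℤ) : ℝ)|) ^ 4 := by
              refine mul_le_mul_of_nonneg_left (pow_le_pow_right₀ ?_ (by omega)) (by positivity)
              linarith [abs_nonneg ((n - m : ℤ) : ℝ)]
      rw [norm_mul]
      calc ‖r (n - m)‖ * ‖(m : ℂ) * τ m * x m + F m‖
          ≤ ‖r (n - m)‖ * ((T * P + A) * ((1 + |(n : ℝ)|) ^ (p + 1) *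
              (1 + |((n - m : ℤ) : ℝ)|) ^ 4)) := by
            refine mul_le_mul_of_nonneg_left (h1.trans ?_) (norm_nonneg _)
            exact mul_le_mul_of_nonneg_left h2 (by positivity)
        _ = ((T * P + A) * (1 + |(n : ℝ)|) ^ (p + 1)) * g (n - m) := by
            rw [hg]
            ring
    have hsum := conv_hasSum g hs n ((T * P + A) * (1 + |(n : ℝ)|) ^ (p + 1))
    rw [heq n, norm_mul]
    have h3 : ‖(1 / (σ : ℂ))‖ = 1 / σ := by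
      rw [norm_div, norm_one, Complex.norm_real, Real.norm_eq_abs, abs_of_pos hσ0]
    rw [h3]
    exact mul_le_mul_of_nonneg_left (tsum_of_norm_bounded hsum hterm) (by positivity)
  have h1 := hstep 0 M (by norm_num) hM (fun m => by simpa using hxM m)
  set P : ℝ := (1 / σ) * ((T * M + A) * S) with hP
  have hP0 : 0 ≤ P := by positivity
  have h2 := hstep 1 P le_rfl hP0 (fun m => by
    refine (h1 m).trans (le_of_eq ?_)
    rw [hP]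
    ring)
  intro n
  refine (h2 n).trans ?_
  have hn2 : (1 + |(n : ℝ)|) ^ (1 + 1) ≤ 2 * (1 + (n : ℝ) ^ 2) := by
    have h6 := sq_abs (n : ℝ)
    have h7 := sq_nonneg (1 - |(n : ℝ)|)
    have h8 : (1 + |(n : ℝ)|) ^ (1 + 1) = 2 * (1 + |(n : ℝ)| ^ 2) - (1 - |(n : ℝ)|) ^ 2 := by ring
    rw [h8, h6]
    linarith
  have hP' : P ≤ S * T * (M + A) / σ := by
    rw [hP]
    have : T * M + A ≤ T * (M + A) := by nlinarith
    calc (1 / σ) * ((T * M + A) * S) ≤ (1 / σ) * ((T * (M + A)) * S) := by gcongr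
      _ = S * T * (M + A) / σ := by ring
  have hA' : A / σ ^ 2 ≤ A / σ := by
    refine div_le_div_of_nonneg_left hA hσ0 ?_
    nlinarith
  have hMσ : 0 ≤ M / σ ^ 2 := by positivity
  have hAσ : 0 ≤ A / σ := by positivity
  have hST : 0 ≤ S * T ^ 2 := by positivity
  have h5 : (1 / σ) * (T * P + A) ≤ (S * T ^ 2 + 1) * (M / σ ^ 2 + A / σ) := by
    calc (1 / σ) * (T * P + A) ≤ (1 / σ) * (T * (S * T * (M + A) / σ) + A) := by gcongr
      _ = S * T ^ 2 * (M / σ ^ 2 + A / σ ^ 2) + A / σ := by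
          field_simp
      _ ≤ S * T ^ 2 * (M / σ ^ 2 + A / σ) + (M / σ ^ 2 + A / σ) := by
          refine add_le_add (mul_le_mul_of_nonneg_left (by linarith) hST) (by linarith)
      _ = (S * T ^ 2 + 1) * (M / σ ^ 2 + A / σ) := by ring
  calc (1 / σ) * ((T * P + A) * (1 + |(n : ℝ)|) ^ (1 + 1) * S)
      = ((1 / σ) * (T * P + A)) * (S * (1 + |(n : ℝ)|) ^ (1 + 1)) := by ring
    _ ≤ ((S * T ^ 2 + 1) * (M / σ ^ 2 + A / σ)) * (S * (2 * (1 + (n : ℝ) ^ 2))) := by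
        refine mul_le_mul h5 (mul_le_mul_of_nonneg_left hn2 hS0) (by positivity) (by positivity)
    _ = (2 * S * (S * T ^ 2 + 1)) * ((1 + (n : ℝ) ^ 2) * (M / σ ^ 2 + A / σ)) := by ring
    _ ≤ (2 * S * (S * T ^ 2 + 1) + 1) * ((1 + (n : ℝ) ^ 2) * (M / σ ^ 2 + A / σ)) := by
        refine mul_le_mul_of_nonneg_right (by linarith) (by positivity)
    _ = _ := by ring

end

end Pool.Agent.Helper482.Stk.M_t2
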