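import Pool.Agent.Helper482.Stk.Defs
import Pool.Agent.Helper482.Stk.M_f3
import Pool.Agent.Helper482.Stk.M_f4
import Pool.Agent.Helper482.Stk.M_h1
import Pool.Agent.Helper482.Stk.M_h2
import Pool.Agent.Helper482.Stk.M_t2

set_option autoImplicit false

namespace Pool.Agent.Helper482.Stk.M_s1

open Pool.Agent.Helper482.Stk
open Pool.Agent.Helper482.Stk.M_f3
open Pool.Agent.Helper482.Stk.M_f4
open Pool.Agent.Helper482.Stk.M_h1
open Pool.Agent.Helper482.Stk.M_h2
open Pool.Agent.Helper482.Stk.M_t2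
open Real MeasureTheory intervalIntegral

noncomputable section

theorem stab_low (c x0 K : ℝ) (τ : ℤ → ℝ) (hc : 0 < c) (hx : 0 < x0) (h : TauOK x0 K τ) :
    ∃ C > 0, ∀ (σ : ℝ), 1 ≤ σ → ∀ (v G F : ℝ → ℝ) (M A : ℝ),
      Continuous v → Continuous F → Function.Periodic v (2 * π) → Function.Periodic G (2 * π) →
      (∀ t, HasDerivAt G (σ * hh c x0 t * v t - F t) t) →
      (∀ n : ℤ, rc G n = -Complex.I * (τ n : ℂ) * rc v n) →
      (∀ t, |v t| ≤ M) → (∀ t, |F t| ≤ A) →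
      ∀ n : ℤ, ‖rc v n‖ ≤ C * (1 + (n : ℝ) ^ 2) * (M / σ ^ 2 + A / σ) := by
  have hb := hh_basic c x0 hc hx
  have hpos : ∀ t, 0 < hh c x0 t := fun t =>
    lt_of_lt_of_le (mul_pos hc (Real.sinh_pos_iff.2 hx)) (hb.1 t)
  have hHc : Continuous (hh c x0) := (hb.2.2.2.2 0).continuous
  have hs2 := (hh_sum c x0 hc hx).2
  obtain ⟨C, hC, hlow⟩ := lowmode x0 K τ hx h (rc (fun t => (hh c x0 t)⁻¹)) hs2
  refine ⟨C, hC, fun σ hσ v G F M A hv hF hvp hGp hG hrc hM hA n => ?_⟩
  have hM0 : 0 ≤ M := le_trans (abs_nonneg _) (hM 0)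
  have hA0 : 0 ≤ A := le_trans (abs_nonneg _) (hA 0)
  have hσ0 : (σ : ℂ) ≠ 0 := by
    have : σ ≠ 0 := by linarith
    exact_mod_cast this
  refine hlow σ hσ (rc v) (rc F) M A hM0 hA0 ?_ ?_ ?_ n
  · intro m
    refine fc_norm_le _ M (fun t => ?_) m
    rw [Complex.norm_real]
    exact hM t
  · intro m
    refine fc_norm_le _ A (fun t => ?_) m
    rw [Complex.norm_real]
    exact hA t
  · intro n
    have hsum1 : Summable (fun n : ℤ => ‖fc (fun t => (((hh c x0 t)⁻¹ : ℝ) : ℂ)) n‖) := by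
      refine Summable.of_nonneg_of_le (fun j => norm_nonneg _) (fun j => ?_) hs2
      have h1 : (1 : ℝ) ≤ (1 + |(j : ℝ)|) ^ 4 := one_le_pow₀ (by
        have := abs_nonneg (j : ℝ)
        linarith)
      have h2 : (0 : ℝ) ≤ ‖rc (fun t => (hh c x0 t)⁻¹) j‖ := norm_nonneg _
      show ‖rc (fun t => (hh c x0 t)⁻¹) j‖ ≤ _
      nlinarith
    have hfc : Continuous (fun t => (((hh c x0 t)⁻¹ : ℝ) : ℂ)) :=
      Complex.continuous_ofReal.comp (hHc.inv₀ (fun t => (hpos t).ne'))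
    have hfp : Function.Periodic (fun t => (((hh c x0 t)⁻¹ : ℝ) : ℂ)) (2 * π) := by
      intro t
      have e : hh c x0 (t + 2 * π) = hh c x0 t := by
        rw [two_mul, ← add_assoc, hb.2.2.2.1, hb.2.2.2.1]
      show (((hh c x0 (t + 2 * π))⁻¹ : ℝ) : ℂ) = _
      rw [e]
    have hgc : Continuous (fun t => ((hh c x0 t * v t : ℝ) : ℂ)) :=
      Complex.continuous_ofReal.comp (hHc.mul hv)
    have hmul := fc_mul (fun t => (((hh c x0 t)⁻¹ : ℝ) : ℂ))
      (fun t => ((hh c x0 t * v t : ℝ) : ℂ)) hfc hfp hsum1 hgc n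
    have hprod : (fun t => (((hh c x0 t)⁻¹ : ℝ) : ℂ) * ((hh c x0 t * v t : ℝ) : ℂ)) =
        fun t => ((v t : ℝ) : ℂ) := by
      funext t
      rw [← Complex.ofReal_mul, ← mul_assoc, inv_mul_cancel₀ (hpos t).ne', one_mul]
    rw [hprod] at hmul
    have hkey : ∀ m : ℤ, fc (fun t => ((hh c x0 t * v t : ℝ) : ℂ)) m =
        (1 / (σ : ℂ)) * (m * τ m * rc v m + rc F m) := by
      intro m
      have hd := fc_deriv (fun t => ((G t : ℝ) : ℂ))
        (fun t => ((σ * hh c x0 t * v t - F t : ℝ) : ℂ)) (fun t => (hG t).ofReal_comp)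
        (Complex.continuous_ofReal.comp (((continuous_const.mul hHc).mul hv).sub hF))
        (fun t => by
          show ((G (t + 2 * π) : ℝ) : ℂ) = _
          rw [hGp t]) m
      have e1 : (fun t => ((σ * hh c x0 t * v t - F t : ℝ) : ℂ)) =
          fun t => (fun t => (σ : ℂ) * ((hh c x0 t * v t : ℝ) : ℂ)) t +
            (fun t => (-1 : ℂ) * ((F t : ℝ) : ℂ)) t := by
        funext t
        push_cast
        ring
      have e2 := fc_add (fun t => (σ : ℂ) * ((hh c x0 t * v t : ℝ) : ℂ))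
        (fun t => (-1 : ℂ) * ((F t : ℝ) : ℂ)) (continuous_const.mul hgc)
        (continuous_const.mul (Complex.continuous_ofReal.comp hF)) m
      rw [← e1, fc_const_mul, fc_const_mul, hd] at e2
      have e3 : fc (fun t => ((G t : ℝ) : ℂ)) m = -Complex.I * (τ m : ℂ) * rc v m := hrc m
      have e4 : fc (fun t => ((F t : ℝ) : ℂ)) m = rc F m := rfl
      rw [e3, e4] at e2
      have e5 : (σ : ℂ) * fc (fun t => ((hh c x0 t * v t : ℝ) : ℂ)) m =
          m * τ m * rc v m + rc F m := by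
        have e6 : Complex.I * (m : ℂ) * (-Complex.I * (τ m : ℂ) * rc v m) =
            m * τ m * rc v m := by
          have : Complex.I * (m : ℂ) * (-Complex.I * (τ m : ℂ) * rc v m) =
            -(Complex.I * Complex.I) * (m * τ m * rc v m) := by ring
          rw [this, Complex.I_mul_I]
          ring
        rw [e6] at e2
        rw [e2]
        ring
      rw [← e5, ← mul_assoc, one_div, inv_mul_cancel₀ hσ0, one_mul]
    have hts := hmul.tsum_eq
    have e7 : rc v n = fc (fun t => ((v t : ℝ) : ℂ)) n := rfl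
    rw [e7, ← hts, ← tsum_mul_left]
    congr 1
    funext m
    rw [hkey m]
    show _ = 1 / (σ : ℂ) * (fc (fun t => (((hh c x0 t)⁻¹ : ℝ) : ℂ)) (n - m) * _)
    ring

end

end Pool.Agent.Helper482.Stk.M_s1
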