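import Pool.Agent.Helper482.Stk.Defs
import Pool.Agent.Helper482.Stk.M_f1
import Pool.Agent.Helper482.Stk.M_f3
import Pool.Agent.Helper482.Stk.M_f4
import Pool.Agent.Helper482.Stk.M_h1
import Pool.Agent.Helper482.Stk.M_h2
import Pool.Agent.Helper482.Stk.M_t2

set_option autoImplicit false

namespace Pool.Agent.Helper482.Stk.M_s2

open Pool.Agent.Helper482.Stk
open Pool.Agent.Helper482.Stk.M_f1
open Pool.Agent.Helper482.Stk.M_f3
open Pool.Agent.Helper482.Stk.M_f4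
open Pool.Agent.Helper482.Stk.M_h1
open Pool.Agent.Helper482.Stk.M_h2
open Pool.Agent.Helper482.Stk.M_t2
open Real MeasureTheory intervalIntegral

noncomputable section

theorem fc_lin2 (a b : ℂ) (f g : ℝ → ℂ) (hf : Continuous f) (hg : Continuous g) (n : ℤ) :
    fc (fun t => a * f t + b * g t) n = a * fc f n + b * fc g n := by
  have := fc_add (fun t => a * f t) (fun t => b * g t) (continuous_const.mul hf)
    (continuous_const.mul hg) n
  rw [this, fc_const_mul, fc_const_mul]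

theorem stab_B (c x0 K : ℝ) (τ : ℤ → ℝ) (hc : 0 < c) (hx : 0 < x0) (h : TauOK x0 K τ) :
    ∃ C > 0, ∀ (σ : ℝ), 1 ≤ σ → ∀ (v v' G F W : ℝ → ℝ) (V : ℝ), 0 ≤ V →
      Continuous v' → Continuous F → Continuous W →
      Function.Periodic v (2 * π) → Function.Periodic G (2 * π) → Function.Periodic W (2 * π) →
      (∀ t, HasDerivAt v (v' t) t) →
      (∀ t, HasDerivAt G (σ * hh c x0 t * v t - F t) t) →
      (∀ n : ℤ, rc G n = -Complex.I * (τ n : ℂ) * rc v n) →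
      (∀ n : ℤ, rc W n = -Complex.I * (((τ n)⁻¹ : ℝ) : ℂ) * rc F n) →
      (∀ n : ℤ, ‖rc v n‖ ≤ V * (1 + (n : ℝ) ^ 2)) →
      ∀ t, |v' t + σ * hh c x0 t * G t - W t| ≤ C * σ * V := by
  obtain ⟨C1, hC1, hker⟩ := ker_bd x0 K τ hx h (rc (hh c x0)) (hh_sum c x0 hc hx).1
  obtain ⟨hK, hτ0, hτneg, hτ1⟩ := h
  obtain ⟨-, -, -, hhper, hhcd⟩ := hh_basic c x0 hc hx
  have hhcont : Continuous (hh c x0) := (hhcd 0).continuous
  have hhper2 : Function.Periodic (hh c x0) (2 * π) := by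
    have := hhper.add_period hhper
    rwa [← two_mul] at this
  have hhsum : Summable (fun n : ℤ => ‖fc (fun t => ((hh c x0 t : ℝ) : ℂ)) n‖) := by
    refine Summable.of_nonneg_of_le (fun n => norm_nonneg _) (fun n => ?_) (hh_sum c x0 hc hx).1
    have h1 : (1:ℝ) ≤ (1 + |(n:ℝ)|) ^ 4 := one_le_pow₀ (by linarith [abs_nonneg (n:ℝ)])
    exact le_mul_of_one_le_right (norm_nonneg _) h1
  have hS : Summable (fun n : ℤ => 1 / (1 + (n : ℝ) ^ 2)) := by
    have h1 : Summable (fun n : ℤ => 1 / (n : ℝ) ^ 2 + (if n = 0 then (1:ℝ) else 0)) := by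
      refine Summable.add (Real.summable_one_div_int_pow.2 (by norm_num)) ?_
      exact summable_of_ne_finset_zero (s := {0}) (fun b hb => by
          rw [Finset.mem_singleton] at hb; simp [hb])
    refine Summable.of_nonneg_of_le (fun n => by positivity) (fun n => ?_) h1
    by_cases hn : n = 0
    · subst hn; simp
    · have h0 : (n:ℝ) ≠ 0 := by exact_mod_cast hn
      have h2 : (0:ℝ) < (n:ℝ) ^ 2 := by positivity
      rw [if_neg hn, add_zero]
      exact one_div_le_one_div_of_le h2 (by linarith)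
  have hS0 : 0 ≤ ∑' n : ℤ, 1 / (1 + (n : ℝ) ^ 2) := tsum_nonneg (fun n => by positivity)
  refine ⟨C1 * (∑' n : ℤ, 1 / (1 + (n : ℝ) ^ 2) + 1), by positivity, ?_⟩
  intro σ hσ v v' G F W V hV hv'c hFc hWc hvp hGp hWp hvd hGd hGτ hWτ hvV t
  have hvc : Continuous v := continuous_iff_continuousAt.2 (fun s => (hvd s).continuousAt)
  have hGc : Continuous G := continuous_iff_continuousAt.2 (fun s => (hGd s).continuousAt)
  have hv'p : Function.Periodic v' (2 * π) := by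
    intro s
    have h1 := (hvd (s + 2 * π)).comp_add_const s (2 * π)
    have h2 : (fun x => v (x + 2 * π)) = v := funext hvp
    rw [h2] at h1
    exact h1.unique (hvd s)
  -- complexified functions
  have cof : ∀ {f : ℝ → ℝ}, Continuous f → Continuous (fun s => ((f s : ℝ) : ℂ)) :=
    fun hf => Complex.continuous_ofReal.comp hf
  have cper : ∀ {f : ℝ → ℝ}, Function.Periodic f (2 * π) →
      Function.Periodic (fun s => ((f s : ℝ) : ℂ)) (2 * π) := by
    intro f hf s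
    show ((f (s + 2 * π) : ℝ) : ℂ) = _
    rw [hf s]
  have rv' : ∀ n : ℤ, fc (fun s => ((v' s : ℝ) : ℂ)) n = Complex.I * n * rc v n := by
    intro n
    exact fc_deriv (fun s => ((v s : ℝ) : ℂ)) (fun s => ((v' s : ℝ) : ℂ))
      (fun s => (hvd s).ofReal_comp) (cof hv'c) (cper hvp) n
  have rhv : ∀ n : ℤ, HasSum (fun m : ℤ => rc (hh c x0) (n - m) * rc v m)
      (fc (fun s => ((hh c x0 s : ℝ) : ℂ) * ((v s : ℝ) : ℂ)) n) := fun n =>
    fc_mul (fun s => ((hh c x0 s : ℝ) : ℂ)) (fun s => ((v s : ℝ) : ℂ)) (cof hhcont)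
      (cper hhper2) hhsum (cof hvc) n
  have rhG : ∀ n : ℤ, HasSum (fun m : ℤ => rc (hh c x0) (n - m) * rc G m)
      (fc (fun s => ((hh c x0 s : ℝ) : ℂ) * ((G s : ℝ) : ℂ)) n) := fun n =>
    fc_mul (fun s => ((hh c x0 s : ℝ) : ℂ)) (fun s => ((G s : ℝ) : ℂ)) (cof hhcont)
      (cper hhper2) hhsum (cof hGc) n
  have rG' : ∀ n : ℤ, (σ : ℂ) * fc (fun s => ((hh c x0 s : ℝ) : ℂ) * ((v s : ℝ) : ℂ)) n
      - rc F n = (n : ℂ) * (τ n : ℂ) * rc v n := by
    intro n
    have h1 := fc_deriv (fun s => ((G s : ℝ) : ℂ))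
      (fun s => ((σ * hh c x0 s * v s - F s : ℝ) : ℂ))
      (fun s => (hGd s).ofReal_comp)
      (cof (((continuous_const.mul hhcont).mul hvc).sub hFc)) (cper hGp) n
    have e : (fun s => ((σ * hh c x0 s * v s - F s : ℝ) : ℂ)) =
        fun s => (σ : ℂ) * (((hh c x0 s : ℝ) : ℂ) * ((v s : ℝ) : ℂ)) +
          (-1 : ℂ) * ((F s : ℝ) : ℂ) := by
      funext s; push_cast; ring
    rw [e, fc_lin2 σ (-1) (fun s => ((hh c x0 s : ℝ) : ℂ) * ((v s : ℝ) : ℂ))
      (fun s => ((F s : ℝ) : ℂ)) ((cof hhcont).mul (cof hvc)) (cof hFc)] at h1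
    have h2 : fc (fun s => ((G s : ℝ) : ℂ)) n = -Complex.I * (τ n : ℂ) * rc v n := hGτ n
    rw [h2] at h1
    have h3 : fc (fun s => ((F s : ℝ) : ℂ)) n = rc F n := rfl
    rw [h3] at h1
    have hI : Complex.I * Complex.I = -1 := Complex.I_mul_I
    linear_combination h1 - (n : ℂ) * (τ n : ℂ) * rc v n * hI
  have hτne : ∀ n : ℤ, n ≠ 0 → τ n ≠ 0 := by
    intro n hn
    rcases lt_or_gt_of_ne hn with h1 | h1
    · have h2 := (hτ1 (-n) (by omega)).1
      rw [hτneg] at h2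
      intro h3; rw [h3] at h2; simp at h2
    · exact (hτ1 n (by omega)).1.ne'
  -- the key identity for I n v_n
  have key : ∀ n : ℤ, Complex.I * n * rc v n = Complex.I * (((τ n)⁻¹ : ℝ) : ℂ) *
      ((σ : ℂ) * fc (fun s => ((hh c x0 s : ℝ) : ℂ) * ((v s : ℝ) : ℂ)) n - rc F n) := by
    intro n
    rw [rG']
    by_cases hn : n = 0
    · subst hn; simp
    · have h1 : (τ n : ℂ) ≠ 0 := by exact_mod_cast hτne n hn
      push_cast
      field_simp
  -- B
  set B : ℝ → ℝ := fun s => v' s + σ * hh c x0 s * G s - W s with hB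
  have hBc : Continuous B := (hv'c.add ((continuous_const.mul hhcont).mul hGc)).sub hWc
  have hBp : Function.Periodic B (2 * π) := by
    intro s
    simp only [hB]
    rw [hv'p s, hhper2 s, hGp s, hWp s]
  have rB : ∀ n : ℤ, fc (fun s => ((B s : ℝ) : ℂ)) n =
      Complex.I * σ * ∑' m : ℤ, rc (hh c x0) (n - m) * rc v m * (((τ n)⁻¹ - τ m : ℝ) : ℂ) := by
    intro n
    have e : (fun s => ((B s : ℝ) : ℂ)) =
        fun s => ((v' s : ℝ) : ℂ) +
          ((σ : ℂ) * (((hh c x0 s : ℝ) : ℂ) * ((G s : ℝ) : ℂ)) +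
          (-1 : ℂ) * ((W s : ℝ) : ℂ)) := by
      funext s; simp only [hB]; push_cast; ring
    have e2 := fc_add (fun s => ((v' s : ℝ) : ℂ)) (fun s =>
          ((σ : ℂ) * (((hh c x0 s : ℝ) : ℂ) * ((G s : ℝ) : ℂ)) +
          (-1 : ℂ) * ((W s : ℝ) : ℂ))) (cof hv'c)
          ((continuous_const.mul ((cof hhcont).mul (cof hGc))).add
          (continuous_const.mul (cof hWc))) n
    rw [e, e2, fc_lin2 σ (-1) (fun s => ((hh c x0 s : ℝ) : ℂ) * ((G s : ℝ) : ℂ))
      (fun s => ((W s : ℝ) : ℂ)) ((cof hhcont).mul (cof hGc)) (cof hWc), rv', key]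
    have h3 : fc (fun s => ((W s : ℝ) : ℂ)) n = rc W n := rfl
    rw [h3, hWτ n]
    have h4 : HasSum (fun m : ℤ => rc (hh c x0) (n - m) * rc v m * (((τ n)⁻¹ - τ m : ℝ) : ℂ))
        ((((τ n)⁻¹ : ℝ) : ℂ) * fc (fun s => ((hh c x0 s : ℝ) : ℂ) * ((v s : ℝ) : ℂ)) n
          + (-Complex.I) * fc (fun s => ((hh c x0 s : ℝ) : ℂ) * ((G s : ℝ) : ℂ)) n) := by
      have h5 := ((rhv n).mul_left (((τ n)⁻¹ : ℝ) : ℂ)).add ((rhG n).mul_left (-Complex.I))
      have h6 : (fun m : ℤ => rc (hh c x0) (n - m) * rc v m * (((τ n)⁻¹ - τ m : ℝ) : ℂ)) =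
          fun m : ℤ => (((τ n)⁻¹ : ℝ) : ℂ) * (rc (hh c x0) (n - m) * rc v m) +
            -Complex.I * (rc (hh c x0) (n - m) * rc G m) := by
        funext m
        rw [hGτ m]
        push_cast
        have hI : Complex.I * Complex.I = -1 := Complex.I_mul_I
        linear_combination (-(rc (hh c x0) (n - m) * rc v m * (τ m : ℂ))) * hI
      rw [h6]
      exact h5
    rw [h4.tsum_eq]
    have hI : Complex.I * Complex.I = -1 := Complex.I_mul_I
    linear_combination (σ : ℂ) * fc (fun s => ((hh c x0 s : ℝ) : ℂ) * ((G s : ℝ) : ℂ)) n * hI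
  have nB : ∀ n : ℤ, ‖fc (fun s => ((B s : ℝ) : ℂ)) n‖ ≤ (σ * C1 * V) * (1 / (1 + (n : ℝ) ^ 2)) := by
    intro n
    rw [rB n]
    have h1 := (hker (rc v) V hV hvV n).2
    rw [norm_mul, norm_mul, Complex.norm_I, one_mul, Complex.norm_real, Real.norm_eq_abs,
      abs_of_nonneg (by linarith : (0:ℝ) ≤ σ)]
    calc σ * ‖∑' m : ℤ, rc (hh c x0) (n - m) * rc v m * (((τ n)⁻¹ - τ m : ℝ) : ℂ)‖
        ≤ σ * (C1 * V / (1 + (n : ℝ) ^ 2)) := by gcongr
      _ = (σ * C1 * V) * (1 / (1 + (n : ℝ) ^ 2)) := by ring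
  have sB : Summable (fun n : ℤ => ‖fc (fun s => ((B s : ℝ) : ℂ)) n‖) :=
    Summable.of_nonneg_of_le (fun n => norm_nonneg _) nB (hS.mul_left _)
  have hB1 := fc_hasSum (fun s => ((B s : ℝ) : ℂ)) (cof hBc) (cper hBp) sB t
  have hnorm : ∀ n : ℤ, ‖fc (fun s => ((B s : ℝ) : ℂ)) n * Complex.exp (Complex.I * n * t)‖ =
      ‖fc (fun s => ((B s : ℝ) : ℂ)) n‖ := by
    intro n
    rw [norm_mul]
    have : Complex.I * (n : ℂ) * (t : ℂ) = ((n * t : ℝ) : ℂ) * Complex.I := by push_cast; ring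
    rw [this, Complex.norm_exp_ofReal_mul_I, mul_one]
  have hfin : |B t| ≤ (σ * C1 * V) * ∑' n : ℤ, 1 / (1 + (n : ℝ) ^ 2) := by
    have h1 : ‖((B t : ℝ) : ℂ)‖ = |B t| := by rw [Complex.norm_real, Real.norm_eq_abs]
    rw [← h1, ← hB1.tsum_eq]
    refine (norm_tsum_le_tsum_norm ?_).trans ?_
    · simp_rw [hnorm]; exact sB
    · simp_rw [hnorm]
      rw [← tsum_mul_left]
      exact sB.tsum_le_tsum nB (hS.mul_left _)
  refine hfin.trans ?_
  have : 0 ≤ C1 * σ * V := by positivity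
  nlinarith

end

end Pool.Agent.Helper482.Stk.M_s2
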