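import Pool.Agent.Helper482.Stk.Defs
import Pool.Agent.Helper482.Stk.M_h1

set_option autoImplicit false

namespace Pool.Agent.Helper482.Stk.M_s3

open Pool.Agent.Helper482.Stk
open Pool.Agent.Helper482.Stk.M_h1
open Real MeasureTheory intervalIntegral

noncomputable section

theorem stab_ode (c x0 σ : ℝ) (hc : 0 < c) (hx : 0 < x0) (v G b F : ℝ → ℝ) (β A : ℝ)
    (hβ : 0 ≤ β) (hA : 0 ≤ A)
    (hv : ∀ t, HasDerivAt v (-(σ * hh c x0 t * G t) + b t) t)
    (hG : ∀ t, HasDerivAt G (σ * hh c x0 t * v t - F t) t)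
    (hb : ∀ t, |b t| ≤ β) (hF : ∀ t, |F t| ≤ A) (t : ℝ) (ht : |t| ≤ π) :
    |v t - (v 0 * Real.cos (σ * ph c x0 t) - G 0 * Real.sin (σ * ph c x0 t))| ≤ π * (β + A) ∧
    |G t - (v 0 * Real.sin (σ * ph c x0 t) + G 0 * Real.cos (σ * ph c x0 t))| ≤ π * (β + A) := by
  obtain ⟨hφ, -⟩ := ph_basic c x0 hc hx
  have hφ0 : ph c x0 0 = 0 := by simp [ph]
  let Z : ℝ → ℂ := fun s => (v s : ℂ) + Complex.I * (G s : ℂ)
  let E : ℝ → ℂ := fun s => Complex.exp (-(Complex.I * ((σ * ph c x0 s : ℝ) : ℂ)))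
  have hZ : ∀ s, HasDerivAt Z (((-(σ * hh c x0 s * G s) + b s : ℝ) : ℂ) +
      Complex.I * ((σ * hh c x0 s * v s - F s : ℝ) : ℂ)) s := by
    intro s
    exact (hv s).ofReal_comp.add ((hG s).ofReal_comp.const_mul Complex.I)
  have hE : ∀ s, HasDerivAt E (E s * (-(Complex.I * ((σ * hh c x0 s : ℝ) : ℂ)))) s := by
    intro s
    have h1 : HasDerivAt (fun s => ((σ * ph c x0 s : ℝ) : ℂ)) ((σ * hh c x0 s : ℝ) : ℂ) s :=
      ((hφ s).const_mul σ).ofReal_comp
    exact ((h1.const_mul Complex.I).neg).cexp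
  have hW : ∀ s, HasDerivAt (fun s => E s * Z s) (E s * ((b s : ℂ) - Complex.I * (F s : ℂ))) s := by
    intro s
    have h1 : HasDerivAt (fun s => E s * Z s) _ s := (hE s).mul (hZ s)
    refine h1.congr_deriv ?_
    have hZs : Z s = (v s : ℂ) + Complex.I * (G s : ℂ) := rfl
    rw [hZs]
    push_cast
    have hI : Complex.I * Complex.I = -1 := Complex.I_mul_I
    linear_combination (-(E s * σ * hh c x0 s * G s)) * hI
  have hEn : ∀ s, ‖E s‖ = 1 := by
    intro s
    simp only [E]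
    rw [show -(Complex.I * ((σ * ph c x0 s : ℝ) : ℂ)) = ((-(σ * ph c x0 s) : ℝ) : ℂ) * Complex.I by
      push_cast; ring]
    exact Complex.norm_exp_ofReal_mul_I _
  have hbd : ∀ s, ‖E s * ((b s : ℂ) - Complex.I * (F s : ℂ))‖ ≤ β + A := by
    intro s
    rw [norm_mul, hEn, one_mul]
    refine (norm_sub_le _ _).trans ?_
    rw [norm_mul, Complex.norm_I, one_mul, Complex.norm_real, Complex.norm_real]
    exact add_le_add (hb s) (hF s)
  have hmv := Convex.norm_image_sub_le_of_norm_hasDerivWithin_le (f := fun s => E s * Z s)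
    (s := Set.univ) (x := 0) (y := t) (C := β + A)
    (fun s _ => (hW s).hasDerivWithinAt) (fun s _ => hbd s) convex_univ (Set.mem_univ _)
    (Set.mem_univ _)
  have hE0 : E 0 = 1 := by simp [E, hφ0]
  simp only [hE0, one_mul, sub_zero] at hmv
  have hEE : Complex.exp (((σ * ph c x0 t : ℝ) : ℂ) * Complex.I) * E t = 1 := by
    simp only [E]
    rw [← Complex.exp_add]
    rw [show ((σ * ph c x0 t : ℝ) : ℂ) * Complex.I + -(Complex.I * ((σ * ph c x0 t : ℝ) : ℂ)) = 0 by
      ring, Complex.exp_zero]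
  have hfin : ‖Z t - Complex.exp (((σ * ph c x0 t : ℝ) : ℂ) * Complex.I) * Z 0‖ ≤ π * (β + A) := by
    have h1 : Z t - Complex.exp (((σ * ph c x0 t : ℝ) : ℂ) * Complex.I) * Z 0 =
        Complex.exp (((σ * ph c x0 t : ℝ) : ℂ) * Complex.I) * (E t * Z t - Z 0) := by
      rw [mul_sub, ← mul_assoc, hEE, one_mul]
    rw [h1, norm_mul, Complex.norm_exp_ofReal_mul_I, one_mul]
    refine hmv.trans ?_
    rw [mul_comm π, Real.norm_eq_abs]
    exact mul_le_mul_of_nonneg_left ht (by positivity)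
  have hre : (Z t - Complex.exp (((σ * ph c x0 t : ℝ) : ℂ) * Complex.I) * Z 0).re =
      v t - (v 0 * Real.cos (σ * ph c x0 t) - G 0 * Real.sin (σ * ph c x0 t)) := by
    simp only [Z, Complex.sub_re, Complex.add_re, Complex.mul_re, Complex.add_im, Complex.mul_im,
      Complex.I_re, Complex.I_im, Complex.ofReal_re, Complex.ofReal_im,
      Complex.exp_ofReal_mul_I_re, Complex.exp_ofReal_mul_I_im]
    ring
  have him : (Z t - Complex.exp (((σ * ph c x0 t : ℝ) : ℂ) * Complex.I) * Z 0).im =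
      G t - (v 0 * Real.sin (σ * ph c x0 t) + G 0 * Real.cos (σ * ph c x0 t)) := by
    simp only [Z, Complex.sub_im, Complex.add_re, Complex.mul_re, Complex.add_im, Complex.mul_im,
      Complex.I_re, Complex.I_im, Complex.ofReal_re, Complex.ofReal_im,
      Complex.exp_ofReal_mul_I_re, Complex.exp_ofReal_mul_I_im]
    ring
  constructor
  · rw [← hre]
    exact (Complex.abs_re_le_norm _).trans hfin
  · rw [← him]
    exact (Complex.abs_im_le_norm _).trans hfin

end

end Pool.Agent.Helper482.Stk.M_s3
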