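import Pool.Agent.Helper482.Stk.Defs
import Pool.Agent.Helper482.Stk.M_s1
import Pool.Agent.Helper482.Stk.M_s2
import Pool.Agent.Helper482.Stk.M_s3

set_option autoImplicit false

namespace Pool.Agent.Helper482.Stk.M_s4

open Pool.Agent.Helper482.Stk
open Pool.Agent.Helper482.Stk.M_s1
open Pool.Agent.Helper482.Stk.M_s2
open Pool.Agent.Helper482.Stk.M_s3
open Real MeasureTheory intervalIntegral

noncomputable section

theorem stab (c x0 K : ℝ) (τ : ℤ → ℝ) (hc : 0 < c) (hx : 0 < x0) (h : TauOK x0 K τ) :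
    ∃ C > 0, ∃ σ0 ≥ 1, ∀ (σ : ℝ), σ0 ≤ σ → ∀ (v v' G F W : ℝ → ℝ) (A : ℝ), 0 ≤ A →
      Continuous v' → Continuous F → Continuous W →
      Function.Periodic v (2 * π) → Function.Periodic G (2 * π) → Function.Periodic W (2 * π) →
      (∀ t, HasDerivAt v (v' t) t) →
      (∀ t, HasDerivAt G (σ * hh c x0 t * v t - F t) t) →
      (∀ n : ℤ, rc G n = -Complex.I * (τ n : ℂ) * rc v n) →
      (∀ n : ℤ, rc W n = -Complex.I * (((τ n)⁻¹ : ℝ) : ℂ) * rc F n) →
      (∀ t, |F t| ≤ A) → (∀ t, |W t| ≤ A) →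
      (∀ t, |v t| ≤ C * (|v 0| + |G 0| + A)) ∧
      (∀ n : ℤ, ‖rc v n‖ ≤ C * (1 + (n : ℝ) ^ 2) * ((|v 0| + |G 0|) / σ ^ 2 + A / σ)) ∧
      (∀ t, |t| ≤ π →
        |v t - (v 0 * Real.cos (σ * ph c x0 t) - G 0 * Real.sin (σ * ph c x0 t))| ≤
            C * ((|v 0| + |G 0|) / σ + A) ∧
        |G t - (v 0 * Real.sin (σ * ph c x0 t) + G 0 * Real.cos (σ * ph c x0 t))| ≤
            C * ((|v 0| + |G 0|) / σ + A)) := by
  obtain ⟨C1, hC1, H1⟩ := stab_low c x0 K τ hc hx h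
  obtain ⟨C2, hC2, H2⟩ := stab_B c x0 K τ hc hx h
  have hpi := Real.pi_pos
  obtain ⟨D, hD⟩ : ∃ D, D = C1 * C2 := ⟨_, rfl⟩
  have hDpos : 0 < D := by rw [hD]; positivity
  obtain ⟨K1, hK1⟩ : ∃ K1, K1 = 2 + 2 * π * (2 + D) := ⟨_, rfl⟩
  have hK1pos : 0 < K1 := by rw [hK1]; positivity
  refine ⟨K1 + C1 * (K1 + 1) + π * (2 + D + D * K1), by positivity, 2 * π * D + 1,
    by have : 0 < 2 * π * D := by positivity
       linarith, ?_⟩
  intro σ hσ v v' G F W A hA hv'c hFc hWc hvp hGp hWp hvd hGd hGr hWr hFA hWA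
  have h2piD : 0 < 2 * π * D := by positivity
  have hσ1 : 1 ≤ σ := by linarith
  have hσ0 : 0 < σ := by linarith
  have hvc : Continuous v := continuous_iff_continuousAt.mpr fun t => (hvd t).continuousAt
  -- the maximum
  obtain ⟨t0, ht0, hmax⟩ := (isCompact_Icc (a := -π) (b := π)).exists_isMaxOn
    ⟨0, by constructor <;> linarith⟩ (f := fun t => |v t|) hvc.abs.continuousOn
  obtain ⟨M, hM⟩ : ∃ M, M = |v t0| := ⟨_, rfl⟩
  have hM0 : 0 ≤ M := by rw [hM]; exact abs_nonneg _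
  have hvM : ∀ t, |v t| ≤ M := by
    intro t
    obtain ⟨y, hy, hvy⟩ := hvp.exists_mem_Ico (by positivity) t (-π)
    rw [hvy, hM]
    apply hmax
    constructor
    · exact hy.1
    · have := hy.2
      linarith
  have hlow := H1 σ hσ1 v G F M A hvc hFc hvp hGp hGd hGr hvM hFA
  obtain ⟨V, hV⟩ : ∃ V, V = C1 * (M / σ ^ 2 + A / σ) := ⟨_, rfl⟩
  have hV0 : 0 ≤ V := by rw [hV]; positivity
  have hlow' : ∀ n : ℤ, ‖rc v n‖ ≤ V * (1 + (n : ℝ) ^ 2) := by
    intro n
    refine (hlow n).trans (le_of_eq ?_)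
    rw [hV]; ring
  have hB := H2 σ hσ1 v v' G F W V hV0 hv'c hFc hWc hvp hGp hWp hvd hGd hGr hWr hlow'
  have hCV : C2 * σ * V = D * (M / σ + A) := by
    rw [hV, hD]
    field_simp
  obtain ⟨β, hβ⟩ : ∃ β, β = A + D * (M / σ + A) := ⟨_, rfl⟩
  have hβ0 : 0 ≤ β := by rw [hβ]; positivity
  have hb : ∀ t, |v' t + σ * hh c x0 t * G t| ≤ β := by
    intro t
    have h1 := hB t
    rw [hCV] at h1
    have h2 := hWA t
    have h3 : v' t + σ * hh c x0 t * G t = (v' t + σ * hh c x0 t * G t - W t) + W t := by ring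
    rw [h3, hβ]
    refine (abs_add_le _ _).trans ?_
    linarith
  have hode := stab_ode c x0 σ hc hx v G (fun t => v' t + σ * hh c x0 t * G t) F β A hβ0 hA
    (fun t => by
      have h1 := hvd t
      refine h1.congr_deriv ?_
      ring) hGd hb hFA
  obtain ⟨E, hE⟩ : ∃ E, E = |v 0| + |G 0| := ⟨_, rfl⟩
  have hE0 : 0 ≤ E := by rw [hE]; positivity
  have hMle : M ≤ E + π * (β + A) := by
    have h1 := (hode t0 (abs_le.mpr ⟨ht0.1, ht0.2⟩)).1
    have h2 : |v 0 * Real.cos (σ * ph c x0 t0) - G 0 * Real.sin (σ * ph c x0 t0)| ≤ E := by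
      refine (abs_sub _ _).trans ?_
      rw [abs_mul, abs_mul, hE]
      have h3 := mul_le_mul_of_nonneg_left (Real.abs_cos_le_one (σ * ph c x0 t0)) (abs_nonneg (v 0))
      have h4 := mul_le_mul_of_nonneg_left (Real.abs_sin_le_one (σ * ph c x0 t0)) (abs_nonneg (G 0))
      linarith
    have h5 : v t0 = (v t0 - (v 0 * Real.cos (σ * ph c x0 t0) - G 0 * Real.sin (σ * ph c x0 t0))) +
      (v 0 * Real.cos (σ * ph c x0 t0) - G 0 * Real.sin (σ * ph c x0 t0)) := by ring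
    rw [hM, h5]
    refine (abs_add_le _ _).trans ?_
    linarith
  have hsmall : π * D * (M / σ) ≤ M / 2 := by
    have h1 : π * D * (M / σ) = (π * D * M) / σ := by ring
    rw [h1, div_le_iff₀ hσ0]
    have h2 : 2 * π * D * M ≤ σ * M := mul_le_mul_of_nonneg_right (by linarith) hM0
    linarith
  have hMK : M ≤ K1 * (E + A) := by
    rw [hβ] at hMle
    have h1 : π * (A + D * (M / σ + A) + A) = π * (2 + D) * A + π * D * (M / σ) := by ring
    rw [h1] at hMle
    rw [hK1]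
    have h2 : 0 ≤ 2 * π * (2 + D) * E := by positivity
    have h3 : (2 + 2 * π * (2 + D)) * (E + A) =
      2 * E + 2 * A + 2 * π * (2 + D) * E + 2 * π * (2 + D) * A := by ring
    rw [h3]
    linarith
  rw [← hE]
  have hAs : A / σ ^ 2 ≤ A / σ := by
    apply div_le_div_of_nonneg_left hA hσ0
    nlinarith
  have hc1 : 0 ≤ C1 * (K1 + 1) := by positivity
  have hc2 : 0 ≤ π * (2 + D + D * K1) := by positivity
  refine ⟨?_, ?_, ?_⟩
  · intro t
    refine (hvM t).trans (hMK.trans ?_)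
    apply mul_le_mul_of_nonneg_right _ (by positivity)
    linarith
  · intro n
    refine (hlow n).trans ?_
    have h1 : M / σ ^ 2 + A / σ ≤ (K1 + 1) * (E / σ ^ 2 + A / σ) := by
      have h2 : M / σ ^ 2 ≤ K1 * (E + A) / σ ^ 2 := by gcongr
      have h3 : K1 * (E + A) / σ ^ 2 = K1 * (E / σ ^ 2) + K1 * (A / σ ^ 2) := by ring
      have h4 : K1 * (A / σ ^ 2) ≤ K1 * (A / σ) := by gcongr
      have h5 : 0 ≤ E / σ ^ 2 := by positivity
      have h6 : (K1 + 1) * (E / σ ^ 2 + A / σ) =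
        K1 * (E / σ ^ 2) + K1 * (A / σ) + E / σ ^ 2 + A / σ := by ring
      rw [h6]
      linarith
    have h7 : 0 ≤ (1 + (n : ℝ) ^ 2) * (E / σ ^ 2 + A / σ) := by positivity
    calc C1 * (1 + (n : ℝ) ^ 2) * (M / σ ^ 2 + A / σ)
        ≤ C1 * (1 + (n : ℝ) ^ 2) * ((K1 + 1) * (E / σ ^ 2 + A / σ)) := by gcongr
      _ = (C1 * (K1 + 1)) * ((1 + (n : ℝ) ^ 2) * (E / σ ^ 2 + A / σ)) := by ring
      _ ≤ (K1 + C1 * (K1 + 1) + π * (2 + D + D * K1)) *
          ((1 + (n : ℝ) ^ 2) * (E / σ ^ 2 + A / σ)) := by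
        apply mul_le_mul_of_nonneg_right _ h7
        linarith
      _ = _ := by ring
  · intro t ht
    have hfin : π * (β + A) ≤ (K1 + C1 * (K1 + 1) + π * (2 + D + D * K1)) * (E / σ + A) := by
      have h1 : π * (β + A) = π * ((2 + D) * A + D * (M / σ)) := by rw [hβ]; ring
      have h2 : M / σ ≤ K1 * (E + A) / σ := by gcongr
      have h3 : K1 * (E + A) / σ = K1 * (E / σ) + K1 * (A / σ) := by ring
      have h4 : A / σ ≤ A := div_le_self hA hσ1
      have h5 : 0 ≤ E / σ := by positivity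
      have h6 : M / σ ≤ K1 * (E / σ + A) := by
        have h7 : K1 * (A / σ) ≤ K1 * A := by gcongr
        have h8 : K1 * (E / σ + A) = K1 * (E / σ) + K1 * A := by ring
        rw [h8]
        linarith
      have h9 : (2 + D) * A + D * (M / σ) ≤ (2 + D + D * K1) * (E / σ + A) := by
        have h10 : D * (M / σ) ≤ D * (K1 * (E / σ + A)) := by gcongr
        have h11 : (2 + D + D * K1) * (E / σ + A) =
          (2 + D) * (E / σ) + (2 + D) * A + D * (K1 * (E / σ + A)) := by ring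
        have h12 : 0 ≤ (2 + D) * (E / σ) := by positivity
        rw [h11]
        linarith
      rw [h1]
      have h13 : 0 ≤ E / σ + A := by positivity
      calc π * ((2 + D) * A + D * (M / σ)) ≤ π * ((2 + D + D * K1) * (E / σ + A)) := by gcongr
        _ = (π * (2 + D + D * K1)) * (E / σ + A) := by ring
        _ ≤ _ := by
          apply mul_le_mul_of_nonneg_right _ h13
          linarith
    exact ⟨(hode t ht).1.trans hfin, (hode t ht).2.trans hfin⟩

end

end Pool.Agent.Helper482.Stk.M_s4
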