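import Pool.Agent.Helper482.Stk.Defs
import Pool.Agent.Helper482.Stk.M_s4

set_option autoImplicit false

namespace Pool.Agent.Helper482.Stk.M_q1

open Pool.Agent.Helper482.Stk
open Pool.Agent.Helper482.Stk.M_s4
open Real MeasureTheory intervalIntegral

noncomputable section

theorem qt_round (x : ℝ) : ∃ k : ℤ, |x - π * k| ≤ π / 2 * |Real.sin x| := by
  refine ⟨round (x / π), ?_⟩
  set k := round (x / π) with hk
  have hpi := Real.pi_pos
  have h1 : |x / π - k| ≤ 1 / 2 := abs_sub_round (x / π)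
  have h2 : |x - π * k| ≤ π / 2 := by
    have h3 : x - π * k = π * (x / π - k) := by field_simp
    rw [h3, abs_mul, abs_of_pos hpi]
    have := mul_le_mul_of_nonneg_left h1 hpi.le
    linarith
  have h3 := Real.mul_abs_le_abs_sin h2
  have h4 : |Real.sin (x - π * k)| = |Real.sin x| := by
    have h5 : x - π * k = x - k * π := by ring
    rw [h5, Real.sin_sub_int_mul_pi, abs_mul]
    have h6 : |((-1 : ℝ)) ^ k| = 1 := by
      rw [abs_zpow, abs_neg, abs_one, one_zpow]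
    rw [h6, one_mul]
  rw [h4] at h3
  rw [div_mul_eq_mul_div, div_le_iff₀ hpi] at h3
  linarith

theorem quant (c x0 K : ℝ) (τ : ℤ → ℝ) (hc : 0 < c) (hx : 0 < x0) (h : TauOK x0 K τ) :
    ∃ C0 > 0, ∃ σ0 ≥ 1, ∀ (σ : ℝ), σ0 ≤ σ → ∀ (f f' G : ℝ → ℝ), Sol c x0 τ σ f f' G →
      (G 0 = 0 ∧ G π = 0 ∨ f 0 = 0 ∧ f π = 0) →
      (∀ t, f t = 0) ∨
        ((f 0 ≠ 0 ∨ G 0 ≠ 0) ∧ ∃ k : ℤ, |σ * ph c x0 π - π * k| ≤ C0 / σ) := by
  obtain ⟨C, hC, σ0, hσ0, H⟩ := stab c x0 K τ hc hx h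
  have hpi := Real.pi_pos
  refine ⟨π / 2 * C, by positivity, σ0, hσ0, ?_⟩
  intro σ hσ f f' G hS hbc
  have hσp : 0 < σ := by linarith
  obtain ⟨s1, s2, s3, s4, s5, s6⟩ := hS
  have rc0 : ∀ n : ℤ, rc (fun _ => (0 : ℝ)) n = 0 := by
    intro n
    simp [rc, fc]
  obtain ⟨e1, -, e3⟩ := H σ hσ f f' G (fun _ => 0) (fun _ => 0) 0 le_rfl s1 continuous_const
    continuous_const s2 s3 (fun _ => rfl) s4 (by
      intro t
      have := s5 t
      simpa using this) s6 (by
      intro n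
      rw [rc0, mul_zero]) (fun t => by simp) (fun t => by simp)
  obtain ⟨e4, e5⟩ := e3 π (by rw [abs_of_pos hpi])
  have key : ∀ a : ℝ, a ≠ 0 → |a * Real.sin (σ * ph c x0 π)| ≤ C * (|a| / σ) →
      ∃ k : ℤ, |σ * ph c x0 π - π * k| ≤ π / 2 * C / σ := by
    intro a ha hle
    obtain ⟨k, hk⟩ := qt_round (σ * ph c x0 π)
    refine ⟨k, hk.trans ?_⟩
    rw [abs_mul] at hle
    have ha' : 0 < |a| := abs_pos.mpr ha
    have h1 : |Real.sin (σ * ph c x0 π)| ≤ C / σ := by
      have h2 : |a| * |Real.sin (σ * ph c x0 π)| ≤ |a| * (C / σ) := by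
        refine hle.trans (le_of_eq ?_)
        ring
      exact le_of_mul_le_mul_left h2 ha'
    calc π / 2 * |Real.sin (σ * ph c x0 π)| ≤ π / 2 * (C / σ) :=
          mul_le_mul_of_nonneg_left h1 (by positivity)
      _ = π / 2 * C / σ := by ring
  rcases hbc with ⟨g0, gp⟩ | ⟨f0, fp⟩
  · by_cases hf0 : f 0 = 0
    · left
      intro t
      have := e1 t
      rw [hf0, g0, abs_zero, add_zero, add_zero, mul_zero] at this
      exact abs_nonpos_iff.mp this
    · right
      refine ⟨Or.inl hf0, key (f 0) hf0 ?_⟩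
      rw [gp, g0, zero_mul, add_zero, zero_sub, abs_neg, abs_zero, add_zero, add_zero] at e5
      exact e5
  · by_cases hg0 : G 0 = 0
    · left
      intro t
      have := e1 t
      rw [f0, hg0, abs_zero, add_zero, add_zero, mul_zero] at this
      exact abs_nonpos_iff.mp this
    · right
      refine ⟨Or.inr hg0, key (G 0) hg0 ?_⟩
      rw [fp, f0, zero_mul, zero_sub, zero_sub, neg_neg, abs_zero, zero_add, add_zero] at e4
      exact e4

end

end Pool.Agent.Helper482.Stk.M_q1
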