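import Pool.Agent.Helper482.Stk.Defs
import Pool.Agent.Helper482.Stk.M_f3
import Pool.Agent.Helper482.Stk.M_f4
import Pool.Agent.Helper482.Stk.M_h1
import Pool.Agent.Helper482.Stk.M_t1

set_option autoImplicit false

namespace Pool.Agent.Helper482.Stk.M_q2

open Pool.Agent.Helper482.Stk
open Pool.Agent.Helper482.Stk.M_f3
open Pool.Agent.Helper482.Stk.M_f4
open Pool.Agent.Helper482.Stk.M_h1
open Pool.Agent.Helper482.Stk.M_t1
open Real MeasureTheory intervalIntegral

noncomputable section

theorem pairing_deriv_periodic {e E : ℝ → ℝ} (hep : Function.Periodic e (2 * π))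
    (he : ∀ t, HasDerivAt e (E t) t) : Function.Periodic E (2 * π) := by
  intro t
  have h1 := (he (t + 2 * π)).comp_add_const t (2 * π)
  have h2 : (fun x => e (x + 2 * π)) = e := funext hep
  rw [h2] at h1
  exact h1.unique (he t)

theorem pairing (c x0 K s σ : ℝ) (τ : ℤ → ℝ) (hc : 0 < c) (hx : 0 < x0) (h : TauOK x0 K τ)
    (P Q e E f f' G : ℝ → ℝ)
    (hsol : Sol c x0 τ σ f f' G)
    (hP : ∀ t, HasDerivAt P (-(s * hh c x0 t * Q t)) t)
    (hQ : ∀ t, HasDerivAt Q (s * hh c x0 t * P t) t)
    (hPp : Function.Periodic P (2 * π)) (hQp : Function.Periodic Q (2 * π))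
    (hPs : Summable (fun j : ℤ => ‖rc P j‖ * (1 + |(j : ℝ)|) ^ 4))
    (hE : Continuous E) (hep : Function.Periodic e (2 * π)) (he : ∀ t, HasDerivAt e (E t) t)
    (hec : ∀ n : ℤ, rc e n = -Complex.I * (τ n : ℂ) * rc P n - rc Q n) :
    (σ - s) * ip f (fun t => hh c x0 t * P t) = ip f E := by
  obtain ⟨hf'c, hfp, hGp, hfd, hGd, hGc⟩ := hsol
  obtain ⟨-, -, -, hhp, hhc⟩ := hh_basic c x0 hc hx
  have hhcont : Continuous (hh c x0) := (hhc 0).continuous
  have hPc : Continuous P := continuous_iff_continuousAt.2 fun t => (hP t).continuousAt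
  have hQc : Continuous Q := continuous_iff_continuousAt.2 fun t => (hQ t).continuousAt
  have hfc : Continuous f := continuous_iff_continuousAt.2 fun t => (hfd t).continuousAt
  have hecont : Continuous e := continuous_iff_continuousAt.2 fun t => (he t).continuousAt
  have hτ := h.2.2.1
  have hEp : Function.Periodic E (2 * π) := pairing_deriv_periodic hep he
  have hhp2 : Function.Periodic (hh c x0) (2 * π) := by
    have := hhp.nat_mul 2
    simpa using this
  have hmI : ∀ m : ℤ, ∀ z : ℂ, Complex.I * (m : ℂ) * (-Complex.I * (τ m : ℂ) * z) =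
      (m : ℂ) * (τ m : ℂ) * z := by
    intro m z
    linear_combination (-(m : ℂ) * (τ m : ℂ) * z) * Complex.I_mul_I
  -- coefficients of σ h f
  have h1 : ∀ m : ℤ, rc (fun t => σ * hh c x0 t * f t) m = (m : ℂ) * (τ m : ℂ) * rc f m := by
    intro m
    have e1 : rc (fun t => σ * hh c x0 t * f t) m = Complex.I * m * rc G m := by
      unfold rc
      refine fc_deriv (fun t => ((G t : ℝ) : ℂ)) _ (fun t => (hGd t).ofReal_comp) ?_ ?_ m
      · exact Complex.continuous_ofReal.comp ((continuous_const.mul hhcont).mul hfc)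
      · intro t
        show ((G (t + 2 * π) : ℝ) : ℂ) = ((G t : ℝ) : ℂ)
        rw [hGp t]
    rw [e1, hGc, hmI]
  -- coefficients of R
  have h2 : ∀ m : ℤ, rc (fun t => s * hh c x0 t * P t + E t) m =
      (m : ℂ) * (τ m : ℂ) * rc P m := by
    intro m
    have e1 : rc (fun t => s * hh c x0 t * P t + E t) m =
        Complex.I * m * rc (fun t => Q t + e t) m := by
      unfold rc
      refine fc_deriv (fun t => ((Q t + e t : ℝ) : ℂ)) _
        (fun t => ((hQ t).add (he t)).ofReal_comp) ?_ ?_ m
      · exact Complex.continuous_ofReal.comp (((continuous_const.mul hhcont).mul hPc).add hE)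
      · intro t
        show ((Q (t + 2 * π) + e (t + 2 * π) : ℝ) : ℂ) = ((Q t + e t : ℝ) : ℂ)
        rw [hQp t, hep t]
    have e2 : rc (fun t => Q t + e t) m = rc Q m + rc e m := by
      unfold rc
      have e3 := fc_add (fun t => ((Q t : ℝ) : ℂ)) (fun t => ((e t : ℝ) : ℂ))
        (Complex.continuous_ofReal.comp hQc) (Complex.continuous_ofReal.comp hecont) m
      rw [← e3]
      congr 1
      funext t
      push_cast
      rfl
    rw [e1, e2, hec, add_sub_cancel, hmI]
  have hsumP : Summable (fun n : ℤ => ‖rc P n‖) := by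
    refine Summable.of_nonneg_of_le (fun _ => norm_nonneg _) (fun n => ?_) hPs
    have : (1 : ℝ) ≤ (1 + |(n : ℝ)|) ^ 4 := one_le_pow₀ (by linarith [abs_nonneg (n : ℝ)])
    nlinarith [norm_nonneg (rc P n)]
  have hKpos := h.1
  have hsumR : Summable (fun n : ℤ => ‖rc (fun t => s * hh c x0 t * P t + E t) n‖) := by
    refine Summable.of_nonneg_of_le (fun _ => norm_nonneg _) (fun n => ?_) (hPs.mul_left (1 + K))
    rw [h2 n, norm_mul, norm_mul]
    have e1 : ‖((n : ℤ) : ℂ)‖ = |(n : ℝ)| := by
      rw [← Complex.ofReal_intCast, Complex.norm_real, Real.norm_eq_abs]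
    have e2 : ‖((τ n : ℝ) : ℂ)‖ = |τ n| := by rw [Complex.norm_real, Real.norm_eq_abs]
    rw [e1, e2]
    have e3 := (tau_bd x0 K τ hx h n).1
    have e4 : |(n : ℝ)| ≤ (1 + |(n : ℝ)|) ^ 4 := by
      have a0 := abs_nonneg (n : ℝ)
      calc |(n : ℝ)| ≤ (1 + |(n : ℝ)|) := by linarith
        _ = (1 + |(n : ℝ)|) ^ 1 := (pow_one _).symm
        _ ≤ (1 + |(n : ℝ)|) ^ 4 := pow_le_pow_right₀ (by linarith) (by norm_num)
    calc |(n : ℝ)| * |τ n| * ‖rc P n‖ ≤ (1 + |(n : ℝ)|) ^ 4 * (1 + K) * ‖rc P n‖ := by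
          gcongr
      _ = (1 + K) * (‖rc P n‖ * (1 + |(n : ℝ)|) ^ 4) := by ring
  have h3 := ip_hasSum P (fun t => σ * hh c x0 t * f t) hPc hPp hsumP
    ((continuous_const.mul hhcont).mul hfc)
  have h4 := ip_hasSum (fun t => s * hh c x0 t * P t + E t) f
    (((continuous_const.mul hhcont).mul hPc).add hE)
    (by
      intro t
      show s * hh c x0 (t + 2 * π) * P (t + 2 * π) + E (t + 2 * π) = s * hh c x0 t * P t + E t
      rw [hhp2 t, hPp t, hEp t])
    hsumR hfc
  have h5 : (fun m : ℤ => rc P m * rc (fun t => σ * hh c x0 t * f t) (-m)) =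
      fun m : ℤ => rc (fun t => s * hh c x0 t * P t + E t) m * rc f (-m) := by
    funext m
    rw [h1, h2, hτ]
    push_cast
    ring
  rw [h5] at h3
  have h6 : ip P (fun t => σ * hh c x0 t * f t) =
      ip (fun t => s * hh c x0 t * P t + E t) f := by
    exact_mod_cast h3.unique h4
  have h7 : ip P (fun t => σ * hh c x0 t * f t) = σ * ip f (fun t => hh c x0 t * P t) := by
    unfold ip
    have : (fun t => P t * (σ * hh c x0 t * f t)) = fun t => σ * (f t * (hh c x0 t * P t)) := by
      funext t; ring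
    simp only [this]
    rw [intervalIntegral.integral_const_mul]
    ring
  have h8 : ip (fun t => s * hh c x0 t * P t + E t) f =
      s * ip f (fun t => hh c x0 t * P t) + ip f E := by
    unfold ip
    have : (fun t => (s * hh c x0 t * P t + E t) * f t) =
        fun t => s * (f t * (hh c x0 t * P t)) + f t * E t := by
      funext t; ring
    simp only [this]
    rw [intervalIntegral.integral_add, intervalIntegral.integral_const_mul]
    · ring
    · exact (continuous_const.mul (hfc.mul (hhcont.mul hPc))).intervalIntegrable _ _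
    · exact (hfc.mul hE).intervalIntegrable _ _
  rw [h7, h8] at h6
  linarith

end

end Pool.Agent.Helper482.Stk.M_q2
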