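import Pool.Agent.Helper482.Stk.Defs
import Pool.Agent.Helper482.Stk.M_f4
import Pool.Agent.Helper482.Stk.M_h1
import Pool.Agent.Helper482.Stk.M_q2
import Pool.Agent.Helper482.Stk.M_s4

set_option autoImplicit false

namespace Pool.Agent.Helper482.Stk.M_q3

open Pool.Agent.Helper482.Stk
open Pool.Agent.Helper482.Stk.M_f4
open Pool.Agent.Helper482.Stk.M_h1
open Pool.Agent.Helper482.Stk.M_q2
open Pool.Agent.Helper482.Stk.M_s4
open Real MeasureTheory intervalIntegral

noncomputable section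

theorem rc_add' (f g : ℝ → ℝ) (hf : Continuous f) (hg : Continuous g) (n : ℤ) :
    rc (fun t => f t + g t) n = rc f n + rc g n := by
  unfold rc
  have h1 : (fun t => (((f t + g t : ℝ)) : ℂ)) = fun t => ((f t : ℝ) : ℂ) + ((g t : ℝ) : ℂ) := by
    funext t; push_cast; rfl
  rw [h1]
  exact fc_add _ _ (Complex.continuous_ofReal.comp hf) (Complex.continuous_ofReal.comp hg) n

theorem rc_cmul' (a : ℝ) (f : ℝ → ℝ) (n : ℤ) :
    rc (fun t => a * f t) n = (a : ℂ) * rc f n := by
  unfold rc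
  have h1 : (fun t => (((a * f t : ℝ)) : ℂ)) = fun t => (a : ℂ) * ((f t : ℝ) : ℂ) := by
    funext t; push_cast; rfl
  rw [h1]
  exact fc_const_mul _ _ n

theorem rc_deriv' (f f' : ℝ → ℝ) (h : ∀ t, HasDerivAt f (f' t) t) (hf' : Continuous f')
    (hp : Function.Periodic f (2 * π)) (n : ℤ) : rc f' n = Complex.I * n * rc f n := by
  unfold rc
  refine fc_deriv (fun t => ((f t : ℝ) : ℂ)) (fun t => ((f' t : ℝ) : ℂ)) (fun t => (h t).ofReal_comp)
    (Complex.continuous_ofReal.comp hf') ?_ n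
  intro t
  simp only [hp t]

theorem ip_bound (u w : ℝ → ℝ) (a b : ℝ) (ha : 0 ≤ a) (hu : ∀ t, |u t| ≤ a) (hw : ∀ t, |w t| ≤ b) :
    |ip u w| ≤ a * b := by
  unfold ip
  have hb : 0 ≤ b := (abs_nonneg _).trans (hw 0)
  have h1 : ‖∫ t in (-π)..π, u t * w t‖ ≤ (a * b) * |π - (-π)| := by
    apply intervalIntegral.norm_integral_le_of_norm_le_const
    intro t _
    rw [norm_mul]
    exact mul_le_mul (hu t) (hw t) (abs_nonneg _) ha
  rw [Real.norm_eq_abs] at h1
  have h2 : |π - (-π)| = 2 * π := by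
    rw [abs_of_pos (by linarith [Real.pi_pos])]; ring
  rw [h2] at h1
  rw [abs_mul, abs_of_pos (by positivity : (0:ℝ) < 1 / (2 * π))]
  rw [one_div, inv_mul_le_iff₀ (by positivity)]
  linarith

theorem ip_lin (a : ℝ) (P v g : ℝ → ℝ) (hP : Continuous P) (hv : Continuous v) (hg : Continuous g) :
    ip (fun t => a * P t + v t) g = a * ip P g + ip v g := by
  unfold ip
  have h1 : (∫ t in (-π)..π, (a * P t + v t) * g t) =
      a * (∫ t in (-π)..π, P t * g t) + ∫ t in (-π)..π, v t * g t := by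
    rw [← intervalIntegral.integral_const_mul, ← intervalIntegral.integral_add]
    · congr 1
      funext t
      ring
    · exact ((continuous_const.mul (hP.mul hg))).intervalIntegrable _ _
    · exact (hv.mul hg).intervalIntegrable _ _
  rw [h1]
  ring

theorem cls (c x0 K C0 : ℝ) (τ : ℤ → ℝ) (hc : 0 < c) (hx : 0 < x0) (h : TauOK x0 K τ)
    (hC0 : 0 < C0) :
    ∃ K1 > 0, ∃ s0 ≥ 1, ∃ η1 > 0, ∀ (s σ : ℝ), s0 ≤ s → |σ - s| ≤ C0 / s →
      ∀ (P Q e E Es : ℝ → ℝ) (η : ℝ), 0 ≤ η → η ≤ η1 →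
      (∀ t, HasDerivAt P (-(s * hh c x0 t * Q t)) t) →
      (∀ t, HasDerivAt Q (s * hh c x0 t * P t) t) →
      Function.Periodic P (2 * π) → Function.Periodic Q (2 * π) →
      (∀ t, |P t| ≤ 1) → (∀ t, |Q t| ≤ 1) →
      Summable (fun j : ℤ => ‖rc P j‖ * (1 + |(j : ℝ)|) ^ 4) →
      Continuous E → Continuous Es → Function.Periodic e (2 * π) → Function.Periodic Es (2 * π) →
      (∀ t, HasDerivAt e (E t) t) →
      (∀ n : ℤ, rc e n = -Complex.I * (τ n : ℂ) * rc P n - rc Q n) →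
      (∀ n : ℤ, rc Es n = -Complex.I * (((τ n)⁻¹ : ℝ) : ℂ) * rc E n) →
      (∀ t, |E t| ≤ η) → (∀ t, |Es t| ≤ η) →
      ip P (fun t => hh c x0 t * P t) = ph c x0 π / (2 * π) →
      ∀ (f f' G : ℝ → ℝ) (Cc : ℝ), Sol c x0 τ σ f f' G →
      f 0 = Cc * P 0 → G 0 = Cc * (Q 0 + e 0) →
      (∀ n : ℤ, ‖rc f n - Cc * rc P n‖ ≤ K1 * (1 + (n : ℝ) ^ 2) * |Cc| * η / s) ∧
      (Cc ≠ 0 → |(σ - s) * (ph c x0 π / (2 * π)) - ip P E| ≤ K1 * η ^ 2) := by
  obtain ⟨C, hC, σ0, hσ0, hst⟩ := stab c x0 K τ hc hx h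
  obtain ⟨hh1, hh2, -, hhper, hhc⟩ := hh_basic c x0 hc hx
  obtain ⟨-, -, -, hph0, -⟩ := ph_basic c x0 hc hx
  have hhcont : Continuous (hh c x0) := (hhc 0).continuous
  have hhnn : ∀ t, 0 ≤ hh c x0 t := fun t => Real.sqrt_nonneg _
  set Hm : ℝ := c * Real.cosh x0 with hHm
  have hHm0 : 0 < Hm := mul_pos hc (Real.cosh_pos _)
  have hhabs : ∀ t, |hh c x0 t| ≤ Hm := fun t => by rw [abs_of_nonneg (hhnn t)]; exact hh2 t
  have hhper2 : Function.Periodic (hh c x0) (2 * π) := by
    have := hhper.nat_mul 2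
    simpa using this
  set κ : ℝ := ph c x0 π / (2 * π) with hκ
  have hκ0 : 0 < κ := by positivity
  set Kc : ℝ := 2 * (1 + 8 * C) / κ with hKc
  have hKc0 : 0 < Kc := by positivity
  set B : ℝ := 2 + Kc * Hm with hB
  have hB0 : 0 < B := by positivity
  refine ⟨C * B ^ 2 + 2 * C * B, by positivity,
    1 + 2 * σ0 + 2 * C0 + C0 * (4 * C * Hm ^ 2) / κ, ?_, 1, one_pos, ?_⟩
  · have : 0 ≤ C0 * (4 * C * Hm ^ 2) / κ := by positivity
    linarith
  intro s σ hs hσs P Q e E Es η hη0 hη1 hP hQ hPp hQp hPb hQb hPs hEc hEsc hep hEsp he hec hEsrc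
    hEb hEsb hκip f f' G Cc hsol hf0 hG0
  have hnn : 0 ≤ C0 * (4 * C * Hm ^ 2) / κ := by positivity
  have hs1 : 1 ≤ s := by linarith
  have hs0 : 0 < s := by linarith
  have hsσ0 : 2 * σ0 ≤ s := by linarith
  have hsC0 : 2 * C0 ≤ s := by linarith
  have hsκ : C0 * (4 * C * Hm ^ 2) / κ ≤ s := by linarith
  have hC0s : C0 / s ≤ s / 2 := by
    rw [div_le_div_iff₀ hs0 two_pos]
    nlinarith
  set ε : ℝ := σ - s with hε
  have hεs : |ε| ≤ s / 2 := hσs.trans hC0s
  have hσge : s / 2 ≤ σ := by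
    have := (abs_le.1 hεs).1
    linarith
  have hσσ0 : σ0 ≤ σ := by linarith
  have hσpos : 0 < σ := by linarith
  have hεκ : 2 * C * |ε| * Hm ^ 2 ≤ κ / 2 := by
    have h1 : |ε| * s ≤ C0 := by
      rw [le_div_iff₀ hs0] at hσs; exact hσs
    rw [div_le_iff₀ hκ0] at hsκ
    have h2 : C0 * (4 * C * Hm ^ 2) * |ε| ≤ s * κ * |ε| := mul_le_mul_of_nonneg_right hsκ (abs_nonneg _)
    have h3 : s * κ * |ε| ≤ C0 * κ := by nlinarith
    have h4 : C0 * (4 * C * Hm ^ 2 * |ε|) ≤ C0 * κ := by linarith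
    have h5 := le_of_mul_le_mul_left h4 hC0
    linarith
  obtain ⟨hf'c, hfp, hGp, hfd, hGd, hGrc⟩ := hsol
  have hPc : Continuous P := continuous_iff_continuousAt.2 fun t => (hP t).continuousAt
  have hQc : Continuous Q := continuous_iff_continuousAt.2 fun t => (hQ t).continuousAt
  have hfc : Continuous f := continuous_iff_continuousAt.2 fun t => (hfd t).continuousAt
  have hGc : Continuous G := continuous_iff_continuousAt.2 fun t => (hGd t).continuousAt
  have hec' : Continuous e := continuous_iff_continuousAt.2 fun t => (he t).continuousAt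
  -- the comparison functions
  set v : ℝ → ℝ := fun t => f t + (-Cc) * P t with hv
  set v' : ℝ → ℝ := fun t => f' t + Cc * (s * hh c x0 t * Q t) with hv'
  set Gv : ℝ → ℝ := fun t => G t + (-Cc) * (Q t + e t) with hGv
  set F : ℝ → ℝ := fun t => Cc * (E t + (-ε) * (hh c x0 t * P t)) with hF
  set W : ℝ → ℝ := fun t => Cc * ((1 + ε / s) * Es t + (-ε) * (hh c x0 t * Q t)) with hW
  have hhP : Continuous (fun t => hh c x0 t * P t) := hhcont.mul hPc
  have hhQ : Continuous (fun t => hh c x0 t * Q t) := hhcont.mul hQc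
  have hvc : Continuous v := by rw [hv]; fun_prop
  have hv'c : Continuous v' := by rw [hv']; fun_prop
  have hFc : Continuous F := by rw [hF]; fun_prop
  have hWc : Continuous W := by rw [hW]; fun_prop
  have hvp : Function.Periodic v (2 * π) := by
    intro t; simp only [hv, hfp t, hPp t]
  have hGvp : Function.Periodic Gv (2 * π) := by
    intro t; simp only [hGv, hGp t, hQp t, hep t]
  have hWp : Function.Periodic W (2 * π) := by
    intro t; simp only [hW, hEsp t, hhper2 t, hQp t]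
  have hvd : ∀ t, HasDerivAt v (v' t) t := by
    intro t
    have h1 : HasDerivAt (fun t => f t + (-Cc) * P t)
        (f' t + (-Cc) * (-(s * hh c x0 t * Q t))) t := (hfd t).add ((hP t).const_mul (-Cc))
    refine h1.congr_deriv ?_
    show _ = f' t + Cc * (s * hh c x0 t * Q t)
    ring
  have hGvd : ∀ t, HasDerivAt Gv (σ * hh c x0 t * v t - F t) t := by
    intro t
    have h1 : HasDerivAt (fun t => G t + (-Cc) * (Q t + e t))
        (σ * hh c x0 t * f t + (-Cc) * (s * hh c x0 t * P t + E t)) t :=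
      (hGd t).add (((hQ t).add (he t)).const_mul (-Cc))
    refine h1.congr_deriv ?_
    show _ = σ * hh c x0 t * (f t + (-Cc) * P t) - Cc * (E t + (-(σ - s)) * (hh c x0 t * P t))
    ring
  have hvrc : ∀ n, rc v n = rc f n - Cc * rc P n := by
    intro n
    rw [hv, rc_add' _ _ hfc (by fun_prop), rc_cmul']
    push_cast; ring
  have hGvrc : ∀ n : ℤ, rc Gv n = -Complex.I * (τ n : ℂ) * rc v n := by
    intro n
    rw [hvrc, hGv, rc_add' _ _ hGc (by fun_prop), rc_cmul', rc_add' _ _ hQc hec', hec n, hGrc n]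
    push_cast; ring
  have hτ : ∀ n : ℤ, n ≠ 0 → τ n ≠ 0 := by
    intro n hn
    obtain ⟨-, -, hodd, hpos⟩ := h
    rcases lt_or_gt_of_ne hn with h1 | h1
    · have h2 := (hpos (-n) (by omega)).1
      rw [hodd] at h2
      intro h3
      rw [h3] at h2
      simp at h2
    · exact (hpos n (by omega)).1.ne'
  have hτ0 : τ 0 = 0 := h.2.1
  have hkey : ∀ n : ℤ, Complex.I * (((τ n)⁻¹ : ℝ) : ℂ) * rc (fun t => hh c x0 t * P t) n =
      rc Es n / s - rc (fun t => hh c x0 t * Q t) n := by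
    intro n
    have hsC : (s : ℂ) ≠ 0 := by exact_mod_cast hs0.ne'
    have h1 : rc (fun t => s * (hh c x0 t * P t) + E t) n = Complex.I * n * (rc Q n + rc e n) := by
      rw [← rc_add' _ _ hQc hec']
      apply rc_deriv' (fun t => Q t + e t)
      · intro t
        have h1 : HasDerivAt (fun t => Q t + e t) (s * hh c x0 t * P t + E t) t := (hQ t).add (he t)
        refine h1.congr_deriv ?_
        ring
      · fun_prop
      · intro t
        simp only [hQp t, hep t]
    rw [rc_add' _ _ (by fun_prop) hEc, rc_cmul', hec n] at h1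
    have h2 : rc (fun t => (-s) * (hh c x0 t * Q t)) n = Complex.I * n * rc P n := by
      apply rc_deriv' P
      · intro t
        refine (hP t).congr_deriv ?_
        ring
      · fun_prop
      · exact hPp
    rw [rc_cmul'] at h2
    push_cast at h2
    rw [hEsrc n]
    by_cases hn : n = 0
    · subst hn
      rw [hτ0] at h1 ⊢
      have h3 : rc (fun t => hh c x0 t * Q t) 0 = 0 := by
        have h4 : -(s : ℂ) * rc (fun t => hh c x0 t * Q t) 0 = 0 := by
          rw [h2]; simp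
        rcases mul_eq_zero.1 h4 with h5 | h5
        · exact absurd (neg_eq_zero.1 h5) hsC
        · exact h5
      rw [h3]
      simp
    · have hτn : (τ n : ℂ) ≠ 0 := by exact_mod_cast hτ n hn
      push_cast
      have hI : Complex.I * Complex.I = -1 := Complex.I_mul_I
      have h6 : (s : ℂ) * rc (fun t => hh c x0 t * P t) n + rc E n = n * (τ n : ℂ) * rc P n := by
        rw [h1]
        linear_combination (-(n : ℂ) * (τ n : ℂ) * rc P n) * hI
      have h7 : Complex.I * (n : ℂ) * rc P n = -(s : ℂ) * rc (fun t => hh c x0 t * Q t) n := h2.symm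
      have h8 : Complex.I * s * rc (fun t => hh c x0 t * P t) n =
          -Complex.I * rc E n - s * (τ n : ℂ) * rc (fun t => hh c x0 t * Q t) n := by
        linear_combination Complex.I * h6 + (τ n : ℂ) * h7
      have h9 : (τ n : ℂ) * (τ n : ℂ)⁻¹ = 1 := mul_inv_cancel₀ hτn
      rw [eq_sub_iff_add_eq, eq_div_iff hsC]
      linear_combination (τ n : ℂ)⁻¹ * h8 - s * rc (fun t => hh c x0 t * Q t) n * h9
  have hWrc : ∀ n : ℤ, rc W n = -Complex.I * (((τ n)⁻¹ : ℝ) : ℂ) * rc F n := by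
    intro n
    have h1 := hkey n
    rw [hW, hF, rc_cmul', rc_cmul', rc_add' _ _ (by fun_prop) (by fun_prop), rc_cmul', rc_cmul',
      rc_add' _ _ hEc (by fun_prop), rc_cmul']
    have h2 := hEsrc n
    push_cast at h1 h2 ⊢
    have hsC : (s : ℂ) ≠ 0 := by exact_mod_cast hs0.ne'
    linear_combination (Cc : ℂ) * h2 - (Cc : ℂ) * (ε : ℂ) * h1
  set A : ℝ := |Cc| * (2 * η + |ε| * Hm) with hA
  have hA0 : 0 ≤ A := by positivity
  have hFb : ∀ t, |F t| ≤ A := by
    intro t
    rw [hF]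
    simp only
    rw [abs_mul, hA]
    apply mul_le_mul_of_nonneg_left _ (abs_nonneg _)
    have h1 : |E t + -ε * (hh c x0 t * P t)| ≤ |E t| + |ε| * (|hh c x0 t| * |P t|) := by
      refine (abs_add_le _ _).trans ?_
      rw [abs_mul, abs_mul, abs_neg]
    have h2 : |hh c x0 t| * |P t| ≤ Hm := by
      calc |hh c x0 t| * |P t| ≤ Hm * 1 := mul_le_mul (hhabs t) (hPb t) (abs_nonneg _) hHm0.le
        _ = Hm := mul_one _
    have h3 : |ε| * (|hh c x0 t| * |P t|) ≤ |ε| * Hm := mul_le_mul_of_nonneg_left h2 (abs_nonneg _)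
    have := hEb t
    linarith
  have hWb : ∀ t, |W t| ≤ A := by
    intro t
    rw [hW]
    simp only
    rw [abs_mul, hA]
    apply mul_le_mul_of_nonneg_left _ (abs_nonneg _)
    have h1 : |(1 + ε / s) * Es t + -ε * (hh c x0 t * Q t)| ≤
        |1 + ε / s| * |Es t| + |ε| * (|hh c x0 t| * |Q t|) := by
      refine (abs_add_le _ _).trans ?_
      rw [abs_mul, abs_mul, abs_mul, abs_neg]
    have h2 : |hh c x0 t| * |Q t| ≤ Hm := by
      calc |hh c x0 t| * |Q t| ≤ Hm * 1 := mul_le_mul (hhabs t) (hQb t) (abs_nonneg _) hHm0.le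
        _ = Hm := mul_one _
    have h3 : |ε| * (|hh c x0 t| * |Q t|) ≤ |ε| * Hm := mul_le_mul_of_nonneg_left h2 (abs_nonneg _)
    have h4 : |1 + ε / s| ≤ 2 := by
      have h5 : |ε / s| ≤ 1 := by
        rw [abs_div, abs_of_pos hs0, div_le_one hs0]
        linarith
      have h6 := abs_add_le 1 (ε / s)
      rw [abs_one] at h6
      linarith
    have h7 : |1 + ε / s| * |Es t| ≤ 2 * η := mul_le_mul h4 (hEsb t) (abs_nonneg _) (by norm_num)
    linarith
  have hv0 : v 0 = 0 := by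
    simp only [hv, hf0]; ring
  have hGv0 : Gv 0 = 0 := by
    simp only [hGv, hG0]; ring
  obtain ⟨hr1, hr2, -⟩ := hst σ hσσ0 v v' Gv F W A hA0 hv'c hFc hWc hvp hGvp hWp hvd hGvd hGvrc hWrc
    hFb hWb
  rw [hv0, hGv0, abs_zero, add_zero, zero_add] at hr1
  rw [hv0, hGv0, abs_zero, add_zero, zero_div, zero_add] at hr2
  -- pairing
  have hpair := pairing c x0 K s σ τ hc hx h P Q e E f f' G ⟨hf'c, hfp, hGp, hfd, hGd, hGrc⟩ hP hQ hPp hQp
    hPs hEc hep he hec
  have hfeq : f = fun t => Cc * P t + v t := by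
    funext t
    simp only [hv]; ring
  have hmain : Cc ≠ 0 → |ε * κ - ip P E| ≤ C * ((2 * η + |ε| * Hm) * (η + |ε| * Hm)) := by
    intro hCc
    have hl1 : ip f (fun t => hh c x0 t * P t) = Cc * κ + ip v (fun t => hh c x0 t * P t) := by
      have := ip_lin Cc P v (fun t => hh c x0 t * P t) hPc hvc hhP
      rw [← hfeq, hκip] at this
      exact this
    have hl2 : ip f E = Cc * ip P E + ip v E := by
      have := ip_lin Cc P v E hPc hvc hEc
      rw [← hfeq] at this
      exact this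
    have h3 : Cc * (ε * κ - ip P E) = ip v E - ε * ip v (fun t => hh c x0 t * P t) := by
      have h4 : ε * ip f (fun t => hh c x0 t * P t) = ip f E := hpair
      rw [hl1, hl2] at h4
      linarith
    have hCA : 0 ≤ C * A := by positivity
    have h5 : |ip v E| ≤ (C * A) * η := ip_bound v E _ _ hCA hr1 hEb
    have h6 : |ip v (fun t => hh c x0 t * P t)| ≤ (C * A) * Hm := by
      apply ip_bound v _ _ _ hCA hr1
      intro t
      rw [abs_mul]
      calc |hh c x0 t| * |P t| ≤ Hm * 1 := mul_le_mul (hhabs t) (hPb t) (abs_nonneg _) hHm0.le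
        _ = Hm := mul_one _
    have h7 : |Cc * (ε * κ - ip P E)| ≤ (C * A) * η + |ε| * ((C * A) * Hm) := by
      rw [h3]
      refine (abs_sub _ _).trans ?_
      rw [abs_mul]
      exact add_le_add h5 (mul_le_mul_of_nonneg_left h6 (abs_nonneg _))
    rw [abs_mul] at h7
    have h8 : (C * A) * η + |ε| * ((C * A) * Hm) =
        |Cc| * (C * ((2 * η + |ε| * Hm) * (η + |ε| * Hm))) := by
      rw [hA]; ring
    rw [h8] at h7
    exact le_of_mul_le_mul_left h7 (abs_pos.2 hCc)
  have hεK : Cc ≠ 0 → |ε| ≤ Kc * η := by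
    intro hCc
    have h1 := hmain hCc
    have h2 : |ip P E| ≤ 1 * η := ip_bound P E 1 η zero_le_one hPb hEb
    have h3 : |ε| * κ ≤ |ε * κ - ip P E| + |ip P E| := by
      have h4 : |ε * κ| = |ε| * κ := by rw [abs_mul, abs_of_pos hκ0]
      rw [← h4]
      have := abs_add_le (ε * κ - ip P E) (ip P E)
      simpa using this
    set a : ℝ := |ε| with ha
    have ha0 : 0 ≤ a := abs_nonneg _
    have h5 : (2 * η + a * Hm) * (η + a * Hm) ≤ 8 * η ^ 2 + 2 * (a * Hm) ^ 2 := by
      nlinarith [sq_nonneg (2 * η - a * Hm), sq_nonneg η, sq_nonneg (a * Hm), mul_nonneg ha0 hHm0.le,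
        mul_nonneg hη0 (mul_nonneg ha0 hHm0.le)]
    have h6 : C * ((2 * η + a * Hm) * (η + a * Hm)) ≤ C * (8 * η ^ 2 + 2 * (a * Hm) ^ 2) :=
      mul_le_mul_of_nonneg_left h5 hC.le
    have h7 : C * (2 * (a * Hm) ^ 2) ≤ a * (κ / 2) := by
      have h8 : a * (2 * C * a * Hm ^ 2) ≤ a * (κ / 2) := mul_le_mul_of_nonneg_left hεκ ha0
      calc C * (2 * (a * Hm) ^ 2) = a * (2 * C * a * Hm ^ 2) := by ring
        _ ≤ _ := h8
    have h9 : η ^ 2 ≤ η := by nlinarith
    have h10 : C * (8 * η ^ 2) ≤ C * (8 * η) := mul_le_mul_of_nonneg_left (by linarith) hC.le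
    have h11 : a * κ ≤ η + C * (8 * η) + a * (κ / 2) := by
      have h12 : C * (8 * η ^ 2 + 2 * (a * Hm) ^ 2) = C * (8 * η ^ 2) + C * (2 * (a * Hm) ^ 2) := by ring
      linarith
    rw [hKc, div_mul_eq_mul_div, le_div_iff₀ hκ0]
    linarith
  constructor
  · intro n
    rw [← hvrc n]
    refine (hr2 n).trans ?_
    by_cases hCc : Cc = 0
    · have : A = 0 := by rw [hA, hCc]; simp
      rw [this, hCc]
      simp
    · have h1 := hεK hCc
      have h2 : A ≤ |Cc| * (B * η) := by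
        rw [hA]
        apply mul_le_mul_of_nonneg_left _ (abs_nonneg _)
        rw [hB]
        nlinarith
      have h3 : A / σ ≤ |Cc| * (B * η) * 2 / s := by
        rw [div_le_div_iff₀ hσpos hs0]
        have h4 : |Cc| * (B * η) * 2 * σ ≥ |Cc| * (B * η) * s := by
          have : 0 ≤ |Cc| * (B * η) := by positivity
          nlinarith
        have h5 : A * s ≤ |Cc| * (B * η) * s := mul_le_mul_of_nonneg_right h2 hs0.le
        linarith
      have h6 : C * (1 + (n : ℝ) ^ 2) * (A / σ) ≤ C * (1 + (n : ℝ) ^ 2) * (|Cc| * (B * η) * 2 / s) :=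
        mul_le_mul_of_nonneg_left h3 (by positivity)
      refine h6.trans ?_
      have h7 : (C * B ^ 2 + 2 * C * B) * (1 + (n : ℝ) ^ 2) * |Cc| * η / s =
          C * (1 + (n : ℝ) ^ 2) * (|Cc| * (B * η) * 2 / s) +
            C * B ^ 2 * (1 + (n : ℝ) ^ 2) * |Cc| * η / s := by ring
      rw [h7]
      have h8 : 0 ≤ C * B ^ 2 * (1 + (n : ℝ) ^ 2) * |Cc| * η / s := by positivity
      linarith
  · intro hCc
    have h1 := hεK hCc
    refine (hmain hCc).trans ?_
    have h2 : 2 * η + |ε| * Hm ≤ B * η := by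
      rw [hB]; nlinarith
    have h3 : η + |ε| * Hm ≤ B * η := by linarith
    have h4 : (2 * η + |ε| * Hm) * (η + |ε| * Hm) ≤ (B * η) * (B * η) :=
      mul_le_mul h2 h3 (by positivity) (by positivity)
    have h5 : C * ((2 * η + |ε| * Hm) * (η + |ε| * Hm)) ≤ C * ((B * η) * (B * η)) :=
      mul_le_mul_of_nonneg_left h4 hC.le
    refine h5.trans ?_
    have h6 : 0 ≤ 2 * C * B * η ^ 2 := by positivity
    have h7 : (C * B ^ 2 + 2 * C * B) * η ^ 2 = C * ((B * η) * (B * η)) + 2 * C * B * η ^ 2 := by ring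
    rw [h7]
    linarith

end

end Pool.Agent.Helper482.Stk.M_q3
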