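import Pool.Agent.Helper482.Stk.Defs
import Pool.Agent.Helper482.Stk.M_h1

set_option autoImplicit false

namespace Pool.Agent.Helper482.Stk.M_h3

open Pool.Agent.Helper482.Stk
open Pool.Agent.Helper482.Stk.M_h1
open Real MeasureTheory intervalIntegral

noncomputable section

theorem odd_int_7903 (g : ℝ → ℝ) (hg : ∀ t, g (-t) = - g t) : ∫ t in (-π)..π, g t = 0 := by
  have h1 : ∫ t in (-π)..π, g (-t) = ∫ t in (-π)..(-(-π)), g t :=
    intervalIntegral.integral_comp_neg _
  rw [neg_neg] at h1
  have h2 : ∫ t in (-π)..π, g (-t) = - ∫ t in (-π)..π, g t := by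
    rw [← intervalIntegral.integral_neg]
    congr 1
    funext t
    exact hg t
  linarith

theorem fc_real_7903 (g : ℝ → ℝ) (hg : Continuous g) (n : ℤ) :
    fc (fun t => ((g t : ℝ) : ℂ)) n =
      (((1 / (2 * π)) * ∫ t in (-π)..π, g t * Real.cos (n * t) : ℝ) : ℂ) -
      Complex.I * (((1 / (2 * π)) * ∫ t in (-π)..π, g t * Real.sin (n * t) : ℝ) : ℂ) := by
  unfold fc
  have h1 : ∀ t : ℝ, ((g t : ℝ) : ℂ) * Complex.exp (-(Complex.I * n * t)) =
      ((g t * Real.cos (n * t) : ℝ) : ℂ) - Complex.I * ((g t * Real.sin (n * t) : ℝ) : ℂ) := by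
    intro t
    have h2 : -(Complex.I * n * t) = ((-(n * t) : ℝ) : ℂ) * Complex.I := by
      push_cast
      ring
    rw [h2, Complex.exp_mul_I, ← Complex.ofReal_cos, ← Complex.ofReal_sin, Real.cos_neg,
      Real.sin_neg]
    push_cast
    ring
  have h3 : ∫ t in (-π)..π, ((g t : ℝ) : ℂ) * Complex.exp (-(Complex.I * n * t)) =
      ∫ t in (-π)..π, (((g t * Real.cos (n * t) : ℝ) : ℂ) -
        Complex.I * ((g t * Real.sin (n * t) : ℝ) : ℂ)) := by
    congr 1
    funext t
    exact h1 t
  rw [h3, intervalIntegral.integral_sub, intervalIntegral.integral_const_mul,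
    intervalIntegral.integral_ofReal, intervalIntegral.integral_ofReal]
  · push_cast
    ring
  · apply Continuous.intervalIntegrable
    fun_prop
  · apply Continuous.intervalIntegrable
    fun_prop



theorem an_rel (c x0 s : ℝ) (hc : 0 < c) (hx : 0 < x0) (n : ℤ) :
    rc (fun t => Real.cos (s * ph c x0 t)) n = (((an c x0 s n + an c x0 s (-n)) / 2 : ℝ) : ℂ) ∧
    rc (fun t => Real.sin (s * ph c x0 t)) n =
      -Complex.I * (((an c x0 s n - an c x0 s (-n)) / 2 : ℝ) : ℂ) ∧
    fc (fun t => Complex.exp (Complex.I * ((s * ph c x0 t : ℝ) : ℂ))) n = ((an c x0 s n : ℝ) : ℂ) ∧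
    |an c x0 s n| ≤ 1 := by
  obtain ⟨hder, hodd, -, -, hcd⟩ := ph_basic c x0 hc hx
  have hcont : Continuous (ph c x0) := (hcd 0).continuous
  have hpi : (0 : ℝ) < 2 * π := by positivity
  set A : ℝ := (1 / (2 * π)) * ∫ t in (-π)..π, Real.cos (s * ph c x0 t) * Real.cos (n * t) with hA
  set B : ℝ := (1 / (2 * π)) * ∫ t in (-π)..π, Real.sin (s * ph c x0 t) * Real.sin (n * t) with hB
  have ha1 : an c x0 s n = A + B := by
    rw [hA, hB, ← mul_add, ← intervalIntegral.integral_add]
    · unfold an
      congr 2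
      funext t
      rw [Real.cos_sub]
    · apply Continuous.intervalIntegrable
      fun_prop
    · apply Continuous.intervalIntegrable
      fun_prop
  have ha2 : an c x0 s (-n) = A - B := by
    rw [hA, hB, ← mul_sub, ← intervalIntegral.integral_sub]
    · unfold an
      congr 2
      funext t
      have : s * ph c x0 t - ((-n : ℤ) : ℝ) * t = s * ph c x0 t + n * t := by
        push_cast
        ring
      rw [this, Real.cos_add]
    · apply Continuous.intervalIntegrable
      fun_prop
    · apply Continuous.intervalIntegrable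
      fun_prop
  have z1 : ∫ t in (-π)..π, Real.cos (s * ph c x0 t) * Real.sin (n * t) = 0 := by
    apply odd_int_7903
    intro t
    rw [hodd, mul_neg, Real.cos_neg, mul_neg, Real.sin_neg, mul_neg]
  have z2 : ∫ t in (-π)..π, Real.sin (s * ph c x0 t) * Real.cos (n * t) = 0 := by
    apply odd_int_7903
    intro t
    rw [hodd, mul_neg, Real.sin_neg, mul_neg, Real.cos_neg, neg_mul]
  have hc1 : Continuous (fun t => Real.cos (s * ph c x0 t)) := by fun_prop
  have hc2 : Continuous (fun t => Real.sin (s * ph c x0 t)) := by fun_prop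
  have r1 : rc (fun t => Real.cos (s * ph c x0 t)) n = (A : ℂ) := by
    unfold rc
    rw [fc_real_7903 _ hc1, z1, ← hA]
    simp
  have r2 : rc (fun t => Real.sin (s * ph c x0 t)) n = -Complex.I * (B : ℂ) := by
    unfold rc
    rw [fc_real_7903 _ hc2, z2, ← hB]
    simp
  refine ⟨?_, ?_, ?_, ?_⟩
  · rw [r1, ha1, ha2]
    congr 1
    ring
  · rw [r2, ha1, ha2]
    congr 2
    ring
  · have h1 : fc (fun t => Complex.exp (Complex.I * ((s * ph c x0 t : ℝ) : ℂ))) n =
        rc (fun t => Real.cos (s * ph c x0 t)) n +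
          Complex.I * rc (fun t => Real.sin (s * ph c x0 t)) n := by
      unfold rc fc
      have h2 : ∫ t in (-π)..π, Complex.exp (Complex.I * ((s * ph c x0 t : ℝ) : ℂ)) *
            Complex.exp (-(Complex.I * n * t)) =
          ∫ t in (-π)..π, (((Real.cos (s * ph c x0 t) : ℝ) : ℂ) *
            Complex.exp (-(Complex.I * n * t)) +
            Complex.I * (((Real.sin (s * ph c x0 t) : ℝ) : ℂ) *
            Complex.exp (-(Complex.I * n * t)))) := by
        congr 1
        funext t
        rw [mul_comm Complex.I ((s * ph c x0 t : ℝ) : ℂ), Complex.exp_mul_I,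
          ← Complex.ofReal_cos, ← Complex.ofReal_sin]
        ring
      rw [h2, intervalIntegral.integral_add, intervalIntegral.integral_const_mul]
      · ring
      · apply Continuous.intervalIntegrable
        fun_prop
      · apply Continuous.intervalIntegrable
        fun_prop
    rw [h1, r1, r2, ha1]
    push_cast
    have := Complex.I_mul_I
    linear_combination (-(B : ℂ)) * this
  · unfold an
    have h1 : ‖∫ t in (-π)..π, Real.cos (s * ph c x0 t - n * t)‖ ≤ 1 * |π - (-π)| := by
      apply intervalIntegral.norm_integral_le_of_norm_le_const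
      intro t _
      rw [Real.norm_eq_abs]
      exact Real.abs_cos_le_one _
    rw [Real.norm_eq_abs, one_mul] at h1
    have h2 : |π - (-π)| = 2 * π := by
      rw [abs_of_pos (by linarith [Real.pi_pos])]
      ring
    rw [h2] at h1
    rw [abs_mul, abs_of_pos (by positivity : (0 : ℝ) < 1 / (2 * π)), one_div_mul_eq_div,
      div_le_one hpi]
    exact h1

end

end Pool.Agent.Helper482.Stk.M_h3
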