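import Pool.Agent.Helper482.Stk.Defs
import Pool.Agent.Helper482.Stk.M_h1
import Pool.Agent.Helper482.Stk.M_p3

set_option autoImplicit false

namespace Pool.Agent.Helper482.Stk.M_p4

open Pool.Agent.Helper482.Stk
open Pool.Agent.Helper482.Stk.M_h1
open Pool.Agent.Helper482.Stk.M_p3
open Real MeasureTheory intervalIntegral

noncomputable section

theorem FF_basic (c x0 s : ℝ) (k : ℤ) (hc : 0 < c) (hx : 0 < x0)
    (hs : s * ph c x0 π = π * k) (y : ℝ) (hy : y ∈ Set.Icc 0 x0) :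
    (∀ x, FF c x0 s y (x + π) = (-1 : ℂ) ^ k * FF c x0 s y x) ∧
    Function.Periodic (FF c x0 s y) (2 * π) ∧
    (∀ x, FF c x0 s y (-x) = starRingEnd ℂ (FF c x0 s y x)) ∧
    (∀ x : ℝ, HasDerivAt (FF c x0 s y)
      (Complex.I * s * Hc c x0 (x + Complex.I * y) * FF c x0 s y x) x) ∧
    (∀ x, ‖FF c x0 s y x‖ = Real.exp (-(s * (PhiG c x0 y x).im))) ∧
    (∀ x, FF c x0 s 0 x = Complex.exp (Complex.I * ((s * ph c x0 x : ℝ) : ℂ))) := by
  obtain ⟨p1, p2, _, _, p5, p6, _⟩ := PhiG_basic c x0 hc hx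
  have hk : Complex.exp (Complex.I * s * ((ph c x0 π : ℝ) : ℂ)) = (-1 : ℂ) ^ k := by
    have h1 : Complex.I * s * ((ph c x0 π : ℝ) : ℂ) = k * (π * Complex.I) := by
      have h2 : ((s * ph c x0 π : ℝ) : ℂ) = ((π * k : ℝ) : ℂ) := by rw [hs]
      push_cast at h2
      linear_combination Complex.I * h2
    rw [h1, Complex.exp_int_mul, Complex.exp_pi_mul_I]
  have hpi : ∀ x, FF c x0 s y (x + π) = (-1 : ℂ) ^ k * FF c x0 s y x := by
    intro x
    unfold FF
    rw [p5 y hy x, mul_add, Complex.exp_add, hk, mul_comm]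
  refine ⟨hpi, ?_, ?_, ?_, ?_, ?_⟩
  · intro x
    rw [show x + 2 * π = (x + π) + π by ring, hpi, hpi, ← mul_assoc, ← mul_zpow]
    norm_num
  · intro x
    unfold FF
    rw [p6 y hy x, ← Complex.exp_conj]
    congr 1
    simp only [map_mul, Complex.conj_I, Complex.conj_ofReal]
    ring
  · intro x
    have h1 : HasDerivAt (fun x : ℝ => Complex.I * s * PhiG c x0 y x)
        (Complex.I * s * Hc c x0 (x + Complex.I * y)) x := (p2 y hy x).const_mul _
    have h2 := h1.cexp
    rw [mul_comm (Complex.I * s * Hc c x0 (x + Complex.I * y))]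
    exact h2
  · intro x
    unfold FF
    rw [Complex.norm_exp]
    congr 1
    simp
  · intro x
    unfold FF
    rw [p1]
    congr 1
    push_cast
    ring

end

end Pool.Agent.Helper482.Stk.M_p4
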