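import Pool.Agent.Helper482.Stk.Defs
import Pool.Agent.Helper482.Stk.M_f1
import Pool.Agent.Helper482.Stk.M_f4
import Pool.Agent.Helper482.Stk.M_h3
import Pool.Agent.Helper482.Stk.M_p1
import Pool.Agent.Helper482.Stk.M_p3
import Pool.Agent.Helper482.Stk.M_p4
import Pool.Agent.Helper482.Stk.M_p6

set_option autoImplicit false

namespace Pool.Agent.Helper482.Stk.M_p5

open Pool.Agent.Helper482.Stk
open Pool.Agent.Helper482.Stk.M_f1
open Pool.Agent.Helper482.Stk.M_f4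
open Pool.Agent.Helper482.Stk.M_h3
open Pool.Agent.Helper482.Stk.M_p1
open Pool.Agent.Helper482.Stk.M_p3
open Pool.Agent.Helper482.Stk.M_p4
open Pool.Agent.Helper482.Stk.M_p6
open Real MeasureTheory intervalIntegral

noncomputable section

theorem gen_bd8337 (x0 : ℝ) (G : ℝ × ℝ → ℂ) (hG : ContinuousOn G (Set.Icc 0 x0 ×ˢ Set.univ)) :
    ∃ C : ℝ, ∀ y ∈ Set.Icc (0:ℝ) x0, ∀ t ∈ Set.Icc (-π) π, ‖G (y, t)‖ ≤ C := by
  have hK : IsCompact (Set.Icc (0:ℝ) x0 ×ˢ Set.Icc (-π) π) := isCompact_Icc.prod isCompact_Icc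
  have h2 : ContinuousOn G (Set.Icc (0:ℝ) x0 ×ˢ Set.Icc (-π) π) :=
    hG.mono (Set.prod_mono le_rfl (Set.subset_univ _))
  obtain ⟨C, hC⟩ := hK.exists_bound_of_continuousOn h2
  exact ⟨C, fun y hy t ht => hC (y, t) ⟨hy, ht⟩⟩

theorem gen_slice8337 (x0 : ℝ) (G : ℝ × ℝ → ℂ) (hG : ContinuousOn G (Set.Icc 0 x0 ×ˢ Set.univ))
    (y : ℝ) (hy : y ∈ Set.Icc 0 x0) : Continuous (fun t => G (y, t)) := by
  rw [← continuousOn_univ]
  refine hG.comp (Continuous.continuousOn (by fun_prop)) ?_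
  intro t _
  exact ⟨hy, Set.mem_univ _⟩

theorem uIoc_sub8337 : Set.uIoc (-π) π ⊆ Set.Icc (-π) π := by
  have h : -π ≤ π := by have := Real.pi_pos; linarith
  rw [Set.uIoc_of_le h]
  exact Set.Ioc_subset_Icc_self

theorem gen_cont8337 (x0 : ℝ) (G : ℝ × ℝ → ℂ) (hG : ContinuousOn G (Set.Icc 0 x0 ×ˢ Set.univ)) :
    ContinuousOn (fun y => ∫ t in (-π)..π, G (y, t)) (Set.Icc 0 x0) := by
  obtain ⟨C, hC⟩ := gen_bd8337 x0 G hG
  intro y hy
  refine intervalIntegral.continuousWithinAt_of_dominated_interval (bound := fun _ => C) ?_ ?_ ?_ ?_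
  · filter_upwards [self_mem_nhdsWithin] with z hz
    exact (gen_slice8337 x0 G hG z hz).aestronglyMeasurable
  · filter_upwards [self_mem_nhdsWithin] with z hz
    exact Filter.Eventually.of_forall fun t ht => hC z hz t (uIoc_sub8337 ht)
  · exact intervalIntegrable_const
  · refine Filter.Eventually.of_forall fun t _ => ?_
    have h1 : ContinuousOn (fun z => G (z, t)) (Set.Icc 0 x0) := by
      refine hG.comp (Continuous.continuousOn (by fun_prop)) ?_
      intro z hz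
      exact ⟨hz, Set.mem_univ _⟩
    exact h1 y hy

theorem gen_deriv8337 (x0 : ℝ) (G G' : ℝ × ℝ → ℂ)
    (hG : ContinuousOn G (Set.Icc 0 x0 ×ˢ Set.univ))
    (hG' : ContinuousOn G' (Set.Icc 0 x0 ×ˢ Set.univ))
    (hd : ∀ y ∈ Set.Ioo 0 x0, ∀ t, HasDerivAt (fun y => G (y, t)) (G' (y, t)) y)
    (y : ℝ) (hy : y ∈ Set.Ioo 0 x0) :
    HasDerivAt (fun y => ∫ t in (-π)..π, G (y, t)) (∫ t in (-π)..π, G' (y, t)) y := by
  obtain ⟨C, hC⟩ := gen_bd8337 x0 G' hG'
  have hnhd : Set.Ioo 0 x0 ∈ nhds y := Ioo_mem_nhds hy.1 hy.2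
  refine (intervalIntegral.hasDerivAt_integral_of_dominated_loc_of_deriv_le
    (F := fun y t => G (y, t)) (F' := fun y t => G' (y, t)) (bound := fun _ => C) hnhd
    ?_ ?_ ?_ ?_ ?_ ?_).2
  · filter_upwards [hnhd] with z hz
    exact (gen_slice8337 x0 G hG z (Set.Ioo_subset_Icc_self hz)).aestronglyMeasurable
  · exact (gen_slice8337 x0 G hG y (Set.Ioo_subset_Icc_self hy)).intervalIntegrable _ _
  · exact (gen_slice8337 x0 G' hG' y (Set.Ioo_subset_Icc_self hy)).aestronglyMeasurable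
  · exact Filter.Eventually.of_forall fun t ht z hz =>
      hC z (Set.Ioo_subset_Icc_self hz) t (uIoc_sub8337 ht)
  · exact intervalIntegrable_const
  · exact Filter.Eventually.of_forall fun t _ z hz => hd z hz t

theorem const8337 (x0 : ℝ) (hx : 0 < x0) (a : ℂ) (A : ℝ → ℂ) (hA : ContinuousOn A (Set.Icc 0 x0))
    (hd : ∀ y ∈ Set.Ioo 0 x0, HasDerivAt A (-a * A y) y) :
    ∀ y ∈ Set.Icc 0 x0, A y = Complex.exp (-(a * y)) * A 0 := by
  set E : ℝ → ℂ := fun y => Complex.exp (a * y) * A y with hE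
  have hexp : Continuous (fun y : ℝ => Complex.exp (a * y)) := by fun_prop
  have hEc : ContinuousOn E (Set.Icc 0 x0) := hexp.continuousOn.mul hA
  have hEd : ∀ y ∈ Set.Ioo 0 x0, HasDerivAt E 0 y := by
    intro y hy
    have h1 : HasDerivAt (fun y : ℝ => Complex.exp (a * y)) (Complex.exp (a * y) * (a * 1)) y := by
      have h2 : HasDerivAt (fun y : ℝ => a * (y : ℂ)) (a * 1) y :=
        (HasDerivAt.ofReal_comp (hasDerivAt_id y)).const_mul a |>.congr_deriv (by simp)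
      exact h2.cexp
    have h3 := h1.mul (hd y hy)
    refine h3.congr_deriv ?_
    ring
  have hmain : ∀ y ∈ Set.Ioc 0 x0, E y = E 0 := by
    intro y hy
    have h4 : ∀ b ∈ Set.Ioc 0 y, b ≤ y → E y = E b := by
      intro b hb hby
      refine constant_of_has_deriv_right_zero (a := b) (b := y) (f := E) (hEc.mono ?_) ?_ y
        ⟨hb.2, le_rfl⟩
      · exact Set.Icc_subset_Icc hb.1.le hy.2
      · intro z hz
        exact (hEd z ⟨lt_of_lt_of_le hb.1 hz.1, lt_of_lt_of_le hz.2 hy.2⟩).hasDerivWithinAt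
    have h5 : Filter.Tendsto E (nhdsWithin 0 (Set.Ioc 0 y)) (nhds (E 0)) := by
      have := hEc 0 ⟨le_rfl, hx.le⟩
      refine this.mono_left (nhdsWithin_mono _ ?_)
      intro z hz
      exact ⟨hz.1.le, hz.2.trans hy.2⟩
    have h6 : Filter.Tendsto E (nhdsWithin 0 (Set.Ioc 0 y)) (nhds (E y)) := by
      refine tendsto_const_nhds.congr' ?_
      filter_upwards [self_mem_nhdsWithin] with z hz
      exact h4 z hz hz.2
    haveI : (nhdsWithin (0:ℝ) (Set.Ioc 0 y)).NeBot := by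
      rw [nhdsWithin_Ioc_eq_nhdsGT hy.1]
      infer_instance
    exact tendsto_nhds_unique h6 h5
  intro y hy
  rcases hy.1.eq_or_lt with h0 | h0
  · rw [← h0]; simp
  · have h7 := hmain y ⟨h0, hy.2⟩
    simp only [hE] at h7
    rw [show Complex.exp (a * ((0:ℝ) : ℂ)) = 1 by simp, one_mul] at h7
    rw [← h7, ← mul_assoc, ← Complex.exp_add]
    rw [show -(a * (y:ℂ)) + a * y = 0 by ring]
    simp

theorem contHc8337 (c x0 : ℝ) (hc : 0 < c) (hx : 0 < x0) :
    ContinuousOn (fun p : ℝ × ℝ => Hc c x0 (p.2 + Complex.I * p.1)) (Set.Icc 0 x0 ×ˢ Set.univ) := by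
  refine (Hc_basic c x0 hc hx).2.2.2.1.comp (Continuous.continuousOn (by fun_prop)) ?_
  intro p hp
  have h1 := hp.1
  simp only [Set.mem_setOf_eq, Complex.add_im, Complex.ofReal_im, Complex.mul_im, Complex.I_re,
    Complex.I_im, Complex.ofReal_re, zero_mul, one_mul, zero_add]
  rw [abs_of_nonneg h1.1]
  exact h1.2

theorem contFF8337 (c x0 s : ℝ) (hc : 0 < c) (hx : 0 < x0) :
    ContinuousOn (fun p : ℝ × ℝ => FF c x0 s p.1 p.2) (Set.Icc 0 x0 ×ˢ Set.univ) := by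
  unfold FF
  have h := (PhiG_basic c x0 hc hx).2.2.2.1
  exact ContinuousOn.cexp (continuousOn_const.mul h)

theorem A8337 (c x0 s : ℝ) (k : ℤ) (hc : 0 < c) (hx : 0 < x0)
    (hs : s * ph c x0 π = π * k) (n : ℤ) (y : ℝ) (hy : y ∈ Set.Icc 0 x0) :
    fc (FF c x0 s y) n = Complex.exp (-(n * y)) * fc (FF c x0 s 0) n := by
  have hcF := contFF8337 c x0 s hc hx
  have hcH := contHc8337 c x0 hc hx
  set e : ℝ × ℝ → ℂ := fun p => Complex.exp (-(Complex.I * n * p.2)) with he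
  have hec : Continuous e := by simp only [he]; fun_prop
  set G : ℝ × ℝ → ℂ := fun p => FF c x0 s p.1 p.2 * e p with hG
  set G' : ℝ × ℝ → ℂ := fun p => (Complex.I * (Complex.I * s * Hc c x0 (p.2 + Complex.I * p.1) *
    FF c x0 s p.1 p.2)) * e p with hG'
  have hGc : ContinuousOn G (Set.Icc 0 x0 ×ˢ Set.univ) := hcF.mul hec.continuousOn
  have hGc' : ContinuousOn G' (Set.Icc 0 x0 ×ˢ Set.univ) :=
    (continuousOn_const.mul ((continuousOn_const.mul hcH).mul hcF)).mul hec.continuousOn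
  have hd : ∀ y ∈ Set.Ioo 0 x0, ∀ t, HasDerivAt (fun y => G (y, t)) (G' (y, t)) y := by
    intro y hy t
    have h1 := (PhiG_basic c x0 hc hx).2.2.1 y hy t
    have h2 := (h1.const_mul (Complex.I * s)).cexp
    have h3 := h2.mul_const (e (y, t))
    refine HasDerivAt.congr_deriv (f := fun y => G (y, t)) h3 ?_
    simp only [hG', FF]
    ring
  have hcont : ContinuousOn (fun y => fc (FF c x0 s y) n) (Set.Icc 0 x0) := by
    have := (gen_cont8337 x0 G hGc).const_mul (1 / (2 * (π : ℂ)))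
    exact continuousOn_const.mul (gen_cont8337 x0 G hGc)
  have hder : ∀ y ∈ Set.Ioo 0 x0, HasDerivAt (fun y => fc (FF c x0 s y) n)
      (-(n : ℂ) * fc (FF c x0 s y) n) y := by
    intro y hy
    have hy' := Set.Ioo_subset_Icc_self hy
    have h1 := (gen_deriv8337 x0 G G' hGc hGc' hd y hy).const_mul (1 / (2 * (π : ℂ)))
    refine HasDerivAt.congr_deriv (f := fun y => fc (FF c x0 s y) n) h1 ?_
    have hF := FF_basic c x0 s k hc hx hs y hy'
    have hFc : Continuous (fun x => FF c x0 s y x) :=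
      continuous_iff_continuousAt.mpr fun x => (hF.2.2.2.1 x).continuousAt
    have hHc : Continuous (fun x : ℝ => Hc c x0 (x + Complex.I * y)) :=
      gen_slice8337 x0 (fun p : ℝ × ℝ => Hc c x0 (p.2 + Complex.I * p.1)) hcH y hy'
    have h2 := fc_deriv (FF c x0 s y)
      (fun x => Complex.I * s * Hc c x0 (x + Complex.I * y) * FF c x0 s y x) hF.2.2.2.1
      ((continuous_const.mul hHc).mul hFc) hF.2.1 n
    have h3 := fc_const_mul Complex.I
      (fun x => Complex.I * s * Hc c x0 (x + Complex.I * y) * FF c x0 s y x) n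
    have h4 : (1 / (2 * (π : ℂ))) * ∫ t in (-π)..π, G' (y, t) =
        fc (fun t => Complex.I * (Complex.I * s * Hc c x0 (t + Complex.I * y) * FF c x0 s y t)) n :=
      rfl
    rw [h4, h3, h2, ← mul_assoc, ← mul_assoc, Complex.I_mul_I]
    ring
  exact const8337 x0 hx (n : ℂ) (fun y => fc (FF c x0 s y) n) hcont hder y hy



theorem FF_fc (c x0 s : ℝ) (k : ℤ) (hc : 0 < c) (hx : 0 < x0)
    (hs : s * ph c x0 π = π * k) (y : ℝ) (hy : y ∈ Set.Icc 0 x0) :
    (∀ n : ℤ, fc (FF c x0 s y) n = ((Real.exp (-(n * y)) * an c x0 s n : ℝ) : ℂ)) ∧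
    Summable (fun n : ℤ => Real.exp (-(n * y)) * |an c x0 s n|) ∧
    (∀ x : ℝ, HasSum (fun n : ℤ => ((Real.exp (-(n * y)) * an c x0 s n : ℝ) : ℂ) *
      Complex.exp (Complex.I * n * x)) (FF c x0 s y x)) := by
  have h0 : (0:ℝ) ∈ Set.Icc 0 x0 := ⟨le_rfl, hx.le⟩
  have hfc : ∀ n : ℤ, fc (FF c x0 s y) n = ((Real.exp (-(n * y)) * an c x0 s n : ℝ) : ℂ) := by
    intro n
    rw [A8337 c x0 s k hc hx hs n y hy]
    have h1 : FF c x0 s 0 = fun t => Complex.exp (Complex.I * ((s * ph c x0 t : ℝ) : ℂ)) :=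
      funext (FF_basic c x0 s k hc hx hs 0 h0).2.2.2.2.2
    rw [h1, (an_rel c x0 s hc hx n).2.2.1]
    push_cast
    rfl
  have hF := FF_basic c x0 s k hc hx hs y hy
  have hFc : Continuous (FF c x0 s y) :=
    continuous_iff_continuousAt.mpr fun x => (hF.2.2.2.1 x).continuousAt
  have hHc : Continuous (fun x : ℝ => Hc c x0 (x + Complex.I * y)) :=
    gen_slice8337 x0 (fun p : ℝ × ℝ => Hc c x0 (p.2 + Complex.I * p.1))
      (contHc8337 c x0 hc hx) y hy
  have hsum := (fc_sum_deriv (FF c x0 s y)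
    (fun x => Complex.I * s * Hc c x0 (x + Complex.I * y) * FF c x0 s y x) hF.2.2.2.1
    ((continuous_const.mul hHc).mul hFc) hF.2.1).1
  refine ⟨hfc, ?_, ?_⟩
  · refine hsum.congr fun n => ?_
    rw [hfc n, Complex.norm_real, Real.norm_eq_abs, abs_mul, abs_of_pos (Real.exp_pos _)]
  · intro x
    have h := fc_hasSum (FF c x0 s y) hFc hF.2.1 hsum x
    simpa only [hfc] using h

end

end Pool.Agent.Helper482.Stk.M_p5
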