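import Pool.Agent.Helper482.Stk.Defs
import Pool.Agent.Helper482.Stk.M_p4
import Pool.Agent.Helper482.Stk.M_p5

set_option autoImplicit false

namespace Pool.Agent.Helper482.Stk.M_r1

open Pool.Agent.Helper482.Stk
open Pool.Agent.Helper482.Stk.M_p4
open Pool.Agent.Helper482.Stk.M_p5
open Real MeasureTheory intervalIntegral

noncomputable section

theorem gn_re_aux (c x0 s : ℝ) (k : ℤ) (hc : 0 < c) (hx : 0 < x0)
    (hs : s * ph c x0 π = π * k) (hcont : Continuous (Th c x0 s)) (m : ℤ) :
    gn c x0 s m = (1 / (2 * π)) * ∫ t in (-π)..π,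
      ((Th c x0 s t).re * Real.cos (m * t) + (Th c x0 s t).im * Real.sin (m * t)) := by
  have h1 := (FF_fc c x0 s k hc hx hs x0 ⟨hx.le, le_refl _⟩).1 m
  have h2 : ((gn c x0 s m : ℝ) : ℂ) = fc (Th c x0 s) m := h1.symm
  have h3 : gn c x0 s m = (fc (Th c x0 s) m).re := by
    rw [← h2, Complex.ofReal_re]
  rw [h3]
  unfold fc
  have hcont' : Continuous fun t : ℝ => Th c x0 s t * Complex.exp (-(Complex.I * m * t)) :=
    hcont.mul (by fun_prop)
  have h4 : (1 / (2 * (π : ℂ))) = (((1 / (2 * π) : ℝ)) : ℂ) := by push_cast; ring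
  rw [h4, Complex.re_ofReal_mul]
  congr 1
  have h5 := Complex.reCLM.intervalIntegral_comp_comm
    (hcont'.intervalIntegrable (μ := MeasureTheory.volume) (-π) π)
  have h6 : (∫ t in (-π)..π, Th c x0 s t * Complex.exp (-(Complex.I * m * t))).re =
      ∫ t in (-π)..π, Complex.reCLM (Th c x0 s t * Complex.exp (-(Complex.I * m * t))) := by
    rw [h5]; rfl
  rw [h6]
  refine intervalIntegral.integral_congr fun t _ => ?_
  have h7 : Complex.exp (-(Complex.I * m * t)) =
      ((Real.cos (m * t) : ℝ) : ℂ) - ((Real.sin (m * t) : ℝ) : ℂ) * Complex.I := by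
    have h8 : -(Complex.I * m * t) = (-((m * t : ℝ) : ℂ)) * Complex.I := by
      push_cast; ring
    rw [h8, Complex.exp_mul_I, Complex.cos_neg, Complex.sin_neg, ← Complex.ofReal_cos,
      ← Complex.ofReal_sin]
    ring
  show (Th c x0 s t * Complex.exp (-(Complex.I * m * t))).re = _
  rw [h7, Complex.mul_re, Complex.sub_re, Complex.sub_im, Complex.mul_re, Complex.mul_im,
    Complex.ofReal_re, Complex.ofReal_im, Complex.ofReal_re, Complex.ofReal_im, Complex.I_re,
    Complex.I_im]
  ring

theorem Dn_formula (c x0 s : ℝ) (k : ℤ) (hc : 0 < c) (hx : 0 < x0)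
    (hs : s * ph c x0 π = π * k) (n : ℤ) :
    Dn c x0 s n = if Even (n + k) then
      -(4 / π) * ∫ x in (0:ℝ)..(π / 2), (Th c x0 s x).im * Real.sin (n * x) else 0 := by
  have hb := FF_basic c x0 s k hc hx hs x0 ⟨hx.le, le_refl _⟩
  have hcont : Continuous (Th c x0 s) :=
    continuous_iff_continuousAt.2 fun x => (hb.2.2.2.1 x).continuousAt
  have him : Continuous fun t => (Th c x0 s t).im := Complex.continuous_im.comp hcont
  have hre : Continuous fun t => (Th c x0 s t).re := Complex.continuous_re.comp hcont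
  have hI : Dn c x0 s n = -(1 / π) * ∫ t in (-π)..π, (Th c x0 s t).im * Real.sin (n * t) := by
    unfold Dn
    rw [gn_re_aux c x0 s k hc hx hs hcont, gn_re_aux c x0 s k hc hx hs hcont, ← mul_sub,
      ← intervalIntegral.integral_sub]
    · have h1 : ∀ t : ℝ, ((Th c x0 s t).re * Real.cos (((-n : ℤ) : ℝ) * t) +
          (Th c x0 s t).im * Real.sin (((-n : ℤ) : ℝ) * t)) -
          ((Th c x0 s t).re * Real.cos (n * t) + (Th c x0 s t).im * Real.sin (n * t)) =
          (-2) * ((Th c x0 s t).im * Real.sin (n * t)) := by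
        intro t
        rw [Int.cast_neg, neg_mul, Real.cos_neg, Real.sin_neg]
        ring
      simp_rw [h1]
      rw [intervalIntegral.integral_const_mul]
      field_simp
    · exact Continuous.intervalIntegrable (by fun_prop) _ _
    · exact Continuous.intervalIntegrable (by fun_prop) _ _
  set g : ℝ → ℝ := fun t => (Th c x0 s t).im * Real.sin (n * t) with hg
  have hgc : Continuous g := by
    rw [hg]; fun_prop
  have hint : ∀ a b, IntervalIntegrable g MeasureTheory.volume a b := fun a b =>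
    hgc.intervalIntegrable a b
  have heven : ∀ t, g (-t) = g t := by
    intro t
    have h1 : Th c x0 s (-t) = starRingEnd ℂ (Th c x0 s t) := hb.2.2.1 t
    simp only [hg]
    rw [h1, Complex.conj_im, mul_neg, Real.sin_neg]
    ring
  have hrefl : ∀ t, g (π - t) = ((-1 : ℝ) ^ (n + k)) * g t := by
    intro t
    have h1 : Th c x0 s (π - t) = (-1 : ℂ) ^ k * starRingEnd ℂ (Th c x0 s t) := by
      have h2 : Th c x0 s (-t + π) = (-1 : ℂ) ^ k * Th c x0 s (-t) := hb.1 (-t)
      have h3 : Th c x0 s (-t) = starRingEnd ℂ (Th c x0 s t) := hb.2.2.1 t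
      rw [h3] at h2
      rw [← h2]
      congr 1
      ring
    have h4 : ((-1 : ℂ) ^ k) = (((-1 : ℝ) ^ k : ℝ) : ℂ) := by push_cast; rfl
    have h5 : (Th c x0 s (π - t)).im = -((-1 : ℝ) ^ k * (Th c x0 s t).im) := by
      rw [h1, h4, Complex.im_ofReal_mul, Complex.conj_im]
      ring
    have h6 : Real.sin (n * (π - t)) = -((-1 : ℝ) ^ n * Real.sin (n * t)) := by
      rw [mul_sub, Real.sin_sub, Real.sin_int_mul_pi, Real.cos_int_mul_pi]
      ring
    simp only [hg]
    rw [h5, h6, zpow_add₀ (by norm_num : (-1 : ℝ) ≠ 0)]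
    ring
  have hA : ∫ t in (-π)..(0:ℝ), g t = ∫ t in (0:ℝ)..π, g t := by
    have h1 := intervalIntegral.integral_comp_neg (a := (0:ℝ)) (b := π) g
    rw [neg_zero] at h1
    rw [← h1]
    exact intervalIntegral.integral_congr fun t _ => heven t
  have hB : ∫ t in (π / 2)..π, g t = ((-1 : ℝ) ^ (n + k)) * ∫ t in (0:ℝ)..(π / 2), g t := by
    have h1 := intervalIntegral.integral_comp_sub_left (a := (0:ℝ)) (b := π / 2) g π
    have h2 : π - π / 2 = π / 2 := by ring
    rw [sub_zero, h2] at h1
    rw [← h1, ← intervalIntegral.integral_const_mul]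
    exact intervalIntegral.integral_congr fun t _ => hrefl t
  have hC : ∫ t in (-π)..π, g t =
      2 * ((1 + (-1 : ℝ) ^ (n + k)) * ∫ t in (0:ℝ)..(π / 2), g t) := by
    rw [← intervalIntegral.integral_add_adjacent_intervals (hint (-π) 0) (hint 0 π), hA,
      ← intervalIntegral.integral_add_adjacent_intervals (hint 0 (π / 2)) (hint (π / 2) π), hB]
    ring
  rw [hI, hC]
  split_ifs with h
  · rw [Even.neg_one_zpow h]
    have : ∫ t in (0:ℝ)..(π / 2), g t = ∫ x in (0:ℝ)..(π / 2), (Th c x0 s x).im * Real.sin (n * x) :=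
      rfl
    rw [this]
    ring
  · have h1 : Odd (n + k) := Int.not_even_iff_odd.1 h
    rw [Odd.neg_one_zpow h1]
    ring

end

end Pool.Agent.Helper482.Stk.M_r1
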