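import Pool.Agent.Helper482.Stk.Defs
import Pool.Agent.Helper482.Stk.M_p3
import Pool.Agent.Helper482.Stk.M_p4
import Pool.Agent.Helper482.Stk.M_p7
import Pool.Agent.Helper482.Stk.M_r1

set_option autoImplicit false

namespace Pool.Agent.Helper482.Stk.M_r2

open Pool.Agent.Helper482.Stk
open Pool.Agent.Helper482.Stk.M_p3
open Pool.Agent.Helper482.Stk.M_p4
open Pool.Agent.Helper482.Stk.M_p7
open Pool.Agent.Helper482.Stk.M_r1
open Real MeasureTheory intervalIntegral

noncomputable section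

theorem cube444 (y : ℝ) : |Real.sin y - y| ≤ |y| ^ 3 := by
  have key : ∀ y : ℝ, 0 ≤ y → |Real.sin y - y| ≤ y ^ 3 := by
    intro y hy
    have h1 := Real.sin_le hy
    rw [abs_of_nonpos (by linarith)]
    rcases hy.eq_or_lt with h0 | h0
    · rw [← h0]; simp
    · have h2 := Real.sin_gt_sub_cube h0
      have h3 : 0 < y ^ 3 := by positivity
      linarith
  rcases le_total 0 y with h | h
  · rw [abs_of_nonneg h]; exact key y h
  · have h1 := key (-y) (by linarith)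
    rw [Real.sin_neg] at h1
    rw [abs_of_nonpos h]
    calc |Real.sin y - y| = |-Real.sin y - -y| := by
          rw [← abs_neg]; congr 1; ring
      _ ≤ (-y) ^ 3 := h1

theorem gam444 (q b : ℝ) (hq : -1 < q) (hb : 0 < b) :
    IntervalIntegrable (fun x : ℝ => x ^ q * Real.exp (-b * x ^ (3 / 2 : ℝ))) volume 0 (π / 2) ∧
    ∫ x in (0:ℝ)..(π / 2), x ^ q * Real.exp (-b * x ^ (3 / 2 : ℝ)) ≤
      b ^ (-(q + 1) / (3 / 2)) * (1 / (3 / 2)) * Real.Gamma ((q + 1) / (3 / 2)) := by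
  have hint : IntegrableOn (fun x : ℝ => x ^ q * Real.exp (-b * x ^ (3 / 2 : ℝ))) (Set.Ioi 0) :=
    integrableOn_rpow_mul_exp_neg_mul_rpow hq (by norm_num) hb
  have hpi : (0:ℝ) ≤ π / 2 := by positivity
  have hsub : Set.Ioc (0:ℝ) (π / 2) ⊆ Set.Ioi 0 := fun x hx => hx.1
  refine ⟨?_, ?_⟩
  · rw [intervalIntegrable_iff_integrableOn_Ioc_of_le hpi]
    exact hint.mono_set hsub
  · rw [intervalIntegral.integral_of_le hpi]
    rw [← integral_rpow_mul_exp_neg_mul_rpow (p := 3 / 2) (by norm_num) hq hb]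
    apply setIntegral_mono_set hint
    · filter_upwards [ae_restrict_mem measurableSet_Ioi] with x hx
      have : (0:ℝ) < x := hx
      positivity
    · exact Filter.Eventually.of_forall hsub

theorem Dn_bd (c x0 : ℝ) (hc : 0 < c) (hx : 0 < x0) :
    ∃ K > 0, ∀ s : ℝ, 1 ≤ s → ∀ k : ℤ, s * ph c x0 π = π * k → ∀ n : ℤ,
      |Dn c x0 s n| ≤ K * |(n : ℝ)| * s ^ (-(4 / 3) : ℝ) * Real.exp (-(s * S1 c x0)) ∧
      (¬ Even (n + k) → Dn c x0 s n = 0) ∧
      (Even (n + k) → |Dn c x0 s n + mu c x0 s * n| ≤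
        K * |(n : ℝ)| ^ 3 * s ^ (-(8 / 3) : ℝ) * Real.exp (-(s * S1 c x0))) := by
  obtain ⟨hS1, ⟨m, hm, M, hM, hbd⟩, -⟩ := Phi_top c x0 hc hx
  set K1 : ℝ := 4 / π * (m ^ (-(4 / 3) : ℝ) * (1 / (3 / 2)) * Real.Gamma ((1 + 1) / (3 / 2))) with hK1
  set K2 : ℝ := 4 / π * (m ^ (-(8 / 3) : ℝ) * (1 / (3 / 2)) * Real.Gamma ((3 + 1) / (3 / 2))) with hK2
  have hK1p : 0 < K1 := by
    have : 0 < Real.Gamma ((1 + 1) / (3 / 2)) := Real.Gamma_pos_of_pos (by norm_num)
    rw [hK1]; positivity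
  have hK2p : 0 < K2 := by
    have : 0 < Real.Gamma ((3 + 1) / (3 / 2)) := Real.Gamma_pos_of_pos (by norm_num)
    rw [hK2]; positivity
  refine ⟨K1 + K2, by positivity, ?_⟩
  intro s hs1 k hsk n
  have hs0 : 0 < s := by linarith
  have hb : 0 < s * m := by positivity
  have hpi : (0:ℝ) ≤ π / 2 := by positivity
  have hform := Dn_formula c x0 s k hc hx hsk n
  have hFF := FF_basic c x0 s k hc hx hsk x0 ⟨hx.le, le_rfl⟩
  have hThc : Continuous (Th c x0 s) := by
    rw [continuous_iff_continuousAt]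
    intro x
    exact (hFF.2.2.2.1 x).continuousAt
  have hIm : Continuous fun x => (Th c x0 s x).im := Complex.continuous_im.comp hThc
  have hTh : ∀ x ∈ Set.Ioc (0:ℝ) (π / 2), |(Th c x0 s x).im| ≤
      Real.exp (-(s * S1 c x0)) * Real.exp (-(s * m) * x ^ (3 / 2 : ℝ)) := by
    intro x hx'
    have h1 : |(Th c x0 s x).im| ≤ ‖Th c x0 s x‖ := Complex.abs_im_le_norm _
    have h2 : ‖Th c x0 s x‖ = Real.exp (-(s * (PhiG c x0 x0 x).im)) := hFF.2.2.2.2.1 x
    have h3 := (hbd x ⟨hx'.1.le, hx'.2⟩).1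
    rw [h2] at h1
    refine h1.trans ?_
    rw [← Real.exp_add]
    apply Real.exp_le_exp.2
    nlinarith
  have hexp : ∀ x : ℝ, 0 ≤ Real.exp (-(s * S1 c x0)) := fun x => (Real.exp_pos _).le
  have hpow1 : (s * m) ^ (-(1 + 1) / (3 / 2) : ℝ) = s ^ (-(4 / 3) : ℝ) * m ^ (-(4 / 3) : ℝ) := by
    rw [Real.mul_rpow hs0.le hm.le]
    norm_num
  have hpow3 : (s * m) ^ (-(3 + 1) / (3 / 2) : ℝ) = s ^ (-(8 / 3) : ℝ) * m ^ (-(8 / 3) : ℝ) := by
    rw [Real.mul_rpow hs0.le hm.le]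
    norm_num
  have hsp1 : 0 < s ^ (-(4 / 3) : ℝ) := Real.rpow_pos_of_pos hs0 _
  have hsp3 : 0 < s ^ (-(8 / 3) : ℝ) := Real.rpow_pos_of_pos hs0 _
  obtain ⟨hi1, hg1⟩ := gam444 1 (s * m) (by norm_num) hb
  obtain ⟨hi3, hg3⟩ := gam444 3 (s * m) (by norm_num) hb
  rw [hpow1] at hg1
  rw [hpow3] at hg3
  -- the two integral bounds
  have hI1 : |∫ x in (0:ℝ)..(π / 2), (Th c x0 s x).im * Real.sin (n * x)| ≤
      |(n : ℝ)| * Real.exp (-(s * S1 c x0)) *
        (s ^ (-(4 / 3) : ℝ) * m ^ (-(4 / 3) : ℝ) * (1 / (3 / 2)) * Real.Gamma ((1 + 1) / (3 / 2))) := by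
    have h1 := intervalIntegral.norm_integral_le_of_norm_le (μ := volume)
      (f := fun x => (Th c x0 s x).im * Real.sin (n * x))
      (g := fun x => (|(n : ℝ)| * Real.exp (-(s * S1 c x0))) *
        (x ^ (1:ℝ) * Real.exp (-(s * m) * x ^ (3 / 2 : ℝ)))) hpi
      (Filter.Eventually.of_forall fun x hx' => by
        rw [Real.norm_eq_abs, abs_mul]
        have h2 : |Real.sin (n * x)| ≤ |(n : ℝ)| * x := by
          calc |Real.sin (n * x)| ≤ |(n : ℝ) * x| := Real.abs_sin_le_abs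
            _ = |(n : ℝ)| * x := by rw [abs_mul, abs_of_pos hx'.1]
        calc |(Th c x0 s x).im| * |Real.sin (n * x)|
            ≤ (Real.exp (-(s * S1 c x0)) * Real.exp (-(s * m) * x ^ (3 / 2 : ℝ))) *
              (|(n : ℝ)| * x) :=
              mul_le_mul (hTh x hx') h2 (abs_nonneg _) (by positivity)
          _ = _ := by rw [Real.rpow_one]; ring)
      (hi1.const_mul _)
    rw [Real.norm_eq_abs, intervalIntegral.integral_const_mul] at h1
    refine h1.trans ?_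
    exact mul_le_mul_of_nonneg_left hg1 (by positivity)
  have hI3 : |∫ x in (0:ℝ)..(π / 2), (Th c x0 s x).im * (Real.sin (n * x) - n * x)| ≤
      |(n : ℝ)| ^ 3 * Real.exp (-(s * S1 c x0)) *
        (s ^ (-(8 / 3) : ℝ) * m ^ (-(8 / 3) : ℝ) * (1 / (3 / 2)) * Real.Gamma ((3 + 1) / (3 / 2))) := by
    have h1 := intervalIntegral.norm_integral_le_of_norm_le (μ := volume)
      (f := fun x => (Th c x0 s x).im * (Real.sin (n * x) - n * x))
      (g := fun x => (|(n : ℝ)| ^ 3 * Real.exp (-(s * S1 c x0))) *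
        (x ^ (3:ℝ) * Real.exp (-(s * m) * x ^ (3 / 2 : ℝ)))) hpi
      (Filter.Eventually.of_forall fun x hx' => by
        rw [Real.norm_eq_abs, abs_mul]
        have h2 : |Real.sin (n * x) - n * x| ≤ |(n : ℝ)| ^ 3 * x ^ 3 := by
          calc |Real.sin (n * x) - n * x| ≤ |(n : ℝ) * x| ^ 3 := cube444 _
            _ = |(n : ℝ)| ^ 3 * x ^ 3 := by rw [abs_mul, abs_of_pos hx'.1, mul_pow]
        have h3 : x ^ (3:ℝ) = x ^ 3 := by
          rw [← Real.rpow_natCast]; norm_num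
        calc |(Th c x0 s x).im| * |Real.sin (n * x) - n * x|
            ≤ (Real.exp (-(s * S1 c x0)) * Real.exp (-(s * m) * x ^ (3 / 2 : ℝ))) *
              (|(n : ℝ)| ^ 3 * x ^ 3) :=
              mul_le_mul (hTh x hx') h2 (abs_nonneg _) (by positivity)
          _ = _ := by rw [h3]; ring)
      (hi3.const_mul _)
    rw [Real.norm_eq_abs, intervalIntegral.integral_const_mul] at h1
    refine h1.trans ?_
    exact mul_le_mul_of_nonneg_left hg3 (by positivity)
  have hpi4 : (0:ℝ) < 4 / π := by positivity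
  refine ⟨?_, ?_, ?_⟩
  · rw [hform]
    split_ifs with hev
    · rw [abs_mul, abs_neg, abs_of_pos hpi4]
      calc 4 / π * |∫ x in (0:ℝ)..(π / 2), (Th c x0 s x).im * Real.sin (n * x)|
          ≤ 4 / π * (|(n : ℝ)| * Real.exp (-(s * S1 c x0)) *
            (s ^ (-(4 / 3) : ℝ) * m ^ (-(4 / 3) : ℝ) * (1 / (3 / 2)) *
              Real.Gamma ((1 + 1) / (3 / 2)))) :=
            mul_le_mul_of_nonneg_left hI1 hpi4.le
        _ = K1 * |(n : ℝ)| * s ^ (-(4 / 3) : ℝ) * Real.exp (-(s * S1 c x0)) := by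
            rw [hK1]; ring
        _ ≤ (K1 + K2) * |(n : ℝ)| * s ^ (-(4 / 3) : ℝ) * Real.exp (-(s * S1 c x0)) := by
            gcongr
            linarith
    · rw [abs_zero]; positivity
  · intro hev
    rw [hform, if_neg hev]
  · intro hev
    rw [hform, if_pos hev]
    have h1 : -(4 / π) * (∫ x in (0:ℝ)..(π / 2), (Th c x0 s x).im * Real.sin (n * x)) +
        mu c x0 s * n =
        -(4 / π) * ∫ x in (0:ℝ)..(π / 2), (Th c x0 s x).im * (Real.sin (n * x) - n * x) := by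
      have h2 : (∫ x in (0:ℝ)..(π / 2), (Th c x0 s x).im * (Real.sin (n * x) - n * x)) =
          (∫ x in (0:ℝ)..(π / 2), (Th c x0 s x).im * Real.sin (n * x)) -
          ∫ x in (0:ℝ)..(π / 2), (n : ℝ) * (x * (Th c x0 s x).im) := by
        rw [← intervalIntegral.integral_sub]
        · congr 1
          funext x
          ring
        · apply Continuous.intervalIntegrable
          fun_prop
        · apply Continuous.intervalIntegrable
          fun_prop
      rw [h2, intervalIntegral.integral_const_mul]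
      unfold mu
      ring
    rw [h1, abs_mul, abs_neg, abs_of_pos hpi4]
    calc 4 / π * |∫ x in (0:ℝ)..(π / 2), (Th c x0 s x).im * (Real.sin (n * x) - n * x)|
        ≤ 4 / π * (|(n : ℝ)| ^ 3 * Real.exp (-(s * S1 c x0)) *
          (s ^ (-(8 / 3) : ℝ) * m ^ (-(8 / 3) : ℝ) * (1 / (3 / 2)) *
            Real.Gamma ((3 + 1) / (3 / 2)))) :=
          mul_le_mul_of_nonneg_left hI3 hpi4.le
      _ = K2 * |(n : ℝ)| ^ 3 * s ^ (-(8 / 3) : ℝ) * Real.exp (-(s * S1 c x0)) := by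
          rw [hK2]; ring
      _ ≤ (K1 + K2) * |(n : ℝ)| ^ 3 * s ^ (-(8 / 3) : ℝ) * Real.exp (-(s * S1 c x0)) := by
          gcongr
          linarith

end

end Pool.Agent.Helper482.Stk.M_r2
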