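import Pool.Agent.Helper482.Stk.Defs

set_option autoImplicit false

namespace Pool.Agent.Helper482.Stk.M_f2

open Pool.Agent.Helper482.Stk
open Real MeasureTheory intervalIntegral

noncomputable section

theorem norm_exp_int (n : ℤ) (t : ℝ) : ‖Complex.exp (Complex.I * n * t)‖ = 1 := by
  have h : Complex.I * n * t = ((n * t : ℝ) : ℂ) * Complex.I := by push_cast; ring
  rw [h, Complex.norm_exp_ofReal_mul_I]

theorem norm_exp_int' (n : ℤ) (t : ℝ) : ‖Complex.exp (-(Complex.I * n * t))‖ = 1 := by
  have h : -(Complex.I * n * t) = ((-(n * t) : ℝ) : ℂ) * Complex.I := by push_cast; ring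
  rw [h, Complex.norm_exp_ofReal_mul_I]

theorem integral_exp_int (k : ℤ) :
    ∫ t in (-π)..π, Complex.exp (Complex.I * k * t) = if k = 0 then 2 * (π : ℂ) else 0 := by
  by_cases hk : k = 0
  · subst hk
    simp
    ring
  · rw [if_neg hk]
    have hc : Complex.I * (k : ℂ) ≠ 0 :=
      mul_ne_zero Complex.I_ne_zero (by exact_mod_cast hk)
    rw [integral_exp_mul_complex hc]
    have h1 : Complex.exp (Complex.I * k * (π : ℝ)) =
        Complex.exp (Complex.I * k * ((-π : ℝ) : ℂ)) := by
      have h2 : Complex.I * k * (π : ℝ) =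
          Complex.I * k * ((-π : ℝ) : ℂ) + k * (2 * π * Complex.I) := by
        push_cast; ring
      rw [h2, Complex.exp_add, Complex.exp_int_mul_two_pi_mul_I, mul_one]
    rw [h1, sub_self, zero_div]

theorem fc_synth (a : ℤ → ℂ) (ha : Summable (fun n => ‖a n‖)) :
    Continuous (fun t : ℝ => ∑' n : ℤ, a n * Complex.exp (Complex.I * n * t)) ∧
    Function.Periodic (fun t : ℝ => ∑' n : ℤ, a n * Complex.exp (Complex.I * n * t)) (2 * π) ∧
    ∀ n, fc (fun t : ℝ => ∑' n : ℤ, a n * Complex.exp (Complex.I * n * t)) n = a n := by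
  refine ⟨?_, ?_, ?_⟩
  · refine continuous_tsum (fun n => by fun_prop) ha (fun n t => ?_)
    rw [norm_mul, norm_exp_int, mul_one]
  · intro t
    refine tsum_congr (fun n => ?_)
    congr 1
    have h2 : Complex.I * n * ((t + 2 * π : ℝ) : ℂ) =
        Complex.I * n * t + n * (2 * π * Complex.I) := by
      push_cast; ring
    rw [h2, Complex.exp_add, Complex.exp_int_mul_two_pi_mul_I, mul_one]
  · intro n
    let f : ℤ → C(ℝ, ℂ) := fun m =>
      ⟨fun t : ℝ => a m * Complex.exp (Complex.I * m * t) * Complex.exp (-(Complex.I * n * t)),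
        by fun_prop⟩
    have hfs : Summable fun i => ‖(f i).restrict
        (⟨Set.uIcc (-π) π, isCompact_uIcc⟩ : TopologicalSpace.Compacts ℝ)‖ := by
      refine Summable.of_nonneg_of_le (fun _ => norm_nonneg _) (fun m => ?_) ha
      refine (ContinuousMap.norm_le _ (norm_nonneg _)).2 (fun x => ?_)
      show ‖a m * Complex.exp (Complex.I * m * ((x : ℝ) : ℂ)) *
        Complex.exp (-(Complex.I * n * ((x : ℝ) : ℂ)))‖ ≤ _
      rw [norm_mul, norm_mul, norm_exp_int, norm_exp_int', mul_one, mul_one]
    have h := intervalIntegral.hasSum_intervalIntegral_of_summable_norm hfs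
    have hterm : ∀ m, ∫ x in (-π)..π, f m x = if m = n then a n * (2 * (π : ℂ)) else 0 := by
      intro m
      have h1 : ∀ x : ℝ, f m x = a m * Complex.exp (Complex.I * ((m - n : ℤ) : ℂ) * x) := by
        intro x
        show a m * Complex.exp (Complex.I * m * (x : ℂ)) *
          Complex.exp (-(Complex.I * n * (x : ℂ))) = _
        rw [mul_assoc, ← Complex.exp_add]
        congr 2
        push_cast; ring
      simp_rw [h1]
      rw [intervalIntegral.integral_const_mul, integral_exp_int]
      by_cases hmn : m = n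
      · subst hmn; simp
      · rw [if_neg hmn, if_neg (sub_ne_zero.2 hmn), mul_zero]
    have h3 : HasSum (fun m => ∫ x in (-π)..π, f m x) (a n * (2 * (π : ℂ))) := by
      have : (fun m => ∫ x in (-π)..π, f m x) = fun m => if m = n then a n * (2 * (π : ℂ)) else 0 :=
        funext hterm
      rw [this]
      exact hasSum_ite_eq n _
    have h4 := h.unique h3
    unfold fc
    have h5 : ∫ t in (-π)..π, (∑' m : ℤ, a m * Complex.exp (Complex.I * m * t)) *
        Complex.exp (-(Complex.I * n * t)) = ∫ t in (-π)..π, ∑' m, f m t := by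
      refine intervalIntegral.integral_congr (fun t _ => ?_)
      show (∑' m : ℤ, a m * Complex.exp (Complex.I * m * t)) *
        Complex.exp (-(Complex.I * n * t)) = ∑' m, f m t
      rw [← tsum_mul_right]
      rfl
    rw [h5, h4]
    have hpi : (π : ℂ) ≠ 0 := by exact_mod_cast Real.pi_ne_zero
    field_simp

end

end Pool.Agent.Helper482.Stk.M_f2
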