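import Pool.Agent.Helper482.Stk.Defs
import Pool.Agent.Helper482.Stk.M_f2

set_option autoImplicit false

namespace Pool.Agent.Helper482.Stk.M_r5

open Pool.Agent.Helper482.Stk
open Pool.Agent.Helper482.Stk.M_f2
open Real MeasureTheory intervalIntegral

noncomputable section

theorem q8382_norm (n : ℤ) (t : ℝ) : ‖Complex.exp (Complex.I * n * t)‖ = 1 := by
  have h : Complex.I * n * t = ((n * t : ℝ) : ℂ) * Complex.I := by
    push_cast
    ring
  rw [h, Complex.norm_exp_ofReal_mul_I]

theorem q8382_summable (a : ℤ → ℂ) (ha : Summable (fun n => ‖a n‖)) (t : ℝ) :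
    Summable (fun n : ℤ => a n * Complex.exp (Complex.I * n * t)) := by
  apply Summable.of_norm
  apply ha.congr
  intro n
  rw [norm_mul, q8382_norm, mul_one]

theorem q8382_real (a : ℤ → ℂ) (hr : ∀ n, a (-n) = starRingEnd ℂ (a n)) (t : ℝ) :
    (((∑' n : ℤ, a n * Complex.exp (Complex.I * n * t)).re : ℝ) : ℂ) =
      ∑' n : ℤ, a n * Complex.exp (Complex.I * n * t) := by
  apply Complex.conj_eq_iff_re.1
  rw [Complex.conj_tsum]
  rw [← (Equiv.neg ℤ).tsum_eq (fun n : ℤ => a n * Complex.exp (Complex.I * n * t))]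
  apply tsum_congr
  intro n
  rw [Equiv.neg_apply, hr, map_mul, ← Complex.exp_conj]
  congr 2
  simp

theorem q8382_bound (a : ℤ → ℂ) (ha : Summable (fun n => ‖a n‖)) (t : ℝ) :
    |(∑' n : ℤ, a n * Complex.exp (Complex.I * n * t)).re| ≤ ∑' n : ℤ, ‖a n‖ := by
  refine (Complex.abs_re_le_norm _).trans ?_
  have h1 : ∀ n : ℤ, ‖a n * Complex.exp (Complex.I * n * t)‖ = ‖a n‖ := by
    intro n
    rw [norm_mul, q8382_norm, mul_one]
  refine (norm_tsum_le_tsum_norm ?_).trans ?_
  · exact ha.congr (fun n => (h1 n).symm)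
  · rw [tsum_congr h1]



theorem rsynth (a : ℤ → ℂ) (ha : Summable (fun n : ℤ => (1 + |(n : ℝ)|) * ‖a n‖))
    (hr : ∀ n, a (-n) = starRingEnd ℂ (a n)) :
    ∃ F F' : ℝ → ℝ, Continuous F ∧ Continuous F' ∧ Function.Periodic F (2 * π) ∧
      Function.Periodic F' (2 * π) ∧ (∀ t, HasDerivAt F (F' t) t) ∧ (∀ n, rc F n = a n) ∧
      (∀ n : ℤ, rc F' n = Complex.I * n * a n) ∧
      (∀ t : ℝ, HasSum (fun n : ℤ => a n * Complex.exp (Complex.I * n * t)) ((F t : ℝ) : ℂ)) ∧
      (∀ t : ℝ, HasSum (fun n : ℤ => Complex.I * n * a n * Complex.exp (Complex.I * n * t))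
        ((F' t : ℝ) : ℂ)) ∧
      (∀ t, |F t| ≤ ∑' n : ℤ, ‖a n‖) ∧ (∀ t, |F' t| ≤ ∑' n : ℤ, |(n : ℝ)| * ‖a n‖) := by
  have ha0 : Summable (fun n => ‖a n‖) := by
    apply Summable.of_nonneg_of_le (fun n => norm_nonneg _) _ ha
    intro n
    have h1 := abs_nonneg (n : ℝ)
    have h2 := norm_nonneg (a n)
    nlinarith
  have hbn : ∀ n : ℤ, ‖Complex.I * n * a n‖ = |(n : ℝ)| * ‖a n‖ := by
    intro n
    rw [norm_mul, norm_mul, Complex.norm_I, one_mul]
    congr 1
    exact Complex.norm_intCast n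
  have hb0 : Summable (fun n : ℤ => ‖Complex.I * n * a n‖) := by
    apply Summable.of_nonneg_of_le (fun n => norm_nonneg _) _ ha
    intro n
    rw [hbn]
    have h1 := abs_nonneg (n : ℝ)
    have h2 := norm_nonneg (a n)
    nlinarith
  have hbr : ∀ n : ℤ, Complex.I * ((-n : ℤ) : ℂ) * a (-n) =
      starRingEnd ℂ (Complex.I * n * a n) := by
    intro n
    rw [hr, map_mul, map_mul, Complex.conj_I]
    push_cast
    simp
  obtain ⟨hSc, hSp, hSf⟩ := fc_synth a ha0
  obtain ⟨hSc', hSp', hSf'⟩ := fc_synth (fun n : ℤ => Complex.I * n * a n) hb0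
  have hre := q8382_real a hr
  have hre' := q8382_real (fun n : ℤ => Complex.I * n * a n) hbr
  have hder : ∀ t : ℝ, HasDerivAt (fun t : ℝ => ∑' n : ℤ, a n * Complex.exp (Complex.I * n * t))
      (∑' n : ℤ, Complex.I * n * a n * Complex.exp (Complex.I * n * t)) t := by
    intro t
    refine hasDerivAt_tsum (𝕜 := ℝ)
      (g := fun (n : ℤ) (y : ℝ) => a n * Complex.exp (Complex.I * n * y))
      (g' := fun (n : ℤ) (y : ℝ) => Complex.I * n * a n * Complex.exp (Complex.I * n * y))
      hb0 ?_ ?_ (y₀ := 0) (q8382_summable a ha0 0) t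
    · intro n y
      have h1 : HasDerivAt (fun y : ℝ => (y : ℂ)) 1 y := (hasDerivAt_id y).ofReal_comp
      have h2 : HasDerivAt (fun y : ℝ => Complex.I * n * (y : ℂ)) (Complex.I * n * 1) y :=
        h1.const_mul _
      have h3 := (h2.cexp).const_mul (a n)
      have h4 : Complex.I * n * a n * Complex.exp (Complex.I * n * y) =
          a n * (Complex.exp (Complex.I * n * y) * (Complex.I * n * 1)) := by ring
      show HasDerivAt (fun y : ℝ => a n * Complex.exp (Complex.I * n * y))
        (Complex.I * n * a n * Complex.exp (Complex.I * n * y)) y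
      rw [h4]
      exact h3
    · intro n y
      rw [norm_mul, q8382_norm, mul_one]
  refine ⟨fun t => (∑' n : ℤ, a n * Complex.exp (Complex.I * n * t)).re,
    fun t => (∑' n : ℤ, Complex.I * n * a n * Complex.exp (Complex.I * n * t)).re,
    Complex.continuous_re.comp hSc, Complex.continuous_re.comp hSc', ?_, ?_, ?_, ?_, ?_, ?_, ?_,
    ?_, ?_⟩
  · intro t
    have := hSp t
    simp only at this ⊢
    rw [this]
  · intro t
    have := hSp' t
    simp only at this ⊢
    rw [this]
  · intro t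
    exact Complex.reCLM.hasFDerivAt.comp_hasDerivAt t (hder t)
  · intro n
    unfold rc
    simp only [hre]
    exact hSf n
  · intro n
    unfold rc
    simp only [hre']
    exact hSf' n
  · intro t
    simp only [hre]
    exact (q8382_summable a ha0 t).hasSum
  · intro t
    simp only [hre']
    exact (q8382_summable (fun n : ℤ => Complex.I * n * a n) hb0 t).hasSum
  · intro t
    exact q8382_bound a ha0 t
  · intro t
    refine (q8382_bound (fun n : ℤ => Complex.I * n * a n) hb0 t).trans ?_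
    rw [tsum_congr hbn]

end

end Pool.Agent.Helper482.Stk.M_r5
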