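import Pool.Agent.Helper482.Stk.Defs
import Pool.Agent.Helper482.Stk.M_h3
import Pool.Agent.Helper482.Stk.M_r2
import Pool.Agent.Helper482.Stk.M_r5

set_option autoImplicit false

namespace Pool.Agent.Helper482.Stk.M_u1

open Pool.Agent.Helper482.Stk
open Pool.Agent.Helper482.Stk.M_h3
open Pool.Agent.Helper482.Stk.M_r2
open Pool.Agent.Helper482.Stk.M_r5
open Real MeasureTheory intervalIntegral

noncomputable section

theorem te_msum {x0 : ℝ} (hx : 0 < x0) :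
    Summable (fun n : ℤ => (1 + |(n : ℝ)|) ^ 3 * Real.exp (-(|(n : ℝ)| * x0))) := by
  have h0 : Summable (fun n : ℕ => (1 + (n : ℝ)) ^ 3 * Real.exp (-((n : ℝ) * x0))) := by
    have k := fun j : ℕ => Real.summable_pow_mul_exp_neg_nat_mul j hx
    have h1 := (((k 0).add ((k 1).mul_left 3)).add ((k 2).mul_left 3)).add (k 3)
    refine h1.congr fun n => ?_
    have h2 : -x0 * (n:ℝ) = -((n:ℝ) * x0) := by ring
    rw [h2]; ring
  refine Summable.of_nat_of_neg ?_ ?_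
  · simpa using h0
  · simpa using h0

theorem te_cosh (y : ℝ) : Real.exp |y| ≤ 2 * Real.cosh y := by
  rw [Real.cosh_eq]
  have h1 := Real.exp_pos y
  have h2 := Real.exp_pos (-y)
  rcases abs_cases y with ⟨h, _⟩ | ⟨h, _⟩ <;> rw [h] <;> linarith

theorem te_D_neg (c x0 s : ℝ) (n : ℤ) : Dn c x0 s (-n) = -Dn c x0 s n := by
  unfold Dn
  rw [neg_neg]
  ring

theorem te_tanh_pos {x0 : ℝ} (hx : 0 < x0) : 0 < Real.tanh x0 := by
  rw [Real.tanh_eq_sinh_div_cosh]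
  exact div_pos (Real.sinh_pos_iff.2 hx) (Real.cosh_pos _)

theorem te_tanh_mono : Monotone Real.tanh := by
  intro x y hxy
  rw [Real.tanh_eq_sinh_div_cosh, Real.tanh_eq_sinh_div_cosh,
    div_le_div_iff₀ (Real.cosh_pos _) (Real.cosh_pos _)]
  have h1 : 0 ≤ Real.sinh (y - x) := Real.sinh_nonneg_iff.2 (by linarith)
  rw [Real.sinh_sub] at h1
  linarith

theorem te_tanh (x0 : ℝ) (hx : 0 < x0) (n : ℤ) (hn : n ≠ 0) :
    |(Real.tanh (n * x0))⁻¹| ≤ (Real.tanh x0)⁻¹ := by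
  have h0 : 0 < Real.tanh x0 := te_tanh_pos hx
  rw [abs_inv]
  refine inv_anti₀ h0 ?_
  have hmono : Monotone Real.tanh := te_tanh_mono
  rcases lt_or_gt_of_ne hn with h | h
  · have h1 : (n : ℝ) ≤ -1 := by exact_mod_cast (by omega : n ≤ -1)
    have h2 : Real.tanh (n * x0) ≤ Real.tanh (-x0) := hmono (by nlinarith)
    rw [Real.tanh_neg] at h2
    rw [abs_of_nonpos (by linarith)]
    linarith
  · have h1 : (1 : ℝ) ≤ n := by exact_mod_cast (by omega : 1 ≤ n)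
    have h2 : Real.tanh x0 ≤ Real.tanh (n * x0) := hmono (by nlinarith)
    exact h2.trans (le_abs_self _)

theorem trial_even (c x0 : ℝ) (hc : 0 < c) (hx : 0 < x0) :
    ∃ K > 0, ∀ s : ℝ, 1 ≤ s → ∀ k : ℤ, s * ph c x0 π = π * k → ∃ e E Es : ℝ → ℝ,
      Continuous E ∧ Continuous Es ∧ Function.Periodic e (2 * π) ∧
      Function.Periodic Es (2 * π) ∧ (∀ t, HasDerivAt e (E t) t) ∧
      (∀ n : ℤ, rc e n = -Complex.I * ((Real.tanh (n * x0) : ℝ) : ℂ) *
        rc (fun t => Real.cos (s * ph c x0 t)) n - rc (fun t => Real.sin (s * ph c x0 t)) n) ∧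
      (∀ n : ℤ, rc Es n = -Complex.I * (((Real.tanh (n * x0))⁻¹ : ℝ) : ℂ) * rc E n) ∧
      (∀ t, |E t| ≤ K * s ^ (-(4 / 3) : ℝ) * Real.exp (-(s * S1 c x0))) ∧
      (∀ t, |Es t| ≤ K * s ^ (-(4 / 3) : ℝ) * Real.exp (-(s * S1 c x0))) ∧
      e 0 = 0 ∧
      (∀ n : ℤ, rc E n = ((n * Dn c x0 s n / (2 * Real.cosh (n * x0)) : ℝ) : ℂ)) := by
  obtain ⟨K, hK, HK⟩ := Dn_bd c x0 hc hx
  have hT : 0 < Real.tanh x0 := te_tanh_pos hx
  obtain ⟨R, hR⟩ : ∃ R : ℝ, R = (Real.tanh x0)⁻¹ := ⟨_, rfl⟩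
  have hR0 : 0 < R := by rw [hR]; exact inv_pos.2 hT
  obtain ⟨M, hM⟩ : ∃ M : ℤ → ℝ, ∀ n, M n = (1 + |(n : ℝ)|) ^ 3 * Real.exp (-(|(n : ℝ)| * x0)) :=
    ⟨_, fun _ => rfl⟩
  have hMs : Summable M := by
    refine (te_msum hx).congr fun n => (hM n).symm
  have hM0 : ∀ n, 0 ≤ M n := fun n => by rw [hM]; positivity
  have hMt : 0 ≤ ∑' n, M n := tsum_nonneg hM0
  refine ⟨K * (1 + R) * (∑' n, M n + 1), by positivity, ?_⟩
  intro s hs k hk
  obtain ⟨Θ, hΘ⟩ : ∃ Θ : ℝ, Θ = s ^ (-(4 / 3) : ℝ) * Real.exp (-(s * S1 c x0)) := ⟨_, rfl⟩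
  have hΘ0 : 0 ≤ Θ := by
    rw [hΘ]
    have : 0 ≤ s ^ (-(4 / 3) : ℝ) := Real.rpow_nonneg (by linarith) _
    positivity
  obtain ⟨q, hq⟩ : ∃ q : ℤ → ℝ, ∀ n, q n = Dn c x0 s n / (2 * Real.cosh (n * x0)) :=
    ⟨_, fun _ => rfl⟩
  have hqb : ∀ n : ℤ, |q n| ≤ K * Θ * |(n : ℝ)| * Real.exp (-(|(n : ℝ)| * x0)) := by
    intro n
    have h1 := (HK s hs k hk n).1
    have h1' : |Dn c x0 s n| ≤ K * Θ * |(n : ℝ)| := by
      refine h1.trans (le_of_eq ?_)
      rw [hΘ]; ring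
    have h2 := te_cosh (n * x0)
    rw [abs_mul, abs_of_pos hx] at h2
    have h3 : 0 < 2 * Real.cosh (n * x0) := lt_of_lt_of_le (Real.exp_pos _) h2
    rw [hq, abs_div, abs_of_pos h3, div_le_iff₀ h3]
    have h4 : Real.exp (-(|(n : ℝ)| * x0)) * Real.exp (|(n : ℝ)| * x0) = 1 := by
      rw [← Real.exp_add]; simp
    calc |Dn c x0 s n| ≤ K * Θ * |(n : ℝ)| := h1'
      _ = K * Θ * |(n : ℝ)| * (Real.exp (-(|(n : ℝ)| * x0)) * Real.exp (|(n : ℝ)| * x0)) := by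
        rw [h4, mul_one]
      _ = K * Θ * |(n : ℝ)| * Real.exp (-(|(n : ℝ)| * x0)) * Real.exp (|(n : ℝ)| * x0) := by ring
      _ ≤ K * Θ * |(n : ℝ)| * Real.exp (-(|(n : ℝ)| * x0)) * (2 * Real.cosh (n * x0)) :=
        mul_le_mul_of_nonneg_left h2 (by positivity)
  have hqn : ∀ n : ℤ, q (-n) = -q n := by
    intro n
    rw [hq, hq, te_D_neg]
    push_cast
    rw [neg_mul, Real.cosh_neg, neg_div]
  have e1 : ∀ n : ℤ, (1 + |(n : ℝ)|) * |q n| ≤ K * Θ * M n := by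
    intro n
    have h1 := hqb n
    have h2 : 0 ≤ |(n : ℝ)| := abs_nonneg _
    have h3 : 0 < Real.exp (-(|(n : ℝ)| * x0)) := Real.exp_pos _
    calc (1 + |(n : ℝ)|) * |q n|
        ≤ (1 + |(n : ℝ)|) * (K * Θ * |(n : ℝ)| * Real.exp (-(|(n : ℝ)| * x0))) :=
          mul_le_mul_of_nonneg_left h1 (by positivity)
      _ = (K * Θ) * (((1 + |(n : ℝ)|) * |(n : ℝ)|) * Real.exp (-(|(n : ℝ)| * x0))) := by ring
      _ ≤ (K * Θ) * M n := by
          rw [hM]
          refine mul_le_mul_of_nonneg_left ?_ (by positivity)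
          refine mul_le_mul_of_nonneg_right ?_ h3.le
          nlinarith [pow_nonneg h2 3, pow_nonneg h2 2]
  have e2 : ∀ n : ℤ, (1 + |(n : ℝ)|) * (|(n : ℝ)| * |q n|) ≤ K * Θ * M n := by
    intro n
    have h1 := hqb n
    have h2 : 0 ≤ |(n : ℝ)| := abs_nonneg _
    have h3 : 0 < Real.exp (-(|(n : ℝ)| * x0)) := Real.exp_pos _
    calc (1 + |(n : ℝ)|) * (|(n : ℝ)| * |q n|)
        ≤ (1 + |(n : ℝ)|) * (|(n : ℝ)| * (K * Θ * |(n : ℝ)| * Real.exp (-(|(n : ℝ)| * x0)))) :=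
          mul_le_mul_of_nonneg_left (mul_le_mul_of_nonneg_left h1 h2) (by positivity)
      _ = (K * Θ) * (((1 + |(n : ℝ)|) * |(n : ℝ)| ^ 2) * Real.exp (-(|(n : ℝ)| * x0))) := by ring
      _ ≤ (K * Θ) * M n := by
          rw [hM]
          refine mul_le_mul_of_nonneg_left ?_ (by positivity)
          refine mul_le_mul_of_nonneg_right ?_ h3.le
          nlinarith [pow_nonneg h2 3, pow_nonneg h2 2]
  obtain ⟨a, ha⟩ : ∃ a : ℤ → ℂ, ∀ n, a n = -Complex.I * ((q n : ℝ) : ℂ) := ⟨_, fun _ => rfl⟩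
  obtain ⟨b, hb⟩ : ∃ b : ℤ → ℂ, ∀ n : ℤ, b n = -Complex.I * (((Real.tanh (n * x0))⁻¹ : ℝ) : ℂ) *
      ((n * q n : ℝ) : ℂ) := ⟨_, fun _ => rfl⟩
  have na : ∀ n, ‖a n‖ = |q n| := by
    intro n
    rw [ha, norm_mul, norm_neg, Complex.norm_I, one_mul, Complex.norm_real, Real.norm_eq_abs]
  have nb : ∀ n : ℤ, ‖b n‖ ≤ R * (|(n : ℝ)| * |q n|) := by
    intro n
    rw [hb, norm_mul, norm_mul, norm_neg, Complex.norm_I, one_mul, Complex.norm_real,
      Complex.norm_real, Real.norm_eq_abs, Real.norm_eq_abs, abs_mul]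
    rcases eq_or_ne n 0 with h | h
    · subst h; simp
    · refine mul_le_mul_of_nonneg_right ?_ (by positivity)
      rw [hR]; exact te_tanh x0 hx n h
  have sa : Summable (fun n : ℤ => (1 + |(n : ℝ)|) * ‖a n‖) := by
    refine Summable.of_nonneg_of_le (fun n => by positivity) (fun n => ?_) (hMs.mul_left (K * Θ))
    rw [na]; exact e1 n
  have sb : Summable (fun n : ℤ => (1 + |(n : ℝ)|) * ‖b n‖) := by
    refine Summable.of_nonneg_of_le (fun n => by positivity) (fun n => ?_)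
      (hMs.mul_left (R * (K * Θ)))
    calc (1 + |(n : ℝ)|) * ‖b n‖ ≤ (1 + |(n : ℝ)|) * (R * (|(n : ℝ)| * |q n|)) :=
          mul_le_mul_of_nonneg_left (nb n) (by positivity)
      _ = R * ((1 + |(n : ℝ)|) * (|(n : ℝ)| * |q n|)) := by ring
      _ ≤ R * (K * Θ * M n) := mul_le_mul_of_nonneg_left (e2 n) hR0.le
      _ = R * (K * Θ) * M n := by ring
  have ra : ∀ n, a (-n) = starRingEnd ℂ (a n) := by
    intro n
    rw [ha, ha, hqn, map_mul, map_neg, Complex.conj_I, Complex.conj_ofReal]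
    push_cast; ring
  have rb : ∀ n, b (-n) = starRingEnd ℂ (b n) := by
    intro n
    rw [hb, hb, hqn, map_mul, map_mul, map_neg, Complex.conj_I, Complex.conj_ofReal,
      Complex.conj_ofReal]
    have h1 : Real.tanh (((-n : ℤ) : ℝ) * x0) = -Real.tanh (n * x0) := by
      push_cast
      rw [neg_mul, Real.tanh_neg]
    rw [h1, inv_neg]
    push_cast; ring
  obtain ⟨e, E, -, hE2, hE3, -, hE5, hE6, hE7, hE8, -, -, hE11⟩ := rsynth a sa ra
  obtain ⟨Es, Es', hF1, -, hF3, -, -, hF6, -, -, -, hF10, -⟩ := rsynth b sb rb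
  have hrcE : ∀ n : ℤ, rc E n = ((n * q n : ℝ) : ℂ) := by
    intro n
    rw [hE7, ha]
    push_cast
    linear_combination (-(n : ℂ) * ((q n : ℝ) : ℂ)) * Complex.I_mul_I
  refine ⟨e, E, Es, hE2, hF1, hE3, hF3, hE5, ?_, ?_, ?_, ?_, ?_, ?_⟩
  · intro n
    obtain ⟨r1, r2, -, -⟩ := an_rel c x0 s hc hx n
    rw [hE6, ha, r1, r2, hq]
    have hch : Real.cosh (n * x0) ≠ 0 := (Real.cosh_pos _).ne'
    have h1 : Dn c x0 s n / (2 * Real.cosh (n * x0)) =
        Real.tanh (n * x0) * ((an c x0 s n + an c x0 s (-n)) / 2) -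
          (an c x0 s n - an c x0 s (-n)) / 2 := by
      have hD : Dn c x0 s n = Real.exp (n * x0) * an c x0 s (-n) -
          Real.exp (-(n * x0)) * an c x0 s n := by
        unfold Dn gn
        push_cast
        rw [neg_mul, neg_neg]
      have h2 : Real.exp (n * x0) = Real.cosh (n * x0) + Real.sinh (n * x0) := by
        rw [Real.cosh_add_sinh]
      have h3 : Real.exp (-(n * x0)) = Real.cosh (n * x0) - Real.sinh (n * x0) := by
        rw [Real.cosh_sub_sinh]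
      rw [hD, h2, h3, Real.tanh_eq_sinh_div_cosh]
      field_simp
      ring
    rw [h1]
    push_cast
    ring
  · intro n
    rw [hF6, hb, hrcE]
  · intro t
    refine (hE11 t).trans ?_
    have h1 : Summable (fun n : ℤ => |(n : ℝ)| * ‖a n‖) := by
      refine Summable.of_nonneg_of_le (fun n => by positivity) (fun n => ?_) sa
      have : 0 ≤ ‖a n‖ := norm_nonneg _
      nlinarith
    have h2 : ∑' n : ℤ, |(n : ℝ)| * ‖a n‖ ≤ ∑' n, K * Θ * M n := by
      refine h1.tsum_le_tsum (fun n => ?_) (hMs.mul_left _)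
      have h3 := e1 n
      rw [na]
      have : 0 ≤ |q n| := abs_nonneg _
      linarith
    rw [tsum_mul_left] at h2
    refine h2.trans ?_
    have h4 : K * (1 + R) * (∑' n, M n + 1) * s ^ (-(4 / 3) : ℝ) * Real.exp (-(s * S1 c x0)) =
        (K * Θ) * ((1 + R) * (∑' n, M n + 1)) := by
      rw [hΘ]; ring
    rw [h4]
    refine mul_le_mul_of_nonneg_left ?_ (by positivity)
    nlinarith
  · intro t
    refine (hF10 t).trans ?_
    have h1 : Summable (fun n : ℤ => ‖b n‖) := by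
      refine Summable.of_nonneg_of_le (fun n => by positivity) (fun n => ?_) sb
      have h5 : 0 ≤ ‖b n‖ := norm_nonneg _
      have h6 : 0 ≤ |(n : ℝ)| := abs_nonneg _
      nlinarith
    have h2 : ∑' n : ℤ, ‖b n‖ ≤ ∑' n, R * (K * Θ) * M n := by
      refine h1.tsum_le_tsum (fun n => ?_) (hMs.mul_left _)
      have h3 := e2 n
      have h5 : 0 ≤ |(n : ℝ)| * |q n| := by positivity
      have h6 : 0 ≤ |(n : ℝ)| := abs_nonneg _
      have h7 : |(n : ℝ)| * |q n| ≤ K * Θ * M n := by nlinarith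
      calc ‖b n‖ ≤ R * (|(n : ℝ)| * |q n|) := nb n
        _ ≤ R * (K * Θ * M n) := mul_le_mul_of_nonneg_left h7 hR0.le
        _ = R * (K * Θ) * M n := by ring
    rw [tsum_mul_left] at h2
    refine h2.trans ?_
    have h4 : K * (1 + R) * (∑' n, M n + 1) * s ^ (-(4 / 3) : ℝ) * Real.exp (-(s * S1 c x0)) =
        (K * Θ) * ((1 + R) * (∑' n, M n + 1)) := by
      rw [hΘ]; ring
    rw [h4]
    have h8 : R * (K * Θ) * ∑' n, M n = (K * Θ) * (R * ∑' n, M n) := by ring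
    rw [h8]
    refine mul_le_mul_of_nonneg_left ?_ (by positivity)
    nlinarith
  · have h1 := hE8 0
    have h2 : HasSum (fun n : ℤ => a n) ((e 0 : ℝ) : ℂ) := by
      refine h1.congr_fun ?_
      intro n
      simp
    have h3 : HasSum (fun n : ℤ => a (-n)) ((e 0 : ℝ) : ℂ) := (Equiv.neg ℤ).hasSum_iff.2 h2
    have h4 : (fun n : ℤ => a (-n)) = fun n => -a n := by
      funext n
      rw [ha, ha, hqn]
      push_cast; ring
    rw [h4] at h3
    have h5 := h3.unique h2.neg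
    have h6 : ((e 0 : ℝ) : ℂ) = ((-(e 0) : ℝ) : ℂ) := by
      rw [h5]; push_cast; ring
    have h7 : e 0 = -(e 0) := by exact_mod_cast h6
    linarith
  · intro n
    rw [hrcE, hq, mul_div_assoc]

end

end Pool.Agent.Helper482.Stk.M_u1
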