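import Pool.Agent.Helper482.Stk.Defs
import Pool.Agent.Helper482.Stk.M_h1
import Pool.Agent.Helper482.Stk.M_h2
import Pool.Agent.Helper482.Stk.M_p7
import Pool.Agent.Helper482.Stk.M_q1
import Pool.Agent.Helper482.Stk.M_q3
import Pool.Agent.Helper482.Stk.M_t1
import Pool.Agent.Helper482.Stk.M_u1

set_option autoImplicit false

namespace Pool.Agent.Helper482.Stk.M_e1

open Pool.Agent.Helper482.Stk
open Pool.Agent.Helper482.Stk.M_h1
open Pool.Agent.Helper482.Stk.M_h2
open Pool.Agent.Helper482.Stk.M_p7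
open Pool.Agent.Helper482.Stk.M_q1
open Pool.Agent.Helper482.Stk.M_q3
open Pool.Agent.Helper482.Stk.M_t1
open Pool.Agent.Helper482.Stk.M_u1
open Real MeasureTheory intervalIntegral

noncomputable section

theorem ip_wave (c x0 s : ℝ) (k : ℤ) (hc : 0 < c) (hx : 0 < x0) (hs0 : s ≠ 0)
    (hs : s * ph c x0 π = π * k) :
    ip (fun t => Real.cos (s * ph c x0 t)) (fun t => hh c x0 t * Real.cos (s * ph c x0 t)) =
      ph c x0 π / (2 * π) ∧
    ip (fun t => Real.sin (s * ph c x0 t)) (fun t => hh c x0 t * Real.sin (s * ph c x0 t)) =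
      ph c x0 π / (2 * π) := by
  obtain ⟨hd, hodd, -, hpos, hphC⟩ := ph_basic c x0 hc hx
  obtain ⟨-, -, -, -, hhC⟩ := hh_basic c x0 hc hx
  have hcph : Continuous (ph c x0) := (hphC 0).continuous
  have hchh : Continuous (hh c x0) := (hhC 0).continuous
  have hd2 : ∀ t, HasDerivAt (fun t => Real.sin (2 * s * ph c x0 t))
      (Real.cos (2 * s * ph c x0 t) * (2 * s * hh c x0 t)) t := by
    intro t
    exact ((hd t).const_mul (2 * s)).sin
  have hs1 : Real.sin (2 * s * ph c x0 π) = 0 := by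
    have : 2 * s * ph c x0 π = ((2 * k : ℤ) : ℝ) * π := by
      push_cast
      linarith
    rw [this]
    exact Real.sin_int_mul_pi _
  have hs2 : Real.sin (2 * s * ph c x0 (-π)) = 0 := by
    rw [hodd, mul_neg, Real.sin_neg, hs1, neg_zero]
  constructor
  · unfold ip
    have hint : ∫ t in (-π)..π, Real.cos (s * ph c x0 t) *
        (hh c x0 t * Real.cos (s * ph c x0 t)) =
        (ph c x0 π / 2 + Real.sin (2 * s * ph c x0 π) / (4 * s)) -
          (ph c x0 (-π) / 2 + Real.sin (2 * s * ph c x0 (-π)) / (4 * s)) := by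
      apply intervalIntegral.integral_eq_sub_of_hasDerivAt
        (f := fun t => ph c x0 t / 2 + Real.sin (2 * s * ph c x0 t) / (4 * s))
      · intro t _
        have := ((hd t).div_const 2).add ((hd2 t).div_const (4 * s))
        refine this.congr_deriv ?_
        have h2 : 2 * s * ph c x0 t = 2 * (s * ph c x0 t) := by ring
        rw [h2, Real.cos_two_mul]
        field_simp
        ring
      · apply Continuous.intervalIntegrable
        fun_prop
    rw [hint, hs1, hs2, hodd]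
    field_simp
    ring
  · unfold ip
    have hint : ∫ t in (-π)..π, Real.sin (s * ph c x0 t) *
        (hh c x0 t * Real.sin (s * ph c x0 t)) =
        (ph c x0 π / 2 - Real.sin (2 * s * ph c x0 π) / (4 * s)) -
          (ph c x0 (-π) / 2 - Real.sin (2 * s * ph c x0 (-π)) / (4 * s)) := by
      apply intervalIntegral.integral_eq_sub_of_hasDerivAt
        (f := fun t => ph c x0 t / 2 - Real.sin (2 * s * ph c x0 t) / (4 * s))
      · intro t _
        have := ((hd t).div_const 2).sub ((hd2 t).div_const (4 * s))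
        refine this.congr_deriv ?_
        have h2 : 2 * s * ph c x0 t = 2 * (s * ph c x0 t) := by ring
        have h3 := Real.sin_sq_add_cos_sq (s * ph c x0 t)
        rw [h2, Real.cos_two_mul]
        have h4 : Real.cos (s * ph c x0 t) ^ 2 = 1 - Real.sin (s * ph c x0 t) ^ 2 := by linarith
        rw [h4]
        field_simp
        ring
      · apply Continuous.intervalIntegrable
        fun_prop
    rw [hint, hs1, hs2, hodd]
    field_simp
    ring

theorem class_even (c x0 : ℝ) (hc : 0 < c) (hx : 0 < x0) :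
    ∃ K > 0, ∀ s0 : ℝ, ∃ Λ ≥ 1, ∀ σ : ℝ, Λ ≤ σ → ∀ f f' G : ℝ → ℝ,
      Sol c x0 (fun n : ℤ => Real.tanh (n * x0)) σ f f' G → G 0 = 0 → G π = 0 →
      (∀ t, f t = 0) ∨ ∃ (k : ℤ) (s Cc : ℝ) (E : ℝ → ℝ), s0 ≤ s ∧ 1 ≤ s ∧
        s * ph c x0 π = π * k ∧ |σ - s| ≤ K / s ∧ Cc ≠ 0 ∧
        (∀ n : ℤ, ‖rc f n - Cc * rc (fun t => Real.cos (s * ph c x0 t)) n‖ ≤
          K * (1 + (n : ℝ) ^ 2) * |Cc| * s ^ (-(7 / 3) : ℝ) * Real.exp (-(s * S1 c x0))) ∧
        Continuous E ∧
        (∀ n : ℤ, rc E n = ((n * Dn c x0 s n / (2 * Real.cosh (n * x0)) : ℝ) : ℂ)) ∧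
        |(σ - s) * (ph c x0 π / (2 * π)) - ip (fun t => Real.cos (s * ph c x0 t)) E| ≤
          K * s ^ (-(8 / 3) : ℝ) * Real.exp (-(2 * (s * S1 c x0))) := by
  obtain ⟨hd, hodd, -, hpos, hphC⟩ := ph_basic c x0 hc hx
  obtain ⟨hS1, -, -⟩ := Phi_top c x0 hc hx
  obtain ⟨Kt, hKt, htrial⟩ := trial_even c x0 hc hx
  obtain ⟨Kτ, hτ⟩ := tauOK_tanh x0 hx
  obtain ⟨C0, hC0, σ0, hσ0, hq⟩ := quant c x0 Kτ _ hc hx hτ
  have hp := hpos
  set p := ph c x0 π with hpdef
  set S := S1 c x0 with hSdef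
  have hC0' : 0 < 2 * C0 / p := by positivity
  obtain ⟨K1, hK1, s1, hs1, η1, hη1, hcls⟩ := cls c x0 Kτ (2 * C0 / p) _ hc hx hτ hC0'
  refine ⟨2 * C0 / p + K1 * Kt + K1 * Kt ^ 2, by positivity, ?_⟩
  intro s0
  refine ⟨max σ0 (max (2 * |s0|) (max (2 * s1) (max 2 (max (2 * C0 / p) (2 * (Kt / (S * η1))))))),
    le_trans hσ0 (le_max_left _ _), ?_⟩
  intro σ hσ f f' G hsol hG0 hGπ
  have hA : σ0 ≤ σ := le_trans (le_max_left _ _) hσ
  have hB' := le_trans (le_max_right _ _) hσ
  have hB : 2 * |s0| ≤ σ := le_trans (le_max_left _ _) hB'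
  have hCC := le_trans (le_max_right _ _) hB'
  have hC : 2 * s1 ≤ σ := le_trans (le_max_left _ _) hCC
  have hDD := le_trans (le_max_right _ _) hCC
  have hD : 2 ≤ σ := le_trans (le_max_left _ _) hDD
  have hEE := le_trans (le_max_right _ _) hDD
  have hE : 2 * C0 / p ≤ σ := le_trans (le_max_left _ _) hEE
  have hF : 2 * (Kt / (S * η1)) ≤ σ := le_trans (le_max_right _ _) hEE
  have hσpos : 0 < σ := by linarith
  rcases hq σ hA f f' G hsol (Or.inl ⟨hG0, hGπ⟩) with h0 | ⟨hne, k, hk⟩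
  · left
    exact h0
  right
  have hf0 : f 0 ≠ 0 := by
    rcases hne with h | h
    · exact h
    · exact absurd hG0 h
  have hsp : π * k / p * p = π * k := by field_simp
  set s := π * k / p with hsdef
  have hdist : |σ - s| ≤ C0 / p / σ := by
    have h1 : σ - s = (σ * p - π * k) / p := by
      rw [hsdef]
      field_simp
    rw [h1, abs_div, abs_of_pos hp]
    rw [div_div, mul_comm p σ, ← div_div]
    gcongr
  have hsmall : C0 / p / σ ≤ σ / 2 := by
    rw [div_le_iff₀ hσpos]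
    have h1 : C0 / p ≤ σ / 2 := by
      have : 2 * C0 / p = 2 * (C0 / p) := by ring
      linarith
    nlinarith
  have hab := abs_le.mp (hdist.trans hsmall)
  have hs_lo : σ / 2 ≤ s := by linarith [hab.2]
  have hs_hi : s ≤ 2 * σ := by linarith [hab.1]
  have hs_one : 1 ≤ s := by linarith
  have hspos : 0 < s := by linarith
  have hs_s0 : s0 ≤ s := by linarith [le_abs_self s0]
  have hs_s1 : s1 ≤ s := by linarith
  have hdist2 : |σ - s| ≤ 2 * C0 / p / s := by
    refine hdist.trans ?_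
    rw [div_le_div_iff₀ hσpos hspos]
    have h1 : 2 * C0 / p = 2 * (C0 / p) := by ring
    rw [h1]
    have h2 : 0 < C0 / p := by positivity
    nlinarith
  obtain ⟨e, E, Es, hEc, hEsc, heper, hEsper, heder, hrel, hrelE, hEb, hEsb, he0, hrcE⟩ :=
    htrial s hs_one k hsp
  obtain ⟨hPper, hQper, hPsum, hQsum, -, -⟩ := wave_basic c x0 s k hc hx hsp
  set η := Kt * s ^ (-(4 / 3) : ℝ) * Real.exp (-(s * S)) with hηdef
  have hη0 : 0 ≤ η := by positivity
  have hηle : η ≤ η1 := by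
    have h1 : s ^ (-(4 / 3) : ℝ) ≤ 1 := Real.rpow_le_one_of_one_le_of_nonpos hs_one (by norm_num)
    have h2 : Real.exp (-(s * S)) ≤ (s * S)⁻¹ := by
      rw [Real.exp_neg]
      apply inv_anti₀ (by positivity)
      linarith [Real.add_one_le_exp (s * S)]
    have h3 : Kt / (S * η1) ≤ s := by linarith
    have h4 : Kt * (s * S)⁻¹ ≤ η1 := by
      rw [div_le_iff₀ (by positivity)] at h3
      rw [← div_eq_mul_inv, div_le_iff₀ (by positivity)]
      linarith
    calc η ≤ Kt * 1 * (s * S)⁻¹ := by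
          rw [hηdef]
          gcongr
      _ ≤ η1 := by linarith
  have hPd : ∀ t, HasDerivAt (fun t => Real.cos (s * ph c x0 t))
      (-(s * hh c x0 t * Real.sin (s * ph c x0 t))) t := by
    intro t
    have := ((hd t).const_mul s).cos
    refine this.congr_deriv ?_
    ring
  have hQd : ∀ t, HasDerivAt (fun t => Real.sin (s * ph c x0 t))
      (s * hh c x0 t * Real.cos (s * ph c x0 t)) t := by
    intro t
    have := ((hd t).const_mul s).sin
    refine this.congr_deriv ?_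
    ring
  have hph0 : ph c x0 0 = 0 := by
    simp [ph]
  have key := hcls s σ hs_s1 hdist2 (fun t => Real.cos (s * ph c x0 t))
    (fun t => Real.sin (s * ph c x0 t)) e E Es η hη0 hηle hPd hQd hPper hQper
    (fun t => Real.abs_cos_le_one _) (fun t => Real.abs_sin_le_one _) hPsum hEc hEsc heper hEsper
    heder hrel hrelE hEb hEsb (ip_wave c x0 s k hc hx hspos.ne' hsp).1 f f' G (f 0) hsol
    (by simp [hph0]) (by simp [hph0, hG0, he0])
  obtain ⟨key1, key2⟩ := key
  have hrp1 : s ^ (-(4 / 3) : ℝ) / s = s ^ (-(7 / 3) : ℝ) := by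
    rw [show (-(7 / 3) : ℝ) = -(4 / 3) - 1 by norm_num, Real.rpow_sub hspos, Real.rpow_one]
  have hrp2 : s ^ (-(4 / 3) : ℝ) * s ^ (-(4 / 3) : ℝ) = s ^ (-(8 / 3) : ℝ) := by
    rw [← Real.rpow_add hspos]
    norm_num
  have hexp2 : Real.exp (-(s * S)) * Real.exp (-(s * S)) = Real.exp (-(2 * (s * S))) := by
    rw [← Real.exp_add]
    congr 1
    ring
  refine ⟨k, s, f 0, E, hs_s0, hs_one, hsp, ?_, hf0, ?_, hEc, hrcE, ?_⟩
  · refine hdist2.trans ?_
    gcongr
    have : 0 < K1 * Kt := by positivity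
    have : 0 < K1 * Kt ^ 2 := by positivity
    linarith
  · intro n
    refine (key1 n).trans ?_
    have h1 : K1 * (1 + (n : ℝ) ^ 2) * |f 0| * η / s =
        (K1 * Kt) * (1 + (n : ℝ) ^ 2) * |f 0| * s ^ (-(7 / 3) : ℝ) * Real.exp (-(s * S)) := by
      rw [← hrp1, hηdef]
      ring
    rw [h1]
    gcongr
    have : 0 < K1 * Kt ^ 2 := by positivity
    linarith
  · refine (key2 hf0).trans ?_
    have h1 : K1 * η ^ 2 = (K1 * Kt ^ 2) * s ^ (-(8 / 3) : ℝ) * Real.exp (-(2 * (s * S))) := by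
      rw [← hrp2, ← hexp2, hηdef]
      ring
    rw [h1]
    gcongr
    have : 0 < K1 * Kt := by positivity
    linarith

end

end Pool.Agent.Helper482.Stk.M_e1
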