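import Pool.Agent.Helper482.Stk.Defs
import Pool.Agent.Helper482.Stk.M_f4
import Pool.Agent.Helper482.Stk.M_h3
import Pool.Agent.Helper482.Stk.M_p4
import Pool.Agent.Helper482.Stk.M_p5
import Pool.Agent.Helper482.Stk.M_p7
import Pool.Agent.Helper482.Stk.M_r2
import Pool.Agent.Helper482.Stk.M_r5

set_option autoImplicit false

namespace Pool.Agent.Helper482.Stk.M_u2

open Pool.Agent.Helper482.Stk
open Pool.Agent.Helper482.Stk.M_f4
open Pool.Agent.Helper482.Stk.M_h3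
open Pool.Agent.Helper482.Stk.M_p4
open Pool.Agent.Helper482.Stk.M_p5
open Pool.Agent.Helper482.Stk.M_p7
open Pool.Agent.Helper482.Stk.M_r2
open Pool.Agent.Helper482.Stk.M_r5
open Real MeasureTheory intervalIntegral

noncomputable section

/-- majorant -/
def qn8543 (x0 : ℝ) (n : ℤ) : ℝ := (1 + |(n:ℝ)|) ^ 3 * Real.exp (-(|(n:ℝ)| * x0))

theorem qn_nonneg8543 (x0 : ℝ) (n : ℤ) : 0 ≤ qn8543 x0 n := by
  unfold qn8543; positivity

theorem qn_summable8543 {x0 : ℝ} (hx : 0 < x0) : Summable (qn8543 x0) := by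
  have h : Summable (fun n : ℕ => (1 + (n:ℝ)) ^ 3 * Real.exp (-((n:ℝ) * x0))) := by
    have hr : ‖Real.exp (-x0)‖ < 1 := by
      rw [Real.norm_eq_abs, Real.abs_exp]; exact Real.exp_lt_one_iff.2 (by linarith)
    have h0 := summable_pow_mul_geometric_of_norm_lt_one 0 hr
    have h1 := summable_pow_mul_geometric_of_norm_lt_one 1 hr
    have h2 := summable_pow_mul_geometric_of_norm_lt_one 2 hr
    have h3 := summable_pow_mul_geometric_of_norm_lt_one 3 hr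
    refine (((h0.add (h1.mul_left 3)).add (h2.mul_left 3)).add h3).congr ?_
    intro n
    have : Real.exp (-((n:ℝ) * x0)) = Real.exp (-x0) ^ n := by
      rw [← Real.exp_nat_mul]; ring_nf
    rw [this]; ring
  apply Summable.of_nat_of_neg
  · simpa [qn8543] using h
  · simpa [qn8543] using h

theorem int_abs_one8543 {n : ℤ} (hn : n ≠ 0) : (1:ℝ) ≤ |(n:ℝ)| := by
  have : (1:ℤ) ≤ |n| := Int.one_le_abs hn
  exact_mod_cast this

theorem sinh_low8543 {x0 : ℝ} (hx : 0 < x0) {n : ℤ} (hn : n ≠ 0) :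
    (1 - Real.exp (-(2 * x0))) * Real.exp (|(n:ℝ)| * x0) ≤ 2 * |Real.sinh (n * x0)| := by
  rw [Real.abs_sinh, abs_mul, abs_of_pos hx, Real.sinh_eq]
  have h1 := int_abs_one8543 hn
  have h2 : Real.exp (-(|(n:ℝ)| * x0)) ≤ Real.exp (-(2 * x0)) * Real.exp (|(n:ℝ)| * x0) := by
    rw [← Real.exp_add]
    apply Real.exp_le_exp.2
    nlinarith
  linarith

theorem cosh_low8543 {x0 : ℝ} (hx : 0 < x0) (n : ℤ) :
    Real.exp (|(n:ℝ)| * x0) ≤ 2 * Real.cosh (n * x0) := by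
  rw [← Real.cosh_abs, abs_mul, abs_of_pos hx, Real.cosh_eq]
  have := Real.exp_pos (-(|(n:ℝ)| * x0))
  linarith

theorem Dn_neg8543 (c x0 s : ℝ) (n : ℤ) : Dn c x0 s (-n) = - Dn c x0 s n := by
  unfold Dn; rw [neg_neg]; ring

/-- the coefficients of `e` -/
def aco8543 (c x0 s : ℝ) (n : ℤ) : ℝ :=
  if n = 0 then an c x0 s 0 else Dn c x0 s n / (2 * Real.sinh (n * x0))

theorem aco_neg8543 (c x0 s : ℝ) (n : ℤ) : aco8543 c x0 s (-n) = aco8543 c x0 s n := by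
  unfold aco8543
  by_cases hn : n = 0
  · simp [hn]
  · rw [if_neg hn, if_neg (by simpa using hn), Dn_neg8543]
    push_cast
    rw [neg_mul, Real.sinh_neg, mul_neg, neg_div_neg_eq]

theorem rc_neg8543 (f : ℝ → ℝ) (n : ℤ) : rc (fun t => - f t) n = - rc f n := by
  unfold rc fc
  rw [← mul_neg, ← intervalIntegral.integral_neg]
  congr 1
  apply intervalIntegral.integral_congr
  intro t _
  push_cast
  ring

theorem sinh_ne8543 {x0 : ℝ} (hx : 0 < x0) {n : ℤ} (hn : n ≠ 0) : Real.sinh (n * x0) ≠ 0 := by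
  rw [Real.sinh_ne_zero]
  exact mul_ne_zero (by exact_mod_cast hn) hx.ne'

theorem rhs8543 (c x0 s : ℝ) (hc : 0 < c) (hx : 0 < x0) (n : ℤ) :
    -Complex.I * (((Real.tanh (n * x0))⁻¹ : ℝ) : ℂ) *
        rc (fun t => Real.sin (s * ph c x0 t)) n - rc (fun t => -Real.cos (s * ph c x0 t)) n =
      ((aco8543 c x0 s n : ℝ) : ℂ) := by
  obtain ⟨h1, h2, -, -⟩ := an_rel c x0 s hc hx n
  rw [rc_neg8543 (fun t => Real.cos (s * ph c x0 t)), h1, h2]
  have hI : ∀ t u v : ℂ, -Complex.I * t * (-Complex.I * u) - (-v) = -(t * u) + v := by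
    intro t u v
    have : Complex.I * Complex.I = -1 := Complex.I_mul_I
    linear_combination (t * u) * this
  rw [hI, ← Complex.ofReal_mul, ← Complex.ofReal_neg, ← Complex.ofReal_add]
  congr 1
  unfold aco8543
  by_cases hn : n = 0
  · subst hn; simp
  · rw [if_neg hn]
    have hS := sinh_ne8543 hx hn
    unfold Dn gn
    have e1 : Real.exp (-((((-n : ℤ)) : ℝ) * x0)) = Real.cosh (n * x0) + Real.sinh (n * x0) := by
      rw [Real.cosh_add_sinh]; push_cast; congr 1; ring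
    have e2 : Real.exp (-((n : ℝ) * x0)) = Real.cosh (n * x0) - Real.sinh (n * x0) := by
      rw [Real.cosh_sub_sinh]
    rw [e1, e2, Real.tanh_eq_sinh_div_cosh]
    have hC : Real.cosh (n * x0) ≠ 0 := (Real.cosh_pos _).ne'
    field_simp
    ring

theorem Th_bd8543 (c x0 s : ℝ) (k : ℤ) (hc : 0 < c) (hx : 0 < x0) (hs1 : 1 ≤ s)
    (hs : s * ph c x0 π = π * k) : |an c x0 s 0| ≤ Real.exp (-(s * S1 c x0)) := by
  have hy : x0 ∈ Set.Icc 0 x0 := ⟨hx.le, le_refl _⟩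
  obtain ⟨b1, b2, b3, b4, b5, b6⟩ := FF_basic c x0 s k hc hx hs x0 hy
  obtain ⟨f1, -, -⟩ := FF_fc c x0 s k hc hx hs x0 hy
  obtain ⟨-, ⟨m, hm, M, hM, hb⟩, -⟩ := Phi_top c x0 hc hx
  have hper : Function.Periodic (fun x => ‖FF c x0 s x0 x‖) π := by
    intro x
    show ‖FF c x0 s x0 (x + π)‖ = ‖FF c x0 s x0 x‖
    rw [b1, norm_mul, norm_zpow, norm_neg, norm_one, one_zpow, one_mul]
  have hbd : ∀ x ∈ Set.Icc (0:ℝ) (π / 2), ‖FF c x0 s x0 x‖ ≤ Real.exp (-(s * S1 c x0)) := by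
    intro x hx'
    rw [b5]
    apply Real.exp_le_exp.2
    have h1 := (hb x hx').1
    have h2 : 0 ≤ m * x ^ (3 / 2 : ℝ) := mul_nonneg hm.le (Real.rpow_nonneg hx'.1 _)
    have h3 : s * S1 c x0 ≤ s * (PhiG c x0 x0 x).im := by
      apply mul_le_mul_of_nonneg_left _ (by linarith)
      linarith
    linarith
  have hall : ∀ x, ‖FF c x0 s x0 x‖ ≤ Real.exp (-(s * S1 c x0)) := by
    intro x
    obtain ⟨y, hy1, hy2⟩ := hper.exists_mem_Ico Real.pi_pos x (-(π / 2))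
    have hy3 : ‖FF c x0 s x0 x‖ = ‖FF c x0 s x0 y‖ := hy2
    rw [hy3]
    rcases le_or_gt 0 y with h | h
    · exact hbd y ⟨h, by linarith [hy1.2]⟩
    · have := hbd (-y) ⟨by linarith, by linarith [hy1.1]⟩
      rw [b3] at this
      simpa using this
  have h4 := fc_norm_le (FF c x0 s x0) _ hall 0
  rw [f1 0] at h4
  simpa using h4

theorem trial_odd (c x0 : ℝ) (hc : 0 < c) (hx : 0 < x0) :
    ∃ K > 0, ∀ s : ℝ, 1 ≤ s → ∀ k : ℤ, s * ph c x0 π = π * k → ∃ e E Es : ℝ → ℝ,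
      Continuous E ∧ Continuous Es ∧ Function.Periodic e (2 * π) ∧
      Function.Periodic Es (2 * π) ∧ (∀ t, HasDerivAt e (E t) t) ∧
      (∀ n : ℤ, rc e n = -Complex.I * (((Real.tanh (n * x0))⁻¹ : ℝ) : ℂ) *
        rc (fun t => Real.sin (s * ph c x0 t)) n - rc (fun t => -Real.cos (s * ph c x0 t)) n) ∧
      (∀ n : ℤ, rc Es n = -Complex.I * ((((Real.tanh (n * x0))⁻¹)⁻¹ : ℝ) : ℂ) * rc E n) ∧
      (∀ t, |E t| ≤ K * s ^ (-(4 / 3) : ℝ) * Real.exp (-(s * S1 c x0))) ∧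
      (∀ t, |Es t| ≤ K * s ^ (-(4 / 3) : ℝ) * Real.exp (-(s * S1 c x0))) ∧
      |e 0| ≤ K * Real.exp (-(s * S1 c x0)) ∧
      (∀ n : ℤ, rc E n = Complex.I * ((n * Dn c x0 s n / (2 * Real.sinh (n * x0)) : ℝ) : ℂ)) := by
  obtain ⟨K0, hK0, hD⟩ := Dn_bd c x0 hc hx
  have hqs := qn_summable8543 hx
  set Q := ∑' n, qn8543 x0 n with hQ
  have hQ0 : 0 ≤ Q := tsum_nonneg (qn_nonneg8543 x0)
  set c0 := 1 - Real.exp (-(2 * x0)) with hc0
  have hc0pos : 0 < c0 := by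
    have : Real.exp (-(2 * x0)) < 1 := Real.exp_lt_one_iff.2 (by linarith)
    linarith
  have hc0le : c0 ≤ 1 := by
    have := Real.exp_pos (-(2 * x0))
    linarith
  refine ⟨K0 / c0 * Q + 1, by positivity, ?_⟩
  intro s hs k hsk
  set X := s ^ (-(4 / 3) : ℝ) * Real.exp (-(s * S1 c x0)) with hX
  have hX0 : 0 ≤ X := by positivity
  have hXle : X ≤ Real.exp (-(s * S1 c x0)) := by
    have h1 : s ^ (-(4 / 3) : ℝ) ≤ 1 := Real.rpow_le_one_of_one_le_of_nonpos hs (by norm_num)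
    have h2 := Real.exp_pos (-(s * S1 c x0))
    calc X ≤ 1 * Real.exp (-(s * S1 c x0)) := by rw [hX]; gcongr
      _ = _ := one_mul _
  have hDb : ∀ n : ℤ, |Dn c x0 s n| ≤ K0 * |(n:ℝ)| * X := by
    intro n
    have := (hD s hs k hsk n).1
    rw [hX, ← mul_assoc]; exact this
  -- bounds of the coefficients
  have hA : ∀ n : ℤ, n ≠ 0 → |aco8543 c x0 s n| ≤
      K0 / c0 * X * (|(n:ℝ)| * Real.exp (-(|(n:ℝ)| * x0))) := by
    intro n hn
    unfold aco8543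
    rw [if_neg hn, abs_div, abs_mul, abs_two]
    have h1 := sinh_low8543 hx hn
    rw [← hc0] at h1
    have h2 : 0 < c0 * Real.exp (|(n:ℝ)| * x0) := by positivity
    calc |Dn c x0 s n| / (2 * |Real.sinh (n * x0)|)
        ≤ (K0 * |(n:ℝ)| * X) / (c0 * Real.exp (|(n:ℝ)| * x0)) := by
          gcongr
          exact hDb n
      _ = K0 / c0 * X * (|(n:ℝ)| * Real.exp (-(|(n:ℝ)| * x0))) := by
          rw [Real.exp_neg]; field_simp
  have hB : ∀ n : ℤ, |(n * Dn c x0 s n / (2 * Real.cosh (n * x0)) : ℝ)| ≤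
      K0 * X * (|(n:ℝ)| ^ 2 * Real.exp (-(|(n:ℝ)| * x0))) := by
    intro n
    rw [abs_div, abs_mul, abs_mul, abs_two, abs_of_pos (Real.cosh_pos _)]
    have h1 := cosh_low8543 hx n
    calc |(n:ℝ)| * |Dn c x0 s n| / (2 * Real.cosh (n * x0))
        ≤ |(n:ℝ)| * (K0 * |(n:ℝ)| * X) / Real.exp (|(n:ℝ)| * x0) := by
          gcongr
          exact hDb n
      _ = K0 * X * (|(n:ℝ)| ^ 2 * Real.exp (-(|(n:ℝ)| * x0))) := by
          rw [Real.exp_neg]; field_simp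
  have hpoly1 : ∀ n : ℤ, (1 + |(n:ℝ)|) * (|(n:ℝ)| * Real.exp (-(|(n:ℝ)| * x0))) ≤ qn8543 x0 n := by
    intro n
    unfold qn8543
    have h1 : 0 ≤ |(n:ℝ)| := abs_nonneg _
    have h2 := Real.exp_pos (-(|(n:ℝ)| * x0))
    rw [← mul_assoc]
    gcongr
    nlinarith [pow_nonneg h1 2, pow_nonneg h1 3]
  have hpoly2 : ∀ n : ℤ, (1 + |(n:ℝ)|) * (|(n:ℝ)| ^ 2 * Real.exp (-(|(n:ℝ)| * x0))) ≤
      qn8543 x0 n := by
    intro n
    unfold qn8543
    have h1 : 0 ≤ |(n:ℝ)| := abs_nonneg _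
    have h2 := Real.exp_pos (-(|(n:ℝ)| * x0))
    rw [← mul_assoc]
    gcongr
    nlinarith [pow_nonneg h1 2, pow_nonneg h1 3]
  have hC0 : 0 ≤ K0 / c0 * X := by positivity
  have hA2 : ∀ n : ℤ, (1 + |(n:ℝ)|) * |aco8543 c x0 s n| ≤
      K0 / c0 * X * qn8543 x0 n + (if n = 0 then |an c x0 s 0| else 0) := by
    intro n
    by_cases hn : n = 0
    · subst hn
      simp only [aco8543, if_true, Int.cast_zero, abs_zero, add_zero, one_mul]
      have := mul_nonneg hC0 (qn_nonneg8543 x0 0)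
      linarith
    · rw [if_neg hn, add_zero]
      calc (1 + |(n:ℝ)|) * |aco8543 c x0 s n|
          ≤ (1 + |(n:ℝ)|) * (K0 / c0 * X * (|(n:ℝ)| * Real.exp (-(|(n:ℝ)| * x0)))) := by
            gcongr; exact hA n hn
        _ = K0 / c0 * X * ((1 + |(n:ℝ)|) * (|(n:ℝ)| * Real.exp (-(|(n:ℝ)| * x0)))) := by ring
        _ ≤ K0 / c0 * X * qn8543 x0 n := by gcongr; exact hpoly1 n
  have hdelta : HasSum (fun n : ℤ => if n = 0 then |an c x0 s 0| else 0) |an c x0 s 0| := by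
    have := hasSum_ite_eq (0:ℤ) |an c x0 s 0|
    exact this
  have hmaj : Summable (fun n : ℤ => K0 / c0 * X * qn8543 x0 n +
      (if n = 0 then |an c x0 s 0| else 0)) := (hqs.mul_left _).add hdelta.summable
  have hnorm : ∀ x : ℝ, ‖(x : ℂ)‖ = |x| := fun x => by
    rw [Complex.norm_real, Real.norm_eq_abs]
  have hAs : Summable (fun n : ℤ => (1 + |(n:ℝ)|) * ‖((aco8543 c x0 s n : ℝ) : ℂ)‖) := by
    refine Summable.of_nonneg_of_le (fun n => by positivity) (fun n => ?_) hmaj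
    rw [hnorm]; exact hA2 n
  have hBq : ∀ n : ℤ, (1 + |(n:ℝ)|) *
      ‖(((n * Dn c x0 s n / (2 * Real.cosh (n * x0)) : ℝ)) : ℂ)‖ ≤ K0 / c0 * X * qn8543 x0 n := by
    intro n
    rw [hnorm]
    calc (1 + |(n:ℝ)|) * |(n * Dn c x0 s n / (2 * Real.cosh (n * x0)) : ℝ)|
        ≤ (1 + |(n:ℝ)|) * (K0 * X * (|(n:ℝ)| ^ 2 * Real.exp (-(|(n:ℝ)| * x0)))) := by
          gcongr; exact hB n
      _ = K0 * X * ((1 + |(n:ℝ)|) * (|(n:ℝ)| ^ 2 * Real.exp (-(|(n:ℝ)| * x0)))) := by ring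
      _ ≤ K0 * X * qn8543 x0 n := by
          have : 0 ≤ K0 * X := by positivity
          gcongr; exact hpoly2 n
      _ ≤ K0 / c0 * X * qn8543 x0 n := by
          have h1 := qn_nonneg8543 x0 n
          have h2 : K0 ≤ K0 / c0 := by
            rw [le_div_iff₀ hc0pos]; nlinarith
          gcongr
  have hBs : Summable (fun n : ℤ => (1 + |(n:ℝ)|) *
      ‖(((n * Dn c x0 s n / (2 * Real.cosh (n * x0)) : ℝ)) : ℂ)‖) :=
    Summable.of_nonneg_of_le (fun n => by positivity) hBq (hqs.mul_left _)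
  obtain ⟨e, E, e1, e2, e3, e4, e5, e6, e7, -, -, e8, e9⟩ :=
    rsynth (fun n => ((aco8543 c x0 s n : ℝ) : ℂ)) hAs (fun n => by
      rw [aco_neg8543, Complex.conj_ofReal])
  obtain ⟨Es, E', g1, g2, g3, g4, g5, g6, g7, -, -, g8, g9⟩ :=
    rsynth (fun n => (((n * Dn c x0 s n / (2 * Real.cosh (n * x0)) : ℝ)) : ℂ)) hBs (fun n => by
      rw [Complex.conj_ofReal, Dn_neg8543]
      push_cast
      have h9 : -(n:ℂ) * x0 = -((n:ℂ) * x0) := by ring
      rw [h9, Complex.cosh_neg]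
      ring)
  have hrcE : ∀ n : ℤ, rc E n =
      Complex.I * ((n * Dn c x0 s n / (2 * Real.sinh (n * x0)) : ℝ) : ℂ) := by
    intro n
    rw [e7 n]
    by_cases hn : n = 0
    · subst hn; simp
    · simp only [aco8543, if_neg hn]
      push_cast
      ring
  have hXeq : (K0 / c0 * Q + 1) * s ^ (-(4 / 3) : ℝ) * Real.exp (-(s * S1 c x0)) =
      (K0 / c0 * Q + 1) * X := by rw [hX]; ring
  refine ⟨e, E, Es, e2, g1, e3, g3, e5, ?_, ?_, ?_, ?_, ?_, hrcE⟩
  · intro n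
    rw [e6 n, rhs8543 c x0 s hc hx n]
  · intro n
    rw [g6 n, hrcE n, inv_inv]
    by_cases hn : n = 0
    · subst hn; simp
    · have hS := sinh_ne8543 hx hn
      have hCne : Real.cosh (n * x0) ≠ 0 := (Real.cosh_pos _).ne'
      have h1 : ∀ t u : ℝ, -Complex.I * (t : ℂ) * (Complex.I * (u : ℂ)) = ((t * u : ℝ) : ℂ) := by
        intro t u
        have : Complex.I * Complex.I = -1 := Complex.I_mul_I
        push_cast
        linear_combination (-(t:ℂ) * u) * this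
      rw [h1]
      congr 1
      rw [Real.tanh_eq_sinh_div_cosh]
      field_simp
  · intro t
    refine (e9 t).trans ?_
    have h1 : ∀ n : ℤ, |(n:ℝ)| * ‖((aco8543 c x0 s n : ℝ) : ℂ)‖ ≤ K0 / c0 * X * qn8543 x0 n := by
      intro n
      rw [hnorm]
      by_cases hn : n = 0
      · subst hn
        have := mul_nonneg hC0 (qn_nonneg8543 x0 0)
        simpa using this
      · have h2 := hA2 n
        rw [if_neg hn, add_zero] at h2
        refine le_trans ?_ h2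
        gcongr
        linarith
    have h2 : Summable (fun n : ℤ => |(n:ℝ)| * ‖((aco8543 c x0 s n : ℝ) : ℂ)‖) :=
      Summable.of_nonneg_of_le (fun n => by positivity) h1 (hqs.mul_left _)
    have h3 := h2.tsum_le_tsum h1 (hqs.mul_left _)
    rw [tsum_mul_left] at h3
    refine h3.trans ?_
    rw [hXeq, ← hQ]
    nlinarith
  · intro t
    refine (g8 t).trans ?_
    have h1 : ∀ n : ℤ, ‖(((n * Dn c x0 s n / (2 * Real.cosh (n * x0)) : ℝ)) : ℂ)‖ ≤
        K0 / c0 * X * qn8543 x0 n := by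
      intro n
      refine le_trans ?_ (hBq n)
      have h0 : 0 ≤ ‖(((n * Dn c x0 s n / (2 * Real.cosh (n * x0)) : ℝ)) : ℂ)‖ := norm_nonneg _
      have h00 : 0 ≤ |(n:ℝ)| := abs_nonneg _
      nlinarith
    have h2 : Summable (fun n : ℤ =>
        ‖(((n * Dn c x0 s n / (2 * Real.cosh (n * x0)) : ℝ)) : ℂ)‖) :=
      Summable.of_nonneg_of_le (fun n => norm_nonneg _) h1 (hqs.mul_left _)
    have h3 := h2.tsum_le_tsum h1 (hqs.mul_left _)
    rw [tsum_mul_left] at h3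
    refine h3.trans ?_
    rw [hXeq, ← hQ]
    nlinarith
  · refine (e8 0).trans ?_
    have h1 : ∀ n : ℤ, ‖((aco8543 c x0 s n : ℝ) : ℂ)‖ ≤
        K0 / c0 * X * qn8543 x0 n + (if n = 0 then |an c x0 s 0| else 0) := by
      intro n
      refine le_trans ?_ (hA2 n)
      rw [hnorm]
      have h0 : 0 ≤ |aco8543 c x0 s n| := abs_nonneg _
      have h00 : 0 ≤ |(n:ℝ)| := abs_nonneg _
      nlinarith
    have h2 : Summable (fun n : ℤ => ‖((aco8543 c x0 s n : ℝ) : ℂ)‖) :=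
      Summable.of_nonneg_of_le (fun n => norm_nonneg _) h1 hmaj
    have h3 := h2.tsum_le_tsum h1 hmaj
    rw [(hqs.mul_left _).tsum_add hdelta.summable, tsum_mul_left, hdelta.tsum_eq] at h3
    have h4 := Th_bd8543 c x0 s k hc hx hs hsk
    refine h3.trans ?_
    have h5 : K0 / c0 * X * Q ≤ K0 / c0 * Real.exp (-(s * S1 c x0)) * Q := by gcongr
    rw [← hQ]
    nlinarith

end

end Pool.Agent.Helper482.Stk.M_u2
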