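import Pool.Agent.Helper482.Stk.Defs
import Pool.Agent.Helper482.Stk.M_e1
import Pool.Agent.Helper482.Stk.M_h1
import Pool.Agent.Helper482.Stk.M_h2
import Pool.Agent.Helper482.Stk.M_p7
import Pool.Agent.Helper482.Stk.M_q1
import Pool.Agent.Helper482.Stk.M_q3
import Pool.Agent.Helper482.Stk.M_t1
import Pool.Agent.Helper482.Stk.M_u2

set_option autoImplicit false

namespace Pool.Agent.Helper482.Stk.M_e2

open Pool.Agent.Helper482.Stk
open Pool.Agent.Helper482.Stk.M_e1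
open Pool.Agent.Helper482.Stk.M_h1
open Pool.Agent.Helper482.Stk.M_h2
open Pool.Agent.Helper482.Stk.M_p7
open Pool.Agent.Helper482.Stk.M_q1
open Pool.Agent.Helper482.Stk.M_q3
open Pool.Agent.Helper482.Stk.M_t1
open Pool.Agent.Helper482.Stk.M_u2
open Real MeasureTheory intervalIntegral

noncomputable section

theorem class_odd (c x0 : ℝ) (hc : 0 < c) (hx : 0 < x0) :
    ∃ K > 0, ∀ s0 : ℝ, ∃ Λ ≥ 1, ∀ σ : ℝ, Λ ≤ σ → ∀ f f' G : ℝ → ℝ,
      Sol c x0 (fun n : ℤ => (Real.tanh (n * x0))⁻¹) σ f f' G → f 0 = 0 → f π = 0 →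
      (∀ t, f t = 0) ∨ ∃ (k : ℤ) (s Cc : ℝ) (E : ℝ → ℝ), s0 ≤ s ∧ 1 ≤ s ∧
        s * ph c x0 π = π * k ∧ |σ - s| ≤ K / s ∧ Cc ≠ 0 ∧
        (∀ n : ℤ, ‖rc f n - Cc * rc (fun t => Real.sin (s * ph c x0 t)) n‖ ≤
          K * (1 + (n : ℝ) ^ 2) * |Cc| * s ^ (-(7 / 3) : ℝ) * Real.exp (-(s * S1 c x0))) ∧
        Continuous E ∧
        (∀ n : ℤ, rc E n =
          Complex.I * ((n * Dn c x0 s n / (2 * Real.sinh (n * x0)) : ℝ) : ℂ)) ∧
        |(σ - s) * (ph c x0 π / (2 * π)) - ip (fun t => Real.sin (s * ph c x0 t)) E| ≤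
          K * s ^ (-(8 / 3) : ℝ) * Real.exp (-(2 * (s * S1 c x0))) := by
  obtain ⟨Kt, hKt, hTR⟩ := trial_odd c x0 hc hx
  obtain ⟨KK, hτ⟩ := tauOK_coth x0 hx
  obtain ⟨C0, hC0, σ0, hσ0, hQ⟩ := quant c x0 KK _ hc hx hτ
  obtain ⟨hphd, hphneg, -, hp, -⟩ := ph_basic c x0 hc hx
  obtain ⟨hS1, -, -⟩ := Phi_top c x0 hc hx
  set p := ph c x0 π with hpdef
  set S := S1 c x0 with hSdef
  have hC0' : 0 < 2 * C0 / p := by positivity
  obtain ⟨K1, hK1, s1, hs1, η1, hη1, hcls⟩ := cls c x0 KK (2 * C0 / p) _ hc hx hτ hC0'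
  have hK0 : 0 < 2 * C0 / p + K1 * Kt + K1 * Kt ^ 2 := by positivity
  refine ⟨2 * C0 / p + K1 * Kt + K1 * Kt ^ 2, hK0, fun s0 => ?_⟩
  obtain ⟨m, hm0, hm1, hm2⟩ : ∃ m : ℝ, 0 < m ∧ m ≤ η1 ∧ m ≤ 1 / 2 :=
    ⟨min η1 (1 / 2), lt_min hη1 (by norm_num), min_le_left _ _, min_le_right _ _⟩
  have hSs : 0 < Kt / (S * m) := by positivity
  have hs0a := abs_nonneg s0
  refine ⟨σ0 + 2 * C0 / p + 2 * |s0| + 2 * s1 + 2 * (Kt / (S * m)) + 2, by linarith, ?_⟩
  intro σ hσ f f' G hSol hf0 hfπ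
  rcases hQ σ (by linarith) f f' G hSol (Or.inr ⟨hf0, hfπ⟩) with hz | ⟨hne, k, hk⟩
  · exact Or.inl hz
  · right
    have hσ1 : 1 ≤ σ := by linarith
    have hσpos : 0 < σ := by linarith
    obtain ⟨s, hs⟩ : ∃ s : ℝ, s = π * k / p := ⟨_, rfl⟩
    have hsp : s * p = π * k := by rw [hs]; field_simp
    have hd : |σ - s| ≤ C0 / (σ * p) := by
      have h1 : σ * p - π * k = (σ - s) * p := by rw [← hsp]; ring
      rw [h1, abs_mul, abs_of_pos hp] at hk
      rw [le_div_iff₀ (by positivity)]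
      rw [le_div_iff₀ hσpos] at hk
      calc |σ - s| * (σ * p) = |σ - s| * p * σ := by ring
        _ ≤ C0 := hk
    have hd2 : C0 / (σ * p) ≤ σ / 2 := by
      rw [div_le_iff₀ (by positivity)]
      have h2 : 2 * C0 / p ≤ σ := by linarith
      rw [div_le_iff₀ hp] at h2
      have h3 : σ * p ≤ σ * (σ * p) := by
        have : 1 * (σ * p) ≤ σ * (σ * p) := mul_le_mul_of_nonneg_right hσ1 (by positivity)
        linarith
      nlinarith
    have hd3 := abs_le.1 (hd.trans hd2)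
    have hs_lo : σ / 2 ≤ s := by linarith [hd3.2]
    have hs_hi : s ≤ 2 * σ := by linarith [hd3.1]
    have hs1' : 1 ≤ s := by linarith
    have hspos : 0 < s := by linarith
    have hss0 : s0 ≤ s := by have := le_abs_self s0; linarith
    have hss1 : s1 ≤ s := by linarith
    have hsS : Kt / (S * m) ≤ s := by linarith
    have hd4 : |σ - s| ≤ (2 * C0 / p) / s := by
      refine hd.trans ?_
      rw [div_div, div_le_div_iff₀ (by positivity) (by positivity)]
      nlinarith [mul_le_mul_of_nonneg_left hs_hi (mul_pos hC0 hp).le]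
    have hexp : Kt * Real.exp (-(s * S)) ≤ m := by
      have h1 : s * S ≤ Real.exp (s * S) := by
        have := Real.add_one_le_exp (s * S); linarith
      rw [Real.exp_neg, ← div_eq_mul_inv, div_le_iff₀ (Real.exp_pos _)]
      rw [div_le_iff₀ (by positivity)] at hsS
      nlinarith
    have hrp : s ^ (-(4 / 3) : ℝ) ≤ 1 := Real.rpow_le_one_of_one_le_of_nonpos hs1' (by norm_num)
    have hrp0 : 0 ≤ s ^ (-(4 / 3) : ℝ) := Real.rpow_nonneg hspos.le _
    obtain ⟨e, E, Es, hEc, hEsc, hep, hEsp, hed, hre, hrEs, hEb, hEsb, he0, hrE⟩ :=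
      hTR s hs1' k hsp
    have hwb := wave_basic c x0 s k hc hx hsp
    have hipw := (ip_wave c x0 s k hc hx hspos.ne' hsp).2
    have hph0 : ph c x0 0 = 0 := by simp [ph]
    obtain ⟨η, hη⟩ : ∃ η : ℝ, η = Kt * s ^ (-(4 / 3) : ℝ) * Real.exp (-(s * S)) := ⟨_, rfl⟩
    have hη0 : 0 ≤ η := by rw [hη]; positivity
    have hηle : η ≤ η1 := by
      rw [hη]
      calc Kt * s ^ (-(4 / 3) : ℝ) * Real.exp (-(s * S))
          ≤ Kt * 1 * Real.exp (-(s * S)) := by
            refine mul_le_mul_of_nonneg_right (mul_le_mul_of_nonneg_left hrp hKt.le) (Real.exp_pos _).le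
        _ ≤ m := by rw [mul_one]; exact hexp
        _ ≤ η1 := hm1
    have he0' : |e 0| ≤ 1 / 2 := he0.trans (hexp.trans hm2)
    have hden : (-Real.cos (s * ph c x0 0)) + e 0 ≠ 0 := by
      rw [hph0, mul_zero, Real.cos_zero]
      have := abs_le.1 he0'
      intro h
      linarith [this.1, this.2]
    have hG0 : G 0 ≠ 0 := by
      rcases hne with h | h
      · exact absurd hf0 h
      · exact h
    obtain ⟨Cc, hCc⟩ : ∃ Cc : ℝ, Cc = G 0 / ((-Real.cos (s * ph c x0 0)) + e 0) := ⟨_, rfl⟩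
    have hCc0 : Cc ≠ 0 := by rw [hCc]; exact div_ne_zero hG0 hden
    have hfin := hcls s σ hss1 hd4 (fun t => Real.sin (s * ph c x0 t))
      (fun t => -Real.cos (s * ph c x0 t)) e E Es η hη0 hηle
      (by
        intro t
        have := (((hphd t).const_mul s)).sin
        refine this.congr_deriv ?_
        ring)
      (by
        intro t
        have := ((((hphd t).const_mul s)).cos).neg
        refine this.congr_deriv ?_
        ring)
      hwb.2.1
      (by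
        intro t
        have := hwb.1 t
        exact congrArg Neg.neg this)
      (fun t => Real.abs_sin_le_one _)
      (fun t => by rw [abs_neg]; exact Real.abs_cos_le_one _)
      hwb.2.2.2.1 hEc hEsc hep hEsp hed hre hrEs
      (fun t => by rw [hη]; exact hEb t) (fun t => by rw [hη]; exact hEsb t) hipw f f' G Cc hSol
      (by simp only [hph0, mul_zero, Real.sin_zero]; exact hf0)
      (by
        rw [hCc, div_mul_cancel₀ _ hden])
    refine ⟨k, s, Cc, E, hss0, hs1', hsp, ?_, hCc0, ?_, hEc, hrE, ?_⟩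
    · refine hd4.trans ?_
      refine div_le_div_of_nonneg_right ?_ hspos.le
      have : 0 ≤ K1 * Kt := by positivity
      have : 0 ≤ K1 * Kt ^ 2 := by positivity
      linarith
    · intro n
      refine (hfin.1 n).trans ?_
      have h73 : s ^ (-(7 / 3) : ℝ) = s ^ (-(4 / 3) : ℝ) / s := by
        rw [show (-(7 / 3) : ℝ) = -(4 / 3) - 1 by norm_num, Real.rpow_sub_one hspos.ne']
      have e1 : K1 * (1 + (n : ℝ) ^ 2) * |Cc| * η / s =
          (K1 * Kt) * ((1 + (n : ℝ) ^ 2) * |Cc| * s ^ (-(7 / 3) : ℝ) * Real.exp (-(s * S))) := by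
        rw [hη, h73]; ring
      have e2 : (2 * C0 / p + K1 * Kt + K1 * Kt ^ 2) * (1 + (n : ℝ) ^ 2) * |Cc| *
          s ^ (-(7 / 3) : ℝ) * Real.exp (-(s * S)) =
          (2 * C0 / p + K1 * Kt + K1 * Kt ^ 2) *
            ((1 + (n : ℝ) ^ 2) * |Cc| * s ^ (-(7 / 3) : ℝ) * Real.exp (-(s * S))) := by ring
      rw [e1, e2]
      refine mul_le_mul_of_nonneg_right ?_ (by positivity)
      have : 0 ≤ K1 * Kt ^ 2 := by positivity
      linarith
    · refine (hfin.2 hCc0).trans ?_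
      have h83 : s ^ (-(8 / 3) : ℝ) = (s ^ (-(4 / 3) : ℝ)) ^ 2 := by
        rw [← Real.rpow_natCast, ← Real.rpow_mul hspos.le]; norm_num
      have hex2 : Real.exp (-(2 * (s * S))) = (Real.exp (-(s * S))) ^ 2 := by
        rw [← Real.exp_nat_mul]; congr 1; push_cast; ring
      have e1 : K1 * η ^ 2 = (K1 * Kt ^ 2) * (s ^ (-(8 / 3) : ℝ) * Real.exp (-(2 * (s * S)))) := by
        rw [hη, h83, hex2]; ring
      rw [e1, mul_assoc (2 * C0 / p + K1 * Kt + K1 * Kt ^ 2)]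
      refine mul_le_mul_of_nonneg_right ?_ (by positivity)
      have : 0 ≤ K1 * Kt := by positivity
      linarith

end

end Pool.Agent.Helper482.Stk.M_e2
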