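import Pool.Agent.Helper482.Stk.Defs
import Pool.Agent.Helper482.Stk.M_p1
import Pool.Agent.Helper482.Stk.M_p2
import Pool.Agent.Helper482.Stk.M_p4
import Pool.Agent.Helper482.Stk.M_p5
import Pool.Agent.Helper482.Stk.M_p6
import Pool.Agent.Helper482.Stk.M_p7

set_option autoImplicit false

namespace Pool.Agent.Helper482.Stk.M_r4

open Pool.Agent.Helper482.Stk
open Pool.Agent.Helper482.Stk.M_p1
open Pool.Agent.Helper482.Stk.M_p2
open Pool.Agent.Helper482.Stk.M_p4
open Pool.Agent.Helper482.Stk.M_p5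
open Pool.Agent.Helper482.Stk.M_p6
open Pool.Agent.Helper482.Stk.M_p7
open Real MeasureTheory intervalIntegral

noncomputable section

theorem Hc_line_cont (c x0 : ℝ) (hc : 0 < c) (hx : 0 < x0) :
    Continuous (fun x : ℝ => Hc c x0 (x + Complex.I * x0)) := by
  have h := (Hc_basic c x0 hc hx).2.2.2.1
  refine h.comp_continuous (by fun_prop) ?_
  intro x
  simp [abs_of_pos hx]

theorem Hc_line_re_nonneg (c x0 : ℝ) (hc : 0 < c) (hx : 0 < x0) (t : ℝ)
    (ht : t ∈ Set.Icc (-π) π) : 0 ≤ (Hc c x0 (t + Complex.I * x0)).re := by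
  obtain ⟨⟨m, hm, M, hM, hb, -⟩, -⟩ := Hc_top c x0 hc hx
  obtain ⟨-, -, hper, -, -, hsym⟩ := Hc_basic c x0 hc hx
  have h1 : ∀ t ∈ Set.Icc (0:ℝ) (π / 2), 0 ≤ (Hc c x0 (t + Complex.I * x0)).re := by
    intro t ht
    exact le_trans (by positivity) (hb t ht).2.1
  have h2 : ∀ t ∈ Set.Icc (-(π / 2)) 0, 0 ≤ (Hc c x0 (t + Complex.I * x0)).re := by
    intro t ht
    have h3 := h1 (-t) ⟨by linarith [ht.2], by linarith [ht.1]⟩
    have h4 := hsym (t + Complex.I * x0) (by simp [abs_of_pos hx])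
    have h5 : -(starRingEnd ℂ ((t : ℂ) + Complex.I * x0)) = ((-t : ℝ) : ℂ) + Complex.I * x0 := by
      simp
      ring
    rw [h5] at h4
    rw [h4] at h3
    simpa using h3
  rcases le_total t (-(π / 2)) with h | h
  · have h3 := h1 (t + π) ⟨by linarith [ht.1], by linarith⟩
    have h4 := hper (t + Complex.I * x0)
    have h5 : ((t : ℂ) + Complex.I * x0) + π = ((t + π : ℝ) : ℂ) + Complex.I * x0 := by
      push_cast; ring
    rw [h5] at h4
    rwa [h4] at h3
  rcases le_total t 0 with h' | h'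
  · exact h2 t ⟨h, h'⟩
  rcases le_total t (π / 2) with h'' | h''
  · exact h1 t ⟨h', h''⟩
  · have h3 := h2 (t - π) ⟨by linarith, by linarith [ht.2]⟩
    have h4 := hper (((t - π : ℝ) : ℂ) + Complex.I * x0)
    have h5 : (((t - π : ℝ) : ℂ) + Complex.I * x0) + π = (t : ℂ) + Complex.I * x0 := by
      push_cast; ring
    rw [h5] at h4
    rwa [← h4] at h3

theorem P_lower (c x0 : ℝ) (hc : 0 < c) (hx : 0 < x0) :
    ∃ c3 > 0, ∀ s : ℝ, 1 ≤ s → ∀ k : ℤ, s * ph c x0 π = π * k →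
      Summable (fun m : ℤ => (m : ℝ) * gn c x0 s m ^ 2) ∧
      c3 * Real.exp (-(2 * (s * S1 c x0))) ≤ ∑' m : ℤ, (m : ℝ) * gn c x0 s m ^ 2 := by
  obtain ⟨⟨m, hm, M, hM, hb, -⟩, -⟩ := Hc_top c x0 hc hx
  obtain ⟨hS1, ⟨m', hm', M', hM', hb'⟩, -⟩ := Phi_top c x0 hc hx
  refine ⟨1 / (2 * π) * (2 / 3 * m * Real.exp (-(2 * M'))), by positivity, ?_⟩
  intro s hs1 k hsk
  have hs0 : 0 < s := by linarith
  have hy : x0 ∈ Set.Icc 0 x0 := ⟨hx.le, le_rfl⟩
  obtain ⟨-, hper, -, hder, hnorm, -⟩ := FF_basic c x0 s k hc hx hsk x0 hy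
  obtain ⟨hfc, -, -⟩ := FF_fc c x0 s k hc hx hsk x0 hy
  have hFcont : Continuous (FF c x0 s x0) :=
    continuous_iff_continuousAt.2 fun x => (hder x).continuousAt
  have hHcont := Hc_line_cont c x0 hc hx
  have hf'cont : Continuous (fun x : ℝ =>
      Complex.I * s * Hc c x0 (x + Complex.I * x0) * FF c x0 s x0 x) :=
    (continuous_const.mul hHcont).mul hFcont
  obtain ⟨-, -, hsum⟩ := fc_sum_deriv (FF c x0 s x0) _ hder hf'cont hper
  -- the integrand
  set F : ℝ → ℝ := fun t => s * (Hc c x0 (t + Complex.I * x0)).re * ‖FF c x0 s x0 t‖ ^ 2 with hF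
  have hFc : Continuous F := by
    rw [hF]
    exact (continuous_const.mul (Complex.continuous_re.comp hHcont)).mul (hFcont.norm.pow 2)
  have hgsq : ∀ n : ℤ, ‖fc (FF c x0 s x0) n‖ ^ 2 = gn c x0 s n ^ 2 := by
    intro n
    rw [hfc n, Complex.norm_real, Real.norm_eq_abs, sq_abs]
    rfl
  have hint : ∀ t : ℝ, (-Complex.I * (Complex.I * s * Hc c x0 (t + Complex.I * x0) *
      FF c x0 s x0 t)) * starRingEnd ℂ (FF c x0 s x0 t) =
      (s : ℂ) * Hc c x0 (t + Complex.I * x0) * ((‖FF c x0 s x0 t‖ ^ 2 : ℝ) : ℂ) := by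
    intro t
    have h1 : FF c x0 s x0 t * starRingEnd ℂ (FF c x0 s x0 t) =
        ((‖FF c x0 s x0 t‖ ^ 2 : ℝ) : ℂ) := by
      rw [Complex.mul_conj, Complex.normSq_eq_norm_sq]
    calc _ = -(Complex.I * Complex.I) * (s * Hc c x0 (t + Complex.I * x0) *
          (FF c x0 s x0 t * starRingEnd ℂ (FF c x0 s x0 t))) := by ring
      _ = _ := by rw [Complex.I_mul_I, h1]; ring
  have hsum2 : HasSum (fun n : ℤ => (n : ℝ) * gn c x0 s n ^ 2)
      ((1 / (2 * π)) * ∫ t in (-π)..π, F t) := by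
    have h1 := Complex.hasSum_re hsum
    have h2 : (fun n : ℤ => (((n * ‖fc (FF c x0 s x0) n‖ ^ 2 : ℝ) : ℂ)).re) =
        fun n : ℤ => (n : ℝ) * gn c x0 s n ^ 2 := by
      funext n
      rw [Complex.ofReal_re, hgsq n]
    rw [h2] at h1
    have h3 : ((1 / (2 * (π : ℂ))) * ∫ t in (-π)..π, (-Complex.I * (Complex.I * s *
        Hc c x0 (t + Complex.I * x0) * FF c x0 s x0 t)) * starRingEnd ℂ (FF c x0 s x0 t)).re =
        (1 / (2 * π)) * ∫ t in (-π)..π, F t := by
      have h4 : (1 / (2 * (π : ℂ))) = ((1 / (2 * π) : ℝ) : ℂ) := by push_cast; rfl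
      rw [h4, Complex.re_ofReal_mul]
      congr 1
      have h5 : ∀ (g : ℝ → ℂ), Continuous g → (∫ t in (-π)..π, g t).re = ∫ t in (-π)..π, (g t).re := by
        intro g hg
        have hgi : IntervalIntegrable g volume (-π) π := hg.intervalIntegrable _ _
        have := (Complex.reCLM).intervalIntegral_comp_comm hgi
        simpa using this.symm
      rw [h5]
      · refine intervalIntegral.integral_congr fun t _ => ?_
        simp only [hF]
        rw [hint t, mul_comm, Complex.re_ofReal_mul, Complex.re_ofReal_mul]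
        ring
      · have : (fun t : ℝ => (-Complex.I * (Complex.I * s *
          Hc c x0 (t + Complex.I * x0) * FF c x0 s x0 t)) * starRingEnd ℂ (FF c x0 s x0 t)) =
          fun t : ℝ => (s : ℂ) * Hc c x0 (t + Complex.I * x0) * ((‖FF c x0 s x0 t‖ ^ 2 : ℝ) : ℂ) :=
          funext hint
        rw [this]
        exact (continuous_const.mul hHcont).mul (Complex.continuous_ofReal.comp (hFcont.norm.pow 2))
    rw [h3] at h1
    exact h1
  refine ⟨hsum2.summable, ?_⟩
  rw [hsum2.tsum_eq, mul_assoc]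
  refine mul_le_mul_of_nonneg_left ?_ (by positivity)
  set b : ℝ := s ^ (-(2 / 3) : ℝ) with hbdef
  have hb0 : 0 < b := Real.rpow_pos_of_pos hs0 _
  have hb1 : b ≤ 1 := Real.rpow_le_one_of_one_le_of_nonpos hs1 (by norm_num)
  have hpi : 3 < π := Real.pi_gt_three
  have hFnn : ∀ t ∈ Set.Icc (-π) π, 0 ≤ F t := by
    intro t ht
    have := Hc_line_re_nonneg c x0 hc hx t ht
    simp only [hF]
    positivity
  have hle1 : ∫ t in (0:ℝ)..b, F t ≤ ∫ t in (-π)..π, F t := by
    refine intervalIntegral.integral_mono_interval (by linarith) hb0.le (by linarith) ?_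
      (hFc.intervalIntegrable _ _)
    filter_upwards [ae_restrict_mem measurableSet_Ioc] with t ht
    exact hFnn t ⟨ht.1.le, ht.2⟩
  have hle2 : ∫ t in (0:ℝ)..b, (s * m * Real.exp (-(2 * M')) * Real.exp (-(2 * (s * S1 c x0)))) *
      t ^ (1 / 2 : ℝ) ≤ ∫ t in (0:ℝ)..b, F t := by
    refine intervalIntegral.integral_mono_on hb0.le ?_ (hFc.intervalIntegrable _ _) ?_
    · refine Continuous.intervalIntegrable ?_ _ _
      exact continuous_const.mul (Real.continuous_rpow_const (by norm_num))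
    · intro t ht
      have htpi : t ∈ Set.Icc (0:ℝ) (π / 2) := ⟨ht.1, by linarith [ht.2]⟩
      have h1 := (hb t htpi).2.1
      have h2 := (hb' t htpi).2
      have h3 : ‖FF c x0 s x0 t‖ ^ 2 = Real.exp (-(2 * (s * (PhiG c x0 x0 t).im))) := by
        rw [hnorm t, ← Real.exp_nat_mul]
        congr 1
        push_cast; ring
      have h4 : s * t ^ (3 / 2 : ℝ) ≤ 1 := by
        have h5 : t ^ (3 / 2 : ℝ) ≤ b ^ (3 / 2 : ℝ) :=
          Real.rpow_le_rpow ht.1 ht.2 (by norm_num)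
        have h6 : b ^ (3 / 2 : ℝ) = s⁻¹ := by
          rw [hbdef, ← Real.rpow_mul hs0.le, show (-(2 / 3) : ℝ) * (3 / 2) = -1 by norm_num,
            Real.rpow_neg_one]
        calc s * t ^ (3 / 2 : ℝ) ≤ s * s⁻¹ := by
              rw [← h6]; exact mul_le_mul_of_nonneg_left h5 hs0.le
          _ = 1 := mul_inv_cancel₀ hs0.ne'
      have h7 : Real.exp (-(2 * M')) * Real.exp (-(2 * (s * S1 c x0))) ≤ ‖FF c x0 s x0 t‖ ^ 2 := by
        rw [h3, ← Real.exp_add]
        apply Real.exp_le_exp.2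
        have h8 : s * (PhiG c x0 x0 t).im ≤ s * S1 c x0 + M' := by
          calc s * (PhiG c x0 x0 t).im ≤ s * (S1 c x0 + M' * t ^ (3 / 2 : ℝ)) :=
                mul_le_mul_of_nonneg_left h2 hs0.le
            _ = s * S1 c x0 + M' * (s * t ^ (3 / 2 : ℝ)) := by ring
            _ ≤ s * S1 c x0 + M' * 1 := by
                have := mul_le_mul_of_nonneg_left h4 hM'.le
                linarith
            _ = _ := by ring
        linarith
      have h9 : t ^ (1 / 2 : ℝ) = Real.sqrt t := (Real.sqrt_eq_rpow t).symm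
      simp only [hF]
      rw [h9]
      calc s * m * Real.exp (-(2 * M')) * Real.exp (-(2 * (s * S1 c x0))) * Real.sqrt t
          = s * (m * Real.sqrt t) * (Real.exp (-(2 * M')) * Real.exp (-(2 * (s * S1 c x0)))) := by ring
        _ ≤ s * (Hc c x0 (t + Complex.I * x0)).re * ‖FF c x0 s x0 t‖ ^ 2 := by
            have h10 : 0 ≤ (Hc c x0 (t + Complex.I * x0)).re := le_trans (by positivity) h1
            refine mul_le_mul ?_ h7 (by positivity) (by positivity)
            exact mul_le_mul_of_nonneg_left h1 hs0.le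
  refine le_trans ?_ (hle2.trans hle1)
  rw [intervalIntegral.integral_const_mul, integral_rpow (Or.inl (by norm_num))]
  have h11 : b ^ ((1 / 2 : ℝ) + 1) = s⁻¹ := by
    rw [hbdef, ← Real.rpow_mul hs0.le, show (-(2 / 3) : ℝ) * (1 / 2 + 1) = -1 by norm_num,
      Real.rpow_neg_one]
  rw [h11, Real.zero_rpow (by norm_num)]
  apply le_of_eq
  field_simp
  ring

end

end Pool.Agent.Helper482.Stk.M_r4
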