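import Pool.Agent.Helper482.Stk.Defs
import Pool.Agent.Helper482.Stk.M_f3
import Pool.Agent.Helper482.Stk.M_h2
import Pool.Agent.Helper482.Stk.M_h3
import Pool.Agent.Helper482.Stk.M_r4

set_option autoImplicit false

namespace Pool.Agent.Helper482.Stk.M_u3

open Pool.Agent.Helper482.Stk
open Pool.Agent.Helper482.Stk.M_f3
open Pool.Agent.Helper482.Stk.M_h2
open Pool.Agent.Helper482.Stk.M_h3
open Pool.Agent.Helper482.Stk.M_r4
open Real MeasureTheory intervalIntegral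

noncomputable section

lemma sp_hh_cont (c x0 : ℝ) : Continuous (hh c x0) := by
  unfold hh
  fun_prop

lemma sp_ph_cont (c x0 : ℝ) : Continuous (ph c x0) := by
  have h := intervalIntegral.continuous_primitive
    (f := hh c x0) (μ := volume) (fun a b => (sp_hh_cont c x0).intervalIntegrable a b) 0
  exact h

lemma sp_summ (u : ℤ → ℂ) (h : Summable (fun j : ℤ => ‖u j‖ * (1 + |(j : ℝ)|) ^ 4)) :
    Summable (fun j : ℤ => ‖u j‖) := by
  refine Summable.of_nonneg_of_le (fun j => norm_nonneg _) (fun j => ?_) h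
  have h1 : (1 : ℝ) ≤ (1 + |(j : ℝ)|) ^ 4 := one_le_pow₀ (by have := abs_nonneg (j : ℝ); linarith)
  have h2 := norm_nonneg (u j)
  nlinarith

lemma sp_alg (E x y m : ℝ) (hE : 0 < E) (h : (0 < m ∧ 1 < E) ∨ (m < 0 ∧ E < 1)) :
    (E * x + E⁻¹ * y) / 2 * (m * (y - x) / (2 * ((E + E⁻¹) / 2))) +
      (E * x - E⁻¹ * y) / 2 * (m * (y - x) / (2 * ((E - E⁻¹) / 2))) +
      (m * x ^ 2 - m * y ^ 2) / 2 ≤ 0 := by
  have hE4 : E ^ 4 - 1 ≠ 0 := by
    rcases h with ⟨_, h1⟩ | ⟨_, h1⟩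
    · have : 1 < E ^ 4 := one_lt_pow₀ h1 (by norm_num)
      linarith
    · have : E ^ 4 < 1 := pow_lt_one₀ hE.le h1 (by norm_num)
      linarith
  have hE2 : E ^ 2 - 1 ≠ 0 := by
    intro h0
    apply hE4
    have : E ^ 4 - 1 = (E ^ 2 - 1) * (E ^ 2 + 1) := by ring
    rw [this, h0, zero_mul]
  have hE2' : E ^ 2 + 1 ≠ 0 := by positivity
  have e1 : (E + E⁻¹) = (E ^ 2 + 1) / E := by field_simp
  have e2 : (E - E⁻¹) = (E ^ 2 - 1) / E := by field_simp
  have key : (E * x + E⁻¹ * y) / 2 * (m * (y - x) / (2 * ((E + E⁻¹) / 2))) +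
      (E * x - E⁻¹ * y) / 2 * (m * (y - x) / (2 * ((E - E⁻¹) / 2))) +
      (m * x ^ 2 - m * y ^ 2) / 2 = -(1 / 2) * (y - x) ^ 2 * (E ^ 4 + 1) * (m / (E ^ 4 - 1)) := by
    rw [e1, e2]
    have e3 : E ^ 4 - 1 = (E ^ 2 - 1) * (E ^ 2 + 1) := by ring
    rw [e3]
    field_simp
    ring
  rw [key]
  have hq : 0 ≤ m / (E ^ 4 - 1) := by
    rcases h with ⟨h0, h1⟩ | ⟨h0, h1⟩
    · have : 1 < E ^ 4 := one_lt_pow₀ h1 (by norm_num)
      apply div_nonneg h0.le; linarith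
    · have : E ^ 4 < 1 := pow_lt_one₀ hE.le h1 (by norm_num)
      apply div_nonneg_of_nonpos h0.le; linarith
  have h2 : 0 ≤ (y - x) ^ 2 * (E ^ 4 + 1) * (m / (E ^ 4 - 1)) := by positivity
  nlinarith

theorem splitting (c x0 s : ℝ) (k : ℤ) (hc : 0 < c) (hx : 0 < x0) (hs1 : 1 ≤ s)
    (hs : s * ph c x0 π = π * k) (Ee Eo : ℝ → ℝ) (hEe : Continuous Ee) (hEo : Continuous Eo)
    (he : ∀ n : ℤ, rc Ee n = ((n * Dn c x0 s n / (2 * Real.cosh (n * x0)) : ℝ) : ℂ))
    (ho : ∀ n : ℤ, rc Eo n =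
      Complex.I * ((n * Dn c x0 s n / (2 * Real.sinh (n * x0)) : ℝ) : ℂ)) :
    ip (fun t => Real.cos (s * ph c x0 t)) Ee - ip (fun t => Real.sin (s * ph c x0 t)) Eo ≤
      -∑' m : ℤ, (m : ℝ) * gn c x0 s m ^ 2 := by
  obtain ⟨hpc, hps, hsc, hss, -, -⟩ := wave_basic c x0 s k hc hx hs
  obtain ⟨c3, hc3, hP⟩ := P_lower c x0 hc hx
  have hsumP := (hP s hs1 k hs).1
  have hphc := sp_ph_cont c x0
  have h1 := ip_hasSum (fun t => Real.cos (s * ph c x0 t)) Ee (by fun_prop) hpc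
    (sp_summ _ hsc) hEe
  have h2 := ip_hasSum (fun t => Real.sin (s * ph c x0 t)) Eo (by fun_prop) hps
    (sp_summ _ hss) hEo
  set a : ℤ → ℝ := an c x0 s with ha
  have hDneg : ∀ m : ℤ, Dn c x0 s (-m) = - Dn c x0 s m := by
    intro m; unfold Dn; rw [neg_neg]; ring
  have r1 : HasSum (fun m : ℤ => (a m + a (-m)) / 2 *
      (m * Dn c x0 s m / (2 * Real.cosh (m * x0))))
      (ip (fun t => Real.cos (s * ph c x0 t)) Ee) := by
    rw [← Complex.hasSum_ofReal]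
    convert h1 using 2 with m
    rw [(an_rel c x0 s hc hx m).1, he (-m), hDneg]
    push_cast
    rw [show (-(m : ℂ) * (x0 : ℂ)) = -((m : ℂ) * (x0 : ℂ)) by ring, Complex.cosh_neg]
    ring
  have r2 : HasSum (fun m : ℤ => -((a m - a (-m)) / 2 *
      (m * Dn c x0 s m / (2 * Real.sinh (m * x0)))))
      (ip (fun t => Real.sin (s * ph c x0 t)) Eo) := by
    rw [← Complex.hasSum_ofReal]
    convert h2 using 2 with m
    rw [(an_rel c x0 s hc hx m).2.1, ho (-m), hDneg]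
    push_cast
    rw [show (-(m : ℂ) * (x0 : ℂ)) = -((m : ℂ) * (x0 : ℂ)) by ring, Complex.sinh_neg]
    have hI : Complex.I * Complex.I = -1 := Complex.I_mul_I
    have : ∀ A B : ℂ, -Complex.I * A * (Complex.I * B) = -(Complex.I * Complex.I) * (A * B) := by
      intros; ring
    rw [this, hI, mul_neg (2 : ℂ), div_neg]
    ring
  have hd := r1.sub r2
  have hsumN : Summable (fun m : ℤ => (m : ℝ) * gn c x0 s (-m) ^ 2) := by
    have h3 := ((Equiv.neg ℤ).summable_iff.mpr hsumP).neg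
    refine h3.congr (fun m => ?_)
    simp [Function.comp]
  have htN : ∑' m : ℤ, (m : ℝ) * gn c x0 s (-m) ^ 2 = -∑' m : ℤ, (m : ℝ) * gn c x0 s m ^ 2 := by
    rw [← (Equiv.neg ℤ).tsum_eq (fun m : ℤ => (m : ℝ) * gn c x0 s m ^ 2), ← tsum_neg]
    refine tsum_congr (fun m => ?_)
    simp
  have h3 := ((hsumP.hasSum).sub (hsumN.hasSum)).div_const 2
  rw [htN] at h3
  have h4 := hd.add h3
  have h5 : (ip (fun t => Real.cos (s * ph c x0 t)) Ee - ip (fun t => Real.sin (s * ph c x0 t)) Eo)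
      + ((∑' m : ℤ, (m : ℝ) * gn c x0 s m ^ 2) - -∑' m : ℤ, (m : ℝ) * gn c x0 s m ^ 2) / 2 ≤ 0 := by
    refine hasSum_le (fun m => ?_) h4 hasSum_zero
    rcases eq_or_ne m 0 with rfl | hm
    · simp
    have hE : 0 < Real.exp (m * x0) := Real.exp_pos _
    have hEinv : (Real.exp (m * x0))⁻¹ = Real.exp (-(m * x0)) := (Real.exp_neg _).symm
    have hcase : (0 < (m : ℝ) ∧ 1 < Real.exp (m * x0)) ∨ ((m : ℝ) < 0 ∧ Real.exp (m * x0) < 1) := by
      rcases lt_or_gt_of_ne hm with h | h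
      · right
        have h' : (m : ℝ) < 0 := by exact_mod_cast h
        exact ⟨h', by rw [Real.exp_lt_one_iff]; exact mul_neg_of_neg_of_pos h' hx⟩
      · left
        have h' : (0 : ℝ) < m := by exact_mod_cast h
        exact ⟨h', by rw [Real.one_lt_exp_iff]; positivity⟩
    have hkey := sp_alg (Real.exp (m * x0)) (gn c x0 s m) (gn c x0 s (-m)) m hE hcase
    have ea : Real.exp (m * x0) * gn c x0 s m = a m := by
      unfold gn
      rw [← mul_assoc, ← Real.exp_add]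
      simp [ha]
    have eb : (Real.exp (m * x0))⁻¹ * gn c x0 s (-m) = a (-m) := by
      unfold gn
      rw [hEinv, ← mul_assoc, ← Real.exp_add]
      simp [ha]
    have ec : Real.cosh (m * x0) = (Real.exp (m * x0) + (Real.exp (m * x0))⁻¹) / 2 := by
      rw [hEinv, Real.cosh_eq]
    have es : Real.sinh (m * x0) = (Real.exp (m * x0) - (Real.exp (m * x0))⁻¹) / 2 := by
      rw [hEinv, Real.sinh_eq]
    rw [ea, eb, ← ec, ← es] at hkey
    have eD : gn c x0 s (-m) - gn c x0 s m = Dn c x0 s m := rfl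
    rw [eD] at hkey
    linarith
  linarith

end

end Pool.Agent.Helper482.Stk.M_u3
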