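import Pool.Agent.Helper482.Stk.Defs
import Pool.Agent.Helper482.Stk.M_e1
import Pool.Agent.Helper482.Stk.M_e2
import Pool.Agent.Helper482.Stk.M_h1
import Pool.Agent.Helper482.Stk.M_r4
import Pool.Agent.Helper482.Stk.M_u3

set_option autoImplicit false

namespace Pool.Agent.Helper482.Stk.M_e3

open Pool.Agent.Helper482.Stk
open Pool.Agent.Helper482.Stk.M_e1
open Pool.Agent.Helper482.Stk.M_e2
open Pool.Agent.Helper482.Stk.M_h1
open Pool.Agent.Helper482.Stk.M_r4
open Pool.Agent.Helper482.Stk.M_u3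
open Real MeasureTheory intervalIntegral

noncomputable section

theorem excl (c x0 : ℝ) (hc : 0 < c) (hx : 0 < x0) :
    ∃ Λ : ℝ, ∀ σ : ℝ, Λ ≤ σ → ∀ fe fe' Ge fo fo' Go : ℝ → ℝ,
      Sol c x0 (fun n : ℤ => Real.tanh (n * x0)) σ fe fe' Ge → Ge 0 = 0 → Ge π = 0 →
      Sol c x0 (fun n : ℤ => (Real.tanh (n * x0))⁻¹) σ fo fo' Go → fo 0 = 0 → fo π = 0 →
      (∀ t, fe t = 0) ∨ (∀ t, fo t = 0) := by
  obtain ⟨K, hK, HE⟩ := class_even c x0 hc hx
  obtain ⟨K', hK', HO⟩ := class_odd c x0 hc hx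
  obtain ⟨c3, hc3, HL⟩ := P_lower c x0 hc hx
  obtain ⟨-, -, -, hP, -⟩ := ph_basic c x0 hc hx
  set P := ph c x0 π with hPdef
  have hpi := Real.pi_pos
  obtain ⟨Λ1, hΛ1, HE1⟩ := HE ((K + K') * P / π + 1 + (K + K') / c3)
  obtain ⟨Λ2, hΛ2, HO1⟩ := HO ((K + K') * P / π + 1 + (K + K') / c3)
  refine ⟨max Λ1 Λ2, ?_⟩
  intro σ hσ fe fe' Ge fo fo' Go hSe hGe0 hGepi hSo hfo0 hfopi
  rcases HE1 σ (le_trans (le_max_left _ _) hσ) fe fe' Ge hSe hGe0 hGepi with h | h
  · exact Or.inl h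
  rcases HO1 σ (le_trans (le_max_right _ _) hσ) fo fo' Go hSo hfo0 hfopi with h' | h'
  · exact Or.inr h'
  exfalso
  obtain ⟨k, s, Cc, Ee, hs0, hs1, hsk, hσs, hCc, -, hEec, hEe, hmain⟩ := h
  obtain ⟨k', s', Cc', Eo, hs0', hs1', hsk', hσs', hCc', -, hEoc, hEo, hmain'⟩ := h'
  have hKK : 0 < K + K' := by positivity
  have hA : 0 ≤ (K + K') / c3 := by positivity
  have hB : 0 ≤ (K + K') * P / π := by positivity
  set T := (K + K') * P / π + 1 + (K + K') / c3 with hT
  have hTpos : 0 < T := by positivity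
  have hspos : 0 < s := by linarith
  have hspos' : 0 < s' := by linarith
  -- step 1 : k = k'
  have h1 : K / s ≤ K / T := by
    apply div_le_div_of_nonneg_left hK.le hTpos hs0
  have h2 : K' / s' ≤ K' / T := by
    apply div_le_div_of_nonneg_left hK'.le hTpos hs0'
  have h3 : |s - s'| ≤ (K + K') / T := by
    have : |s - s'| ≤ |σ - s| + |σ - s'| := by
      have h := abs_sub_le s σ s'
      rw [abs_sub_comm s σ] at h
      exact h
    have h4 : (K + K') / T = K / T + K' / T := by ring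
    rw [h4]
    linarith
  have h4 : (K + K') / T * P < π := by
    rw [div_mul_eq_mul_div, div_lt_iff₀ hTpos]
    have : π * T = (K + K') * P + π + π * ((K + K') / c3) := by
      rw [hT]
      field_simp
    rw [this]
    have : 0 ≤ π * ((K + K') / c3) := by positivity
    linarith
  have h5 : π * |(k : ℝ) - k'| < π := by
    have : π * |(k : ℝ) - k'| = |s - s'| * P := by
      have e1 : π * ((k : ℝ) - k') = (s - s') * P := by
        linarith [hsk, hsk']
      have e2 : |π * ((k : ℝ) - k')| = |(s - s') * P| := by rw [e1]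
      rw [abs_mul, abs_mul, abs_of_pos hpi, abs_of_pos hP] at e2
      exact e2
    rw [this]
    calc |s - s'| * P ≤ (K + K') / T * P := by
          apply mul_le_mul_of_nonneg_right h3 hP.le
      _ < π := h4
  have h6 : |(k : ℝ) - k'| < 1 := by
    by_contra hcon
    push Not at hcon
    have : π * 1 ≤ π * |(k : ℝ) - k'| := mul_le_mul_of_nonneg_left hcon hpi.le
    linarith
  have h7 : k = k' := by
    have : |k - k'| < 1 := by
      have : ((|k - k'| : ℤ) : ℝ) < ((1 : ℤ) : ℝ) := by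
        push_cast
        exact h6
      exact_mod_cast this
    have := Int.abs_lt_one_iff.mp this
    omega
  subst h7
  have h8 : s = s' := by
    have : s * P = s' * P := by rw [hsk, hsk']
    exact mul_right_cancel₀ hP.ne' this
  subst h8
  have h9 := splitting c x0 s k hc hx hs1 hsk Ee Eo hEec hEoc hEe hEo
  obtain ⟨-, h10⟩ := HL s hs1 k hsk
  have h11 := abs_le.mp hmain
  have h12 := abs_le.mp hmain'
  have hexp : 0 < Real.exp (-(2 * (s * S1 c x0))) := Real.exp_pos _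
  have h13 : s ^ (-(8 / 3) : ℝ) ≤ s ^ (-1 : ℝ) := by
    apply Real.rpow_le_rpow_of_exponent_le hs1
    norm_num
  have h14 : (K + K') * s ^ (-(8 / 3) : ℝ) < c3 := by
    rw [Real.rpow_neg_one] at h13
    have h15 : (K + K') / c3 < s := by linarith
    have h16 : (K + K') * s⁻¹ < c3 := by
      rw [← div_eq_mul_inv, div_lt_iff₀ hspos]
      rw [div_lt_iff₀ hc3] at h15
      linarith
    calc (K + K') * s ^ (-(8 / 3) : ℝ) ≤ (K + K') * s⁻¹ :=
          mul_le_mul_of_nonneg_left h13 hKK.le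
      _ < c3 := h16
  have h17 : (K + K') * s ^ (-(8 / 3) : ℝ) * Real.exp (-(2 * (s * S1 c x0))) <
      c3 * Real.exp (-(2 * (s * S1 c x0))) := mul_lt_mul_of_pos_right h14 hexp
  have h18 : (K + K') * s ^ (-(8 / 3) : ℝ) * Real.exp (-(2 * (s * S1 c x0))) =
      K * s ^ (-(8 / 3) : ℝ) * Real.exp (-(2 * (s * S1 c x0))) +
      K' * s ^ (-(8 / 3) : ℝ) * Real.exp (-(2 * (s * S1 c x0))) := by ring
  linarith [h11.1, h11.2, h12.1, h12.2]

end

end Pool.Agent.Helper482.Stk.M_e3
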