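import Pool.Agent.Helper482.Stk.Defs
import Pool.Agent.Helper482.Stk.M_p3
import Pool.Agent.Helper482.Stk.M_p7

set_option autoImplicit false

namespace Pool.Agent.Helper482.Stk.M_r3

open Pool.Agent.Helper482.Stk
open Pool.Agent.Helper482.Stk.M_p3
open Pool.Agent.Helper482.Stk.M_p7
open Real MeasureTheory intervalIntegral

noncomputable section

/-- differentiability of the parametric integral -/
theorem h170_Fdiff (a0 : ℂ) (ha : 0 < a0.re) :
    DifferentiableAt ℂ (fun a : ℂ => ∫ t in Set.Ioi (0:ℝ), (t : ℂ) ^ ((4 / 3 : ℂ) - 1) * Complex.exp (-(a * t))) a0 := by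
  have hnorm : ∀ t : ℝ, 0 < t → ∀ r : ℝ, ‖(t : ℂ) ^ ((r : ℝ) : ℂ)‖ = t ^ r := by
    intro t ht r
    rw [Complex.norm_cpow_eq_rpow_re_of_pos ht, Complex.ofReal_re]
  have e0 : (4 / 3 : ℂ) - 1 = ((1 / 3 : ℝ) : ℂ) := by push_cast; norm_num
  rw [e0]
  have hb : 0 < a0.re / 2 := by linarith
  have hexp : ∀ (a : ℂ) (t : ℝ), ‖Complex.exp (-(a * t))‖ = Real.exp (-a.re * t) := by
    intro a t
    rw [Complex.norm_exp]
    congr 1
    rw [Complex.neg_re, Complex.re_mul_ofReal]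
    ring
  have hcpow : ContinuousOn (fun t : ℝ => (t : ℂ) ^ (((1 / 3 : ℝ)) : ℂ)) (Set.Ioi 0) := by
    intro t ht
    refine (ContinuousAt.cpow ?_ continuousAt_const ?_).continuousWithinAt
    · exact Complex.continuous_ofReal.continuousAt
    · exact Complex.ofReal_mem_slitPlane.2 ht
  have hcont : ∀ a : ℂ, ContinuousOn (fun t : ℝ => (t : ℂ) ^ (((1 / 3 : ℝ)) : ℂ) * Complex.exp (-(a * t))) (Set.Ioi 0) := by
    intro a
    exact hcpow.mul (by fun_prop : Continuous fun t : ℝ => Complex.exp (-(a * t))).continuousOn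
  have h := hasDerivAt_integral_of_dominated_loc_of_deriv_le (μ := volume.restrict (Set.Ioi (0:ℝ)))
    (F := fun (a : ℂ) (t : ℝ) => (t : ℂ) ^ (((1 / 3 : ℝ)) : ℂ) * Complex.exp (-(a * t)))
    (F' := fun (a : ℂ) (t : ℝ) => (t : ℂ) ^ (((1 / 3 : ℝ)) : ℂ) * (Complex.exp (-(a * t)) * (-(1 * (t : ℂ)))))
    (x₀ := a0) (s := {z : ℂ | a0.re / 2 < z.re})
    (bound := fun t : ℝ => t ^ (4 / 3 : ℝ) * Real.exp (-(a0.re / 2) * t ^ (1 : ℝ)))
    ((isOpen_lt continuous_const Complex.continuous_re).mem_nhds (by show a0.re / 2 < a0.re; linarith))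
    (Filter.Eventually.of_forall fun a => (hcont a).aestronglyMeasurable measurableSet_Ioi)
    (by
      have h1 := integrableOn_rpow_mul_exp_neg_mul_rpow (s := 1 / 3) (p := 1) (b := a0.re) (by norm_num) (by norm_num) ha
      refine Integrable.mono' h1 ((hcont a0).aestronglyMeasurable measurableSet_Ioi) ?_
      filter_upwards [ae_restrict_mem measurableSet_Ioi] with t ht
      rw [norm_mul, hnorm t ht, hexp, Real.rpow_one])
    (by
      refine ContinuousOn.aestronglyMeasurable ?_ measurableSet_Ioi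
      exact hcpow.mul (by fun_prop : Continuous fun t : ℝ => Complex.exp (-(a0 * t)) * (-(1 * (t : ℂ)))).continuousOn)
    (by
      filter_upwards [ae_restrict_mem measurableSet_Ioi] with t ht
      intro z hz
      have ht0 : 0 < t := ht
      have hz0 : a0.re / 2 < z.re := hz
      rw [norm_mul, norm_mul, hnorm t ht, hexp, norm_neg, one_mul, Complex.norm_real, Real.norm_of_nonneg ht0.le,
        Real.rpow_one]
      have e1 : t ^ (4 / 3 : ℝ) = t ^ (1 / 3 : ℝ) * t := by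
        rw [← Real.rpow_add_one ht0.ne']; norm_num
      have e2 : Real.exp (-z.re * t) ≤ Real.exp (-(a0.re / 2) * t) := by
        rw [Real.exp_le_exp]
        nlinarith
      rw [e1]
      calc t ^ (1 / 3 : ℝ) * (Real.exp (-z.re * t) * t) ≤ t ^ (1 / 3 : ℝ) * (Real.exp (-(a0.re / 2) * t) * t) := by
            refine mul_le_mul_of_nonneg_left ?_ (by positivity)
            exact mul_le_mul_of_nonneg_right e2 ht0.le
        _ = _ := by ring)
    (integrableOn_rpow_mul_exp_neg_mul_rpow (s := 4 / 3) (p := 1) (b := a0.re / 2) (by norm_num) (by norm_num) hb)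
    (by
      refine Filter.Eventually.of_forall fun t => ?_
      intro z _
      have h1 : HasDerivAt (fun a : ℂ => -(a * (t : ℂ))) (-(1 * (t : ℂ))) z :=
        ((hasDerivAt_id z).mul_const (t : ℂ)).neg
      exact (h1.cexp).const_mul _)
  exact h.2.differentiableAt

theorem h170_gam2 (a : ℂ) (ha : 0 < a.re) :
    ∫ t in Set.Ioi (0:ℝ), (t : ℂ) ^ ((4 / 3 : ℂ) - 1) * Complex.exp (-(a * t)) =
      (1 / a) ^ (4 / 3 : ℂ) * Complex.Gamma (4 / 3) := by
  have hU : IsOpen {z : ℂ | 0 < z.re} := isOpen_lt continuous_const Complex.continuous_re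
  have hF : AnalyticOnNhd ℂ (fun a : ℂ => ∫ t in Set.Ioi (0:ℝ), (t : ℂ) ^ ((4 / 3 : ℂ) - 1) * Complex.exp (-(a * t)))
      {z : ℂ | 0 < z.re} :=
    DifferentiableOn.analyticOnNhd (fun z hz => (h170_Fdiff z hz).differentiableWithinAt) hU
  have hG : AnalyticOnNhd ℂ (fun a : ℂ => (1 / a) ^ (4 / 3 : ℂ) * Complex.Gamma (4 / 3)) {z : ℂ | 0 < z.re} := by
    refine DifferentiableOn.analyticOnNhd (fun z hz => ?_) hU
    have hz0 : 0 < z.re := hz
    have hz1 : z ≠ 0 := by
      intro h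
      rw [h] at hz0
      simp at hz0
    refine DifferentiableAt.differentiableWithinAt ?_
    have h1 : DifferentiableAt ℂ (fun a : ℂ => 1 / a) z := by
      have h0 : HasDerivAt (fun a : ℂ => a⁻¹) (-(z ^ 2)⁻¹) z := hasDerivAt_inv hz1
      have h00 : (fun a : ℂ => 1 / a) = fun a : ℂ => a⁻¹ := by
        funext a
        rw [one_div]
      rw [h00]
      exact h0.differentiableAt
    have h2 : 1 / z ∈ Complex.slitPlane := by
      left
      rw [one_div, Complex.inv_re]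
      exact div_pos hz0 (Complex.normSq_pos.2 hz1)
    exact (h1.cpow_const h2).mul_const _
  have hpre : IsPreconnected {z : ℂ | 0 < z.re} := (convex_halfSpace_re_gt 0).isPreconnected
  have h1U : (1 : ℂ) ∈ {z : ℂ | 0 < z.re} := by simp
  have hfreq : ∃ᶠ z in nhdsWithin (1:ℂ) {1}ᶜ,
      (fun a : ℂ => ∫ t in Set.Ioi (0:ℝ), (t : ℂ) ^ ((4 / 3 : ℂ) - 1) * Complex.exp (-(a * t))) z =
      (fun a : ℂ => (1 / a) ^ (4 / 3 : ℂ) * Complex.Gamma (4 / 3)) z := by
    have hseq : Filter.Tendsto (fun n : ℕ => ((1 + 1 / ((n : ℝ) + 1) : ℝ) : ℂ)) Filter.atTop (nhdsWithin (1:ℂ) {1}ᶜ) := by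
      rw [tendsto_nhdsWithin_iff]
      constructor
      · have h2 : Filter.Tendsto (fun n : ℕ => (1 + 1 / ((n : ℝ) + 1) : ℝ)) Filter.atTop (nhds (1 + 0)) :=
          tendsto_const_nhds.add tendsto_one_div_add_atTop_nhds_zero_nat
        rw [add_zero] at h2
        have h3 := (Complex.continuous_ofReal.tendsto 1).comp h2
        rw [Complex.ofReal_one] at h3
        exact h3
      · refine Filter.Eventually.of_forall fun n => ?_
        intro h
        have h4 : (1 + 1 / ((n : ℝ) + 1) : ℝ) = 1 := by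
          rw [Set.mem_singleton_iff] at h
          exact Complex.ofReal_injective (by rw [Complex.ofReal_one]; exact h)
        have h5 : 0 < 1 / ((n : ℝ) + 1) := by positivity
        linarith
    refine hseq.frequently (Filter.Frequently.of_forall fun n => ?_)
    have hn : 0 < (1 + 1 / ((n : ℝ) + 1) : ℝ) := by positivity
    exact Complex.integral_cpow_mul_exp_neg_mul_Ioi (a := 4 / 3) (by norm_num) hn
  exact hF.eqOn_of_preconnected_of_frequently_eq hG hpre h1U hfreq ha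

/-- Gamma integral after the substitution `u = y^(3/2)` -/
theorem h170_gamma (a : ℂ) (ha : 0 < a.re) :
    ∫ y in Set.Ioi (0:ℝ), (y : ℂ) * Complex.exp (-(a * ((y ^ (3 / 2 : ℝ) : ℝ) : ℂ))) =
      (2 / 3 : ℂ) * ((1 / a) ^ (4 / 3 : ℂ) * Complex.Gamma (4 / 3)) := by
  have h := integral_comp_rpow_Ioi (fun u : ℝ => (2 / 3 : ℂ) * ((u : ℂ) ^ ((4 / 3 : ℂ) - 1) * Complex.exp (-(a * u))))
    (p := 3 / 2) (by norm_num)
  have hg := h170_gam2 a ha
  rw [MeasureTheory.integral_const_mul, hg] at h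
  rw [← h]
  refine setIntegral_congr_fun measurableSet_Ioi ?_
  intro x hx
  have hx0 : 0 < x := hx
  have e0 : (4 / 3 : ℂ) - 1 = ((1 / 3 : ℝ) : ℂ) := by push_cast; norm_num
  have e1 : ((x ^ (3 / 2 : ℝ) : ℝ) : ℂ) ^ ((4 / 3 : ℂ) - 1) = ((x ^ (1 / 2 : ℝ) : ℝ) : ℂ) := by
    rw [e0, ← Complex.ofReal_cpow (by positivity), ← Real.rpow_mul hx0.le]
    norm_num
  have e2 : (3 / 2 * x ^ ((3 / 2 : ℝ) - 1)) * (2 / 3 * x ^ (1 / 2 : ℝ)) = x := by
    have e3 : x ^ ((3 / 2 : ℝ) - 1) * x ^ (1 / 2 : ℝ) = x := by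
      rw [← Real.rpow_add hx0]
      norm_num
    linear_combination e3
  simp only [e1]
  rw [abs_of_pos (by norm_num : (0:ℝ) < 3 / 2), Complex.real_smul]
  have e4 : ((3 / 2 * x ^ ((3 / 2 : ℝ) - 1) : ℝ) : ℂ) * ((2 / 3 : ℂ) * ((x ^ (1 / 2 : ℝ) : ℝ) : ℂ)) = (x : ℂ) := by
    rw [← congrArg (fun r : ℝ => (r : ℂ)) e2]
    push_cast
    ring
  calc (x : ℂ) * Complex.exp (-(a * ((x ^ (3 / 2 : ℝ) : ℝ) : ℂ))) =
        (((3 / 2 * x ^ ((3 / 2 : ℝ) - 1) : ℝ) : ℂ) * ((2 / 3 : ℂ) * ((x ^ (1 / 2 : ℝ) : ℝ) : ℂ))) *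
          Complex.exp (-(a * ((x ^ (3 / 2 : ℝ) : ℝ) : ℂ))) := by rw [e4]
    _ = _ := by ring

theorem h170_pos (κ : ℝ) (hκ : 0 < κ) :
    0 < ((2 / 3 : ℂ) * ((1 / ((κ : ℂ) * Complex.exp (-(Complex.I * (π / 4))))) ^ (4 / 3 : ℂ) * Complex.Gamma (4 / 3))).im := by
  have hp := Real.pi_pos
  have hG : 0 < Real.Gamma (4 / 3) := Real.Gamma_pos_of_pos (by norm_num)
  have e1 : (1 / ((κ : ℂ) * Complex.exp (-(Complex.I * (π / 4))))) =
      Complex.exp (((Real.log κ⁻¹ : ℝ) : ℂ) + (π / 4) * Complex.I) := by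
    rw [Complex.exp_add, ← Complex.ofReal_exp, Real.exp_log (inv_pos.2 hκ), Complex.exp_neg]
    push_cast
    rw [one_div, mul_inv, inv_inv, mul_comm Complex.I]
  have e2 : Complex.log (Complex.exp (((Real.log κ⁻¹ : ℝ) : ℂ) + (π / 4) * Complex.I)) =
      ((Real.log κ⁻¹ : ℝ) : ℂ) + (π / 4) * Complex.I := by
    have him : (((Real.log κ⁻¹ : ℝ) : ℂ) + (π / 4) * Complex.I).im = π / 4 := by
      have : ((π : ℂ) / 4) = ((π / 4 : ℝ) : ℂ) := by push_cast; rfl
      rw [this, Complex.add_im, Complex.ofReal_im, Complex.im_ofReal_mul, Complex.I_im]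
      ring
    refine Complex.log_exp ?_ ?_
    · rw [him]; linarith
    · rw [him]; linarith
  have e3 : (1 / ((κ : ℂ) * Complex.exp (-(Complex.I * (π / 4))))) ^ (4 / 3 : ℂ) =
      Complex.exp (((4 / 3 * Real.log κ⁻¹ : ℝ) : ℂ) + ((π / 3 : ℝ) : ℂ) * Complex.I) := by
    rw [e1, Complex.cpow_def_of_ne_zero (Complex.exp_ne_zero _), e2]
    congr 1
    push_cast
    ring
  have e4 : Complex.Gamma (4 / 3) = ((Real.Gamma (4 / 3) : ℝ) : ℂ) := by
    rw [← Complex.Gamma_ofReal]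
    push_cast
    rfl
  have e5 : (2 / 3 : ℂ) * ((1 / ((κ : ℂ) * Complex.exp (-(Complex.I * (π / 4))))) ^ (4 / 3 : ℂ) * Complex.Gamma (4 / 3)) =
      ((2 / 3 * Real.Gamma (4 / 3) : ℝ) : ℂ) *
        Complex.exp (((4 / 3 * Real.log κ⁻¹ : ℝ) : ℂ) + ((π / 3 : ℝ) : ℂ) * Complex.I) := by
    rw [e3, e4]
    push_cast
    ring
  rw [e5, Complex.im_ofReal_mul, Complex.exp_im]
  have e6 : ((((4 / 3 * Real.log κ⁻¹ : ℝ) : ℂ) + ((π / 3 : ℝ) : ℂ) * Complex.I)).im = π / 3 := by
    simp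
  rw [e6, Real.sin_pi_div_three]
  positivity

theorem h170_Icalc : Complex.I * Complex.exp (Complex.I * (π / 4)) = -Complex.exp (-(Complex.I * (π / 4))) := by
  have h1 : Complex.exp (Complex.I * (π / 4)) = Complex.exp (-(Complex.I * (π / 4))) * Complex.exp (Complex.I * (π / 2)) := by
    rw [← Complex.exp_add]
    congr 1
    ring
  have h2 : Complex.exp (Complex.I * (π / 2)) = Complex.I := by
    rw [mul_comm, Complex.exp_pi_div_two_mul_I]
  rw [h1, h2]
  have := Complex.I_mul_I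
  linear_combination (Complex.exp (-(Complex.I * (π / 4)))) * this

theorem h170_cont (c x0 : ℝ) (hc : 0 < c) (hx : 0 < x0) : Continuous (fun x : ℝ => PhiG c x0 x0 x) := by
  have h := (PhiG_basic c x0 hc hx).2.1 x0 ⟨hx.le, le_rfl⟩
  exact continuous_iff_continuousAt.2 fun x => (h x).continuousAt

/-- the rescaled integrand -/
def h170F (c x0 s : ℝ) (y : ℝ) : ℝ :=
  Set.indicator (Set.Ioc 0 ((π / 2) / s ^ (-(2 / 3) : ℝ)))
    (fun y => y * (Complex.exp (Complex.I * s * (PhiG c x0 x0 (s ^ (-(2 / 3) : ℝ) * y) - Complex.I * S1 c x0))).im) y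

theorem h170_scale (c x0 s : ℝ) (hs : 0 < s) :
    mu c x0 s = (4 / π) * s ^ (-(4 / 3) : ℝ) * Real.exp (-(s * S1 c x0)) *
      ∫ y in Set.Ioi (0:ℝ), h170F c x0 s y := by
  set k : ℝ := s ^ (-(2 / 3) : ℝ) with hk
  have hk0 : 0 < k := Real.rpow_pos_of_pos hs _
  have hp := Real.pi_pos
  have hb : 0 ≤ (π / 2) / k := by positivity
  have h1 : ∫ y in Set.Ioi (0:ℝ), h170F c x0 s y = ∫ y in (0:ℝ)..((π / 2) / k),
      y * (Complex.exp (Complex.I * s * (PhiG c x0 x0 (k * y) - Complex.I * S1 c x0))).im := by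
    unfold h170F
    rw [setIntegral_indicator measurableSet_Ioc, Set.inter_eq_self_of_subset_right (fun x hx => hx.1),
      intervalIntegral.integral_of_le hb]
  have h2 : ∀ x : ℝ, x * (Th c x0 s x).im = x * (Real.exp (-(s * S1 c x0)) *
      (Complex.exp (Complex.I * s * (PhiG c x0 x0 x - Complex.I * S1 c x0))).im) := by
    intro x
    congr 1
    rw [← Complex.im_ofReal_mul, Complex.ofReal_exp, ← Complex.exp_add]
    unfold Th FF
    congr 2
    push_cast
    have := Complex.I_mul_I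
    linear_combination (s : ℂ) * (S1 c x0 : ℂ) * this
  have h3 := intervalIntegral.integral_comp_mul_left (a := 0) (b := (π / 2) / k)
    (fun x : ℝ => x * (Real.exp (-(s * S1 c x0)) *
      (Complex.exp (Complex.I * s * (PhiG c x0 x0 x - Complex.I * S1 c x0))).im)) hk0.ne'
  rw [mul_zero, mul_div_cancel₀ _ hk0.ne', smul_eq_mul] at h3
  have h4 : ∀ x : ℝ, k * x * (Real.exp (-(s * S1 c x0)) *
      (Complex.exp (Complex.I * s * (PhiG c x0 x0 (k * x) - Complex.I * S1 c x0))).im) =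
      (k * Real.exp (-(s * S1 c x0))) * (x *
      (Complex.exp (Complex.I * s * (PhiG c x0 x0 (k * x) - Complex.I * S1 c x0))).im) := by
    intro x; ring
  simp only [h4] at h3
  rw [intervalIntegral.integral_const_mul, ← h1] at h3
  unfold mu
  simp only [h2]
  have h5 : ∫ x in (0:ℝ)..(π / 2), x * (Real.exp (-(s * S1 c x0)) *
      (Complex.exp (Complex.I * s * (PhiG c x0 x0 x - Complex.I * S1 c x0))).im) =
      k * k * Real.exp (-(s * S1 c x0)) * ∫ y in Set.Ioi (0:ℝ), h170F c x0 s y := by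
    have h6 := congrArg (fun z => k * z) h3
    rw [← mul_assoc k k⁻¹, mul_inv_cancel₀ hk0.ne', one_mul] at h6
    rw [← h6]
    ring
  have h6 : k * k = s ^ (-(4 / 3) : ℝ) := by
    rw [hk, ← Real.rpow_add hs]
    norm_num
  rw [h5, h6]
  ring

theorem mu_bd (c x0 : ℝ) (hc : 0 < c) (hx : 0 < x0) :
    ∃ c2 > 0, ∃ s0 ≥ 1, ∀ s : ℝ, s0 ≤ s →
      c2 * s ^ (-(4 / 3) : ℝ) * Real.exp (-(s * S1 c x0)) ≤ mu c x0 s := by
  have hp := Real.pi_pos
  obtain ⟨-, ⟨m, hm, M, hM, hmM⟩, hlim⟩ := Phi_top c x0 hc hx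
  set κ : ℝ := 2 / 3 * c * Real.sqrt (Real.sinh (2 * x0)) with hκ
  have hκ0 : 0 < κ := by
    have : 0 < Real.sinh (2 * x0) := Real.sinh_pos_iff.2 (by linarith)
    positivity
  set a : ℂ := (κ : ℂ) * Complex.exp (-(Complex.I * (π / 4))) with ha
  have hare : 0 < a.re := by
    rw [ha, Complex.re_ofReal_mul, Complex.exp_re]
    have e1 : (-(Complex.I * ((π : ℂ) / 4))).im = -(π / 4) := by
      have : ((π : ℂ) / 4) = ((π / 4 : ℝ) : ℂ) := by push_cast; rfl
      rw [this]; simp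
    rw [e1, Real.cos_neg, Real.cos_pi_div_four]
    positivity
  have hcont := h170_cont c x0 hc hx
  set Jc : ℂ := (2 / 3 : ℂ) * ((1 / a) ^ (4 / 3 : ℂ) * Complex.Gamma (4 / 3)) with hJc
  have hJpos : 0 < Jc.im := h170_pos κ hκ0
  have hgam := h170_gamma a hare
  -- integrability of the limit and of the bound
  have hbint : IntegrableOn (fun y : ℝ => y * Real.exp (-m * y ^ (3 / 2 : ℝ))) (Set.Ioi 0) := by
    have h1 := integrableOn_rpow_mul_exp_neg_mul_rpow (s := 1) (p := 3 / 2) (b := m) (by norm_num) (by norm_num) hm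
    refine h1.congr_fun ?_ measurableSet_Ioi
    intro y hy
    simp only [Real.rpow_one]
  have hfint : IntegrableOn (fun y : ℝ => (y : ℂ) * Complex.exp (-(a * ((y ^ (3 / 2 : ℝ) : ℝ) : ℂ)))) (Set.Ioi 0) := by
    have h1 := integrableOn_rpow_mul_exp_neg_mul_rpow (s := 1) (p := 3 / 2) (b := a.re) (by norm_num) (by norm_num) hare
    refine Integrable.mono' h1 ?_ ?_
    · refine ContinuousOn.aestronglyMeasurable ?_ measurableSet_Ioi
      have hc1 : Continuous (fun y : ℝ => y ^ (3 / 2 : ℝ)) := Real.continuous_rpow_const (by norm_num)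
      exact (by fun_prop : Continuous fun y : ℝ => (y : ℂ) * Complex.exp (-(a * ((y ^ (3 / 2 : ℝ) : ℝ) : ℂ)))).continuousOn
    · filter_upwards [ae_restrict_mem measurableSet_Ioi] with y hy
      have hy0 : 0 < y := hy
      rw [norm_mul, Complex.norm_real, Real.norm_of_nonneg hy0.le, Complex.norm_exp, Real.rpow_one]
      have : (-(a * ((y ^ (3 / 2 : ℝ) : ℝ) : ℂ))).re = -a.re * y ^ (3 / 2 : ℝ) := by
        rw [Complex.neg_re, Complex.re_mul_ofReal]
        ring
      rw [this]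
  -- the limit
  have hT : Filter.Tendsto (fun s : ℝ => ∫ y in Set.Ioi (0:ℝ), h170F c x0 s y) Filter.atTop
      (nhds (∫ y in Set.Ioi (0:ℝ), ((y : ℂ) * Complex.exp (-(a * ((y ^ (3 / 2 : ℝ) : ℝ) : ℂ)))).im)) := by
    refine tendsto_integral_filter_of_dominated_convergence (fun y : ℝ => y * Real.exp (-m * y ^ (3 / 2 : ℝ)))
      ?_ ?_ hbint ?_
    · refine Filter.Eventually.of_forall fun s => ?_
      unfold h170F
      refine (Measurable.indicator ?_ measurableSet_Ioc).aestronglyMeasurable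
      have hc2 : Continuous (fun y : ℝ => PhiG c x0 x0 (s ^ (-(2 / 3) : ℝ) * y)) :=
        hcont.comp (continuous_const.mul continuous_id)
      have hc3 : Continuous (fun y : ℝ => y * (Complex.exp (Complex.I * s *
          (PhiG c x0 x0 (s ^ (-(2 / 3) : ℝ) * y) - Complex.I * S1 c x0))).im) := by fun_prop
      exact hc3.measurable
    · filter_upwards [Filter.eventually_gt_atTop (0:ℝ)] with s hs
      filter_upwards [ae_restrict_mem measurableSet_Ioi] with y hy
      have hy0 : 0 < y := hy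
      unfold h170F
      set k : ℝ := s ^ (-(2 / 3) : ℝ) with hk
      have hk0 : 0 < k := Real.rpow_pos_of_pos hs _
      by_cases hmem : y ∈ Set.Ioc 0 ((π / 2) / k)
      · rw [Set.indicator_of_mem hmem, norm_mul, Real.norm_of_nonneg hy0.le]
        refine mul_le_mul_of_nonneg_left ?_ hy0.le
        rw [Real.norm_eq_abs]
        refine (Complex.abs_im_le_norm _).trans ?_
        rw [Complex.norm_exp, Real.exp_le_exp]
        have hky : k * y ∈ Set.Icc (0:ℝ) (π / 2) := by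
          refine ⟨by positivity, ?_⟩
          have h1 := hmem.2
          rw [le_div_iff₀ hk0] at h1
          linarith
        have h1 := (hmM (k * y) hky).1
        have h2 : (k * y) ^ (3 / 2 : ℝ) = s⁻¹ * y ^ (3 / 2 : ℝ) := by
          rw [Real.mul_rpow hk0.le hy0.le, hk, ← Real.rpow_mul hs.le,
            show (-(2 / 3) : ℝ) * (3 / 2) = -1 by norm_num, Real.rpow_neg_one]
        rw [h2] at h1
        have h3 : (Complex.I * s * (PhiG c x0 x0 (k * y) - Complex.I * S1 c x0)).re =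
            -(s * ((PhiG c x0 x0 (k * y)).im - S1 c x0)) := by
          simp [Complex.mul_re, Complex.mul_im]
        rw [h3]
        have h4 : m * (s⁻¹ * y ^ (3 / 2 : ℝ)) ≤ (PhiG c x0 x0 (k * y)).im - S1 c x0 := by linarith
        have h5 : s * (m * (s⁻¹ * y ^ (3 / 2 : ℝ))) ≤ s * ((PhiG c x0 x0 (k * y)).im - S1 c x0) :=
          mul_le_mul_of_nonneg_left h4 hs.le
        have h6 : s * (m * (s⁻¹ * y ^ (3 / 2 : ℝ))) = m * y ^ (3 / 2 : ℝ) := by
          field_simp
        rw [h6] at h5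
        linarith
      · rw [Set.indicator_of_notMem hmem, norm_zero]
        positivity
    · filter_upwards [ae_restrict_mem measurableSet_Ioi] with y hy
      have hy0 : 0 < y := hy
      have hy3 : (y ^ (3 / 2 : ℝ)) ≠ 0 := (Real.rpow_pos_of_pos hy0 _).ne'
      -- the argument tends to 0 from the right
      have hk : Filter.Tendsto (fun s : ℝ => s ^ (-(2 / 3) : ℝ)) Filter.atTop (nhds 0) :=
        tendsto_rpow_neg_atTop (by norm_num)
      have hky : Filter.Tendsto (fun s : ℝ => s ^ (-(2 / 3) : ℝ) * y) Filter.atTop (nhdsWithin 0 (Set.Ioi 0)) := by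
        rw [tendsto_nhdsWithin_iff]
        refine ⟨by simpa using hk.mul_const y, ?_⟩
        filter_upwards [Filter.eventually_gt_atTop (0:ℝ)] with s hs
        exact mul_pos (Real.rpow_pos_of_pos hs _) hy0
      have h1 := hlim.comp hky
      have h2 : Filter.Tendsto (fun s : ℝ => (y : ℝ) * (Complex.exp (Complex.I *
          (((PhiG c x0 x0 (s ^ (-(2 / 3) : ℝ) * y) - Complex.I * S1 c x0) /
            (((s ^ (-(2 / 3) : ℝ) * y) ^ (3 / 2 : ℝ) : ℝ) : ℂ)) * ((y ^ (3 / 2 : ℝ) : ℝ) : ℂ)))).im) Filter.atTop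
          (nhds (y * (Complex.exp (Complex.I * (((κ : ℝ) * Complex.exp (Complex.I * (π / 4))) *
            ((y ^ (3 / 2 : ℝ) : ℝ) : ℂ)))).im)) := by
        have h3 := ((h1.mul_const ((y ^ (3 / 2 : ℝ) : ℝ) : ℂ)).const_mul Complex.I).cexp
        exact ((Complex.continuous_im.tendsto _).comp h3).const_mul y
      have e1 : ((y : ℂ) * Complex.exp (-(a * ((y ^ (3 / 2 : ℝ) : ℝ) : ℂ)))).im =
          y * (Complex.exp (Complex.I * (((κ : ℝ) * Complex.exp (Complex.I * (π / 4))) *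
            ((y ^ (3 / 2 : ℝ) : ℝ) : ℂ)))).im := by
        rw [Complex.im_ofReal_mul]
        congr 3
        rw [ha]
        have := h170_Icalc
        linear_combination -((κ : ℂ) * ((y ^ (3 / 2 : ℝ) : ℝ) : ℂ)) * this
      rw [e1]
      refine h2.congr' ?_
      have hb : ∀ᶠ s : ℝ in Filter.atTop, s ^ (-(2 / 3) : ℝ) * y < π / 2 :=
        (by simpa using hk.mul_const y : Filter.Tendsto (fun s : ℝ => s ^ (-(2 / 3) : ℝ) * y) Filter.atTop (nhds 0)).eventually
          (gt_mem_nhds (by positivity))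
      filter_upwards [Filter.eventually_gt_atTop (0:ℝ), hb] with s hs hsb
      unfold h170F
      set k : ℝ := s ^ (-(2 / 3) : ℝ) with hkd
      have hk0 : 0 < k := Real.rpow_pos_of_pos hs _
      have hmem : y ∈ Set.Ioc 0 ((π / 2) / k) := by
        refine ⟨hy0, ?_⟩
        rw [le_div_iff₀ hk0]
        linarith
      rw [Set.indicator_of_mem hmem]
      congr 3
      have h2 : (k * y) ^ (3 / 2 : ℝ) = s⁻¹ * y ^ (3 / 2 : ℝ) := by
        rw [Real.mul_rpow hk0.le hy0.le, hkd, ← Real.rpow_mul hs.le,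
          show (-(2 / 3) : ℝ) * (3 / 2) = -1 by norm_num, Real.rpow_neg_one]
      rw [h2]
      push_cast
      have hyc : ((y ^ (3 / 2 : ℝ) : ℝ) : ℂ) ≠ 0 := by exact_mod_cast hy3
      have hsc : (s : ℂ) ≠ 0 := by exact_mod_cast hs.ne'
      field_simp
  have hlimval : (∫ y in Set.Ioi (0:ℝ), ((y : ℂ) * Complex.exp (-(a * ((y ^ (3 / 2 : ℝ) : ℝ) : ℂ)))).im) = Jc.im := by
    rw [hJc, ← hgam]
    exact integral_im hfint
  rw [hlimval] at hT
  have hev : ∀ᶠ s : ℝ in Filter.atTop, Jc.im / 2 < ∫ y in Set.Ioi (0:ℝ), h170F c x0 s y :=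
    hT.eventually (lt_mem_nhds (by linarith))
  obtain ⟨s1, hs1⟩ := Filter.eventually_atTop.1 hev
  refine ⟨(4 / π) * (Jc.im / 2), by positivity, max s1 1, le_max_right _ _, ?_⟩
  intro s hs
  have hs0 : 0 < s := lt_of_lt_of_le (by norm_num) ((le_max_right s1 1).trans hs)
  rw [h170_scale c x0 s hs0]
  have h1 := (hs1 s ((le_max_left _ _).trans hs)).le
  have h2 : 0 ≤ (4 / π) * s ^ (-(4 / 3) : ℝ) * Real.exp (-(s * S1 c x0)) := by positivity
  calc (4 / π) * (Jc.im / 2) * s ^ (-(4 / 3) : ℝ) * Real.exp (-(s * S1 c x0)) =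
      (4 / π) * s ^ (-(4 / 3) : ℝ) * Real.exp (-(s * S1 c x0)) * (Jc.im / 2) := by ring
    _ ≤ _ := mul_le_mul_of_nonneg_left h1 h2

end

end Pool.Agent.Helper482.Stk.M_r3
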