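import Pool.Agent.Helper482.Stk.Defs
import Pool.Agent.Helper482.Stk.M_h3
import Pool.Agent.Helper482.Stk.M_p4
import Pool.Agent.Helper482.Stk.M_p5
import Pool.Agent.Helper482.Stk.M_r2

set_option autoImplicit false

namespace Pool.Agent.Helper482.Stk.M_u4

open Pool.Agent.Helper482.Stk
open Pool.Agent.Helper482.Stk.M_h3
open Pool.Agent.Helper482.Stk.M_p4
open Pool.Agent.Helper482.Stk.M_p5
open Pool.Agent.Helper482.Stk.M_r2
open Real MeasureTheory intervalIntegral

noncomputable section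

theorem int_even_sum1 {y : ℝ} (hy : 0 < y) (m : ℕ) :
    Summable (fun n : ℤ => |(n : ℝ)| ^ m * Real.exp (-(|(n : ℝ)| * y))) := by
  have h := Real.summable_pow_mul_exp_neg_nat_mul m hy
  apply Summable.of_nat_of_neg
  · refine h.congr fun n => ?_
    rw [Int.cast_natCast, Nat.abs_cast]
    congr 2
    ring
  · refine h.congr fun n => ?_
    rw [Int.cast_neg, abs_neg, Int.cast_natCast, Nat.abs_cast]
    congr 2
    ring

theorem int_even_cosh (x : ℝ) : Real.exp |x| / 2 ≤ Real.cosh x ∧ Real.cosh x ≤ Real.exp |x| ∧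
    |Real.sinh x| ≤ Real.cosh x := by
  have h0 : Real.cosh x = Real.cosh |x| := (Real.cosh_abs x).symm
  refine ⟨?_, ?_, ?_⟩
  · rw [h0, Real.cosh_eq]
    have := Real.exp_pos (-|x|)
    linarith
  · rw [h0, Real.cosh_eq]
    have h1 : Real.exp (-|x|) ≤ Real.exp |x| := Real.exp_le_exp.2 (by linarith [abs_nonneg x])
    linarith
  · rw [h0, Real.abs_sinh]
    exact (Real.sinh_lt_cosh _).le

theorem int_even_ratio (n p p' : ℝ) (hp : 0 ≤ p) (hp' : 0 ≤ p') :
    Real.cosh (n * p) / Real.cosh (n * p') ≤ 2 * Real.exp (-(|n| * (p' - p))) := by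
  have h1 := (int_even_cosh (n * p)).2.1
  have h2 := (int_even_cosh (n * p')).1
  rw [abs_mul, abs_of_nonneg hp] at h1
  rw [abs_mul, abs_of_nonneg hp'] at h2
  rw [div_le_iff₀ (Real.cosh_pos _)]
  have h3 : 2 * Real.exp (-(|n| * (p' - p))) * (Real.exp (|n| * p') / 2) = Real.exp (|n| * p) := by
    have : 2 * Real.exp (-(|n| * (p' - p))) * (Real.exp (|n| * p') / 2) =
        Real.exp (-(|n| * (p' - p))) * Real.exp (|n| * p') := by ring
    rw [this, ← Real.exp_add]
    congr 1
    ring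
  calc Real.cosh (n * p) ≤ Real.exp (|n| * p) := h1
    _ = 2 * Real.exp (-(|n| * (p' - p))) * (Real.exp (|n| * p') / 2) := h3.symm
    _ ≤ _ := by gcongr

theorem int_even_congr {f g : ℤ → ℝ} {u v : ℝ} (h : HasSum f u) (h1 : ∀ n, g n = f n)
    (h2 : v = u) : HasSum g v := by
  have h3 : g = f := funext h1
  rw [h3, h2]
  exact h

theorem int_even_neg {f : ℤ → ℝ} {v : ℝ} (h : HasSum f v) : HasSum (fun n => f (-n)) v := by
  have := (Equiv.neg ℤ).hasSum_iff.2 h
  exact this

theorem int_even (c x0 ξa : ℝ) (hc : 0 < c) (hx : 0 < x0) (hξa : 0 < ξa) :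
    ∃ K > 0, ∀ s : ℝ, 1 ≤ s → ∀ k : ℤ, s * ph c x0 π = π * k → ∀ ξ t : ℝ, ξa ≤ ξ → ξ < x0 →
      ∃ v : ℝ, HasSum (fun n : ℤ => rc (fun t => Real.cos (s * ph c x0 t)) n *
          ((Real.cosh (n * ξ) / Real.cosh (n * x0) : ℝ) : ℂ) * Complex.exp (Complex.I * n * t))
          ((v : ℝ) : ℂ) ∧
        |v - (mu c x0 s / 2) * Wc x0 k (x0 - ξ) t| ≤
          Real.exp (-(s * (PhiG c x0 (x0 - ξ) t).im)) +
            K * s ^ (-(8 / 3) : ℝ) * Real.exp (-(s * S1 c x0)) := by
  obtain ⟨K0, hK0, HD⟩ := Dn_bd c x0 hc hx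
  have hS3 := int_even_sum1 hξa 3
  have hS30 : 0 ≤ ∑' n : ℤ, |(n : ℝ)| ^ 3 * Real.exp (-(|(n : ℝ)| * ξa)) :=
    tsum_nonneg fun n => by positivity
  refine ⟨K0 * (∑' n : ℤ, |(n : ℝ)| ^ 3 * Real.exp (-(|(n : ℝ)| * ξa))) + 1, by positivity, ?_⟩
  intro s hs k hk ξ t hξ1 hξ2
  have hs0 : 0 < s := by linarith
  set y : ℝ := x0 - ξ with hy
  have hy0 : 0 < y := by linarith
  have hyx : y ≤ x0 := by linarith
  have hyI : y ∈ Set.Icc 0 x0 := ⟨hy0.le, hyx⟩
  have hξ0 : 0 < ξ := by linarith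
  have hxy : x0 - y = ξ := by rw [hy]; ring
  set a : ℤ → ℝ := fun n => an c x0 s n with ha
  have ha1 : ∀ n, |a n| ≤ 1 := fun n => (an_rel c x0 s hc hx n).2.2.2
  set r : ℤ → ℝ := fun n => Real.cosh (n * ξ) / Real.cosh (n * x0) with hr
  set q : ℤ → ℝ := fun n => Real.sinh (n * y) / Real.cosh (n * x0) with hq
  have hr0 : ∀ n, 0 ≤ r n := fun n => div_nonneg (Real.cosh_pos _).le (Real.cosh_pos _).le
  have hrb : ∀ n : ℤ, r n ≤ 2 * Real.exp (-(|(n : ℝ)| * y)) := fun n =>
    int_even_ratio n ξ x0 hξ0.le hx.le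
  have hrneg : ∀ n : ℤ, r (-n) = r n := by
    intro n
    simp only [hr]
    push_cast
    rw [neg_mul, neg_mul, Real.cosh_neg, Real.cosh_neg]
  have hqneg : ∀ n : ℤ, q (-n) = -q n := by
    intro n
    simp only [hq]
    push_cast
    rw [neg_mul, neg_mul, Real.cosh_neg, Real.sinh_neg, neg_div]
  have hqb : ∀ n : ℤ, |q n| ≤ 2 * Real.exp (-(|(n : ℝ)| * ξa)) := by
    intro n
    simp only [hq]
    rw [abs_div, abs_of_pos (Real.cosh_pos (n * x0))]
    have h1 : |Real.sinh (n * y)| / Real.cosh (n * x0) ≤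
        Real.cosh (n * y) / Real.cosh (n * x0) := by
      have := (int_even_cosh (n * y)).2.2
      have h2 := Real.cosh_pos (n * x0)
      gcongr
    refine h1.trans ((int_even_ratio n y x0 hy0.le hx.le).trans ?_)
    rw [hxy]
    have : |(n : ℝ)| * ξa ≤ |(n : ℝ)| * ξ := mul_le_mul_of_nonneg_left hξ1 (abs_nonneg _)
    gcongr
  have hcos : ∀ n : ℤ, |Real.cos (n * t)| ≤ 1 := fun n => Real.abs_cos_le_one _
  -- the basic sum
  have hexp : Summable (fun n : ℤ => 2 * Real.exp (-(|(n : ℝ)| * y))) := by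
    have := (int_even_sum1 hy0 0).mul_left 2
    simpa using this
  have hAsum : Summable (fun n : ℤ => a n * r n * Real.cos (n * t)) := by
    refine Summable.of_norm_bounded hexp fun n => ?_
    rw [Real.norm_eq_abs, abs_mul, abs_mul, abs_of_nonneg (hr0 n)]
    have h1 := ha1 n
    have h2 := hcos n
    have h3 := hrb n
    have h4 := hr0 n
    calc |a n| * r n * |Real.cos (n * t)| ≤ 1 * r n * 1 := by gcongr
      _ ≤ _ := by linarith
  set v : ℝ := ∑' n : ℤ, a n * r n * Real.cos (n * t) with hv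
  have hA : HasSum (fun n : ℤ => a n * r n * Real.cos (n * t)) v := hAsum.hasSum
  have hE1 : HasSum (fun n : ℤ => Real.exp (-(n * y)) * a n * Real.cos (n * t))
      (FF c x0 s y t).re := by
    have h1 := (FF_fc c x0 s k hc hx hk y hyI).2.2 t
    have h2 := Complex.reCLM.hasSum h1
    refine int_even_congr h2 (fun n => ?_) rfl
    rw [Complex.reCLM_apply, Complex.re_ofReal_mul]
    congr 1
    have : Complex.I * (n : ℂ) * (t : ℂ) = (((n : ℝ) * t : ℝ) : ℂ) * Complex.I := by
      push_cast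
      ring
    rw [this, Complex.exp_ofReal_mul_I_re]
  -- decomposition
  have hdec : ∀ n : ℤ, a n * r n * Real.cos (n * t) =
      Real.exp (-(n * y)) * a n * Real.cos (n * t) + gn c x0 s n * q n * Real.cos (n * t) := by
    intro n
    have hc0 : Real.cosh (n * x0) ≠ 0 := (Real.cosh_pos _).ne'
    have h1 : r n = Real.exp (-(n * y)) + Real.exp (-(n * x0)) * q n := by
      simp only [hr, hq]
      rw [div_eq_iff hc0, add_mul, mul_assoc, div_mul_cancel₀ _ hc0]
      have e1 : (n : ℝ) * ξ = n * x0 - n * y := by rw [hy]; ring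
      rw [e1, Real.cosh_sub, ← Real.cosh_sub_sinh (n * y), ← Real.cosh_sub_sinh (n * x0)]
      ring
    rw [h1]
    simp only [gn]
    ring
  have hE2 : HasSum (fun n : ℤ => gn c x0 s n * q n * Real.cos (n * t))
      (v - (FF c x0 s y t).re) := by
    refine int_even_congr (hA.sub hE1) (fun n => ?_) rfl
    rw [hdec n]
    ring
  have hE2' : HasSum (fun n : ℤ => -(1 / 2) * (Dn c x0 s n * q n * Real.cos (n * t)))
      (v - (FF c x0 s y t).re) := by
    refine int_even_congr ((hE2.add (int_even_neg hE2)).mul_left (1 / 2)) (fun n => ?_) ?_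
    · rw [hqneg]
      push_cast
      rw [neg_mul (n : ℝ) t, Real.cos_neg]
      simp only [Dn]
      ring
    · ring
  -- the profile
  have hw1 := (int_even_sum1 hξa 1).mul_left 2
  have hwsum : Summable (fun n : ℤ => if Even (n + k) then
      n * Real.sinh (n * y) / Real.cosh (n * x0) * Real.cos (n * t) else 0) := by
    refine Summable.of_norm_bounded hw1 fun n => ?_
    split_ifs with he
    · have e1 : (n : ℝ) * Real.sinh (n * y) / Real.cosh (n * x0) * Real.cos (n * t) =
          n * q n * Real.cos (n * t) := by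
        simp only [hq]
        ring
      rw [e1, Real.norm_eq_abs, abs_mul, abs_mul]
      have h2 := hcos n
      have h3 := hqb n
      calc |(n : ℝ)| * |q n| * |Real.cos (n * t)| ≤
          |(n : ℝ)| * (2 * Real.exp (-(|(n : ℝ)| * ξa))) * 1 := by gcongr
        _ = 2 * (|(n : ℝ)| ^ 1 * Real.exp (-(|(n : ℝ)| * ξa))) := by ring
    · rw [norm_zero]
      positivity
  have hW : HasSum (fun n : ℤ => if Even (n + k) then
      n * Real.sinh (n * y) / Real.cosh (n * x0) * Real.cos (n * t) else 0) (Wc x0 k y t) :=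
    hwsum.hasSum
  have hfin := hE2'.sub (hW.mul_left (mu c x0 s / 2))
  set B : ℝ := s ^ (-(8 / 3) : ℝ) * Real.exp (-(s * S1 c x0)) with hB
  have hB0 : 0 < B := by positivity
  have hBsum := (hS3.mul_left (K0 * B)).hasSum
  rw [tsum_mul_left] at hBsum
  have hnorm := hfin.norm_le_of_bounded hBsum (fun n => by
    obtain ⟨-, hD2, hD3⟩ := HD s hs k hk n
    have h2 := hcos n
    have h3 := hqb n
    by_cases he : Even (n + k)
    · have h4 := hD3 he
      rw [if_pos he]
      have e1 : -(1 / 2) * (Dn c x0 s n * q n * Real.cos (n * t)) - mu c x0 s / 2 *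
          (n * Real.sinh (n * y) / Real.cosh (n * x0) * Real.cos (n * t)) =
          -(1 / 2) * ((Dn c x0 s n + mu c x0 s * n) * q n * Real.cos (n * t)) := by
        simp only [hq]
        ring
      rw [e1, Real.norm_eq_abs, abs_mul, abs_mul, abs_mul]
      have h5 : |(-(1 / 2) : ℝ)| = 1 / 2 := by norm_num
      rw [h5]
      calc 1 / 2 * (|Dn c x0 s n + mu c x0 s * n| * |q n| * |Real.cos (n * t)|) ≤
          1 / 2 * ((K0 * |(n : ℝ)| ^ 3 * s ^ (-(8 / 3) : ℝ) * Real.exp (-(s * S1 c x0))) *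
            (2 * Real.exp (-(|(n : ℝ)| * ξa))) * 1) := by gcongr
        _ = K0 * B * (|(n : ℝ)| ^ 3 * Real.exp (-(|(n : ℝ)| * ξa))) := by
          rw [hB]
          ring
    · rw [if_neg he, hD2 he]
      have e1 : -(1 / 2) * (0 * q n * Real.cos (n * t)) - mu c x0 s / 2 * 0 = 0 := by ring
      rw [e1, norm_zero]
      positivity)
  have hFF : |(FF c x0 s y t).re| ≤ Real.exp (-(s * (PhiG c x0 y t).im)) := by
    rw [← (FF_basic c x0 s k hc hx hk y hyI).2.2.2.2.1 t]
    exact Complex.abs_re_le_norm _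
  refine ⟨v, ?_, ?_⟩
  · -- the complex sum
    set cc : ℤ → ℝ := fun n => (a n + a (-n)) / 2 * r n with hcc
    have hccb : ∀ n : ℤ, |cc n| ≤ 2 * Real.exp (-(|(n : ℝ)| * y)) := by
      intro n
      simp only [hcc]
      rw [abs_mul, abs_of_nonneg (hr0 n)]
      have h1 := ha1 n
      have h2 := ha1 (-n)
      have h3 : |(a n + a (-n)) / 2| ≤ 1 := by
        rw [abs_le] at h1 h2 ⊢
        constructor <;> linarith [h1.1, h1.2, h2.1, h2.2]
      calc |(a n + a (-n)) / 2| * r n ≤ 1 * r n := by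
            have := hr0 n
            gcongr
        _ ≤ _ := by linarith [hrb n]
    have hccneg : ∀ n : ℤ, cc (-n) = cc n := by
      intro n
      simp only [hcc]
      rw [hrneg, neg_neg]
      ring
    have hcosum : HasSum (fun n : ℤ => cc n * Real.cos (n * t)) v := by
      refine int_even_congr ((hA.add (int_even_neg hA)).mul_left (1 / 2)) (fun n => ?_) ?_
      · rw [hrneg]
        push_cast
        rw [neg_mul (n : ℝ) t, Real.cos_neg]
        simp only [hcc]
        ring
      · ring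
    have hsinsum : HasSum (fun n : ℤ => cc n * Real.sin (n * t)) 0 := by
      have h1 : Summable (fun n : ℤ => cc n * Real.sin (n * t)) := by
        refine Summable.of_norm_bounded hexp fun n => ?_
        rw [Real.norm_eq_abs, abs_mul]
        have h2 := Real.abs_sin_le_one (n * t)
        have h3 := hccb n
        calc |cc n| * |Real.sin (n * t)| ≤ (2 * Real.exp (-(|(n : ℝ)| * y))) * 1 := by gcongr
          _ = _ := mul_one _
      have h2 := h1.hasSum
      have h3 := (h2.add (int_even_neg h2))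
      have h4 : (fun n : ℤ => cc n * Real.sin (n * t) +
          cc (-n) * Real.sin (((-n : ℤ) : ℝ) * t)) = fun _ => 0 := by
        funext n
        rw [hccneg]
        push_cast
        rw [neg_mul (n : ℝ) t, Real.sin_neg]
        ring
      rw [h4] at h3
      have h5 := h3.unique hasSum_zero
      have h6 : ∑' n : ℤ, cc n * Real.sin (n * t) = 0 := by linarith
      rw [h6] at h2
      exact h2
    have h1 := (Complex.hasSum_ofReal.2 hcosum)
    have h2 := (Complex.hasSum_ofReal.2 hsinsum).mul_right Complex.I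
    have h3 := h1.add h2
    rw [Complex.ofReal_zero, zero_mul, add_zero] at h3
    convert h3 using 1
    funext n
    rw [(an_rel c x0 s hc hx n).1]
    have e2 : Complex.I * (n : ℂ) * (t : ℂ) = (((n : ℝ) * t : ℝ) : ℂ) * Complex.I := by
      push_cast
      ring
    rw [e2, Complex.exp_mul_I, ← Complex.ofReal_cos, ← Complex.ofReal_sin]
    simp only [hcc, ha, hr]
    push_cast
    ring
  · have h1 : v - mu c x0 s / 2 * Wc x0 k y t =
        (v - (FF c x0 s y t).re - mu c x0 s / 2 * Wc x0 k y t) + (FF c x0 s y t).re := by ring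
    rw [h1]
    refine (abs_add_le _ _).trans ?_
    rw [Real.norm_eq_abs] at hnorm
    have h2 : (K0 * (∑' n : ℤ, |(n : ℝ)| ^ 3 * Real.exp (-(|(n : ℝ)| * ξa))) + 1) *
        s ^ (-(8 / 3) : ℝ) * Real.exp (-(s * S1 c x0)) =
        K0 * B * (∑' n : ℤ, |(n : ℝ)| ^ 3 * Real.exp (-(|(n : ℝ)| * ξa))) + B := by
      rw [hB]
      ring
    rw [h2]
    linarith

end

end Pool.Agent.Helper482.Stk.M_u4
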