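import Pool.Agent.Helper482.Stk.Defs
import Pool.Agent.Helper482.Stk.M_e1
import Pool.Agent.Helper482.Stk.M_p3
import Pool.Agent.Helper482.Stk.M_r3
import Pool.Agent.Helper482.Stk.M_u4

set_option autoImplicit false

namespace Pool.Agent.Helper482.Stk.M_e4

open Pool.Agent.Helper482.Stk
open Pool.Agent.Helper482.Stk.M_e1
open Pool.Agent.Helper482.Stk.M_p3
open Pool.Agent.Helper482.Stk.M_r3
open Pool.Agent.Helper482.Stk.M_u4
open Real MeasureTheory intervalIntegral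

noncomputable section

theorem summ8790 (κ : ℝ) (hκ : 0 < κ) :
    Summable (fun n : ℤ => (1 + (n : ℝ) ^ 2) * (2 * Real.exp (-(|(n : ℝ)| * κ)))) := by
  have hr : ‖Real.exp (-κ)‖ < 1 := by
    rw [Real.norm_of_nonneg (Real.exp_pos _).le, Real.exp_lt_one_iff]
    linarith
  have h0 := summable_pow_mul_geometric_of_norm_lt_one 0 hr
  have h2 := summable_pow_mul_geometric_of_norm_lt_one 2 hr
  have h3 : Summable (fun n : ℕ => (1 + (n : ℝ) ^ 2) * (2 * Real.exp (-((n : ℝ) * κ)))) := by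
    have h4 := (h0.add h2).mul_left 2
    refine h4.congr (fun n => ?_)
    have e : Real.exp (-((n : ℝ) * κ)) = Real.exp (-κ) ^ n := by
      rw [← Real.exp_nat_mul]
      congr 1
      ring
    rw [e]
    ring
  apply Summable.of_nat_of_neg
  · refine h3.congr (fun n => ?_)
    simp
  · refine h3.congr (fun n => ?_)
    simp

theorem ratio8790 (n : ℤ) (ξ x0 κ : ℝ) (h0 : 0 ≤ ξ) (hx0 : 0 ≤ x0) (h : κ ≤ x0 - ξ) :
    Real.cosh (n * ξ) / Real.cosh (n * x0) ≤ 2 * Real.exp (-(|(n : ℝ)| * κ)) := by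
  rw [div_le_iff₀ (Real.cosh_pos _)]
  have hn := abs_nonneg (n : ℝ)
  have h1 : Real.cosh (n * ξ) ≤ Real.exp (|(n : ℝ)| * ξ) := by
    rw [← Real.cosh_abs, abs_mul, abs_of_nonneg h0, Real.cosh_eq]
    have : Real.exp (-(|(n : ℝ)| * ξ)) ≤ Real.exp (|(n : ℝ)| * ξ) :=
      Real.exp_le_exp.2 (by nlinarith)
    linarith
  have h2 : Real.exp (|(n : ℝ)| * x0) / 2 ≤ Real.cosh (n * x0) := by
    rw [← Real.cosh_abs (n * x0), abs_mul, abs_of_nonneg hx0, Real.cosh_eq]
    have := (Real.exp_pos (-(|(n : ℝ)| * x0))).le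
    linarith
  have h3 : Real.exp (|(n : ℝ)| * ξ) ≤ Real.exp (-(|(n : ℝ)| * κ)) * Real.exp (|(n : ℝ)| * x0) := by
    rw [← Real.exp_add]
    exact Real.exp_le_exp.2 (by nlinarith)
  calc Real.cosh (n * ξ) ≤ Real.exp (|(n : ℝ)| * ξ) := h1
    _ ≤ Real.exp (-(|(n : ℝ)| * κ)) * Real.exp (|(n : ℝ)| * x0) := h3
    _ = 2 * Real.exp (-(|(n : ℝ)| * κ)) * (Real.exp (|(n : ℝ)| * x0) / 2) := by ring
    _ ≤ _ := by gcongr

theorem thr8790 (A B C δ : ℝ) (hC : 0 < C) (hδ : 0 < δ) :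
    ∃ s0 : ℝ, 1 ≤ s0 ∧ ∀ s : ℝ, s0 ≤ s →
      A * s ^ (-(7 / 3) : ℝ) + Real.exp (-(s * δ)) + B * s ^ (-(8 / 3) : ℝ)
        ≤ C * s ^ (-(4 / 3) : ℝ) := by
  have hlt : ∀ a : ℝ, a < -(4 / 3) →
      (fun s : ℝ => s ^ a) =o[Filter.atTop] (fun s : ℝ => s ^ (-(4 / 3) : ℝ)) := by
    intro a ha
    apply Asymptotics.isLittleO_of_tendsto'
    · refine (Filter.eventually_gt_atTop 0).mono fun t ht h => ?_
      exact absurd h (Real.rpow_pos_of_pos ht _).ne'
    · have h1 : Filter.Tendsto (fun s : ℝ => s ^ (-(-(4 / 3) - a))) Filter.atTop (nhds 0) :=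
        tendsto_rpow_neg_atTop (by linarith)
      refine h1.congr' ?_
      refine (Filter.eventually_gt_atTop 0).mono fun t ht => ?_
      show t ^ (-(-(4 / 3) - a)) = t ^ a / t ^ (-(4 / 3) : ℝ)
      rw [← Real.rpow_sub ht]
      congr 1
      ring
  have hall : (fun s : ℝ => A * s ^ (-(7 / 3) : ℝ) + Real.exp (-δ * s) + B * s ^ (-(8 / 3) : ℝ))
      =o[Filter.atTop] (fun s : ℝ => s ^ (-(4 / 3) : ℝ)) :=
    (((hlt _ (by norm_num)).const_mul_left A).add
      (isLittleO_exp_neg_mul_rpow_atTop hδ _)).add ((hlt _ (by norm_num)).const_mul_left B)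
  have h2 := hall.bound hC
  obtain ⟨s1, hs1⟩ := Filter.eventually_atTop.1 h2
  refine ⟨max s1 1, le_max_right _ _, fun s hs => ?_⟩
  have h3 := hs1 s ((le_max_left _ _).trans hs)
  have hs1' : 1 ≤ s := (le_max_right _ _).trans hs
  rw [Real.norm_eq_abs, Real.norm_of_nonneg (Real.rpow_nonneg (by linarith) _)] at h3
  have h4 := (le_abs_self _).trans h3
  rw [show -(s * δ) = -δ * s by ring]
  exact h4

theorem sign_even (c x0 ξ1 t1 r δ : ℝ) (hc : 0 < c) (hx : 0 < x0) (hr : 0 < r) (hδ : 0 < δ)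
    (h1 : r < ξ1) (h2 : ξ1 + r < x0)
    (hPhi : ∀ ξ ∈ Set.Icc (ξ1 - r) (ξ1 + r), ∀ t ∈ Set.Icc (t1 - r) (t1 + r),
      S1 c x0 + δ ≤ (PhiG c x0 (x0 - ξ) t).im)
    (hW : ∀ k : ℤ, ∃ ε : ℝ, (ε = 1 ∨ ε = -1) ∧ ∀ ξ ∈ Set.Icc (ξ1 - r) (ξ1 + r),
      ∀ t ∈ Set.Icc (t1 - r) (t1 + r), δ ≤ ε * Wc x0 k (x0 - ξ) t) :
    ∃ Λ : ℝ, ∀ σ : ℝ, Λ ≤ σ → ∀ f f' G : ℝ → ℝ,
      Sol c x0 (fun n : ℤ => Real.tanh (n * x0)) σ f f' G → G 0 = 0 → G π = 0 →
      ∀ U : ℝ → ℝ → ℝ, (∀ ξ ∈ Set.Ioo 0 x0, ∀ t : ℝ, HasSum (fun n : ℤ =>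
        rc f n * ((Real.cosh (n * ξ) / Real.cosh (n * x0) : ℝ) : ℂ) *
          Complex.exp (Complex.I * n * t)) ((U ξ t : ℝ) : ℂ)) →
      (∀ ξ ∈ Set.Icc (ξ1 - r) (ξ1 + r), ∀ t ∈ Set.Icc (t1 - r) (t1 + r), 0 ≤ U ξ t) ∨
      (∀ ξ ∈ Set.Icc (ξ1 - r) (ξ1 + r), ∀ t ∈ Set.Icc (t1 - r) (t1 + r), U ξ t ≤ 0) := by
  obtain ⟨c2, hc2, s1, hs1, hmu⟩ := mu_bd c x0 hc hx
  obtain ⟨K1, hK1, hint⟩ := int_even c x0 (ξ1 - r) hc hx (by linarith)
  obtain ⟨K2, hK2, hcls⟩ := class_even c x0 hc hx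
  have hκ : 0 < x0 - ξ1 - r := by linarith
  have hsum := summ8790 (x0 - ξ1 - r) hκ
  obtain ⟨M, hM⟩ : ∃ M, M = ∑' n : ℤ, (1 + (n : ℝ) ^ 2) *
    (2 * Real.exp (-(|(n : ℝ)| * (x0 - ξ1 - r)))) := ⟨_, rfl⟩
  obtain ⟨s2, hs2, hthr⟩ := thr8790 (K2 * M) K1 (c2 / 2 * δ) δ (by positivity) hδ
  obtain ⟨Λ, hΛ, hmain⟩ := hcls (max s1 s2)
  refine ⟨Λ, fun σ hσ f f' G hSol hG0 hGπ U hU => ?_⟩
  rcases hmain σ hσ f f' G hSol hG0 hGπ with hf | ⟨k, s, Cc, E, hs0, hs, hsk, _, hCc, hcoef, _⟩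
  · left
    intro ξ hξ t ht
    have h3 := hU ξ ⟨by linarith [hξ.1], by linarith [hξ.2]⟩ t
    have h4 : ∀ n, rc f n = 0 := by
      intro n
      unfold rc fc
      simp [hf]
    simp only [h4, zero_mul] at h3
    have h5 := h3.unique hasSum_zero
    have h6 : U ξ t = 0 := by exact_mod_cast h5
    rw [h6]
  · obtain ⟨ε, hε, hWε⟩ := hW k
    have hs1s : s1 ≤ s := (le_max_left _ _).trans hs0
    have hs2s : s2 ≤ s := (le_max_right _ _).trans hs0
    have hmu' := hmu s hs1s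
    have hthr' := hthr s hs2s
    have hsp : 0 < s := by linarith
    have hεε : ε * ε = 1 := by rcases hε with h | h <;> rw [h] <;> norm_num
    have hεa : |ε| = 1 := by rcases hε with h | h <;> rw [h] <;> simp
    have hExp := Real.exp_pos (-(s * S1 c x0))
    have key : ∀ ξ ∈ Set.Icc (ξ1 - r) (ξ1 + r), ∀ t ∈ Set.Icc (t1 - r) (t1 + r),
        0 ≤ ε * (U ξ t / Cc) := by
      intro ξ hξ t ht
      have hξ0 : 0 < ξ := by linarith [hξ.1]
      have hξx : ξ < x0 := by linarith [hξ.2]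
      have hUs := hU ξ ⟨hξ0, hξx⟩ t
      obtain ⟨v, hv, hv2⟩ := hint s hs k hsk ξ t hξ.1 hξx
      have hd := hUs.sub (hv.mul_left (Cc : ℂ))
      have hbd : ∀ n : ℤ, ‖rc f n * ((Real.cosh (n * ξ) / Real.cosh (n * x0) : ℝ) : ℂ) *
          Complex.exp (Complex.I * n * t) - (Cc : ℂ) * (rc (fun t => Real.cos (s * ph c x0 t)) n *
          ((Real.cosh (n * ξ) / Real.cosh (n * x0) : ℝ) : ℂ) * Complex.exp (Complex.I * n * t))‖
          ≤ (K2 * |Cc| * s ^ (-(7 / 3) : ℝ) * Real.exp (-(s * S1 c x0))) *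
            ((1 + (n : ℝ) ^ 2) * (2 * Real.exp (-(|(n : ℝ)| * (x0 - ξ1 - r))))) := by
        intro n
        have e1 : rc f n * ((Real.cosh (n * ξ) / Real.cosh (n * x0) : ℝ) : ℂ) *
          Complex.exp (Complex.I * n * t) - (Cc : ℂ) * (rc (fun t => Real.cos (s * ph c x0 t)) n *
          ((Real.cosh (n * ξ) / Real.cosh (n * x0) : ℝ) : ℂ) * Complex.exp (Complex.I * n * t))
          = (rc f n - Cc * rc (fun t => Real.cos (s * ph c x0 t)) n) *
            ((Real.cosh (n * ξ) / Real.cosh (n * x0) : ℝ) : ℂ) *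
              Complex.exp (Complex.I * n * t) := by ring
        have e2 : ‖Complex.exp (Complex.I * n * t)‖ = 1 := by
          have : Complex.I * n * t = (((n : ℝ) * t : ℝ) : ℂ) * Complex.I := by
            push_cast; ring
          rw [this, Complex.norm_exp_ofReal_mul_I]
        have e3 : 0 ≤ Real.cosh (n * ξ) / Real.cosh (n * x0) :=
          div_nonneg (Real.cosh_pos _).le (Real.cosh_pos _).le
        have e4 := ratio8790 n ξ x0 (x0 - ξ1 - r) hξ0.le hx.le (by linarith [hξ.2])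
        rw [e1, norm_mul, norm_mul, e2, mul_one, Complex.norm_real, Real.norm_of_nonneg e3]
        calc ‖rc f n - Cc * rc (fun t => Real.cos (s * ph c x0 t)) n‖ *
            (Real.cosh (n * ξ) / Real.cosh (n * x0))
            ≤ (K2 * (1 + (n : ℝ) ^ 2) * |Cc| * s ^ (-(7 / 3) : ℝ) *
              Real.exp (-(s * S1 c x0))) * (2 * Real.exp (-(|(n : ℝ)| * (x0 - ξ1 - r)))) :=
              mul_le_mul (hcoef n) e4 e3 ((norm_nonneg _).trans (hcoef n))
          _ = _ := by ring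
      have hle := hd.norm_le_of_bounded (hsum.hasSum.mul_left
        (K2 * |Cc| * s ^ (-(7 / 3) : ℝ) * Real.exp (-(s * S1 c x0)))) hbd
      rw [← hM] at hle
      have e5 : ((U ξ t : ℝ) : ℂ) - (Cc : ℂ) * ((v : ℝ) : ℂ) = ((U ξ t - Cc * v : ℝ) : ℂ) := by
        push_cast; ring
      rw [e5, Complex.norm_real, Real.norm_eq_abs] at hle
      have hCa : 0 < |Cc| := abs_pos.2 hCc
      have h7 : |U ξ t / Cc - v| ≤ K2 * M * s ^ (-(7 / 3) : ℝ) * Real.exp (-(s * S1 c x0)) := by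
        have e6 : U ξ t / Cc - v = (U ξ t - Cc * v) / Cc := by field_simp
        rw [e6, abs_div, div_le_iff₀ hCa]
        calc |U ξ t - Cc * v| ≤ _ := hle
          _ = _ := by ring
      have h8 : Real.exp (-(s * (PhiG c x0 (x0 - ξ) t).im))
          ≤ Real.exp (-(s * δ)) * Real.exp (-(s * S1 c x0)) := by
        rw [← Real.exp_add]
        apply Real.exp_le_exp.2
        have := hPhi ξ hξ t ht
        nlinarith
      have h9 : c2 * s ^ (-(4 / 3) : ℝ) * Real.exp (-(s * S1 c x0)) / 2 * δ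
          ≤ ε * ((mu c x0 s / 2) * Wc x0 k (x0 - ξ) t) := by
        have h10 := hWε ξ hξ t ht
        have h11 : 0 < c2 * s ^ (-(4 / 3) : ℝ) * Real.exp (-(s * S1 c x0)) := by positivity
        have h12 : 0 < mu c x0 s := lt_of_lt_of_le h11 hmu'
        calc c2 * s ^ (-(4 / 3) : ℝ) * Real.exp (-(s * S1 c x0)) / 2 * δ
            ≤ mu c x0 s / 2 * (ε * Wc x0 k (x0 - ξ) t) := by
              apply mul_le_mul _ h10 hδ.le (by positivity)
              linarith
          _ = _ := by ring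
      have h13 : ε * (U ξ t / Cc) = ε * ((mu c x0 s / 2) * Wc x0 k (x0 - ξ) t)
          + ε * (U ξ t / Cc - v) + ε * (v - (mu c x0 s / 2) * Wc x0 k (x0 - ξ) t) := by ring
      have h14 : -(K2 * M * s ^ (-(7 / 3) : ℝ) * Real.exp (-(s * S1 c x0)))
          ≤ ε * (U ξ t / Cc - v) := by
        have : |ε * (U ξ t / Cc - v)| ≤ K2 * M * s ^ (-(7 / 3) : ℝ) *
            Real.exp (-(s * S1 c x0)) := by
          rw [abs_mul, hεa, one_mul]; exact h7
        exact (abs_le.1 this).1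
      have h15 : -(Real.exp (-(s * δ)) * Real.exp (-(s * S1 c x0)) +
          K1 * s ^ (-(8 / 3) : ℝ) * Real.exp (-(s * S1 c x0)))
          ≤ ε * (v - (mu c x0 s / 2) * Wc x0 k (x0 - ξ) t) := by
        have : |ε * (v - (mu c x0 s / 2) * Wc x0 k (x0 - ξ) t)| ≤
            Real.exp (-(s * δ)) * Real.exp (-(s * S1 c x0)) +
          K1 * s ^ (-(8 / 3) : ℝ) * Real.exp (-(s * S1 c x0)) := by
          rw [abs_mul, hεa, one_mul]
          linarith
        exact (abs_le.1 this).1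
      have h16 : (K2 * M * s ^ (-(7 / 3) : ℝ) + Real.exp (-(s * δ)) +
          K1 * s ^ (-(8 / 3) : ℝ)) * Real.exp (-(s * S1 c x0))
          ≤ (c2 / 2 * δ * s ^ (-(4 / 3) : ℝ)) * Real.exp (-(s * S1 c x0)) :=
        mul_le_mul_of_nonneg_right hthr' hExp.le
      rw [h13]
      nlinarith
    rcases lt_or_gt_of_ne hCc with hneg | hpos
    · rcases hε with h | h
      · right
        intro ξ hξ t ht
        have := key ξ hξ t ht
        rw [h, one_mul] at this
        by_contra hcon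
        push Not at hcon
        have := div_neg_of_pos_of_neg hcon hneg
        linarith
      · left
        intro ξ hξ t ht
        have := key ξ hξ t ht
        rw [h] at this
        by_contra hcon
        push Not at hcon
        have := div_pos_of_neg_of_neg hcon hneg
        linarith
    · rcases hε with h | h
      · left
        intro ξ hξ t ht
        have := key ξ hξ t ht
        rw [h, one_mul] at this
        by_contra hcon
        push Not at hcon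
        have := div_neg_of_neg_of_pos hcon hpos
        linarith
      · right
        intro ξ hξ t ht
        have := key ξ hξ t ht
        rw [h] at this
        by_contra hcon
        push Not at hcon
        have := div_pos hcon hpos
        linarith

end

end Pool.Agent.Helper482.Stk.M_e4
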