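import Pool.Agent.Helper482.Stk.Defs
import Pool.Agent.Helper482.Stk.M_h3
import Pool.Agent.Helper482.Stk.M_p4
import Pool.Agent.Helper482.Stk.M_p5
import Pool.Agent.Helper482.Stk.M_r2

set_option autoImplicit false

namespace Pool.Agent.Helper482.Stk.M_u5

open Pool.Agent.Helper482.Stk
open Pool.Agent.Helper482.Stk.M_h3
open Pool.Agent.Helper482.Stk.M_p4
open Pool.Agent.Helper482.Stk.M_p5
open Pool.Agent.Helper482.Stk.M_r2
open Real MeasureTheory intervalIntegral

noncomputable section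

theorem io_cosm1 (x0 : ℝ) (hx : 0 < x0) : 0 < 1 - Real.exp (-(2 * x0)) := by
  have : Real.exp (-(2 * x0)) < 1 := by
    rw [Real.exp_lt_one_iff]; linarith
  linarith

theorem io_p_abs (r y x0 : ℝ) : Real.sinh (r * y) / Real.sinh (r * x0) =
    Real.sinh (|r| * y) / Real.sinh (|r| * x0) := by
  rcases abs_cases r with ⟨h, _⟩ | ⟨h, _⟩
  · rw [h]
  · rw [h, neg_mul, neg_mul, Real.sinh_neg, Real.sinh_neg, neg_div_neg_eq]

theorem io_p_neg (n : ℤ) (y x0 : ℝ) :
    Real.sinh (((-n : ℤ) : ℝ) * y) / Real.sinh (((-n : ℤ) : ℝ) * x0) =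
    Real.sinh (n * y) / Real.sinh (n * x0) := by
  rw [io_p_abs, io_p_abs n]
  push_cast
  rw [abs_neg]

theorem io_p_bound (x0 ξ y : ℝ) (hx : 0 < x0) (hy : y = x0 - ξ) (hy0 : 0 ≤ y) (n : ℤ) :
    |Real.sinh (n * y) / Real.sinh (n * x0)| ≤
      Real.exp (-(|(n : ℝ)| * ξ)) / (1 - Real.exp (-(2 * x0))) := by
  have hc := io_cosm1 x0 hx
  by_cases hn : n = 0
  · subst hn
    simp only [Int.cast_zero, zero_mul, Real.sinh_zero, div_zero, abs_zero]
    positivity
  · have hr : (1 : ℝ) ≤ |(n : ℝ)| := by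
      have : (1 : ℤ) ≤ |n| := Int.one_le_abs hn
      exact_mod_cast this
    rw [io_p_abs]
    set r := |(n : ℝ)| with hrdef
    have h1 : 0 ≤ Real.sinh (r * y) := Real.sinh_nonneg_iff.2 (by positivity)
    have h2 : 0 < Real.sinh (r * x0) := Real.sinh_pos_iff.2 (by positivity)
    rw [abs_of_nonneg (by positivity), div_le_div_iff₀ h2 hc]
    have h3 : Real.sinh (r * y) ≤ Real.exp (r * y) / 2 := by
      rw [Real.sinh_eq]
      have := Real.exp_pos (-(r * y))
      linarith
    have h4 : Real.exp (r * x0) * (1 - Real.exp (-(2 * x0))) / 2 ≤ Real.sinh (r * x0) := by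
      rw [Real.sinh_eq, mul_sub, mul_one, ← Real.exp_add]
      have : Real.exp (-(r * x0)) ≤ Real.exp (r * x0 + -(2 * x0)) := by
        apply Real.exp_le_exp.2
        nlinarith
      linarith
    have h5 : Real.exp (r * y) = Real.exp (-(r * ξ)) * Real.exp (r * x0) := by
      rw [← Real.exp_add]
      congr 1
      rw [hy]; ring
    calc Real.sinh (r * y) * (1 - Real.exp (-(2 * x0)))
        ≤ Real.exp (r * y) / 2 * (1 - Real.exp (-(2 * x0))) :=
          mul_le_mul_of_nonneg_right h3 hc.le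
      _ = Real.exp (-(r * ξ)) * (Real.exp (r * x0) * (1 - Real.exp (-(2 * x0))) / 2) := by
          rw [h5]; ring
      _ ≤ Real.exp (-(r * ξ)) * Real.sinh (r * x0) :=
          mul_le_mul_of_nonneg_left h4 (Real.exp_pos _).le

theorem io_p_le_one (x0 y : ℝ) (hy0 : 0 ≤ y) (hy : y ≤ x0) (n : ℤ) :
    |Real.sinh (n * y) / Real.sinh (n * x0)| ≤ 1 := by
  rw [abs_div]
  apply div_le_one_of_le₀ _ (abs_nonneg _)
  rw [Real.abs_sinh, Real.abs_sinh]
  apply Real.sinh_le_sinh.2
  rw [abs_mul, abs_mul, abs_of_nonneg hy0, abs_of_nonneg (hy0.trans hy)]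
  exact mul_le_mul_of_nonneg_left hy (abs_nonneg _)

theorem io_q (x0 ξ y : ℝ) (hx : 0 < x0) (hy : y = x0 - ξ) (n : ℤ) (hn : n ≠ 0) :
    Real.sinh (n * ξ) / Real.sinh (n * x0) =
      Real.exp (-(n * y)) - Real.exp (-(n * x0)) * (Real.sinh (n * y) / Real.sinh (n * x0)) := by
  have h1 : Real.sinh (n * x0) ≠ 0 := by
    rw [Ne, Real.sinh_eq_zero]
    have : (n : ℝ) ≠ 0 := by exact_mod_cast hn
    positivity
  have h2 : (n : ℝ) * ξ = n * x0 - n * y := by rw [hy]; ring
  rw [h2, Real.sinh_sub, ← Real.cosh_sub_sinh, ← Real.cosh_sub_sinh]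
  field_simp
  ring

theorem io_summ (k : ℕ) (ξa : ℝ) (hξa : 0 < ξa) :
    Summable (fun n : ℤ => |(n : ℝ)| ^ k * Real.exp (-(|(n : ℝ)| * ξa))) := by
  have h := Real.summable_pow_mul_exp_neg_nat_mul k hξa
  apply Summable.of_nat_of_neg
  · refine h.congr (fun n => ?_)
    simp [mul_comm]
  · refine h.congr (fun n => ?_)
    simp [mul_comm]

theorem io_tsum_neg (f : ℤ → ℝ) : ∑' n, f (-n) = ∑' n, f n :=
  (Equiv.neg ℤ).tsum_eq f

theorem io_summ_neg {f : ℤ → ℝ} (hf : Summable f) : Summable (fun n => f (-n)) :=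
  (Equiv.neg ℤ).summable_iff.2 hf

theorem io_hasSum_neg {f : ℤ → ℝ} {a : ℝ} (hf : HasSum f a) : HasSum (fun n => f (-n)) a :=
  (Equiv.neg ℤ).hasSum_iff.2 hf

theorem io_odd {f : ℤ → ℝ} (hf : Summable f) (ho : ∀ n, f (-n) = - f n) : HasSum f 0 := by
  have h1 := io_tsum_neg f
  have h2 : ∑' n, f (-n) = - ∑' n, f n := by
    rw [← tsum_neg]
    exact tsum_congr ho
  have h3 : ∑' n, f n = 0 := by linarith
  rw [← h3]
  exact hf.hasSum

theorem int_odd (c x0 ξa : ℝ) (hc : 0 < c) (hx : 0 < x0) (hξa : 0 < ξa) :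
    ∃ K > 0, ∀ s : ℝ, 1 ≤ s → ∀ k : ℤ, s * ph c x0 π = π * k → ∀ ξ t : ℝ, ξa ≤ ξ → ξ < x0 →
      ∃ v : ℝ, HasSum (fun n : ℤ => rc (fun t => Real.sin (s * ph c x0 t)) n *
          ((Real.sinh (n * ξ) / Real.sinh (n * x0) : ℝ) : ℂ) * Complex.exp (Complex.I * n * t))
          ((v : ℝ) : ℂ) ∧
        |v + (mu c x0 s / 2) * Ws x0 k (x0 - ξ) t| ≤
          Real.exp (-(s * (PhiG c x0 (x0 - ξ) t).im)) +
            K * s ^ (-(8 / 3) : ℝ) * Real.exp (-(s * S1 c x0)) := by
  obtain ⟨K, hK, hD⟩ := Dn_bd c x0 hc hx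
  have hcm := io_cosm1 x0 hx
  set κ : ℝ := 1 - Real.exp (-(2 * x0)) with hκ
  set C0 : ℝ := ∑' n : ℤ, |(n : ℝ)| ^ 3 * Real.exp (-(|(n : ℝ)| * ξa)) / κ with hC0
  have hC0s : Summable (fun n : ℤ => |(n : ℝ)| ^ 3 * Real.exp (-(|(n : ℝ)| * ξa)) / κ) :=
    (io_summ 3 ξa hξa).div_const κ
  have hC00 : 0 ≤ C0 := tsum_nonneg fun n => by positivity
  refine ⟨K * C0 / 2 + 1, by positivity, ?_⟩
  intro s hs k hk ξ t hξ1 hξ2
  set y : ℝ := x0 - ξ with hy
  have hy0 : 0 < y := by rw [hy]; linarith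
  have hyx : y < x0 := by rw [hy]; linarith
  have hξ0 : 0 < ξ := lt_of_lt_of_le hξa hξ1
  set a : ℤ → ℝ := an c x0 s with ha
  obtain ⟨-, hS1, hFF⟩ := FF_fc c x0 s k hc hx hk y ⟨hy0.le, hyx.le⟩
  obtain ⟨-, hS2, -⟩ := FF_fc c x0 s k hc hx hk x0 ⟨hx.le, le_rfl⟩
  obtain ⟨-, -, -, -, hFFn, -⟩ := FF_basic c x0 s k hc hx hk y ⟨hy0.le, hyx.le⟩
  set p : ℤ → ℝ := fun n => Real.sinh (n * y) / Real.sinh (n * x0) with hp
  set q : ℤ → ℝ := fun n => Real.sinh (n * ξ) / Real.sinh (n * x0) with hq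
  have hpneg : ∀ n, p (-n) = p n := fun n => io_p_neg n y x0
  have hqneg : ∀ n, q (-n) = q n := fun n => io_p_neg n ξ x0
  have hp1 : ∀ n, |p n| ≤ 1 := fun n => io_p_le_one x0 y hy0.le hyx.le n
  have hpb : ∀ n, |p n| ≤ Real.exp (-(|(n : ℝ)| * ξ)) / κ := fun n =>
    io_p_bound x0 ξ y hx hy hy0.le n
  have hpb' : ∀ n, |p n| ≤ Real.exp (-(|(n : ℝ)| * ξa)) / κ := fun n => by
    refine (hpb n).trans ?_
    apply div_le_div_of_nonneg_right _ hcm.le
    apply Real.exp_le_exp.2
    have : |(n : ℝ)| * ξa ≤ |(n : ℝ)| * ξ := mul_le_mul_of_nonneg_left hξ1 (abs_nonneg _)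
    linarith
  have hq' : ∀ n : ℤ, n ≠ 0 → q n = Real.exp (-(n * y)) - Real.exp (-(n * x0)) * p n :=
    fun n hn => io_q x0 ξ y hx hy n hn
  have hq0 : q 0 = 0 := by simp [hq]
  have hsin_neg : ∀ n : ℤ, Real.sin (((-n : ℤ) : ℝ) * t) = - Real.sin (n * t) := fun n => by
    push_cast
    rw [neg_mul, Real.sin_neg]
  have hcos_neg : ∀ n : ℤ, Real.cos (((-n : ℤ) : ℝ) * t) = Real.cos (n * t) := fun n => by
    push_cast
    rw [neg_mul, Real.cos_neg]
  -- F1
  have hexp : ∀ n : ℤ, Complex.I * n * t = (((n * t : ℝ)) : ℂ) * Complex.I := fun n => by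
    push_cast; ring
  have hF1 : HasSum (fun n : ℤ => Real.exp (-(n * y)) * a n * Real.sin (n * t))
      (FF c x0 s y t).im := by
    have h1 := ((Complex.hasSum_iff _ _).1 (hFF t)).2
    have h2 : (fun n : ℤ => Real.exp (-(n * y)) * a n * Real.sin (n * t)) = fun n : ℤ =>
        (((Real.exp (-(n * y)) * an c x0 s n : ℝ) : ℂ) * Complex.exp (Complex.I * n * t)).im := by
      funext n
      rw [hexp, Complex.im_ofReal_mul, Complex.exp_ofReal_mul_I_im]
    rw [h2]; exact h1
  -- F2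
  set F2 : ℤ → ℝ := fun n => Real.exp (-(n * x0)) * a n * p n * Real.sin (n * t) with hF2
  have hF2s : Summable F2 := by
    refine Summable.of_norm_bounded hS2 (fun n => ?_)
    rw [Real.norm_eq_abs]
    change |Real.exp (-(n * x0)) * a n * p n * Real.sin (n * t)| ≤ Real.exp (-(n * x0)) * |a n|
    rw [abs_mul, abs_mul, abs_mul, abs_of_pos (Real.exp_pos _)]
    have h1 := hp1 n
    have h2 := Real.abs_sin_le_one (n * t)
    have h3 : 0 ≤ Real.exp (-(n * x0)) * |a n| := by positivity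
    calc Real.exp (-(n * x0)) * |a n| * |p n| * |Real.sin (n * t)|
        ≤ Real.exp (-(n * x0)) * |a n| * 1 * 1 := by gcongr
      _ = Real.exp (-(n * x0)) * |a n| := by ring
  set v : ℝ := (FF c x0 s y t).im - ∑' n, F2 n with hv
  have haq : HasSum (fun n : ℤ => a n * q n * Real.sin (n * t)) v := by
    have h1 := hF1.sub hF2s.hasSum
    have h2 : (fun n : ℤ => a n * q n * Real.sin (n * t)) = fun n : ℤ =>
        Real.exp (-(n * y)) * a n * Real.sin (n * t) - F2 n := by
      funext n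
      by_cases hn : n = 0
      · subst hn
        simp [hF2]
      · rw [hq' n hn, hF2]
        ring
    rw [h2]; exact h1
  have hbq : HasSum (fun n : ℤ => (a n - a (-n)) / 2 * q n * Real.sin (n * t)) v := by
    have h1 := (haq.add (io_hasSum_neg haq)).div_const 2
    have h2 : (fun n : ℤ => (a n - a (-n)) / 2 * q n * Real.sin (n * t)) = fun n : ℤ =>
        (a n * q n * Real.sin (n * t) + a (-n) * q (-n) * Real.sin (((-n : ℤ) : ℝ) * t)) / 2 := by
      funext n
      rw [hqneg, hsin_neg]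
      ring
    rw [h2]
    have h3 : v = (v + v) / 2 := by ring
    rw [h3]
    exact h1
  -- summability of |a n q n|
  have haqs : Summable (fun n : ℤ => |a n| * |q n|) := by
    refine Summable.of_nonneg_of_le (fun n => by positivity) (fun n => ?_) (hS1.add hS2)
    by_cases hn : n = 0
    · rw [hn, hq0, abs_zero, mul_zero]
      positivity
    · rw [hq' n hn]
      have h1 : |Real.exp (-(n * y)) - Real.exp (-(n * x0)) * p n| ≤
          Real.exp (-(n * y)) + Real.exp (-(n * x0)) := by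
        refine (abs_sub _ _).trans ?_
        rw [abs_mul, abs_of_pos (Real.exp_pos _), abs_of_pos (Real.exp_pos _)]
        have := mul_le_mul_of_nonneg_left (hp1 n) (Real.exp_pos (-(n * x0))).le
        linarith
      have h2 := mul_le_mul_of_nonneg_left h1 (abs_nonneg (a n))
      refine h2.trans (le_of_eq ?_)
      ring
  have hcosS : HasSum (fun n : ℤ => -((a n - a (-n)) / 2 * q n * Real.cos (n * t))) 0 := by
    apply io_odd
    · have h1 : Summable (fun n : ℤ => (|a n| * |q n| + |a (-n)| * |q (-n)|) / 2) :=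
        (haqs.add ((Equiv.neg ℤ).summable_iff.2 haqs)).div_const 2
      refine Summable.of_norm_bounded h1 (fun n => ?_)
      rw [Real.norm_eq_abs, abs_neg, abs_mul, abs_mul, abs_div, hqneg]
      have h2 := Real.abs_cos_le_one (n * t)
      have h3 : |a n - a (-n)| ≤ |a n| + |a (-n)| := abs_sub _ _
      have h4 : |(2 : ℝ)| = 2 := abs_of_pos (by norm_num)
      rw [h4]
      calc |a n - a (-n)| / 2 * |q n| * |Real.cos (n * t)|
          ≤ (|a n| + |a (-n)|) / 2 * |q n| * 1 := by gcongr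
        _ = (|a n| * |q n| + |a (-n)| * |q n|) / 2 := by ring
    · intro n
      rw [hqneg, hcos_neg, neg_neg]
      ring
  refine ⟨v, ?_, ?_⟩
  · rw [Complex.hasSum_iff]
    have key : ∀ n : ℤ, rc (fun t => Real.sin (s * ph c x0 t)) n *
          ((Real.sinh (n * ξ) / Real.sinh (n * x0) : ℝ) : ℂ) * Complex.exp (Complex.I * n * t) =
        (((a n - a (-n)) / 2 * q n : ℝ) : ℂ) *
          (-Complex.I * Complex.exp (((n * t : ℝ) : ℂ) * Complex.I)) := by
      intro n
      rw [(an_rel c x0 s hc hx n).2.1, hexp]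
      change -Complex.I * (((a n - a (-n)) / 2 : ℝ) : ℂ) * ((q n : ℝ) : ℂ) * _ = _
      push_cast
      ring
    have hre : ∀ z : ℂ, (-Complex.I * z).re = z.im := fun z => by simp
    have him : ∀ z : ℂ, (-Complex.I * z).im = -z.re := fun z => by simp
    constructor
    · have h1 : (fun n : ℤ => (rc (fun t => Real.sin (s * ph c x0 t)) n *
          ((Real.sinh (n * ξ) / Real.sinh (n * x0) : ℝ) : ℂ) *
          Complex.exp (Complex.I * n * t)).re) =
          fun n : ℤ => (a n - a (-n)) / 2 * q n * Real.sin (n * t) := by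
        funext n
        rw [key, Complex.re_ofReal_mul, hre, Complex.exp_ofReal_mul_I_im]
      rw [h1, Complex.ofReal_re]
      exact hbq
    · have h1 : (fun n : ℤ => (rc (fun t => Real.sin (s * ph c x0 t)) n *
          ((Real.sinh (n * ξ) / Real.sinh (n * x0) : ℝ) : ℂ) *
          Complex.exp (Complex.I * n * t)).im) =
          fun n : ℤ => -((a n - a (-n)) / 2 * q n * Real.cos (n * t)) := by
        funext n
        rw [key, Complex.im_ofReal_mul, him, Complex.exp_ofReal_mul_I_re]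
        ring
      rw [h1, Complex.ofReal_im]
      exact hcosS
  · set Dp : ℤ → ℝ := fun n => Dn c x0 s n * p n * Real.sin (n * t) with hDp
    have hDpF : ∀ n, Dp n = -(F2 n + F2 (-n)) := by
      intro n
      have h1 : F2 (-n) = Real.exp (-(((-n : ℤ) : ℝ) * x0)) * a (-n) * p (-n) *
          Real.sin (((-n : ℤ) : ℝ) * t) := rfl
      have h2 : F2 n = Real.exp (-(n * x0)) * a n * p n * Real.sin (n * t) := rfl
      rw [h1, h2, hpneg, hsin_neg]
      change (gn c x0 s (-n) - gn c x0 s n) * p n * Real.sin (n * t) = _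
      unfold gn
      ring
    have hDps : Summable Dp := by
      have h1 := (hF2s.add (io_summ_neg hF2s)).neg
      exact h1.congr (fun n => (hDpF n).symm)
    have hF2t : ∑' n, F2 n = -(1 / 2) * ∑' n, Dp n := by
      have h1 : ∑' n, Dp n = -(∑' n, F2 n + ∑' n, F2 (-n)) := by
        rw [tsum_congr hDpF, tsum_neg, hF2s.tsum_add (io_summ_neg hF2s)]
      rw [io_tsum_neg] at h1
      rw [h1]; ring
    set w : ℤ → ℝ := fun n => if Even (n + k) then n * Real.sinh (n * y) / Real.sinh (n * x0) *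
      Real.sin (n * t) else 0 with hw
    have hWs : Ws x0 k y t = ∑' n, w n := rfl
    have hwb : ∀ n, |w n| ≤ |(n : ℝ)| ^ 1 * Real.exp (-(|(n : ℝ)| * ξa)) / κ := by
      intro n
      by_cases hE : Even (n + k)
      · have h1 : w n = n * p n * Real.sin (n * t) := by
          simp only [hw, hE, if_true, hp]
          ring
        rw [h1, abs_mul, abs_mul, pow_one, mul_div_assoc]
        have h2 := Real.abs_sin_le_one (n * t)
        calc |(n : ℝ)| * |p n| * |Real.sin (n * t)| ≤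
            |(n : ℝ)| * (Real.exp (-(|(n : ℝ)| * ξa)) / κ) * 1 := by
              have := hpb' n
              gcongr
          _ = _ := by ring
      · have h1 : w n = 0 := by simp only [hw, hE, if_false]
        rw [h1, abs_zero]
        positivity
    have hws : Summable w := by
      refine Summable.of_norm_bounded ((io_summ 1 ξa hξa).div_const κ) (fun n => ?_)
      rw [Real.norm_eq_abs]
      exact hwb n
    have hsum : v + (mu c x0 s / 2) * Ws x0 k y t =
        (FF c x0 s y t).im + (1 / 2) * ∑' n, (Dp n + mu c x0 s * w n) := by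
      rw [hDps.tsum_add (hws.mul_left _), tsum_mul_left, hWs, hv, hF2t]
      ring
    have hB : |∑' n, (Dp n + mu c x0 s * w n)| ≤
        (K * s ^ (-(8 / 3) : ℝ) * Real.exp (-(s * S1 c x0))) * C0 := by
      rw [← Real.norm_eq_abs]
      refine tsum_of_norm_bounded (hC0s.hasSum.mul_left _) (fun n => ?_)
      rw [Real.norm_eq_abs]
      obtain ⟨-, hD0, hD1⟩ := hD s hs k hk n
      have hspos : (0 : ℝ) < s := by linarith
      by_cases hE : Even (n + k)
      · have h1 : Dp n + mu c x0 s * w n = (Dn c x0 s n + mu c x0 s * n) * p n *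
            Real.sin (n * t) := by
          simp only [hw, hDp, hE, if_true, hp]
          ring
        rw [h1, abs_mul, abs_mul]
        have h2 := Real.abs_sin_le_one (n * t)
        have h3 := hD1 hE
        have h4 := hpb' n
        calc |Dn c x0 s n + mu c x0 s * n| * |p n| * |Real.sin (n * t)| ≤
            (K * |(n : ℝ)| ^ 3 * s ^ (-(8 / 3) : ℝ) * Real.exp (-(s * S1 c x0))) *
              (Real.exp (-(|(n : ℝ)| * ξa)) / κ) * 1 := by
              gcongr
          _ = _ := by ring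
      · have h1 : Dp n + mu c x0 s * w n = 0 := by
          simp only [hw, hDp, hE, if_false, hD0 hE]
          ring
        rw [h1, abs_zero]
        positivity
    have hIm : |(FF c x0 s y t).im| ≤ Real.exp (-(s * (PhiG c x0 y t).im)) := by
      rw [← hFFn t]
      exact Complex.abs_im_le_norm _
    rw [hsum]
    have hspos : (0 : ℝ) < s := by linarith
    have hE0 : 0 ≤ s ^ (-(8 / 3) : ℝ) * Real.exp (-(s * S1 c x0)) := by positivity
    calc |(FF c x0 s y t).im + 1 / 2 * ∑' n, (Dp n + mu c x0 s * w n)|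
        ≤ |(FF c x0 s y t).im| + |1 / 2 * ∑' n, (Dp n + mu c x0 s * w n)| := abs_add_le _ _
      _ ≤ Real.exp (-(s * (PhiG c x0 y t).im)) +
          1 / 2 * ((K * s ^ (-(8 / 3) : ℝ) * Real.exp (-(s * S1 c x0))) * C0) := by
          apply add_le_add hIm
          rw [abs_mul, abs_of_pos (by norm_num : (0 : ℝ) < 1 / 2)]
          exact mul_le_mul_of_nonneg_left hB (by norm_num)
      _ ≤ Real.exp (-(s * (PhiG c x0 y t).im)) +
          (K * C0 / 2 + 1) * s ^ (-(8 / 3) : ℝ) * Real.exp (-(s * S1 c x0)) := by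
          nlinarith

end

end Pool.Agent.Helper482.Stk.M_u5
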