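import Pool.Agent.Helper482.Stk.Defs
import Pool.Agent.Helper482.Stk.M_e2
import Pool.Agent.Helper482.Stk.M_p3
import Pool.Agent.Helper482.Stk.M_r3
import Pool.Agent.Helper482.Stk.M_u5

set_option autoImplicit false

namespace Pool.Agent.Helper482.Stk.M_e5

open Pool.Agent.Helper482.Stk
open Pool.Agent.Helper482.Stk.M_e2
open Pool.Agent.Helper482.Stk.M_p3
open Pool.Agent.Helper482.Stk.M_r3
open Pool.Agent.Helper482.Stk.M_u5
open Real MeasureTheory intervalIntegral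

noncomputable section

theorem sign_odd_ratio_nat (x0 ρ ξ : ℝ) (hx : 0 < x0) (hξ0 : 0 < ξ) (hξ : ξ ≤ ρ) (n : ℕ) :
    |Real.sinh (n * ξ) / Real.sinh (n * x0)| ≤
      (1 - Real.exp (-(2 * x0)))⁻¹ * Real.exp (-(n * (x0 - ρ))) := by
  have hq : 0 < 1 - Real.exp (-(2 * x0)) := by
    have : Real.exp (-(2 * x0)) < 1 := Real.exp_lt_one_iff.2 (by linarith)
    linarith
  rcases Nat.eq_zero_or_pos n with rfl | hn
  · simp only [Nat.cast_zero, zero_mul, Real.sinh_zero, div_zero, abs_zero]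
    positivity
  · have hn1 : (1 : ℝ) ≤ n := by exact_mod_cast hn
    have hs1 : 0 < Real.sinh (n * x0) := Real.sinh_pos_iff.2 (by positivity)
    have hs2 : 0 < Real.sinh (n * ξ) := Real.sinh_pos_iff.2 (by positivity)
    rw [abs_of_pos (div_pos hs2 hs1), div_le_iff₀ hs1]
    have e1 : Real.sinh (n * ξ) ≤ Real.exp (n * ρ) / 2 := by
      rw [Real.sinh_eq]
      have h1 : Real.exp (n * ξ) ≤ Real.exp (n * ρ) := by
        rw [Real.exp_le_exp]; exact mul_le_mul_of_nonneg_left hξ (by positivity)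
      have h2 := Real.exp_pos (-(n * ξ))
      linarith
    have e2 : Real.exp (n * x0) * (1 - Real.exp (-(2 * x0))) / 2 ≤ Real.sinh (n * x0) := by
      rw [Real.sinh_eq]
      have h1 : Real.exp (-(n * x0)) ≤ Real.exp (n * x0) * Real.exp (-(2 * x0)) := by
        rw [← Real.exp_add, Real.exp_le_exp]
        nlinarith
      linarith
    have e3 : (1 - Real.exp (-(2 * x0)))⁻¹ * Real.exp (-(n * (x0 - ρ))) *
        (Real.exp (n * x0) * (1 - Real.exp (-(2 * x0))) / 2) = Real.exp (n * ρ) / 2 := by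
      have h1 : Real.exp (-(n * (x0 - ρ))) * Real.exp (n * x0) = Real.exp (n * ρ) := by
        rw [← Real.exp_add]; congr 1; ring
      have h3 := inv_mul_cancel₀ hq.ne'
      linear_combination (Real.exp (-(n * (x0 - ρ))) * Real.exp (n * x0) / 2) * h3 + (1 / 2) * h1
    calc Real.sinh (n * ξ) ≤ Real.exp (n * ρ) / 2 := e1
      _ = _ := e3.symm
      _ ≤ _ := mul_le_mul_of_nonneg_left e2 (by positivity)

theorem sign_odd_ratio (x0 ρ ξ : ℝ) (hx : 0 < x0) (hξ0 : 0 < ξ) (hξ : ξ ≤ ρ) (n : ℤ) :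
    |Real.sinh (n * ξ) / Real.sinh (n * x0)| ≤
      (1 - Real.exp (-(2 * x0)))⁻¹ * Real.exp (-(|(n : ℝ)| * (x0 - ρ))) := by
  rcases Int.eq_nat_or_neg n with ⟨m, rfl | rfl⟩
  · have := sign_odd_ratio_nat x0 ρ ξ hx hξ0 hξ m
    simpa using this
  · have := sign_odd_ratio_nat x0 ρ ξ hx hξ0 hξ m
    push_cast
    rw [abs_neg, Nat.abs_cast, neg_mul, neg_mul, Real.sinh_neg, Real.sinh_neg, neg_div_neg_eq]
    exact this

theorem sign_odd_summable (a : ℝ) (ha : 0 < a) :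
    Summable (fun n : ℤ => (1 + (n : ℝ) ^ 2) * Real.exp (-(|(n : ℝ)| * a))) := by
  have hnat : Summable (fun n : ℕ => (1 + (n : ℝ) ^ 2) * Real.exp (-((n : ℝ) * a))) := by
    have hr : ‖Real.exp (-a)‖ < 1 := by
      rw [Real.norm_eq_abs, abs_of_pos (Real.exp_pos _)]
      exact Real.exp_lt_one_iff.2 (by linarith)
    have h0 := summable_pow_mul_geometric_of_norm_lt_one 0 hr
    have h2 := summable_pow_mul_geometric_of_norm_lt_one 2 hr
    refine (h0.add h2).congr fun n => ?_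
    have : Real.exp (-((n : ℝ) * a)) = Real.exp (-a) ^ n := by
      rw [← Real.exp_nat_mul]; congr 1; ring
    rw [this]; ring
  refine Summable.of_nat_of_neg ?_ ?_
  · refine hnat.congr fun n => ?_
    simp
  · refine hnat.congr fun n => ?_
    simp



theorem sign_odd (c x0 ξ1 t1 r δ : ℝ) (hc : 0 < c) (hx : 0 < x0) (hr : 0 < r) (hδ : 0 < δ)
    (h1 : r < ξ1) (h2 : ξ1 + r < x0)
    (hPhi : ∀ ξ ∈ Set.Icc (ξ1 - r) (ξ1 + r), ∀ t ∈ Set.Icc (t1 - r) (t1 + r),
      S1 c x0 + δ ≤ (PhiG c x0 (x0 - ξ) t).im)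
    (hW : ∀ k : ℤ, ∃ ε : ℝ, (ε = 1 ∨ ε = -1) ∧ ∀ ξ ∈ Set.Icc (ξ1 - r) (ξ1 + r),
      ∀ t ∈ Set.Icc (t1 - r) (t1 + r), δ ≤ ε * Ws x0 k (x0 - ξ) t) :
    ∃ Λ : ℝ, ∀ σ : ℝ, Λ ≤ σ → ∀ f f' G : ℝ → ℝ,
      Sol c x0 (fun n : ℤ => (Real.tanh (n * x0))⁻¹) σ f f' G → f 0 = 0 → f π = 0 →
      ∀ U : ℝ → ℝ → ℝ, (∀ ξ ∈ Set.Ioo 0 x0, ∀ t : ℝ, HasSum (fun n : ℤ =>
        rc f n * ((Real.sinh (n * ξ) / Real.sinh (n * x0) : ℝ) : ℂ) *
          Complex.exp (Complex.I * n * t)) ((U ξ t : ℝ) : ℂ)) →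
      (∀ ξ ∈ Set.Icc (ξ1 - r) (ξ1 + r), ∀ t ∈ Set.Icc (t1 - r) (t1 + r), 0 ≤ U ξ t) ∨
      (∀ ξ ∈ Set.Icc (ξ1 - r) (ξ1 + r), ∀ t ∈ Set.Icc (t1 - r) (t1 + r), U ξ t ≤ 0) := by
  obtain ⟨K1, hK1, hcl⟩ := class_odd c x0 hc hx
  obtain ⟨K2, hK2, hint⟩ := int_odd c x0 (ξ1 - r) hc hx (by linarith)
  obtain ⟨c2, hc2, s1, hs1, hmu⟩ := mu_bd c x0 hc hx
  -- the constant
  have hq : 0 < 1 - Real.exp (-(2 * x0)) := by
    have : Real.exp (-(2 * x0)) < 1 := Real.exp_lt_one_iff.2 (by linarith)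
    linarith
  have hsum := sign_odd_summable (x0 - (ξ1 + r)) (by linarith)
  have hsumC := hsum.mul_left (1 - Real.exp (-(2 * x0)))⁻¹
  obtain ⟨B, hB⟩ := hsumC
  have hB0 : 0 ≤ B := by
    refine hB.nonneg fun n => ?_
    positivity
  -- the threshold
  have hlim : ∀ᶠ s : ℝ in Filter.atTop, s ^ (4 / 3 : ℝ) * Real.exp (-δ * s) +
      K2 * s ^ (-(4 / 3 : ℝ)) + K1 * B * s ^ (-(1 : ℝ)) < c2 * δ / 2 := by
    have l1 := tendsto_rpow_mul_exp_neg_mul_atTop_nhds_zero (4 / 3) δ hδ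
    have l2 := (tendsto_rpow_neg_atTop (y := 4 / 3) (by norm_num)).const_mul K2
    have l3 := (tendsto_rpow_neg_atTop (y := 1) (by norm_num)).const_mul (K1 * B)
    have l4 := (l1.add l2).add l3
    rw [mul_zero, mul_zero, add_zero, add_zero] at l4
    exact l4.eventually_lt_const (by positivity)
  obtain ⟨s2, hs2⟩ := Filter.eventually_atTop.1 hlim
  obtain ⟨Λ, -, hΛ⟩ := hcl (max s1 s2)
  refine ⟨Λ, fun σ hσ f f' G hSol hf0 hfπ U hU => ?_⟩
  rcases hΛ σ hσ f f' G hSol hf0 hfπ with h0 | ⟨k, s, Cc, E, hss, hs1', hsk, -, hCc, hrc, -⟩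
  · left
    intro ξ hξ t ht
    have hξ' : ξ ∈ Set.Ioo 0 x0 := ⟨by linarith [hξ.1], by linarith [hξ.2]⟩
    have hU' := hU ξ hξ' t
    have hz : ∀ n : ℤ, rc f n = 0 := by
      intro n
      unfold rc fc
      simp [h0]
    have hU0 : HasSum (fun n : ℤ => rc f n * ((Real.sinh (n * ξ) / Real.sinh (n * x0) : ℝ) : ℂ) *
          Complex.exp (Complex.I * n * t)) 0 := by
      have : (fun n : ℤ => rc f n * ((Real.sinh (n * ξ) / Real.sinh (n * x0) : ℝ) : ℂ) *
          Complex.exp (Complex.I * n * t)) = fun _ => 0 := by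
        funext n; rw [hz, zero_mul, zero_mul]
      rw [this]; exact hasSum_zero
    have := hU'.unique hU0
    have : U ξ t = 0 := by exact_mod_cast this
    rw [this]
  · have hs_1 : s1 ≤ s := (le_max_left _ _).trans hss
    have hs_2 := hs2 s ((le_max_right _ _).trans hss)
    have hs0 : 0 < s := by linarith
    have hmus := hmu s hs_1
    obtain ⟨ε, hε, hWε⟩ := hW k
    -- the key inequality
    have key : ∀ ξ ∈ Set.Icc (ξ1 - r) (ξ1 + r), ∀ t ∈ Set.Icc (t1 - r) (t1 + r),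
        0 ≤ -(ε * Cc) * U ξ t := by
      intro ξ hξ t ht
      have hξ0 : 0 < ξ := by linarith [hξ.1]
      have hξx : ξ < x0 := by linarith [hξ.2]
      obtain ⟨v, hv1, hv2⟩ := hint s hs1' k hsk ξ t hξ.1 hξx
      have hU' := hU ξ ⟨hξ0, hξx⟩ t
      have hdiff := hU'.sub (hv1.mul_left (Cc : ℂ))
      have herr : |U ξ t - Cc * v| ≤ (K1 * |Cc| * s ^ (-(7 / 3) : ℝ) *
          Real.exp (-(s * S1 c x0))) * B := by
        have hb : HasSum (fun n : ℤ => (K1 * |Cc| * s ^ (-(7 / 3) : ℝ) *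
          Real.exp (-(s * S1 c x0))) * ((1 - Real.exp (-(2 * x0)))⁻¹ * ((1 + (n : ℝ) ^ 2) *
            Real.exp (-(|(n : ℝ)| * (x0 - (ξ1 + r))))))) ((K1 * |Cc| * s ^ (-(7 / 3) : ℝ) *
          Real.exp (-(s * S1 c x0))) * B) := hB.mul_left _
        have := hdiff.norm_le_of_bounded hb fun n => ?_
        · rw [← Complex.ofReal_mul, ← Complex.ofReal_sub, Complex.norm_real,
            Real.norm_eq_abs] at this
          exact this
        · have e1 : rc f n * ((Real.sinh (n * ξ) / Real.sinh (n * x0) : ℝ) : ℂ) *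
              Complex.exp (Complex.I * n * t) -
              Cc * (rc (fun t => Real.sin (s * ph c x0 t)) n *
              ((Real.sinh (n * ξ) / Real.sinh (n * x0) : ℝ) : ℂ) *
              Complex.exp (Complex.I * n * t)) =
              (rc f n - Cc * rc (fun t => Real.sin (s * ph c x0 t)) n) *
              ((Real.sinh (n * ξ) / Real.sinh (n * x0) : ℝ) : ℂ) *
              Complex.exp (((n * t : ℝ) : ℂ) * Complex.I) := by
            have : Complex.I * n * t = ((n * t : ℝ) : ℂ) * Complex.I := by push_cast; ring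
            rw [this]; ring
          rw [e1, norm_mul, norm_mul, Complex.norm_exp_ofReal_mul_I, mul_one,
            Complex.norm_real, Real.norm_eq_abs]
          have e2 := mul_le_mul (hrc n) (sign_odd_ratio x0 (ξ1 + r) ξ hx hξ0 hξ.2 n)
            (abs_nonneg _) (by positivity)
          refine e2.trans (le_of_eq ?_)
          ring
      have hPhi' := hPhi ξ hξ t ht
      have hW' := hWε ξ hξ t ht
      have hexp : Real.exp (-(s * (PhiG c x0 (x0 - ξ) t).im)) ≤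
          Real.exp (-δ * s) * Real.exp (-(s * S1 c x0)) := by
        rw [← Real.exp_add, Real.exp_le_exp]
        nlinarith
      have hmupos : 0 < mu c x0 s := lt_of_lt_of_le (by positivity) hmus
      obtain ⟨e, he⟩ : ∃ e : ℝ, e = Real.exp (-(s * S1 c x0)) := ⟨_, rfl⟩
      have he0 : 0 < e := by rw [he]; exact Real.exp_pos _
      rw [← he] at herr hv2 hexp hmus
      have p1 : s ^ (-(4 / 3 : ℝ)) * s ^ (4 / 3 : ℝ) = 1 := by
        rw [← Real.rpow_add hs0]; norm_num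
      have p2 : s ^ (-(4 / 3 : ℝ)) * s ^ (-(4 / 3 : ℝ)) = s ^ (-(8 / 3) : ℝ) := by
        rw [← Real.rpow_add hs0]; norm_num
      have p3 : s ^ (-(4 / 3 : ℝ)) * s ^ (-(1 : ℝ)) = s ^ (-(7 / 3) : ℝ) := by
        rw [← Real.rpow_add hs0]; norm_num
      have hs43 : 0 < s ^ (-(4 / 3 : ℝ)) := by positivity
      have q1 : Real.exp (-δ * s) + K2 * s ^ (-(8 / 3) : ℝ) + K1 * B * s ^ (-(7 / 3) : ℝ) ≤
          c2 * δ / 2 * s ^ (-(4 / 3 : ℝ)) := by
        have := mul_le_mul_of_nonneg_left hs_2.le hs43.le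
        calc _ = s ^ (-(4 / 3 : ℝ)) * (s ^ (4 / 3 : ℝ) * Real.exp (-δ * s) +
              K2 * s ^ (-(4 / 3 : ℝ)) + K1 * B * s ^ (-(1 : ℝ))) := by
              linear_combination (-(Real.exp (-δ * s))) * p1 - K2 * p2 - K1 * B * p3
          _ ≤ _ := this
          _ = _ := by ring
      -- lower bound for -ε v
      have hmuW : c2 * δ / 2 * s ^ (-(4 / 3 : ℝ)) * e ≤
          ε * ((mu c x0 s / 2) * Ws x0 k (x0 - ξ) t) := by
        have e1 : c2 * s ^ (-(4 / 3) : ℝ) * e * δ ≤ mu c x0 s * (ε * Ws x0 k (x0 - ξ) t) :=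
          mul_le_mul hmus hW' hδ.le hmupos.le
        linarith
      have hεsq : ε * ε = 1 := by rcases hε with rfl | rfl <;> norm_num
      have hεabs : |ε| = 1 := by rcases hε with rfl | rfl <;> simp
      have hv3 : -(ε * v) ≥ c2 * δ / 2 * s ^ (-(4 / 3 : ℝ)) * e - (Real.exp (-δ * s) * e +
          K2 * s ^ (-(8 / 3) : ℝ) * e) := by
        have e1 : |ε * (v + (mu c x0 s / 2) * Ws x0 k (x0 - ξ) t)| ≤ Real.exp (-δ * s) * e +
          K2 * s ^ (-(8 / 3) : ℝ) * e := by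
          rw [abs_mul, hεabs, one_mul]
          linarith
        have e2 := (abs_le.1 e1).2
        have e3 : ε * (v + (mu c x0 s / 2) * Ws x0 k (x0 - ξ) t) = ε * v +
          ε * ((mu c x0 s / 2) * Ws x0 k (x0 - ξ) t) := by ring
        rw [e3] at e2
        linarith
      have hCsq : 0 < Cc ^ 2 := by positivity
      have habsC : |Cc| * |Cc| = Cc ^ 2 := by rw [abs_mul_abs_self]; ring
      have herr2 : |(-(ε * Cc)) * (U ξ t - Cc * v)| ≤
          Cc ^ 2 * (K1 * B * s ^ (-(7 / 3) : ℝ) * e) := by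
        rw [abs_mul, abs_neg, abs_mul, hεabs, one_mul]
        calc |Cc| * |U ξ t - Cc * v| ≤ |Cc| * ((K1 * |Cc| * s ^ (-(7 / 3) : ℝ) * e) * B) :=
              mul_le_mul_of_nonneg_left herr (abs_nonneg _)
          _ = |Cc| * |Cc| * (K1 * B * s ^ (-(7 / 3) : ℝ) * e) := by ring
          _ = _ := by rw [habsC]
      have herr3 := (abs_le.1 herr2).1
      have e4 : -(ε * Cc) * U ξ t = Cc ^ 2 * (-(ε * v)) + (-(ε * Cc)) * (U ξ t - Cc * v) := by
        ring
      rw [e4]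
      have e5 := mul_le_mul_of_nonneg_left hv3 hCsq.le
      have e6 := mul_le_mul_of_nonneg_left (mul_le_mul_of_nonneg_right q1 he0.le) hCsq.le
      have e7 : Cc ^ 2 * ((Real.exp (-δ * s) + K2 * s ^ (-(8 / 3) : ℝ) +
          K1 * B * s ^ (-(7 / 3) : ℝ)) * e) = Cc ^ 2 * (Real.exp (-δ * s) * e +
          K2 * s ^ (-(8 / 3) : ℝ) * e) + Cc ^ 2 * (K1 * B * s ^ (-(7 / 3) : ℝ) * e) := by ring
      rw [e7] at e6
      have e8 : Cc ^ 2 * (c2 * δ / 2 * s ^ (-(4 / 3 : ℝ)) * e - (Real.exp (-δ * s) * e +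
          K2 * s ^ (-(8 / 3) : ℝ) * e)) = Cc ^ 2 * (c2 * δ / 2 * s ^ (-(4 / 3 : ℝ)) * e) -
          Cc ^ 2 * (Real.exp (-δ * s) * e + K2 * s ^ (-(8 / 3) : ℝ) * e) := by ring
      rw [e8] at e5
      linarith
    have hne : ε * Cc ≠ 0 := by
      refine mul_ne_zero ?_ hCc
      rcases hε with rfl | rfl <;> norm_num
    rcases lt_or_gt_of_ne hne with hneg | hpos
    · left
      intro ξ hξ t ht
      have := key ξ hξ t ht
      exact nonneg_of_mul_nonneg_right this (by linarith)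
    · right
      intro ξ hξ t ht
      have := key ξ hξ t ht
      by_contra hcon
      push Not at hcon
      have := mul_pos hpos hcon
      linarith

end

end Pool.Agent.Helper482.Stk.M_e5
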