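import Pool.Agent.Helper482.Stk.Defs

set_option autoImplicit false

namespace Pool.Agent.Helper482.Stk.M_e6

open Pool.Agent.Helper482.Stk
open Real MeasureTheory intervalIntegral

noncomputable section

theorem geom_cosh (c ξ t : ℝ) : (c : ℂ) * Complex.cosh ((ξ : ℂ) + (t : ℂ) * Complex.I) =
    ((c * Real.cosh ξ * Real.cos t : ℝ) : ℂ) +
      ((c * Real.sinh ξ * Real.sin t : ℝ) : ℂ) * Complex.I := by
  rw [Complex.cosh_add, Complex.cosh_mul_I, Complex.sinh_mul_I]
  push_cast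
  ring

theorem geom_ell (x0 ξ t : ℝ) (h1 : 0 < ξ) (h2 : ξ < x0) :
    (Real.cosh ξ * Real.cos t / Real.cosh x0) ^ 2 + (Real.sinh ξ * Real.sin t / Real.sinh x0) ^ 2
      < 1 := by
  have hs0 : 0 < Real.sinh x0 := Real.sinh_pos_iff.2 (by linarith)
  have hc0 : 0 < Real.cosh x0 := Real.cosh_pos x0
  have hs : Real.sinh ξ < Real.sinh x0 := Real.sinh_lt_sinh.2 h2
  have hs1 : 0 < Real.sinh ξ := Real.sinh_pos_iff.2 h1
  have hc1 : 0 < Real.cosh ξ := Real.cosh_pos ξ
  have hc : Real.cosh ξ < Real.cosh x0 := by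
    rw [Real.cosh_lt_cosh, abs_of_pos h1, abs_of_pos (h1.trans h2)]
    exact h2
  have hA : (Real.cosh ξ / Real.cosh x0) ^ 2 < 1 := by
    rw [sq_lt_one_iff₀ (by positivity), div_lt_one hc0]
    exact hc
  have hB : (Real.sinh ξ / Real.sinh x0) ^ 2 < 1 := by
    rw [sq_lt_one_iff₀ (by positivity), div_lt_one hs0]
    exact hs
  have h3 : (Real.cosh ξ * Real.cos t / Real.cosh x0) ^ 2 +
      (Real.sinh ξ * Real.sin t / Real.sinh x0) ^ 2 =
      (Real.cosh ξ / Real.cosh x0) ^ 2 * Real.cos t ^ 2 +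
      (Real.sinh ξ / Real.sinh x0) ^ 2 * Real.sin t ^ 2 := by ring
  rw [h3]
  have h4 := Real.sin_sq_add_cos_sq t
  have h5 : (Real.cosh ξ / Real.cosh x0) ^ 2 * Real.cos t ^ 2 ≤
      max ((Real.cosh ξ / Real.cosh x0) ^ 2) ((Real.sinh ξ / Real.sinh x0) ^ 2) *
        Real.cos t ^ 2 := mul_le_mul_of_nonneg_right (le_max_left _ _) (sq_nonneg _)
  have h6 : (Real.sinh ξ / Real.sinh x0) ^ 2 * Real.sin t ^ 2 ≤
      max ((Real.cosh ξ / Real.cosh x0) ^ 2) ((Real.sinh ξ / Real.sinh x0) ^ 2) *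
        Real.sin t ^ 2 := mul_le_mul_of_nonneg_right (le_max_right _ _) (sq_nonneg _)
  have h7 : max ((Real.cosh ξ / Real.cosh x0) ^ 2) ((Real.sinh ξ / Real.sinh x0) ^ 2) < 1 :=
    max_lt hA hB
  have h8 : max ((Real.cosh ξ / Real.cosh x0) ^ 2) ((Real.sinh ξ / Real.sinh x0) ^ 2) *
        Real.cos t ^ 2 + max ((Real.cosh ξ / Real.cosh x0) ^ 2)
        ((Real.sinh ξ / Real.sinh x0) ^ 2) * Real.sin t ^ 2 =
      max ((Real.cosh ξ / Real.cosh x0) ^ 2) ((Real.sinh ξ / Real.sinh x0) ^ 2) := by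
    rw [← mul_add, add_comm (Real.cos t ^ 2), h4, mul_one]
  linarith

theorem geom (a b c x0 ξ1 t1 r : ℝ) (hc : 0 < c) (hx : 0 < x0) (ha : a = c * Real.cosh x0)
    (hb : b = c * Real.sinh x0) (hr : 0 < r) (h1 : r < ξ1) (h2 : ξ1 + r < x0) :
    ∃ S : Set (ℝ × ℝ), MeasurableSet S ∧ MeasureTheory.volume S ≠ 0 ∧
      S ⊆ {x : ℝ × ℝ | (x.1 / a) ^ 2 + (x.2 / b) ^ 2 < 1} ∧
      ∀ x ∈ S, ∃ ξ ∈ Set.Icc (ξ1 - r) (ξ1 + r), ∃ t ∈ Set.Icc (t1 - r) (t1 + r),
        x = (c * Real.cosh ξ * Real.cos t, c * Real.sinh ξ * Real.sin t) := by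
  let F : ℂ → ℂ := fun z => (c : ℂ) * Complex.cosh z
  let z1 : ℂ := (ξ1 : ℂ) + (t1 : ℂ) * Complex.I
  let U : Set ℂ := {z | |z.re - ξ1| < r ∧ |z.im - t1| < r}
  have hUo : IsOpen U := by
    exact (isOpen_lt (Complex.continuous_re.sub continuous_const).abs continuous_const).inter
      (isOpen_lt (Complex.continuous_im.sub continuous_const).abs continuous_const)
  have hz1U : z1 ∈ U := by
    constructor
    · simp [z1, hr]
    · simp [z1, hr]
  have hξ1 : 0 < ξ1 := by linarith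
  have hsinh : Complex.sinh z1 ≠ 0 := by
    intro h
    have h3 : Complex.sinh z1 = ((Real.sinh ξ1 * Real.cos t1 : ℝ) : ℂ) +
        ((Real.cosh ξ1 * Real.sin t1 : ℝ) : ℂ) * Complex.I := by
      simp only [z1]
      rw [Complex.sinh_add, Complex.cosh_mul_I, Complex.sinh_mul_I]
      push_cast
      ring
    rw [h3] at h
    have hre := congrArg Complex.re h
    have him := congrArg Complex.im h
    simp only [Complex.add_re, Complex.ofReal_re, Complex.mul_re, Complex.I_re, mul_zero,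
      Complex.ofReal_im, Complex.I_im, mul_one, sub_self, add_zero, Complex.zero_re] at hre
    simp only [Complex.add_im, Complex.ofReal_im, Complex.mul_im, Complex.I_im, mul_one,
      Complex.ofReal_re, Complex.I_re, mul_zero, add_zero, zero_add, Complex.zero_im] at him
    have hs1 : 0 < Real.sinh ξ1 := Real.sinh_pos_iff.2 hξ1
    have hc1 : 0 < Real.cosh ξ1 := Real.cosh_pos ξ1
    have h4 : Real.cos t1 = 0 := by
      rcases mul_eq_zero.1 hre with h | h
      · exact absurd h hs1.ne'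
      · exact h
    have h5 : Real.sin t1 = 0 := by
      rcases mul_eq_zero.1 him with h | h
      · exact absurd h hc1.ne'
      · exact h
    have h6 := Real.sin_sq_add_cos_sq t1
    rw [h4, h5] at h6
    norm_num at h6
  have hder : HasStrictDerivAt F ((c : ℂ) * Complex.sinh z1) z1 :=
    (Complex.hasStrictDerivAt_cosh z1).const_mul (c : ℂ)
  have hmap := hder.map_nhds_eq (mul_ne_zero (by exact_mod_cast hc.ne') hsinh)
  have hW : F '' U ∈ nhds (F z1) := by
    rw [← hmap]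
    exact Filter.image_mem_map (hUo.mem_nhds hz1U)
  let e : ℝ × ℝ → ℂ := fun x => (x.1 : ℂ) + (x.2 : ℂ) * Complex.I
  have he : Continuous e := by fun_prop
  let S : Set (ℝ × ℝ) := e ⁻¹' interior (F '' U)
  have hSo : IsOpen S := isOpen_interior.preimage he
  have hSne : S.Nonempty := by
    refine ⟨(c * Real.cosh ξ1 * Real.cos t1, c * Real.sinh ξ1 * Real.sin t1), ?_⟩
    show e _ ∈ interior (F '' U)
    have h3 : e (c * Real.cosh ξ1 * Real.cos t1, c * Real.sinh ξ1 * Real.sin t1) = F z1 :=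
      (geom_cosh c ξ1 t1).symm
    rw [h3]
    exact mem_interior_iff_mem_nhds.2 hW
  have hSx : ∀ x ∈ S, ∃ ξ t : ℝ, |ξ - ξ1| < r ∧ |t - t1| < r ∧
      x = (c * Real.cosh ξ * Real.cos t, c * Real.sinh ξ * Real.sin t) := by
    intro x hx
    obtain ⟨z, ⟨hz1, hz2⟩, hz3⟩ := interior_subset hx
    refine ⟨z.re, z.im, hz1, hz2, ?_⟩
    have h3 : (c : ℂ) * Complex.cosh z = e x := hz3
    rw [← Complex.re_add_im z, geom_cosh] at h3
    have hre := congrArg Complex.re h3
    have him := congrArg Complex.im h3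
    simp only [e, Complex.add_re, Complex.ofReal_re, Complex.mul_re, Complex.I_re, mul_zero,
      Complex.ofReal_im, Complex.I_im, mul_one, sub_self, add_zero] at hre
    simp only [e, Complex.add_im, Complex.ofReal_im, Complex.mul_im, Complex.I_im, mul_one,
      Complex.ofReal_re, Complex.I_re, mul_zero, add_zero, zero_add] at him
    exact Prod.ext hre.symm him.symm
  refine ⟨S, hSo.measurableSet, hSo.measure_ne_zero _ hSne, ?_, ?_⟩
  · intro x hxS
    obtain ⟨ξ, t, hξ, ht, hxe⟩ := hSx x hxS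
    rw [abs_lt] at hξ
    have h3 := geom_ell x0 ξ t (by linarith) (by linarith)
    show (x.1 / a) ^ 2 + (x.2 / b) ^ 2 < 1
    rw [hxe, ha, hb]
    have hs0 : 0 < Real.sinh x0 := Real.sinh_pos_iff.2 hx
    have hc0 : 0 < Real.cosh x0 := Real.cosh_pos x0
    have h4 : c * Real.cosh ξ * Real.cos t / (c * Real.cosh x0) =
        Real.cosh ξ * Real.cos t / Real.cosh x0 := by
      rw [mul_assoc, mul_div_mul_left _ _ hc.ne']
    have h5 : c * Real.sinh ξ * Real.sin t / (c * Real.sinh x0) =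
        Real.sinh ξ * Real.sin t / Real.sinh x0 := by
      rw [mul_assoc, mul_div_mul_left _ _ hc.ne']
    simp only [h4, h5]
    exact h3
  · intro x hx
    obtain ⟨ξ, t, hξ, ht, hxe⟩ := hSx x hx
    rw [abs_lt] at hξ ht
    exact ⟨ξ, ⟨by linarith, by linarith⟩, t, ⟨by linarith, by linarith⟩, hxe⟩

end

end Pool.Agent.Helper482.Stk.M_e6
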