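import Pool.Agent.Helper482.Stk.Defs
import Pool.Agent.Helper482.Stk.M_f2

set_option autoImplicit false

namespace Pool.Agent.Helper482.Stk.M_w1

open Pool.Agent.Helper482.Stk
open Pool.Agent.Helper482.Stk.M_f2
open Real MeasureTheory intervalIntegral

noncomputable section

theorem wz_sum_u {δ : ℝ} (hδ : 0 < δ) :
    Summable (fun n : ℤ => |(n : ℝ)| * Real.exp (-(δ * |(n : ℝ)|))) := by
  have h := Real.summable_pow_mul_exp_neg_nat_mul 1 hδ
  apply Summable.of_nat_of_neg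
  · refine h.congr fun n => ?_
    simp
  · refine h.congr fun n => ?_
    simp

theorem wz_abs_sinh_le (u : ℝ) : |Real.sinh u| ≤ Real.exp |u| / 2 := by
  rw [Real.abs_sinh, Real.sinh_eq]
  have := Real.exp_pos (-|u|)
  linarith

theorem wz_cosh_ge (v : ℝ) : Real.exp |v| / 2 ≤ Real.cosh v := by
  rw [← Real.cosh_abs, Real.cosh_eq]
  have := Real.exp_pos (-|v|)
  linarith

theorem wz_bound_c {x0 y y1 : ℝ} (hy0 : 0 ≤ y) (hy : y ≤ y1) (hx : 0 < x0) (n : ℤ) :
    |(n : ℝ) * Real.sinh (n * y) / Real.cosh (n * x0)| ≤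
      |(n : ℝ)| * Real.exp (-((x0 - y1) * |(n : ℝ)|)) := by
  have hc : 0 < Real.cosh (n * x0) := Real.cosh_pos _
  rw [mul_div_assoc, abs_mul]
  apply mul_le_mul_of_nonneg_left _ (abs_nonneg _)
  rw [abs_div, abs_of_pos hc, div_le_iff₀ hc]
  have h1 := wz_abs_sinh_le (n * y)
  have h2 := wz_cosh_ge (n * x0)
  rw [abs_mul, abs_of_nonneg hy0] at h1
  rw [abs_mul, abs_of_pos hx] at h2
  have h3 : Real.exp (|(n : ℝ)| * y) ≤
      Real.exp (-((x0 - y1) * |(n : ℝ)|)) * Real.exp (|(n : ℝ)| * x0) := by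
    rw [← Real.exp_add]
    apply Real.exp_le_exp.2
    have := abs_nonneg (n : ℝ)
    nlinarith
  have h4 := Real.exp_pos (-((x0 - y1) * |(n : ℝ)|))
  nlinarith

theorem wz_C_pos {x0 : ℝ} (hx : 0 < x0) : 0 < 1 - Real.exp (-(2 * x0)) := by
  have : Real.exp (-(2 * x0)) < 1 := by
    rw [← Real.exp_zero]
    exact Real.exp_lt_exp.2 (by linarith)
  linarith

theorem wz_bound_s {x0 y y1 : ℝ} (hy0 : 0 ≤ y) (hy : y ≤ y1) (hx : 0 < x0) (n : ℤ) :
    |(n : ℝ) * Real.sinh (n * y) / Real.sinh (n * x0)| ≤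
      (1 - Real.exp (-(2 * x0)))⁻¹ * (|(n : ℝ)| * Real.exp (-((x0 - y1) * |(n : ℝ)|))) := by
  have hC := wz_C_pos hx
  rcases eq_or_ne n 0 with rfl | hn
  · simp
  have hn1 : (1 : ℝ) ≤ |(n : ℝ)| := by
    have : (1 : ℤ) ≤ |n| := Int.one_le_abs hn
    exact_mod_cast this
  have hsv : Real.exp (|(n : ℝ)| * x0) * (1 - Real.exp (-(2 * x0))) / 2 ≤
      |Real.sinh (n * x0)| := by
    rw [Real.abs_sinh, abs_mul, abs_of_pos hx, Real.sinh_eq]
    have h1 : Real.exp (-(|(n : ℝ)| * x0)) ≤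
        Real.exp (|(n : ℝ)| * x0) * Real.exp (-(2 * x0)) := by
      rw [← Real.exp_add]
      apply Real.exp_le_exp.2
      nlinarith
    linarith
  have hspos : 0 < |Real.sinh (n * x0)| := by
    refine lt_of_lt_of_le ?_ hsv
    have := Real.exp_pos (|(n : ℝ)| * x0)
    positivity
  rw [mul_div_assoc, abs_mul, mul_left_comm]
  apply mul_le_mul_of_nonneg_left _ (abs_nonneg _)
  rw [abs_div, div_le_iff₀ hspos]
  have h1 := wz_abs_sinh_le (n * y)
  rw [abs_mul, abs_of_nonneg hy0] at h1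
  have h3 : Real.exp (|(n : ℝ)| * y) ≤
      Real.exp (-((x0 - y1) * |(n : ℝ)|)) * Real.exp (|(n : ℝ)| * x0) := by
    rw [← Real.exp_add]
    apply Real.exp_le_exp.2
    have := abs_nonneg (n : ℝ)
    nlinarith
  have h4 := Real.exp_pos (-((x0 - y1) * |(n : ℝ)|))
  have h5 : (1 - Real.exp (-(2 * x0)))⁻¹ * Real.exp (-((x0 - y1) * |(n : ℝ)|)) *
      (Real.exp (|(n : ℝ)| * x0) * (1 - Real.exp (-(2 * x0))) / 2) ≤
      (1 - Real.exp (-(2 * x0)))⁻¹ * Real.exp (-((x0 - y1) * |(n : ℝ)|)) *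
      |Real.sinh (n * x0)| := mul_le_mul_of_nonneg_left hsv (by positivity)
  have h6 : (1 - Real.exp (-(2 * x0)))⁻¹ * Real.exp (-((x0 - y1) * |(n : ℝ)|)) *
      (Real.exp (|(n : ℝ)| * x0) * (1 - Real.exp (-(2 * x0))) / 2) =
      Real.exp (-((x0 - y1) * |(n : ℝ)|)) * Real.exp (|(n : ℝ)| * x0) / 2 := by
    field_simp
  linarith

theorem W_cont (x0 : ℝ) (hx : 0 < x0) (k : ℤ) :
    ContinuousOn (fun p : ℝ × ℝ => Wc x0 k p.1 p.2) (Set.Ioo 0 x0 ×ˢ Set.univ) ∧
    ContinuousOn (fun p : ℝ × ℝ => Ws x0 k p.1 p.2) (Set.Ioo 0 x0 ×ˢ Set.univ) := by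
  have hC := wz_C_pos hx
  constructor
  · rintro ⟨y, t⟩ ⟨hy, -⟩
    simp only at hy
    obtain ⟨y1, hy1, hy1'⟩ := exists_between hy.2
    have hloc : ContinuousOn (fun p : ℝ × ℝ => Wc x0 k p.1 p.2) (Set.Ioo 0 y1 ×ˢ Set.univ) := by
      unfold Wc
      apply continuousOn_tsum _ (wz_sum_u (sub_pos.2 hy1'))
      · intro n p hp
        split_ifs
        · rw [Real.norm_eq_abs, abs_mul]
          have h1 := wz_bound_c hp.1.1.le hp.1.2.le hx n
          have h2 := Real.abs_cos_le_one (n * p.2)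
          have h3 := abs_nonneg ((n : ℝ) * Real.sinh (n * p.1) / Real.cosh (n * x0))
          nlinarith [abs_nonneg (Real.cos (n * p.2))]
        · rw [norm_zero]
          positivity
      · intro n
        split_ifs
        · apply Continuous.continuousOn
          fun_prop
        · exact continuousOn_const
    apply ContinuousAt.continuousWithinAt
    apply hloc.continuousAt
    apply (isOpen_Ioo.prod isOpen_univ).mem_nhds
    exact ⟨⟨hy.1, hy1⟩, Set.mem_univ _⟩
  · rintro ⟨y, t⟩ ⟨hy, -⟩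
    simp only at hy
    obtain ⟨y1, hy1, hy1'⟩ := exists_between hy.2
    have hloc : ContinuousOn (fun p : ℝ × ℝ => Ws x0 k p.1 p.2) (Set.Ioo 0 y1 ×ˢ Set.univ) := by
      unfold Ws
      apply continuousOn_tsum _
        ((wz_sum_u (sub_pos.2 hy1')).mul_left (1 - Real.exp (-(2 * x0)))⁻¹)
      · intro n p hp
        split_ifs
        · rw [Real.norm_eq_abs, abs_mul]
          have h1 := wz_bound_s hp.1.1.le hp.1.2.le hx n
          have h2 := Real.abs_sin_le_one (n * p.2)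
          have h3 := abs_nonneg ((n : ℝ) * Real.sinh (n * p.1) / Real.sinh (n * x0))
          nlinarith [abs_nonneg (Real.sin (n * p.2))]
        · rw [norm_zero]
          positivity
      · intro n
        split_ifs
        · apply Continuous.continuousOn
          fun_prop
        · exact continuousOn_const
    apply ContinuousAt.continuousWithinAt
    apply hloc.continuousAt
    apply (isOpen_Ioo.prod isOpen_univ).mem_nhds
    exact ⟨⟨hy.1, hy1⟩, Set.mem_univ _⟩

/-- identity theorem for Fourier series with exponentially decaying coefficients -/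
theorem wz_ident {δ C : ℝ} (hδ : 0 < δ) (a : ℤ → ℂ)
    (ha : ∀ n, ‖a n‖ ≤ C * (|(n : ℝ)| * Real.exp (-(δ * |(n : ℝ)|)))) {α β : ℝ} (hαβ : α < β)
    (h0 : ∀ t ∈ Set.Ioo α β, ∑' n : ℤ, a n * Complex.exp (Complex.I * n * (t : ℂ)) = 0) :
    ∀ m, a m = 0 := by
  have hC : 0 ≤ C := by
    have h1 := ha 1
    have h2 := norm_nonneg (a 1)
    have h3 : 0 < |((1 : ℤ) : ℝ)| * Real.exp (-(δ * |((1 : ℤ) : ℝ)|)) := by positivity
    by_contra hneg
    push Not at hneg
    nlinarith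
  have hsum : Summable fun n => ‖a n‖ :=
    Summable.of_nonneg_of_le (fun n => norm_nonneg _) ha ((wz_sum_u hδ).mul_left C)
  let U : Set ℂ := {z | |z.im| < δ / 2}
  have hUo : IsOpen U := isOpen_lt (Complex.continuous_im.abs) continuous_const
  have hUc : IsPreconnected U := by
    have : U = Complex.imCLM ⁻¹' (Set.Ioo (-(δ / 2)) (δ / 2)) := by
      ext z
      simp only [U, Set.mem_setOf_eq, Set.mem_preimage, Set.mem_Ioo, abs_lt]
      rfl
    rw [this]
    exact ((convex_Ioo _ _).linear_preimage Complex.imCLM.toLinearMap).isPreconnected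
  let G : ℂ → ℂ := fun z => ∑' n : ℤ, a n * Complex.exp (Complex.I * n * z)
  have hG : DifferentiableOn ℂ G U := by
    apply Complex.differentiableOn_tsum_of_summable_norm
      ((wz_sum_u (half_pos hδ)).mul_left C) _ hUo
    · intro n z hz
      rw [norm_mul, Complex.norm_exp]
      have hre : (Complex.I * n * z).re = -(n * z.im) := by
        simp [Complex.mul_re, Complex.mul_im]
      rw [hre]
      have hz' : |z.im| < δ / 2 := hz
      have h1 : -((n : ℝ) * z.im) ≤ |(n : ℝ)| * (δ / 2) := by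
        have h2 := neg_abs_le ((n : ℝ) * z.im)
        rw [abs_mul] at h2
        have := abs_nonneg (n : ℝ)
        nlinarith
      have h3 : Real.exp (-((n : ℝ) * z.im)) ≤ Real.exp (|(n : ℝ)| * (δ / 2)) :=
        Real.exp_le_exp.2 h1
      have h4 : Real.exp (-(δ * |(n : ℝ)|)) * Real.exp (|(n : ℝ)| * (δ / 2)) =
          Real.exp (-(δ / 2 * |(n : ℝ)|)) := by
        rw [← Real.exp_add]
        congr 1
        ring
      calc ‖a n‖ * Real.exp (-((n : ℝ) * z.im))
          ≤ (C * (|(n : ℝ)| * Real.exp (-(δ * |(n : ℝ)|)))) *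
            Real.exp (|(n : ℝ)| * (δ / 2)) :=
            mul_le_mul (ha n) h3 (Real.exp_pos _).le (by positivity)
        _ = C * (|(n : ℝ)| * (Real.exp (-(δ * |(n : ℝ)|)) *
            Real.exp (|(n : ℝ)| * (δ / 2)))) := by ring
        _ = C * (|(n : ℝ)| * Real.exp (-(δ / 2 * |(n : ℝ)|))) := by rw [h4]
    · intro n
      apply Differentiable.differentiableOn
      fun_prop
  have hA : AnalyticOnNhd ℂ G U := hG.analyticOnNhd hUo
  have hz0 : (((α + β) / 2 : ℝ) : ℂ) ∈ U := by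
    simp only [U, Set.mem_setOf_eq, Complex.ofReal_im, abs_zero]
    linarith
  have hfreq : ∃ᶠ z in nhdsWithin (((α + β) / 2 : ℝ) : ℂ) {(((α + β) / 2 : ℝ) : ℂ)}ᶜ, G z = 0 := by
    have ht : Filter.Tendsto (fun t : ℝ => (t : ℂ)) (nhdsWithin ((α + β) / 2) {(α + β) / 2}ᶜ)
        (nhdsWithin (((α + β) / 2 : ℝ) : ℂ) {(((α + β) / 2 : ℝ) : ℂ)}ᶜ) := by
      apply tendsto_nhdsWithin_of_tendsto_nhds_of_eventually_within
      · exact (Complex.continuous_ofReal.tendsto _).mono_left nhdsWithin_le_nhds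
      · filter_upwards [self_mem_nhdsWithin] with t ht
        intro h
        exact ht (Complex.ofReal_injective h)
    apply ht.frequently
    apply Filter.Eventually.frequently
    have hmem : Set.Ioo α β ∈ nhdsWithin ((α + β) / 2) {(α + β) / 2}ᶜ :=
      nhdsWithin_le_nhds (Ioo_mem_nhds (by linarith) (by linarith))
    filter_upwards [hmem] with t ht
    exact h0 t ht
  have hEq := hA.eqOn_zero_of_preconnected_of_frequently_eq_zero hUc hz0 hfreq
  intro m
  obtain ⟨-, -, hfc⟩ := fc_synth a hsum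
  rw [← hfc m]
  have hz : (fun t : ℝ => ∑' n : ℤ, a n * Complex.exp (Complex.I * n * t)) = fun _ => 0 := by
    funext t
    have : (t : ℂ) ∈ U := by
      simp only [U, Set.mem_setOf_eq, Complex.ofReal_im, abs_zero]
      linarith
    exact hEq this
  rw [hz]
  simp [fc]

theorem wz_summable_of {δ C : ℝ} (hδ : 0 < δ) (b : ℤ → ℝ)
    (hb : ∀ n, |b n| ≤ C * (|(n : ℝ)| * Real.exp (-(δ * |(n : ℝ)|)))) :
    Summable fun n => ((b n : ℝ) : ℂ) := by
  apply Summable.of_norm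
  apply Summable.of_nonneg_of_le (fun n => norm_nonneg _) _ ((wz_sum_u hδ).mul_left C)
  intro n
  rw [Complex.norm_real]
  exact hb n

theorem wz_summable_exp {δ C : ℝ} (hδ : 0 < δ) (b : ℤ → ℝ)
    (hb : ∀ n, |b n| ≤ C * (|(n : ℝ)| * Real.exp (-(δ * |(n : ℝ)|)))) (t : ℝ) :
    Summable fun n : ℤ => ((b n : ℝ) : ℂ) * Complex.exp (Complex.I * n * t) := by
  apply Summable.of_norm
  apply Summable.of_nonneg_of_le (fun n => norm_nonneg _) _ ((wz_sum_u hδ).mul_left C)
  intro n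
  rw [norm_mul, Complex.norm_real]
  have : ‖Complex.exp (Complex.I * n * t)‖ = 1 := by
    have e : Complex.I * n * t = ((n * t : ℝ) : ℂ) * Complex.I := by push_cast; ring
    rw [e, Complex.norm_exp_ofReal_mul_I]
  rw [this, mul_one]
  exact hb n

/-- cosine series with even coefficients -/
theorem wz_cos {δ C : ℝ} (hδ : 0 < δ) (b : ℤ → ℝ)
    (hb : ∀ n, |b n| ≤ C * (|(n : ℝ)| * Real.exp (-(δ * |(n : ℝ)|))))
    (heven : ∀ n, b (-n) = b n) (t : ℝ) :
    ((∑' n : ℤ, b n * Real.cos (n * t) : ℝ) : ℂ) =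
      ∑' n : ℤ, ((b n : ℝ) : ℂ) * Complex.exp (Complex.I * n * t) := by
  have h1 := wz_summable_exp hδ b hb t
  have h2 : ∑' n : ℤ, ((b n : ℝ) : ℂ) * Complex.exp (Complex.I * n * t) =
      ∑' n : ℤ, ((b n : ℝ) : ℂ) * Complex.exp (-(Complex.I * n * t)) := by
    rw [← (Equiv.neg ℤ).tsum_eq]
    refine tsum_congr fun n => ?_
    simp only [Equiv.neg_apply, heven]
    congr 2
    push_cast
    ring
  have h3 : Summable fun n : ℤ => ((b n : ℝ) : ℂ) * Complex.exp (-(Complex.I * n * t)) := by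
    rw [← (Equiv.neg ℤ).summable_iff]
    refine h1.congr fun n => ?_
    simp only [Function.comp, Equiv.neg_apply, heven]
    congr 2
    push_cast
    ring
  rw [Complex.ofReal_tsum]
  have h4 : ∀ n : ℤ, ((b n * Real.cos (n * t) : ℝ) : ℂ) =
      (((b n : ℝ) : ℂ) * Complex.exp (Complex.I * n * t) +
        ((b n : ℝ) : ℂ) * Complex.exp (-(Complex.I * n * t))) / 2 := by
    intro n
    push_cast
    rw [Complex.cos]
    have e1 : Complex.I * n * t = (n * t : ℂ) * Complex.I := by ring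
    have e2 : -((n * t : ℂ) * Complex.I) = -(n * t : ℂ) * Complex.I := by ring
    rw [e1, e2]
    ring
  simp only [h4]
  rw [tsum_div_const, h1.tsum_add h3, ← h2]
  ring

/-- sine series with odd coefficients -/
theorem wz_sin {δ C : ℝ} (hδ : 0 < δ) (b : ℤ → ℝ)
    (hb : ∀ n, |b n| ≤ C * (|(n : ℝ)| * Real.exp (-(δ * |(n : ℝ)|))))
    (hodd : ∀ n, b (-n) = - b n) (t : ℝ) :
    ((∑' n : ℤ, b n * Real.sin (n * t) : ℝ) : ℂ) =
      -Complex.I * ∑' n : ℤ, ((b n : ℝ) : ℂ) * Complex.exp (Complex.I * n * t) := by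
  have h1 := wz_summable_exp hδ b hb t
  have h2 : ∑' n : ℤ, ((b n : ℝ) : ℂ) * Complex.exp (-(Complex.I * n * t)) =
      -∑' n : ℤ, ((b n : ℝ) : ℂ) * Complex.exp (Complex.I * n * t) := by
    rw [← (Equiv.neg ℤ).tsum_eq, ← tsum_neg]
    refine tsum_congr fun n => ?_
    simp only [Equiv.neg_apply, hodd]
    push_cast
    have e : -(Complex.I * -(n : ℂ) * t) = Complex.I * n * t := by ring
    rw [e]
    ring
  have h3 : Summable fun n : ℤ => ((b n : ℝ) : ℂ) * Complex.exp (-(Complex.I * n * t)) := by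
    rw [← (Equiv.neg ℤ).summable_iff]
    refine h1.neg.congr fun n => ?_
    simp only [Function.comp, Equiv.neg_apply, hodd]
    push_cast
    have e : -(Complex.I * -(n : ℂ) * t) = Complex.I * n * t := by ring
    rw [e]
    ring
  rw [Complex.ofReal_tsum]
  have h4 : ∀ n : ℤ, ((b n * Real.sin (n * t) : ℝ) : ℂ) =
      (((b n : ℝ) : ℂ) * Complex.exp (-(Complex.I * n * t)) -
        ((b n : ℝ) : ℂ) * Complex.exp (Complex.I * n * t)) * (Complex.I / 2) := by
    intro n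
    push_cast
    rw [Complex.sin]
    have e1 : Complex.I * n * t = (n * t : ℂ) * Complex.I := by ring
    have e2 : -((n * t : ℂ) * Complex.I) = -(n * t : ℂ) * Complex.I := by ring
    rw [e1, e2]
    ring
  simp only [h4]
  rw [tsum_mul_right, h3.tsum_sub h1, h2]
  ring

theorem wz_even_iff (n k : ℤ) : Even (-n + k) ↔ Even (n + k) := by
  rw [Int.even_add, Int.even_add, even_neg]

/-- nonvanishing of the cosine profile somewhere -/
theorem wz_nz_c (x0 y : ℝ) (hy0 : 0 < y) (hy : y < x0) (k : ℤ) {α β : ℝ} (hαβ : α < β) :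
    ∃ t ∈ Set.Ioo α β, Wc x0 k y t ≠ 0 := by
  by_contra hcon
  push Not at hcon
  have hx : 0 < x0 := hy0.trans hy
  let b : ℤ → ℝ := fun n => if Even (n + k) then n * Real.sinh (n * y) / Real.cosh (n * x0) else 0
  have hb : ∀ n, |b n| ≤ 1 * (|(n : ℝ)| * Real.exp (-((x0 - y) * |(n : ℝ)|))) := by
    intro n
    simp only [b]
    split_ifs
    · rw [one_mul]
      exact wz_bound_c hy0.le le_rfl hx n
    · rw [abs_zero]; positivity
  have heven : ∀ n, b (-n) = b n := by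
    intro n
    simp only [b, wz_even_iff]
    push_cast
    split_ifs
    · have e1 : -(n : ℝ) * y = -(n * y) := by ring
      have e2 : -(n : ℝ) * x0 = -(n * x0) := by ring
      rw [e1, e2, Real.sinh_neg, Real.cosh_neg]
      ring
    · rfl
  have hW : ∀ t, Wc x0 k y t = ∑' n : ℤ, b n * Real.cos (n * t) := by
    intro t
    rw [Wc]
    refine tsum_congr fun n => ?_
    simp only [b]
    split_ifs
    · rfl
    · rw [zero_mul]
  have hzero := wz_ident (sub_pos.2 hy) (fun n => ((b n : ℝ) : ℂ)) (C := 1)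
    (fun n => by rw [Complex.norm_real]; exact hb n) hαβ (fun t ht => by
      rw [← wz_cos (sub_pos.2 hy) b hb heven t, ← hW t, hcon t ht, Complex.ofReal_zero])
  rcases Int.even_or_odd k with hk | hk
  · have h2 := hzero 2
    have h3 : b 2 = 0 := by exact_mod_cast h2
    have hE : Even (2 + k) := by
      rw [Int.even_add]; simp [hk]
    simp only [b, hE, if_true] at h3
    have h4 : 0 < Real.sinh (((2 : ℤ) : ℝ) * y) := Real.sinh_pos_iff.2 (by push_cast; linarith)
    have h5 : 0 < Real.cosh (((2 : ℤ) : ℝ) * x0) := Real.cosh_pos _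
    have h6 : 0 < ((2 : ℤ) : ℝ) * Real.sinh (((2 : ℤ) : ℝ) * y) /
        Real.cosh (((2 : ℤ) : ℝ) * x0) := by positivity
    exact h6.ne' h3
  · have h2 := hzero 1
    have h3 : b 1 = 0 := by exact_mod_cast h2
    have hE : Even (1 + k) := by
      rw [Int.even_add]
      simp [hk]
    simp only [b, hE, if_true] at h3
    have h4 : 0 < Real.sinh (((1 : ℤ) : ℝ) * y) := Real.sinh_pos_iff.2 (by push_cast; linarith)
    have h5 : 0 < Real.cosh (((1 : ℤ) : ℝ) * x0) := Real.cosh_pos _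
    have h6 : 0 < ((1 : ℤ) : ℝ) * Real.sinh (((1 : ℤ) : ℝ) * y) /
        Real.cosh (((1 : ℤ) : ℝ) * x0) := by positivity
    exact h6.ne' h3

theorem wz_nz_s (x0 y : ℝ) (hy0 : 0 < y) (hy : y < x0) (k : ℤ) {α β : ℝ} (hαβ : α < β) :
    ∃ t ∈ Set.Ioo α β, Ws x0 k y t ≠ 0 := by
  by_contra hcon
  push Not at hcon
  have hx : 0 < x0 := hy0.trans hy
  have hC := wz_C_pos hx
  let b : ℤ → ℝ := fun n => if Even (n + k) then n * Real.sinh (n * y) / Real.sinh (n * x0) else 0
  have hb : ∀ n, |b n| ≤ (1 - Real.exp (-(2 * x0)))⁻¹ *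
      (|(n : ℝ)| * Real.exp (-((x0 - y) * |(n : ℝ)|))) := by
    intro n
    simp only [b]
    split_ifs
    · exact wz_bound_s hy0.le le_rfl hx n
    · rw [abs_zero]; positivity
  have hodd : ∀ n, b (-n) = - b n := by
    intro n
    simp only [b, wz_even_iff]
    push_cast
    split_ifs
    · have e1 : -(n : ℝ) * y = -(n * y) := by ring
      have e2 : -(n : ℝ) * x0 = -(n * x0) := by ring
      rw [e1, e2, Real.sinh_neg, Real.sinh_neg, div_neg]
      ring
    · simp
  have hW : ∀ t, Ws x0 k y t = ∑' n : ℤ, b n * Real.sin (n * t) := by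
    intro t
    rw [Ws]
    refine tsum_congr fun n => ?_
    simp only [b]
    split_ifs
    · rfl
    · rw [zero_mul]
  have hzero := wz_ident (sub_pos.2 hy) (fun n => ((b n : ℝ) : ℂ))
    (C := (1 - Real.exp (-(2 * x0)))⁻¹)
    (fun n => by rw [Complex.norm_real]; exact hb n) hαβ (fun t ht => by
      have h1 := wz_sin (sub_pos.2 hy) b hb hodd t
      rw [← hW t, hcon t ht, Complex.ofReal_zero] at h1
      have h2 := h1.symm
      rcases mul_eq_zero.1 h2 with h3 | h3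
      · exact absurd h3 (neg_ne_zero.2 Complex.I_ne_zero)
      · exact h3)
  rcases Int.even_or_odd k with hk | hk
  · have h2 := hzero 2
    have h3 : b 2 = 0 := by exact_mod_cast h2
    have hE : Even (2 + k) := by
      rw [Int.even_add]; simp [hk]
    simp only [b, hE, if_true] at h3
    have h4 : 0 < Real.sinh (((2 : ℤ) : ℝ) * y) := Real.sinh_pos_iff.2 (by push_cast; linarith)
    have h5 : 0 < Real.sinh (((2 : ℤ) : ℝ) * x0) := Real.sinh_pos_iff.2 (by push_cast; linarith)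
    have h6 : 0 < ((2 : ℤ) : ℝ) * Real.sinh (((2 : ℤ) : ℝ) * y) /
        Real.sinh (((2 : ℤ) : ℝ) * x0) := by positivity
    exact h6.ne' h3
  · have h2 := hzero 1
    have h3 : b 1 = 0 := by exact_mod_cast h2
    have hE : Even (1 + k) := by
      rw [Int.even_add]
      simp [hk]
    simp only [b, hE, if_true] at h3
    have h4 : 0 < Real.sinh (((1 : ℤ) : ℝ) * y) := Real.sinh_pos_iff.2 (by push_cast; linarith)
    have h5 : 0 < Real.sinh (((1 : ℤ) : ℝ) * x0) := Real.sinh_pos_iff.2 (by push_cast; linarith)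
    have h6 : 0 < ((1 : ℤ) : ℝ) * Real.sinh (((1 : ℤ) : ℝ) * y) /
        Real.sinh (((1 : ℤ) : ℝ) * x0) := by positivity
    exact h6.ne' h3

/-- shrinking an interval on which a continuous function is nonzero somewhere -/
theorem wz_shrink {f : ℝ → ℝ} (hf : Continuous f) {α β : ℝ}
    (h : ∃ t ∈ Set.Ioo α β, f t ≠ 0) :
    ∃ α' β', α < β' ∧ α ≤ α' ∧ β' ≤ β ∧ α' < β' ∧ ∀ t ∈ Set.Ioo α' β', f t ≠ 0 := by
  obtain ⟨t, ht, hft⟩ := h
  have h1 : {s | f s ≠ 0} ∩ Set.Ioo α β ∈ nhds t :=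
    Filter.inter_mem ((isOpen_ne_fun hf continuous_const).mem_nhds hft)
      (Ioo_mem_nhds ht.1 ht.2)
  obtain ⟨l, u, hlu, hsub⟩ := mem_nhds_iff_exists_Ioo_subset.1 h1
  have hne : l < u := hlu.1.trans hlu.2
  refine ⟨max l α, min u β, ?_, le_max_right _ _, min_le_right _ _, ?_, ?_⟩
  · exact lt_min (ht.1.trans hlu.2) (ht.1.trans ht.2)
  · exact max_lt (lt_min hne (hlu.1.trans ht.2)) (lt_min (ht.1.trans hlu.2) (ht.1.trans ht.2))
  · intro s hs
    exact (hsub ⟨lt_of_le_of_lt (le_max_left _ _) hs.1, lt_of_lt_of_le hs.2 (min_le_left _ _)⟩).1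

theorem wz_par_c (x0 y t : ℝ) (k k' : ℤ) (h : Even k ↔ Even k') : Wc x0 k y t = Wc x0 k' y t := by
  unfold Wc
  refine tsum_congr fun n => ?_
  have : Even (n + k) ↔ Even (n + k') := by
    rw [Int.even_add, Int.even_add, h]
  simp only [this]

theorem wz_par_s (x0 y t : ℝ) (k k' : ℤ) (h : Even k ↔ Even k') : Ws x0 k y t = Ws x0 k' y t := by
  unfold Ws
  refine tsum_congr fun n => ?_
  have : Even (n + k) ↔ Even (n + k') := by
    rw [Int.even_add, Int.even_add, h]
  simp only [this]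

theorem W_nz (x0 y α β : ℝ) (hy0 : 0 < y) (hy : y < x0) (hαβ : α < β) :
    ∃ t ∈ Set.Ioo α β, ∀ k : ℤ, Wc x0 k y t ≠ 0 ∧ Ws x0 k y t ≠ 0 := by
  have hx : 0 < x0 := hy0.trans hy
  have hcc : ∀ k, Continuous (fun t => Wc x0 k y t) := by
    intro k
    have h1 := (W_cont x0 hx k).1
    rw [← continuousOn_univ]
    exact h1.comp (f := fun t : ℝ => ((y, t) : ℝ × ℝ)) (by fun_prop)
      (fun t _ => ⟨⟨hy0, hy⟩, Set.mem_univ _⟩)
  have hcs : ∀ k, Continuous (fun t => Ws x0 k y t) := by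
    intro k
    have h1 := (W_cont x0 hx k).2
    rw [← continuousOn_univ]
    exact h1.comp (f := fun t : ℝ => ((y, t) : ℝ × ℝ)) (by fun_prop)
      (fun t _ => ⟨⟨hy0, hy⟩, Set.mem_univ _⟩)
  obtain ⟨α1, β1, -, ha1, hb1, h1, hn1⟩ := wz_shrink (hcc 0) (wz_nz_c x0 y hy0 hy 0 hαβ)
  obtain ⟨α2, β2, -, ha2, hb2, h2, hn2⟩ := wz_shrink (hcc 1) (wz_nz_c x0 y hy0 hy 1 h1)
  obtain ⟨α3, β3, -, ha3, hb3, h3, hn3⟩ := wz_shrink (hcs 0) (wz_nz_s x0 y hy0 hy 0 h2)
  obtain ⟨t, ht, hn4⟩ := wz_nz_s x0 y hy0 hy 1 h3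
  have ht3 : t ∈ Set.Ioo α3 β3 := ht
  have ht2 : t ∈ Set.Ioo α2 β2 := ⟨by linarith [ht.1], by linarith [ht.2]⟩
  have ht1 : t ∈ Set.Ioo α1 β1 := ⟨by linarith [ht2.1], by linarith [ht2.2]⟩
  refine ⟨t, ⟨by linarith [ht1.1], by linarith [ht1.2]⟩, fun k => ?_⟩
  rcases Int.even_or_odd k with hk | hk
  · rw [wz_par_c x0 y t k 0 (by simp [hk]), wz_par_s x0 y t k 0 (by simp [hk])]
    exact ⟨hn1 t ht1, hn3 t ht3⟩
  · have hk' : ¬ Even k := Int.not_even_iff_odd.2 hk
    rw [wz_par_c x0 y t k 1 (by simp [hk']), wz_par_s x0 y t k 1 (by simp [hk'])]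
    exact ⟨hn2 t ht2, hn4⟩

end

end Pool.Agent.Helper482.Stk.M_w1
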