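import Pool.Agent.Helper482.Stk.Defs
import Pool.Agent.Helper482.Stk.M_p3
import Pool.Agent.Helper482.Stk.M_p7
import Pool.Agent.Helper482.Stk.M_w1

set_option autoImplicit false

namespace Pool.Agent.Helper482.Stk.M_w2

open Pool.Agent.Helper482.Stk
open Pool.Agent.Helper482.Stk.M_p3
open Pool.Agent.Helper482.Stk.M_p7
open Pool.Agent.Helper482.Stk.M_w1
open Real MeasureTheory intervalIntegral

noncomputable section

theorem box_loc (x0 : ℝ) (f : ℝ × ℝ → ℝ) (hf : ContinuousOn f (Set.Ioo 0 x0 ×ˢ Set.univ))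
    (p : ℝ × ℝ) (hp : p.1 ∈ Set.Ioo 0 x0) (hne : f p ≠ 0) :
    ∃ r > 0, ∃ δ > 0, ∃ ε : ℝ, (ε = 1 ∨ ε = -1) ∧ ∀ q : ℝ × ℝ, q.1 ∈ Set.Ioo 0 x0 →
      dist q p ≤ r → δ ≤ ε * f q := by
  have hp' : p ∈ Set.Ioo 0 x0 ×ˢ (Set.univ : Set ℝ) := ⟨hp, trivial⟩
  obtain ⟨r, hr, h⟩ := Metric.continuousOn_iff.1 hf p hp' (|f p| / 2) (by positivity)
  refine ⟨r / 2, by positivity, |f p| / 2, by positivity, ?_⟩
  rcases lt_or_gt_of_ne hne with h0 | h0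
  · refine ⟨-1, Or.inr rfl, ?_⟩
    intro q hq hd
    have h1 := h q ⟨hq, trivial⟩ (by linarith)
    rw [Real.dist_eq, abs_of_neg h0] at h1
    rw [abs_of_neg h0]
    have h2 := (abs_lt.1 h1).2
    linarith
  · refine ⟨1, Or.inl rfl, ?_⟩
    intro q hq hd
    have h1 := h q ⟨hq, trivial⟩ (by linarith)
    rw [Real.dist_eq, abs_of_pos h0] at h1
    rw [abs_of_pos h0]
    have h2 := (abs_lt.1 h1).1
    linarith

theorem box_parity (x0 : ℝ) (k : ℤ) :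
    (Wc x0 k = Wc x0 0 ∧ Ws x0 k = Ws x0 0) ∨ (Wc x0 k = Wc x0 1 ∧ Ws x0 k = Ws x0 1) := by
  by_cases hk : Even k
  · left
    have h : ∀ n : ℤ, Even (n + k) ↔ Even (n + 0) := by
      intro n
      rw [Int.even_add, add_zero]
      simp [hk]
    constructor
    · unfold Wc
      simp only [h]
    · unfold Ws
      simp only [h]
  · right
    have h : ∀ n : ℤ, Even (n + k) ↔ Even (n + 1) := by
      intro n
      rw [Int.even_add, Int.even_add]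
      simp [hk]
    constructor
    · unfold Wc
      simp only [h]
    · unfold Ws
      simp only [h]

theorem box (c x0 : ℝ) (hc : 0 < c) (hx : 0 < x0) :
    ∃ ξ1 t1 r δ : ℝ, 0 < r ∧ 0 < δ ∧ r < ξ1 ∧ ξ1 + r < x0 ∧
      (∀ ξ ∈ Set.Icc (ξ1 - r) (ξ1 + r), ∀ t ∈ Set.Icc (t1 - r) (t1 + r),
        S1 c x0 + δ ≤ (PhiG c x0 (x0 - ξ) t).im) ∧
      (∀ k : ℤ, ∃ ε : ℝ, (ε = 1 ∨ ε = -1) ∧ ∀ ξ ∈ Set.Icc (ξ1 - r) (ξ1 + r),
        ∀ t ∈ Set.Icc (t1 - r) (t1 + r), δ ≤ ε * Wc x0 k (x0 - ξ) t) ∧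
      (∀ k : ℤ, ∃ ε : ℝ, (ε = 1 ∨ ε = -1) ∧ ∀ ξ ∈ Set.Icc (ξ1 - r) (ξ1 + r),
        ∀ t ∈ Set.Icc (t1 - r) (t1 + r), δ ≤ ε * Ws x0 k (x0 - ξ) t) := by
  obtain ⟨-, -, -, hcont, -⟩ := PhiG_basic c x0 hc hx
  obtain ⟨-, ⟨m, hm, M, hM, hmM⟩, -⟩ := Phi_top c x0 hc hx
  have hpi : 0 < π := Real.pi_pos
  have hP := (hmM (π / 2) ⟨by positivity, le_rfl⟩).1
  set d : ℝ := m * (π / 2) ^ (3 / 2 : ℝ) / 2 with hd
  have hd0 : 0 < d := by positivity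
  have hcont' : ContinuousOn (fun p : ℝ × ℝ => (PhiG c x0 p.1 p.2).im)
      (Set.Icc 0 x0 ×ˢ Set.univ) := Complex.continuous_im.comp_continuousOn hcont
  obtain ⟨η, hη, hηc⟩ := Metric.continuousOn_iff.1 hcont' (x0, π / 2)
    ⟨⟨hx.le, le_rfl⟩, trivial⟩ d hd0
  -- choice of ξ1
  set ξ1 : ℝ := min η x0 / 4 with hξ
  have hmin : 0 < min η x0 := lt_min hη hx
  have hξ0 : 0 < ξ1 := by positivity
  have hξη : 4 * ξ1 ≤ η := by
    have := min_le_left η x0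
    rw [hξ]; linarith
  have hξx : 4 * ξ1 ≤ x0 := by
    have := min_le_right η x0
    rw [hξ]; linarith
  obtain ⟨t1, ht1, hnz⟩ := W_nz x0 (x0 - ξ1) (π / 2 - ξ1) (π / 2 + ξ1) (by linarith) (by linarith)
    (by linarith)
  have hp : ((x0 - ξ1, t1) : ℝ × ℝ).1 ∈ Set.Ioo 0 x0 := ⟨by simp only; linarith, by simp only; linarith⟩
  obtain ⟨r1, hr1, δ1, hδ1, ε1, he1, h1⟩ := box_loc x0 _ (W_cont x0 hx 0).1 (x0 - ξ1, t1) hp (hnz 0).1
  obtain ⟨r2, hr2, δ2, hδ2, ε2, he2, h2⟩ := box_loc x0 _ (W_cont x0 hx 0).2 (x0 - ξ1, t1) hp (hnz 0).2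
  obtain ⟨r3, hr3, δ3, hδ3, ε3, he3, h3⟩ := box_loc x0 _ (W_cont x0 hx 1).1 (x0 - ξ1, t1) hp (hnz 1).1
  obtain ⟨r4, hr4, δ4, hδ4, ε4, he4, h4⟩ := box_loc x0 _ (W_cont x0 hx 1).2 (x0 - ξ1, t1) hp (hnz 1).2
  set r : ℝ := min (min (min r1 r2) (min r3 r4)) (ξ1 / 2) with hr
  have hr0 : 0 < r := by positivity
  have hrξ : r ≤ ξ1 / 2 := min_le_right _ _
  have hrr1 : r ≤ r1 := (min_le_left _ _).trans ((min_le_left _ _).trans (min_le_left _ _))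
  have hrr2 : r ≤ r2 := (min_le_left _ _).trans ((min_le_left _ _).trans (min_le_right _ _))
  have hrr3 : r ≤ r3 := (min_le_left _ _).trans ((min_le_right _ _).trans (min_le_left _ _))
  have hrr4 : r ≤ r4 := (min_le_left _ _).trans ((min_le_right _ _).trans (min_le_right _ _))
  set δ : ℝ := min (min (min δ1 δ2) (min δ3 δ4)) d with hδ
  have hδ0 : 0 < δ := by positivity
  have hδd : δ ≤ d := min_le_right _ _
  have hδδ1 : δ ≤ δ1 := (min_le_left _ _).trans ((min_le_left _ _).trans (min_le_left _ _))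
  have hδδ2 : δ ≤ δ2 := (min_le_left _ _).trans ((min_le_left _ _).trans (min_le_right _ _))
  have hδδ3 : δ ≤ δ3 := (min_le_left _ _).trans ((min_le_right _ _).trans (min_le_left _ _))
  have hδδ4 : δ ≤ δ4 := (min_le_left _ _).trans ((min_le_right _ _).trans (min_le_right _ _))
  have hbox : ∀ ξ ∈ Set.Icc (ξ1 - r) (ξ1 + r), ∀ t ∈ Set.Icc (t1 - r) (t1 + r),
      ((x0 - ξ, t) : ℝ × ℝ).1 ∈ Set.Ioo 0 x0 ∧ dist ((x0 - ξ, t) : ℝ × ℝ) (x0 - ξ1, t1) ≤ r := by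
    intro ξ hξ t ht
    refine ⟨⟨by simp only; linarith [hξ.2], by simp only; linarith [hξ.1]⟩, ?_⟩
    rw [Prod.dist_eq]
    apply max_le
    · rw [Real.dist_eq, abs_le]
      constructor <;> simp only <;> linarith [hξ.1, hξ.2]
    · rw [Real.dist_eq, abs_le]
      constructor <;> simp only <;> linarith [ht.1, ht.2]
  clear_value ξ1 r δ d
  refine ⟨ξ1, t1, r, δ, hr0, hδ0, by linarith, by linarith, ?_, ?_, ?_⟩
  · intro ξ hξ t ht
    have hdist : dist ((x0 - ξ, t) : ℝ × ℝ) (x0, π / 2) < η := by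
      rw [Prod.dist_eq]
      apply max_lt
      · rw [Real.dist_eq, abs_lt]
        constructor <;> simp only <;> linarith [hξ.1, hξ.2]
      · rw [Real.dist_eq, abs_lt]
        constructor <;> simp only <;> linarith [ht.1, ht.2, ht1.1, ht1.2]
    have hmem : ((x0 - ξ, t) : ℝ × ℝ) ∈ Set.Icc 0 x0 ×ˢ (Set.univ : Set ℝ) := by
      refine Set.mk_mem_prod ⟨?_, ?_⟩ (Set.mem_univ _)
      · linarith [hξ.2]
      · linarith [hξ.1]
    have h := hηc _ hmem hdist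
    rw [Real.dist_eq] at h
    have h' := (abs_lt.1 h).1
    simp only at h'
    linarith
  · intro k
    rcases box_parity x0 k with ⟨e, -⟩ | ⟨e, -⟩
    · refine ⟨ε1, he1, ?_⟩
      intro ξ hξ t ht
      rw [e]
      obtain ⟨a, b⟩ := hbox ξ hξ t ht
      exact hδδ1.trans (h1 (x0 - ξ, t) a (b.trans hrr1))
    · refine ⟨ε3, he3, ?_⟩
      intro ξ hξ t ht
      rw [e]
      obtain ⟨a, b⟩ := hbox ξ hξ t ht
      exact hδδ3.trans (h3 (x0 - ξ, t) a (b.trans hrr3))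
  · intro k
    rcases box_parity x0 k with ⟨-, e⟩ | ⟨-, e⟩
    · refine ⟨ε2, he2, ?_⟩
      intro ξ hξ t ht
      rw [e]
      obtain ⟨a, b⟩ := hbox ξ hξ t ht
      exact hδδ2.trans (h2 (x0 - ξ, t) a (b.trans hrr2))
    · refine ⟨ε4, he4, ?_⟩
      intro ξ hξ t ht
      rw [e]
      obtain ⟨a, b⟩ := hbox ξ hξ t ht
      exact hδδ4.trans (h4 (x0 - ξ, t) a (b.trans hrr4))

end

end Pool.Agent.Helper482.Stk.M_w2
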