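import Pool.Agent.Helper482.Stk.Defs
import Pool.Agent.Helper482.Stk.M_d3
import Pool.Agent.Helper482.Stk.M_d4
import Pool.Agent.Helper482.Stk.M_e3
import Pool.Agent.Helper482.Stk.M_e4
import Pool.Agent.Helper482.Stk.M_e5
import Pool.Agent.Helper482.Stk.M_e6
import Pool.Agent.Helper482.Stk.M_w2

set_option autoImplicit false

namespace Pool.Agent.Helper482.Stk.M_e7

open Pool.Agent.Helper482.Stk
open Pool.Agent.Helper482.Stk.M_d3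
open Pool.Agent.Helper482.Stk.M_d4
open Pool.Agent.Helper482.Stk.M_e3
open Pool.Agent.Helper482.Stk.M_e4
open Pool.Agent.Helper482.Stk.M_e5
open Pool.Agent.Helper482.Stk.M_e6
open Pool.Agent.Helper482.Stk.M_w2
open Real MeasureTheory intervalIntegral

noncomputable section

theorem rc_zero_of {f : ℝ → ℝ} (hf : ∀ t, f t = 0) (n : ℤ) : rc f n = 0 := by
  unfold rc fc
  simp only [hf, Complex.ofReal_zero, zero_mul, intervalIntegral.integral_zero, mul_zero]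



theorem steklov_main (a b : ℝ) (hb : 0 < b) (hab : b < a) :
    ∃ S : Set (ℝ × ℝ), MeasurableSet S ∧ MeasureTheory.volume S ≠ 0 ∧
      S ⊆ {x : ℝ × ℝ | (x.1 / a) ^ 2 + (x.2 / b) ^ 2 < 1} ∧
      ∃ Λ : ℝ, ∀ σ : ℝ, Λ ≤ σ → ∀ u : ℝ × ℝ → ℝ, ContDiff ℝ 2 u →
        (∀ x : ℝ × ℝ, (x.1 / a) ^ 2 + (x.2 / b) ^ 2 < 1 →
          fderiv ℝ (fun y => fderiv ℝ u y ((1 : ℝ), (0 : ℝ))) x ((1 : ℝ), (0 : ℝ)) +
            fderiv ℝ (fun y => fderiv ℝ u y ((0 : ℝ), (1 : ℝ))) x ((0 : ℝ), (1 : ℝ)) = 0) →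
        (∀ p : ℝ × ℝ, (p.1 / a) ^ 2 + (p.2 / b) ^ 2 = 1 →
          fderiv ℝ u p (p.1 / a ^ 2, p.2 / b ^ 2) =
            σ * Real.sqrt ((p.1 / a ^ 2) ^ 2 + (p.2 / b ^ 2) ^ 2) * u p) →
        (∀ x ∈ S, 0 ≤ u x) ∨ (∀ x ∈ S, u x ≤ 0) := by
  have ha : 0 < a := hb.trans hab
  have hc2 : 0 < a ^ 2 - b ^ 2 := by nlinarith
  obtain ⟨c, hc, hcc⟩ : ∃ c : ℝ, 0 < c ∧ c ^ 2 = a ^ 2 - b ^ 2 :=
    ⟨Real.sqrt (a ^ 2 - b ^ 2), Real.sqrt_pos.2 hc2, Real.sq_sqrt hc2.le⟩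
  obtain ⟨x0, hx, hbx⟩ : ∃ x0 : ℝ, 0 < x0 ∧ b = c * Real.sinh x0 := by
    refine ⟨Real.arsinh (b / c), Real.arsinh_pos_iff.2 (by positivity), ?_⟩
    rw [Real.sinh_arsinh]
    field_simp
  have hax : a = c * Real.cosh x0 := by
    have h1 : a ^ 2 = (c * Real.cosh x0) ^ 2 := by
      have h2 := Real.cosh_sq x0
      rw [mul_pow, h2, mul_add, ← mul_pow, ← hbx, mul_one, hcc]
      ring
    have h3 : 0 < c * Real.cosh x0 := mul_pos hc (Real.cosh_pos x0)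
    exact (sq_eq_sq₀ ha.le h3.le).1 h1
  obtain ⟨ξ1, t1, r, δ, hr, hδ, h1, h2, hPhi, hWc, hWs⟩ := box c x0 hc hx
  obtain ⟨S, hSm, hSv, hSsub, hS⟩ := geom a b c x0 ξ1 t1 r hc hx hax hbx hr h1 h2
  obtain ⟨Λe, hΛe⟩ := sign_even c x0 ξ1 t1 r δ hc hx hr hδ h1 h2 hPhi hWc
  obtain ⟨Λo, hΛo⟩ := sign_odd c x0 ξ1 t1 r δ hc hx hr hδ h1 h2 hPhi hWs
  obtain ⟨Λx, hΛx⟩ := excl c x0 hc hx
  refine ⟨S, hSm, hSv, hSsub, max Λx (max Λe Λo), fun σ hσ u hu hlap hbd => ?_⟩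
  have hσx : Λx ≤ σ := (le_max_left _ _).trans hσ
  have hσe : Λe ≤ σ := ((le_max_left _ _).trans (le_max_right _ _)).trans hσ
  have hσo : Λo ≤ σ := ((le_max_right _ _).trans (le_max_right _ _)).trans hσ
  obtain ⟨fe, fe', fo, fo', hfe'c, hfo'c, hfep, hfop, hfed, hfod, hfee, hfoo, hbe, hbo, hser⟩ :=
    pde_main a b c x0 σ hc hx hax hbx u hu hlap hbd
  obtain ⟨Ge, hSe, hGe0, hGeπ⟩ := mkSol_even c x0 σ hc hx fe fe' hfe'c hfep hfed hfee hbe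
  obtain ⟨Go, hSo, hfo0, hfoπ⟩ := mkSol_odd c x0 σ hc hx fo fo' hfo'c hfop hfod hfoo hbo
  have htransfer : ((∀ ξ ∈ Set.Icc (ξ1 - r) (ξ1 + r), ∀ t ∈ Set.Icc (t1 - r) (t1 + r),
        0 ≤ u (c * Real.cosh ξ * Real.cos t, c * Real.sinh ξ * Real.sin t)) ∨
      (∀ ξ ∈ Set.Icc (ξ1 - r) (ξ1 + r), ∀ t ∈ Set.Icc (t1 - r) (t1 + r),
        u (c * Real.cosh ξ * Real.cos t, c * Real.sinh ξ * Real.sin t) ≤ 0)) →
      (∀ x ∈ S, 0 ≤ u x) ∨ (∀ x ∈ S, u x ≤ 0) := by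
    rintro (h | h)
    · left
      intro x hx'
      obtain ⟨ξ, hξ, t, ht, rfl⟩ := hS x hx'
      exact h ξ hξ t ht
    · right
      intro x hx'
      obtain ⟨ξ, hξ, t, ht, rfl⟩ := hS x hx'
      exact h ξ hξ t ht
  apply htransfer
  rcases hΛx σ hσx fe fe' Ge fo fo' Go hSe hGe0 hGeπ hSo hfo0 hfoπ with h0 | h0
  · refine hΛo σ hσo fo fo' Go hSo hfo0 hfoπ
      (fun ξ t => u (c * Real.cosh ξ * Real.cos t, c * Real.sinh ξ * Real.sin t)) ?_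
    intro ξ hξ t
    have := hser ξ hξ t
    simp only [rc_zero_of h0, zero_mul, zero_add] at this
    exact this
  · refine hΛe σ hσe fe fe' Ge hSe hGe0 hGeπ
      (fun ξ t => u (c * Real.cosh ξ * Real.cos t, c * Real.sinh ξ * Real.sin t)) ?_
    intro ξ hξ t
    have := hser ξ hξ t
    simp only [rc_zero_of h0, zero_mul, add_zero] at this
    exact this

end

end Pool.Agent.Helper482.Stk.M_e7
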